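import Pool.Agent.Helper72.PT.Defs

/-! # PT-Descent

Descent of the root group from the algebraically closed field to the finite field.

Plan. `f = Matrix.SpecialLinearGroup.map (algebraMap F K) : SL2 F →* SL2 K` is injective; `closure (f '' S) = (closure S).map f`
(`MonoidHom.map_closure`), and `g ∈ Words (f '' S) n` iff `g = f g'` with `g' ∈ Words S n` (map lists back; `map_mem_words` with
`ℓ = 1` for one direction). For `x = 1 ∈ Eu` the matrix `1 + vecMulVec w (hat w)` is the image of a matrix over `F`, so all the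
products `w i * hat w j` lie in (the image of) `F`. Choose `i, j` with `w i * hat w j ≠ 0` (`hat w ≠ 0` as `w ≠ 0`): then
`vecMulVec w (hat w)` is the image of the rank one matrix `vecMulVec v ψ` with `v i' = w i' * hat w j` and
`ψ j' = w i * hat w j' / (w i * hat w j)` (elements of `F`). `ψ ⬝ᵥ v = 0` because `hat w ⬝ᵥ w = om w w = 0`.
If `x ∈ Eu` then `1 + x • vecMulVec w (hat w)` is in the image of `closure S`, so `x * (v i ψ j) ∈ F`, so `x` lies in the image of `F`.
`EF = Eu.comap (algebraMap F K)`, and `Eu` = image of `EF`; so `Nat.card EF = Nat.card Eu`. The equivalence and the words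
descend by injectivity of `f` (and of `algebraMap` on matrices).
-/

namespace Pool.Agent.Helper72.PT

open Matrix Module Pool.Agent.Helper72.TV

private theorem fmap_apply {F K : Type*} [Field F] [Field K] [Algebra F K] (g : SL2 F)
    (i j : Fin 2) :
    ((Matrix.SpecialLinearGroup.map (algebraMap F K) g : SL2 K) : Matrix (Fin 2) (Fin 2) K) i j =
      algebraMap F K ((g : Matrix (Fin 2) (Fin 2) F) i j) := by
  rw [Matrix.SpecialLinearGroup.map_apply_coe]
  rfl

private theorem fmap_inj {F K : Type*} [Field F] [Field K] [Algebra F K] :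
    Function.Injective (Matrix.SpecialLinearGroup.map (n := Fin 2) (algebraMap F K)) := by
  intro g h hgh
  apply Matrix.SpecialLinearGroup.ext
  intro i j
  apply (algebraMap F K).injective
  have h1 : ((Matrix.SpecialLinearGroup.map (algebraMap F K) g : SL2 K) :
      Matrix (Fin 2) (Fin 2) K) i j =
      ((Matrix.SpecialLinearGroup.map (algebraMap F K) h : SL2 K) :
      Matrix (Fin 2) (Fin 2) K) i j := by rw [hgh]
  rw [fmap_apply, fmap_apply] at h1
  exact h1

private theorem words_image {G H : Type*} [Group G] [Group H] (f : H →* G) (S : Set H) (n : ℕ) :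
    Words (f '' S) n = f '' (Words S n) := by
  apply Set.Subset.antisymm
  · rintro g ⟨l, hl, h1, rfl⟩
    have key : ∀ l : List G, (∀ x ∈ l, x ∈ f '' S ∨ x⁻¹ ∈ f '' S) →
        ∃ m : List H, m.length = l.length ∧ (∀ x ∈ m, x ∈ S ∨ x⁻¹ ∈ S) ∧ f m.prod = l.prod := by
      intro l
      induction l with
      | nil =>
        intro _
        exact ⟨[], rfl, by simp, by simp⟩
      | cons a l ih =>
        intro h
        obtain ⟨m, hm, h2, h3⟩ := ih (fun x hx => h x (by simp [hx]))
        rcases h a (by simp) with ⟨b, hb, hba⟩ | ⟨b, hb, hba⟩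
        · refine ⟨b :: m, by simp [hm], ?_, ?_⟩
          · intro x hx
            rw [List.mem_cons] at hx
            rcases hx with rfl | hx
            · exact Or.inl hb
            · exact h2 x hx
          · rw [List.prod_cons, List.prod_cons, map_mul, h3, hba]
        · refine ⟨b⁻¹ :: m, by simp [hm], ?_, ?_⟩
          · intro x hx
            rw [List.mem_cons] at hx
            rcases hx with rfl | hx
            · right
              rw [inv_inv]
              exact hb
            · exact h2 x hx
          · rw [List.prod_cons, List.prod_cons, map_mul, h3, map_inv, hba, inv_inv]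
    obtain ⟨m, hm, h2, h3⟩ := key l h1
    exact ⟨m.prod, ⟨m, by omega, h2, rfl⟩, h3⟩
  · rintro _ ⟨g, hg, rfl⟩
    have h := map_mem_words (S := f '' S) f (ℓ := 1)
      (fun z hz => mem_words_one (Set.mem_image_of_mem f hz)) hg
    rwa [mul_one] at h

private theorem closure_image {G H : Type*} [Group G] [Group H] (f : H →* G) (S : Set H) :
    Subgroup.closure (f '' S) = (Subgroup.closure S).map f := (MonoidHom.map_closure f S).symm

theorem descent {F K : Type*} [Field F] [Field K] [Algebra F K] (S : Set (SL2 F))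
    (w : Fin 2 → K) (hw : w ≠ 0) (Eu : Subfield K)
    (hiff : ∀ x : K, (∃ g ∈ Subgroup.closure
        ((Matrix.SpecialLinearGroup.map (algebraMap F K)) '' S : Set (SL2 K)),
        (g : Matrix (Fin 2) (Fin 2) K) = 1 + x • Matrix.vecMulVec w (hat w)) ↔ x ∈ Eu)
    (n : ℕ)
    (hwords : ∀ x ∈ Eu, ∃ g ∈ Words
        ((Matrix.SpecialLinearGroup.map (algebraMap F K)) '' S : Set (SL2 K)) n,
        (g : Matrix (Fin 2) (Fin 2) K) = 1 + x • Matrix.vecMulVec w (hat w)) :
    ∃ (v ψ : Fin 2 → F) (EF : Subfield F), v ≠ 0 ∧ ψ ≠ 0 ∧ ψ ⬝ᵥ v = 0 ∧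
      Nat.card EF = Nat.card Eu ∧
      (∀ x : F, (∃ g ∈ Subgroup.closure S, (g : Matrix (Fin 2) (Fin 2) F) =
        1 + x • Matrix.vecMulVec v ψ) ↔ x ∈ EF) ∧
      (∀ x ∈ EF, ∃ g ∈ Words S n, (g : Matrix (Fin 2) (Fin 2) F) =
        1 + x • Matrix.vecMulVec v ψ) := by
  have hinj := (algebraMap F K).injective
  -- image matrices
  have himg : ∀ x : K, x ∈ Eu → ∃ m : Matrix (Fin 2) (Fin 2) F, ∀ i j,
      algebraMap F K (m i j) = x * (w i * hat w j) := by
    intro x hx
    obtain ⟨g, hg, hgx⟩ := (hiff x).mpr hx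
    rw [closure_image] at hg
    obtain ⟨g0, _, hg0⟩ := Subgroup.mem_map.mp hg
    refine ⟨(g0 : Matrix (Fin 2) (Fin 2) F) - 1, ?_⟩
    intro i j
    have h1 : ((g : SL2 K) : Matrix (Fin 2) (Fin 2) K) i j =
        (1 + x • Matrix.vecMulVec w (hat w)) i j := by rw [hgx]
    rw [← hg0, fmap_apply] at h1
    rw [Matrix.sub_apply, map_sub, h1, Matrix.add_apply, Matrix.smul_apply, Matrix.vecMulVec_apply,
      smul_eq_mul]
    have h2 : algebraMap F K ((1 : Matrix (Fin 2) (Fin 2) F) i j) =
        (1 : Matrix (Fin 2) (Fin 2) K) i j := by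
      rw [Matrix.one_apply, Matrix.one_apply]
      split_ifs
      · exact map_one _
      · exact map_zero _
    rw [h2]
    ring
  obtain ⟨m, hm⟩ := himg 1 Eu.one_mem
  obtain ⟨i, j, hij⟩ : ∃ i j : Fin 2, w i * hat w j ≠ 0 := by
    by_cases h0 : w 0 = 0
    · have h1 : w 1 ≠ 0 := by
        intro h1
        apply hw
        ext i
        fin_cases i
        · exact h0
        · exact h1
      refine ⟨1, 0, ?_⟩
      have h2 : hat w 0 = -(w 1) := rfl
      rw [h2]
      exact mul_ne_zero h1 (neg_ne_zero.mpr h1)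
    · refine ⟨0, 1, ?_⟩
      have h2 : hat w 1 = w 0 := rfl
      rw [h2]
      exact mul_ne_zero h0 h0
  have hwi : w i ≠ 0 := left_ne_zero_of_mul hij
  have hwj : hat w j ≠ 0 := right_ne_zero_of_mul hij
  have hmij : m i j ≠ 0 := by
    intro h
    apply hij
    have h1 := hm i j
    rw [h, map_zero, one_mul] at h1
    exact h1.symm
  have hvψ : ∀ a b : Fin 2, algebraMap F K (m a j * (m i b / m i j)) = w a * hat w b := by
    intro a b
    rw [map_mul, map_div₀, hm, hm, hm, one_mul, one_mul, one_mul]
    field_simp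
  -- the key translation
  have htrans : ∀ (g : SL2 F) (x : F),
      ((Matrix.SpecialLinearGroup.map (algebraMap F K) g : SL2 K) : Matrix (Fin 2) (Fin 2) K) =
        1 + (algebraMap F K x) • Matrix.vecMulVec w (hat w) ↔
      (g : Matrix (Fin 2) (Fin 2) F) =
        1 + x • Matrix.vecMulVec (fun a => m a j) (fun b => m i b / m i j) := by
    intro g x
    have h2 : ∀ a b : Fin 2, algebraMap F K
        ((1 + x • Matrix.vecMulVec (fun a => m a j) (fun b => m i b / m i j) :
          Matrix (Fin 2) (Fin 2) F) a b) =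
        (1 + (algebraMap F K x) • Matrix.vecMulVec w (hat w) :
          Matrix (Fin 2) (Fin 2) K) a b := by
      intro a b
      rw [Matrix.add_apply, Matrix.add_apply, Matrix.smul_apply, Matrix.smul_apply,
        Matrix.vecMulVec_apply, Matrix.vecMulVec_apply, smul_eq_mul, smul_eq_mul, map_add, map_mul,
        hvψ]
      congr 1
      rw [Matrix.one_apply, Matrix.one_apply]
      split_ifs
      · exact map_one _
      · exact map_zero _
    constructor
    · intro h
      ext a b
      apply hinj
      rw [h2, ← h, fmap_apply]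
    · intro h
      ext a b
      rw [fmap_apply, h, h2]
  have hsurj : ∀ x ∈ Eu, ∃ y : F, algebraMap F K y = x := by
    intro x hx
    obtain ⟨m', hm'⟩ := himg x hx
    refine ⟨m' i j / m i j, ?_⟩
    rw [map_div₀, hm', hm, one_mul]
    field_simp
  refine ⟨fun a => m a j, fun b => m i b / m i j, Eu.comap (algebraMap F K), ?_, ?_, ?_, ?_, ?_, ?_⟩
  · intro h
    exact hmij (congrFun h i)
  · intro h
    have h1 := congrFun h j
    simp only [Pi.zero_apply] at h1
    rw [div_self hmij] at h1
    exact one_ne_zero h1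
  · apply hinj
    rw [map_zero, dotProduct, Fin.sum_univ_two, map_add, mul_comm (m i 0 / m i j),
      mul_comm (m i 1 / m i j), hvψ, hvψ]
    have h0 : hat w 0 = -(w 1) := rfl
    have h1 : hat w 1 = w 0 := rfl
    rw [h0, h1]
    ring
  · refine Nat.card_congr ⟨fun x => ⟨algebraMap F K x.1, x.2⟩, fun x => ⟨(hsurj x.1 x.2).choose, ?_⟩,
      ?_, ?_⟩
    · change algebraMap F K _ ∈ Eu
      rw [(hsurj x.1 x.2).choose_spec]
      exact x.2
    · intro x
      apply Subtype.ext
      apply hinj
      exact (hsurj (algebraMap F K x.1) x.2).choose_spec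
    · intro x
      apply Subtype.ext
      exact (hsurj x.1 x.2).choose_spec
  · intro x
    constructor
    · rintro ⟨g, hg, hgx⟩
      change algebraMap F K x ∈ Eu
      rw [← hiff]
      refine ⟨Matrix.SpecialLinearGroup.map (algebraMap F K) g, ?_, (htrans g x).mpr hgx⟩
      rw [closure_image]
      exact Subgroup.mem_map_of_mem _ hg
    · intro hx
      have hx' : algebraMap F K x ∈ Eu := hx
      rw [← hiff] at hx'
      obtain ⟨g, hg, hgx⟩ := hx'
      rw [closure_image] at hg
      obtain ⟨g0, hg0, rfl⟩ := Subgroup.mem_map.mp hg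
      exact ⟨g0, hg0, (htrans g0 x).mp hgx⟩
  · intro x hx
    obtain ⟨g, hg, hgx⟩ := hwords (algebraMap F K x) hx
    rw [words_image] at hg
    obtain ⟨g0, hg0, rfl⟩ := hg
    exact ⟨g0, hg0, (htrans g0 x).mp hgx⟩

/-- the map to the larger field preserves balls, group order and finiteness -/
theorem ball_map {F K : Type*} [Field F] [Field K] [Algebra F K] (S : Set (SL2 F)) (n : ℕ) :
    ball ((Matrix.SpecialLinearGroup.map (algebraMap F K)) '' S : Set (SL2 K)) n = ball S n ∧
    Nat.card (Subgroup.closure
      ((Matrix.SpecialLinearGroup.map (algebraMap F K)) '' S : Set (SL2 K))) =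
      Nat.card (Subgroup.closure S) := by
  constructor
  · unfold ball
    rw [words_image, Set.ncard_image_of_injective _ fmap_inj]
  · rw [closure_image]
    exact Nat.card_congr (Subgroup.equivMapOfInjective _ _ fmap_inj).symm.toEquiv

end Pool.Agent.Helper72.PT
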