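import Pool.Agent.Helper72.TV.Escape

/-! # PT-EscProd

Escape for products of matrix coefficients.

Plan. `TV.escape` is proved and landed. Let `V` be the space of all functions `G → K` and let `ρ'` be the
right translation representation on `V`: `(ρ' h f) g = f (g * h)`. For each `i` let
`V i = span {g ↦ ψ i (ρ g y) | y ∈ W}` = range of the linear map `W → V`, `y ↦ (g ↦ ψ i (ρ g y))`, so
`finrank (V i) ≤ D = finrank K W`, and `V i` is invariant under `ρ' h` (`ψ i (ρ (g h) y) = ψ i (ρ g (ρ h y))`).
Let `P N` = span of all products `∏ i, f i`, `f i ∈ V i`: it is invariant under `ρ' h` and is spanned by the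
products of elements of bases (or spanning families of size `D`) of the `V i`, so
`finrank (P N) ≤ D ^ N` (e.g. induction on `N`: the product `A * B` of two finite dimensional subspaces of the
commutative algebra `G → K` has finrank `≤ finrank A * finrank B`, `Submodule.mul`; invariance under the
algebra automorphisms `ρ' h`; `Submodule.map_mul`). Apply `TV.escape` to the restriction of `ρ'` to `P N`,
the vector `x = (g ↦ ∏ i, ψ i (ρ g (x i)))` and the functional `ψ f = f 1`:
`ψ (ρ' g x) = x (1 * g) = ∏ i, ψ i (ρ g (x i))`. Finally `words_mono` and `finrank (P N) ≤ D ^ N`.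
(Alternative: tensor powers `PiTensorProduct`.)
-/

namespace Pool.Agent.Helper72.PT

open Matrix Module Pool.Agent.Helper72.TV

private noncomputable def prodFun {K G W : Type*} [Field K] [Group G] [AddCommGroup W] [Module K W]
    (ρ : G →* Module.End K W) {N : ℕ} (ψ : Fin N → (W →ₗ[K] K)) (y : Fin N → W) : G → K :=
  fun g => ∏ i, ψ i (ρ g (y i))

private theorem prodFun_mem {K G W : Type*} [Field K] [Group G] [AddCommGroup W] [Module K W]
    (ρ : G →* Module.End K W) {N D : ℕ} (b : Basis (Fin D) K W)
    (ψ : Fin N → (W →ₗ[K] K)) (y : Fin N → W) :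
    prodFun ρ ψ y ∈ Submodule.span K
      (Set.range fun s : Fin N → Fin D => prodFun ρ ψ (fun i => b (s i))) := by
  classical
  have h : prodFun ρ ψ y = ∑ s : Fin N → Fin D,
      (∏ i, b.repr (y i) (s i)) • prodFun ρ ψ (fun i => b (s i)) := by
    funext g
    have h1 : ∀ i, ψ i (ρ g (y i)) = ∑ j, b.repr (y i) j * ψ i (ρ g (b j)) := by
      intro i
      conv_lhs => rw [← b.sum_repr (y i)]
      rw [map_sum, map_sum]
      refine Finset.sum_congr rfl fun j _ => ?_
      rw [map_smul, map_smul, smul_eq_mul]
    rw [Finset.sum_apply]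
    have h2 : prodFun ρ ψ y g = ∏ i, ∑ j, b.repr (y i) j * ψ i (ρ g (b j)) := by
      unfold prodFun
      exact Finset.prod_congr rfl fun i _ => h1 i
    rw [h2, Finset.prod_univ_sum, Fintype.piFinset_univ]
    refine Finset.sum_congr rfl fun s _ => ?_
    rw [Pi.smul_apply, smul_eq_mul, Finset.prod_mul_distrib]
    rfl
  rw [h]
  exact Submodule.sum_mem _ fun s _ => Submodule.smul_mem _ _ (Submodule.subset_span ⟨s, rfl⟩)

theorem escProd {K G W : Type*} [Field K] [Group G] [AddCommGroup W] [Module K W]
    [FiniteDimensional K W] (ρ : G →* Module.End K W) (S : Set G) (N : ℕ)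
    (x : Fin N → W) (ψ : Fin N → (W →ₗ[K] K))
    (g : G) (hg : g ∈ Subgroup.closure S) (h : ∏ i, ψ i (ρ g (x i)) ≠ 0) :
    ∃ w ∈ Words S (Module.finrank K W ^ N), ∏ i, ψ i (ρ w (x i)) ≠ 0 := by
  classical
  let b := Module.finBasis K W
  let P : Submodule K (G → K) := Submodule.span K
      (Set.range fun s : Fin N → Fin (Module.finrank K W) => prodFun ρ ψ (fun i => b (s i)))
  have hP : ∀ y : Fin N → W, prodFun ρ ψ y ∈ P := fun y => prodFun_mem ρ b ψ y
  have hfin : FiniteDimensional K P :=
    FiniteDimensional.span_of_finite K (Set.finite_range _)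
  have hrank : Module.finrank K P ≤ Module.finrank K W ^ N := by
    have h1 := finrank_range_le_card (R := K)
      (fun s : Fin N → Fin (Module.finrank K W) => prodFun ρ ψ (fun i => b (s i)))
    rw [Fintype.card_fun, Fintype.card_fin, Fintype.card_fin] at h1
    exact h1
  let T : G → ((G → K) →ₗ[K] (G → K)) := fun a => LinearMap.funLeft K K (fun g => g * a)
  have hT : ∀ a, ∀ f ∈ P, T a f ∈ P := by
    intro a f hf
    refine Submodule.span_induction (p := fun f _ => T a f ∈ P) ?_ ?_ ?_ ?_ hf
    · rintro f ⟨s, rfl⟩
      have h1 : T a (prodFun ρ ψ (fun i => b (s i))) =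
          prodFun ρ ψ (fun i => ρ a (b (s i))) := by
        funext g
        simp only [T, LinearMap.funLeft_apply, prodFun]
        refine Finset.prod_congr rfl fun i _ => ?_
        rw [map_mul, Module.End.mul_apply]
      show T a (prodFun ρ ψ (fun i => b (s i))) ∈ P
      rw [h1]
      exact hP _
    · rw [map_zero]
      exact Submodule.zero_mem _
    · intro u v _ _ hu hv
      rw [map_add]
      exact Submodule.add_mem _ hu hv
    · intro c u _ hu
      rw [map_smul]
      exact Submodule.smul_mem _ _ hu
  let ρ' : G →* Module.End K P :=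
    { toFun := fun a => (T a).restrict (hT a)
      map_one' := by
        apply LinearMap.ext
        intro f
        apply Subtype.ext
        funext g
        show (f : G → K) (g * 1) = (f : G → K) g
        rw [mul_one]
      map_mul' := by
        intro a a'
        apply LinearMap.ext
        intro f
        apply Subtype.ext
        funext g
        show (f : G → K) (g * (a * a')) = (f : G → K) (g * a * a')
        rw [mul_assoc] }
  let X : P := ⟨prodFun ρ ψ x, hP x⟩
  let ev : P →ₗ[K] K := (LinearMap.proj (1 : G)).comp P.subtype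
  have hev : ∀ a : G, ev (ρ' a X) = ∏ i, ψ i (ρ a (x i)) := by
    intro a
    show prodFun ρ ψ x (1 * a) = _
    rw [one_mul]
    rfl
  obtain ⟨w, hw, hne⟩ := escape ρ' S X ev g hg (by rw [hev]; exact h)
  refine ⟨w, words_mono hrank hw, ?_⟩
  rw [hev] at hne
  exact hne

end Pool.Agent.Helper72.PT
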