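import Pool.Agent.Helper72.PT.Defs
import Pool.Agent.Helper72.PT.EscProd

/-! # PT-EscS

From the escape property of the group to short words.

Plan. `escProd` may be still sorried. Given `w, w' ≠ 0`, the hypothesis gives `g ∈ closure S` (`words_subgroup`) with the four
numbers `om (act g w_i) w_j` nonzero. Apply `escProd` to the standard representation of `SL2 K` on `Fin 2 → K` (finrank 2;
`act g` as a linear map) with `N = 4`, vectors `![w, w, w', w']` and functionals `![om · w, om · w', om · w, om · w']`:
the product is nonzero, and `2 ^ 4 = 16`.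
-/

namespace Pool.Agent.Helper72.PT

open Matrix Module Pool.Agent.Helper72.TV

private def escL {K : Type*} [Field K] (w : Fin 2 → K) : (Fin 2 → K) →ₗ[K] K where
  toFun := fun y => om y w
  map_add' := by
    intro x y
    unfold om
    simp only [Pi.add_apply]
    ring
  map_smul' := by
    intro c x
    rw [om_smul_left]
    rfl

private def escRho {K : Type*} [Field K] : SL2 K →* Module.End K (Fin 2 → K) where
  toFun := fun g => Matrix.mulVecLin (g : Matrix (Fin 2) (Fin 2) K)
  map_one' := by
    rw [Matrix.SpecialLinearGroup.coe_one, Matrix.mulVecLin_one]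
    rfl
  map_mul' := by
    intro g h
    rw [Matrix.SpecialLinearGroup.coe_mul, Matrix.mulVecLin_mul]
    rfl

theorem escS {K : Type*} [Field K] (S : Set (SL2 K))
    (h : Esc ((Subgroup.closure S : Subgroup (SL2 K)) : Set (SL2 K)) 1) : Esc S 16 := by
  intro w w' hw hw'
  have hsub : Words ((Subgroup.closure S : Subgroup (SL2 K)) : Set (SL2 K)) 1 =
      ((Subgroup.closure S : Subgroup (SL2 K)) : Set (SL2 K)) := words_subgroup _ le_rfl
  obtain ⟨g, hg, h1, h2, h3, h4⟩ := h w w' hw hw'
  rw [hsub] at hg
  have hprod : ∀ g : SL2 K, ∏ i, (![escL w, escL w', escL w, escL w'] : Fin 4 → _) i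
      (escRho g ((![w, w, w', w'] : Fin 4 → (Fin 2 → K)) i)) =
      om (act g w) w * om (act g w) w' * om (act g w') w * om (act g w') w' := by
    intro g
    rw [Fin.prod_univ_four]
    rfl
  obtain ⟨v, hv, hne⟩ := escProd (escRho (K := K)) S 4 ![w, w, w', w']
    ![escL w, escL w', escL w, escL w'] g hg (by
      rw [hprod]
      exact mul_ne_zero (mul_ne_zero (mul_ne_zero h1 h2) h3) h4)
  rw [hprod] at hne
  have hfr : Module.finrank K (Fin 2 → K) ^ 4 = 16 := by
    rw [Module.finrank_fin_fun]
    norm_num
  rw [hfr] at hv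
  have a1 := right_ne_zero_of_mul hne
  have b1 := left_ne_zero_of_mul hne
  have a2 := right_ne_zero_of_mul b1
  have b2 := left_ne_zero_of_mul b1
  exact ⟨v, hv, left_ne_zero_of_mul b2, right_ne_zero_of_mul b2, a2, a1⟩

end Pool.Agent.Helper72.PT
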