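import Pool.Agent.Helper72.PT.Defs

/-! # PT-BallLin

Word balls grow at least linearly until they fill the group.
-/

namespace Pool.Agent.Helper72.PT

open Matrix Module Pool.Agent.Helper72.TV

private theorem ballLin_stab {G : Type*} [Group G] {S : Set G} {n : ℕ}
    (h : Words S (n + 1) ⊆ Words S n) : ∀ l : List G, (∀ x ∈ l, x ∈ S ∨ x⁻¹ ∈ S) → l.prod ∈ Words S n := by
  intro l
  induction l with
  | nil =>
    intro _
    simpa using one_mem_words (S := S) n
  | cons a l ih =>
    intro hl
    rw [List.prod_cons]
    have ha : a ∈ Words S 1 := ⟨[a], by simp, by simpa using hl a (by simp), by simp⟩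
    have h1 := mul_mem_words ha (ih fun x hx => hl x (by simp [hx]))
    rw [add_comm] at h1
    exact h h1

theorem ballLin {K : Type*} [Field K] (S : Set (SL2 K))
    (hfin : (Subgroup.closure S : Set (SL2 K)).Finite) (n : ℕ) :
    min (n + 1) (Nat.card (Subgroup.closure S)) ≤ ball S n := by
  induction n with
  | zero => exact (min_le_left _ _).trans (one_le_ball hfin 0)
  | succ n ih =>
    by_cases h : Words S (n + 1) ⊆ Words S n
    · have h1 : (Subgroup.closure S : Set (SL2 K)) ⊆ Words S (n + 1) := by
        intro g hg
        obtain ⟨L, l, -, hl, rfl⟩ := exists_words_of_mem_closure hg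
        exact words_mono (Nat.le_succ n) (ballLin_stab h l hl)
      exact (min_le_right _ _).trans (Set.ncard_le_ncard h1 (words_finite hfin (n + 1)))
    · have h1 : Words S n ⊂ Words S (n + 1) := ⟨words_mono (Nat.le_succ n), h⟩
      have h2 : ball S n < ball S (n + 1) := Set.ncard_lt_ncard h1 (words_finite hfin (n + 1))
      have h3 : min (n + 1 + 1) (Nat.card (Subgroup.closure S)) ≤
          min (n + 1) (Nat.card (Subgroup.closure S)) + 1 := by omega
      omega

end Pool.Agent.Helper72.PT
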