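import Pool.Agent.Helper72.PT.Defs

/-! # PT-ManyVals

`tr (a g a g⁻¹)` takes many values.

Plan. `a` is not scalar: `a ≠ ±1` as matrices and `det a = 1`. Choose `g₁ ∈ SL2 F` such that `a' = g₁⁻¹ a g₁` has `a' 1 0 ≠ 0` (if
`a 1 0 ≠ 0` take `g₁ = 1`; if `a 1 0 = 0, a 0 1 ≠ 0` conjugate by `!![0, 1; -1, 0]`; if both vanish, `a = diag(α, α⁻¹)` with `α ≠ α⁻¹`,
conjugate by `vv 1`). For `x : F` and `g = g₁ * uu x * g₁⁻¹`: `tr (a g a g⁻¹) = tr (a' * uu x * a' * (uu x)⁻¹)`, and a direct computation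
gives `tr (a' uu(x) a' uu(-x)) = tr (a'^2) - (a' 1 0)^2 x²`. The map `x ↦ x²` is at most 2-to-1, so this takes at least `|F| / 2 > N`
values, one of them is not in `Ω`.
-/

namespace Pool.Agent.Helper72.PT

open Matrix Module Pool.Agent.Helper72.TV

private lemma exists_conj {F : Type*} [Field F] (a : SL2 F)
    (h1 : (a : Matrix (Fin 2) (Fin 2) F) ≠ 1) (h2 : (a : Matrix (Fin 2) (Fin 2) F) ≠ -1) :
    ∃ g : SL2 F, ((g⁻¹ * a * g : SL2 F) : Matrix (Fin 2) (Fin 2) F) 1 0 ≠ 0 := by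
  by_cases h10 : (a : Matrix (Fin 2) (Fin 2) F) 1 0 = 0
  · by_cases h01 : (a : Matrix (Fin 2) (Fin 2) F) 0 1 = 0
    · refine ⟨vv 1, ?_⟩
      rw [Matrix.SpecialLinearGroup.coe_mul, Matrix.SpecialLinearGroup.coe_mul, inv_coe, vv_coe,
        Matrix.eta_fin_two (a : Matrix (Fin 2) (Fin 2) F)]
      have hd := det_eq a
      rw [h01, h10, mul_zero, sub_zero] at hd
      intro h
      simp [Matrix.mul_fin_two, h10, h01] at h
      have h3 : (a : Matrix (Fin 2) (Fin 2) F) 1 1 = (a : Matrix (Fin 2) (Fin 2) F) 0 0 := by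
        linear_combination h
      rw [h3] at hd
      have h4 : ((a : Matrix (Fin 2) (Fin 2) F) 0 0 - 1) * ((a : Matrix (Fin 2) (Fin 2) F) 0 0 + 1) =
          0 := by linear_combination hd
      rcases mul_eq_zero.1 h4 with h5 | h5
      · apply h1
        have h6 : (a : Matrix (Fin 2) (Fin 2) F) 0 0 = 1 := by linear_combination h5
        ext i j
        fin_cases i <;> fin_cases j <;> simp [h10, h01, h3, h6]
      · apply h2
        have h6 : (a : Matrix (Fin 2) (Fin 2) F) 0 0 = -1 := by linear_combination h5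
        ext i j
        fin_cases i <;> fin_cases j <;> simp [h10, h01, h3, h6]
    · refine ⟨⟨!![0, 1; -1, 0], by rw [Matrix.det_fin_two_of]; ring⟩, ?_⟩
      rw [Matrix.SpecialLinearGroup.coe_mul, Matrix.SpecialLinearGroup.coe_mul, inv_coe,
        Matrix.eta_fin_two (a : Matrix (Fin 2) (Fin 2) F)]
      intro h
      simp [Matrix.mul_fin_two] at h
      exact h01 h
  · refine ⟨1, ?_⟩
    rw [inv_one, one_mul, mul_one]
    exact h10

private lemma tr_uu {F : Type*} [Field F] (a : SL2 F) (x : F) :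
    tr (a * (uu x * a * (uu x)⁻¹)) = (a : Matrix (Fin 2) (Fin 2) F) 0 0 ^ 2 +
      (a : Matrix (Fin 2) (Fin 2) F) 1 1 ^ 2 + 2 * (a : Matrix (Fin 2) (Fin 2) F) 0 1 *
      (a : Matrix (Fin 2) (Fin 2) F) 1 0 - (a : Matrix (Fin 2) (Fin 2) F) 1 0 ^ 2 * x ^ 2 := by
  rw [tr_eq, Matrix.SpecialLinearGroup.coe_mul, Matrix.SpecialLinearGroup.coe_mul,
    Matrix.SpecialLinearGroup.coe_mul, inv_coe, uu_coe,
    Matrix.eta_fin_two (a : Matrix (Fin 2) (Fin 2) F)]
  simp [Matrix.mul_fin_two]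
  ring

theorem manyVals {F : Type*} [Field F] [Fintype F] (N : ℕ) (hF : 2 * N + 3 ≤ Fintype.card F)
    (a : SL2 F) (h1 : (a : Matrix (Fin 2) (Fin 2) F) ≠ 1)
    (h2 : (a : Matrix (Fin 2) (Fin 2) F) ≠ -1) (Ω : Finset F) (hΩ : Ω.card ≤ N) :
    ∃ g : SL2 F, tr (a * (g * a * g⁻¹)) ∉ Ω := by
  classical
  obtain ⟨g1, hg1⟩ := exists_conj a h1 h2
  set b : SL2 F := g1⁻¹ * a * g1 with hb
  have hab : a = g1 * b * g1⁻¹ := by rw [hb]; group
  have hkey : ∀ x : F, tr (a * ((g1 * uu x * g1⁻¹) * a * (g1 * uu x * g1⁻¹)⁻¹)) =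
      (b : Matrix (Fin 2) (Fin 2) F) 0 0 ^ 2 +
      (b : Matrix (Fin 2) (Fin 2) F) 1 1 ^ 2 + 2 * (b : Matrix (Fin 2) (Fin 2) F) 0 1 *
      (b : Matrix (Fin 2) (Fin 2) F) 1 0 - (b : Matrix (Fin 2) (Fin 2) F) 1 0 ^ 2 * x ^ 2 := by
    intro x
    rw [← tr_uu, ← tr_conj g1 (b * (uu x * b * (uu x)⁻¹))]
    congr 1
    rw [hab]
    group
  by_contra hc
  push Not at hc
  have hcard : (Finset.univ : Finset F).card ≤ 2 * Ω.card := by
    refine Finset.card_le_mul_card_image_of_maps_to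
      (f := fun x => tr (a * ((g1 * uu x * g1⁻¹) * a * (g1 * uu x * g1⁻¹)⁻¹)))
      (fun x _ => hc _) 2 ?_
    intro ω _
    rcases (Finset.univ.filter fun x : F =>
      tr (a * ((g1 * uu x * g1⁻¹) * a * (g1 * uu x * g1⁻¹)⁻¹)) = ω).eq_empty_or_nonempty
      with h0 | ⟨x0, hx0⟩
    · rw [h0, Finset.card_empty]
      exact Nat.zero_le _
    · have hx0' := (Finset.mem_filter.1 hx0).2
      refine (Finset.card_le_card (t := {x0, -x0}) ?_).trans Finset.card_le_two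
      intro x hx
      have hx' := (Finset.mem_filter.1 hx).2
      rw [hkey] at hx0' hx'
      have h3 : (b : Matrix (Fin 2) (Fin 2) F) 1 0 ^ 2 * ((x - x0) * (x + x0)) = 0 := by
        linear_combination hx0' - hx'
      rcases mul_eq_zero.1 h3 with h4 | h4
      · exact absurd (pow_eq_zero_iff (two_ne_zero) |>.1 h4) hg1
      · rw [Finset.mem_insert, Finset.mem_singleton]
        rcases mul_eq_zero.1 h4 with h5 | h5
        · left; linear_combination h5
        · right; linear_combination h5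
  rw [Finset.card_univ] at hcard
  omega

end Pool.Agent.Helper72.PT
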