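import Pool.Agent.Helper72.PT.Defs

/-! # PT-OrdBad

Elements of small order have traces in a small set.

Plan. Cayley-Hamilton: `g² = z g - 1`, `z = tr g`. Define `s 0 = 0, s 1 = 1, s (j+1) = X * s j - s (j-1)` in `F[X]` (Chebyshev polynomials):
`g^j = (s j)(z) g - (s (j-1))(z)` for `j ≥ 1`, and `s j` is monic of degree `j - 1`. If `g^j = 1` and `g ≠ ±1` (as matrices) then
`(s j)(z) g` is scalar, so `(s j)(z) = 0` (a non scalar matrix; if `g` is scalar then `g = ±1`). `Ω = {2, -2} ∪` the roots of
`s 1, ..., s C`; cardinality `≤ 2 + C * C`. If `g = ±1` then `tr g = ±2`.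
-/

namespace Pool.Agent.Helper72.PT

open Matrix Module Pool.Agent.Helper72.TV

private noncomputable def sp (F : Type) [Field F] : ℕ → Polynomial F
  | 0 => 0
  | 1 => 1
  | (j + 2) => Polynomial.X * sp F (j + 1) - sp F j

private theorem sp_deg (F : Type) [Field F] (j : ℕ) :
    (sp F (j + 1)).degree = (j : WithBot ℕ) ∧ (sp F j).degree < (j : WithBot ℕ) := by
  induction j with
  | zero =>
    constructor
    · show (1 : Polynomial F).degree = _
      rw [Polynomial.degree_one]
      rfl
    · show (0 : Polynomial F).degree < _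
      rw [Polynomial.degree_zero]
      exact WithBot.bot_lt_coe _
  | succ j ih =>
    have h1 : (Polynomial.X * sp F (j + 1)).degree = ((j + 1 : ℕ) : WithBot ℕ) := by
      rw [Polynomial.degree_mul, Polynomial.degree_X, ih.1]
      rw [Nat.cast_add, Nat.cast_one, add_comm]
    have h3 : ((j : ℕ) : WithBot ℕ) < ((j + 1 : ℕ) : WithBot ℕ) := by
      exact_mod_cast Nat.lt_succ_self j
    have h2 : (sp F j).degree < (Polynomial.X * sp F (j + 1)).degree := by
      rw [h1]
      exact ih.2.trans h3
    constructor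
    · show (Polynomial.X * sp F (j + 1) - sp F j).degree = _
      rw [Polynomial.degree_sub_eq_left_of_degree_lt h2, h1]
    · rw [ih.1]
      exact h3

private theorem sp_ne (F : Type) [Field F] (j : ℕ) : sp F (j + 1) ≠ 0 := by
  intro h
  have h1 := (sp_deg F j).1
  rw [h, Polynomial.degree_zero] at h1
  exact absurd h1 (by simp)

private theorem sp_roots (F : Type) [Field F] (j : ℕ) : (sp F (j + 1)).roots.card ≤ j := by
  have h1 := Polynomial.card_roots (sp_ne F j)
  rw [(sp_deg F j).1] at h1
  exact_mod_cast h1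

private theorem sp_pow (F : Type) [Field F] (g : SL2 F) (j : ℕ) :
    (g : Matrix (Fin 2) (Fin 2) F) ^ (j + 1) =
      (Polynomial.eval (tr g) (sp F (j + 1))) • (g : Matrix (Fin 2) (Fin 2) F) -
        (Polynomial.eval (tr g) (sp F j)) • (1 : Matrix (Fin 2) (Fin 2) F) := by
  have hsq : (g : Matrix (Fin 2) (Fin 2) F) * (g : Matrix (Fin 2) (Fin 2) F) =
      (tr g) • (g : Matrix (Fin 2) (Fin 2) F) - (1 : Matrix (Fin 2) (Fin 2) F) := by
    have hd := det_eq g
    have ht := tr_eq g
    ext a b
    fin_cases a <;> fin_cases b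
    · simp [Matrix.mul_apply, Fin.sum_univ_two, ht]
      linear_combination -hd
    · simp [Matrix.mul_apply, Fin.sum_univ_two, ht]
      ring
    · simp [Matrix.mul_apply, Fin.sum_univ_two, ht]
      ring
    · simp [Matrix.mul_apply, Fin.sum_univ_two, ht]
      linear_combination -hd
  induction j with
  | zero =>
    show _ = Polynomial.eval (tr g) (1 : Polynomial F) • _ -
      Polynomial.eval (tr g) (0 : Polynomial F) • _
    rw [Polynomial.eval_one, Polynomial.eval_zero, one_smul, zero_smul, sub_zero, zero_add, pow_one]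
  | succ j ih =>
    have e1 : Polynomial.eval (tr g) (sp F (j + 1 + 1)) =
        tr g * Polynomial.eval (tr g) (sp F (j + 1)) - Polynomial.eval (tr g) (sp F j) := by
      show Polynomial.eval (tr g) (Polynomial.X * sp F (j + 1) - sp F j) = _
      rw [Polynomial.eval_sub, Polynomial.eval_mul, Polynomial.eval_X]
    rw [pow_succ, ih, e1, sub_mul, Matrix.smul_mul, Matrix.smul_mul, hsq, Matrix.one_mul]
    module

theorem ordBad (C : ℕ) : ∃ N : ℕ, ∀ (F : Type) [Field F], ∃ Ω : Finset F, Ω.card ≤ N ∧
    ∀ g : SL2 F, tr g ∉ Ω → ∀ j : ℕ, 1 ≤ j → j ≤ C → g ^ j ≠ 1 := by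
  classical
  refine ⟨C * C + 1 + 1, fun F _ => ?_⟩
  refine ⟨insert 2 (insert (-2) ((Finset.range C).biUnion
    fun i => (sp F (i + 1)).roots.toFinset)), ?_, ?_⟩
  · refine (Finset.card_insert_le _ _).trans ?_
    apply Nat.succ_le_succ
    refine (Finset.card_insert_le _ _).trans ?_
    apply Nat.succ_le_succ
    refine (Finset.card_biUnion_le_card_mul _ _ C ?_).trans ?_
    · intro i hi
      have h1 := Multiset.toFinset_card_le (sp F (i + 1)).roots
      have h2 := sp_roots F i
      have h3 := Finset.mem_range.1 hi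
      omega
    · rw [Finset.card_range]
  · intro g hg j hj hjC hgj
    rw [Finset.mem_insert, Finset.mem_insert, Finset.mem_biUnion] at hg
    push Not at hg
    obtain ⟨hg2, hgm2, hgr⟩ := hg
    obtain ⟨i, rfl⟩ : ∃ i, j = i + 1 := ⟨j - 1, by omega⟩
    have h1 := sp_pow F g i
    have h2 : (g : Matrix (Fin 2) (Fin 2) F) ^ (i + 1) = 1 := by
      rw [← Matrix.SpecialLinearGroup.coe_pow, hgj, Matrix.SpecialLinearGroup.coe_one]
    rw [h2] at h1
    have hne : Polynomial.eval (tr g) (sp F (i + 1)) ≠ 0 := by
      intro h3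
      apply hgr i (Finset.mem_range.2 (by omega))
      rw [Multiset.mem_toFinset, Polynomial.mem_roots (sp_ne F i)]
      exact h3
    have h01 := congrFun (congrFun h1 0) 1
    have h10 := congrFun (congrFun h1 1) 0
    have h00 := congrFun (congrFun h1 0) 0
    have h11 := congrFun (congrFun h1 1) 1
    simp only [Matrix.sub_apply, Matrix.smul_apply, smul_eq_mul, Matrix.one_apply_eq] at h00 h11
    simp only [Matrix.sub_apply, Matrix.smul_apply, smul_eq_mul] at h01 h10
    rw [Matrix.one_apply_ne (by decide), mul_zero, sub_zero] at h01 h10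
    have g01 : (g : Matrix (Fin 2) (Fin 2) F) 0 1 = 0 := by
      rcases mul_eq_zero.1 h01.symm with h | h
      · exact absurd h hne
      · exact h
    have g00 : (g : Matrix (Fin 2) (Fin 2) F) 0 0 = (g : Matrix (Fin 2) (Fin 2) F) 1 1 := by
      apply mul_left_cancel₀ hne
      linear_combination h11 - h00
    have hd := det_eq g
    have ht := tr_eq g
    rw [g01, zero_mul, sub_zero, g00] at hd
    rw [g00] at ht
    have h5 : ((g : Matrix (Fin 2) (Fin 2) F) 1 1 - 1) *
        ((g : Matrix (Fin 2) (Fin 2) F) 1 1 + 1) = 0 := by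
      linear_combination hd
    rcases mul_eq_zero.1 h5 with h6 | h6
    · apply hg2
      rw [ht]
      linear_combination 2 * h6
    · apply hgm2
      rw [ht]
      linear_combination 2 * h6

end Pool.Agent.Helper72.PT
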