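import Pool.Agent.Helper72.PT.EscAvoid
import Pool.Agent.Helper72.PT.OrdBad
import Pool.Agent.Helper72.PT.ManyVals

/-! # PT-ChooseW

A short word `w` such that the pair `a, w a w⁻¹` is good.

Plan. Let `N` be the number of `ordBad C`. Given `F, S, a`: `Ω` from
`ordBad`, `Ω' = Ω ∪ {2, -2, tr a ^ 2 - 2}`, `|Ω'| ≤ N + 3`. If `|F| ≥ q₀ := 2 (N + 3) + 3`, `manyVals` gives `g` with
`tr (a * (g * a * g⁻¹)) ∉ Ω'`. `escAvoid` for the representation `ρ g M = g * M * g⁻¹` of `SL2 F` on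
`Matrix (Fin 2) (Fin 2) F` (finrank 4), the vector `a` and the functional `M ↦ trace (a * M)`: there is
`w ∈ Words S (5 ^ (N + 3))` with `tr (a * (w * a * w⁻¹)) ∉ Ω'`. `m = 5 ^ (N + 3)`.
-/

namespace Pool.Agent.Helper72.PT

open Matrix Module Pool.Agent.Helper72.TV

/-- the action of `SL2` on matrices by conjugation -/
private def rhoC (F : Type*) [Field F] :
    SL2 F →* Module.End F (Matrix (Fin 2) (Fin 2) F) where
  toFun g :=
    { toFun := fun M => (g : Matrix (Fin 2) (Fin 2) F) * M *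
        ((g⁻¹ : SL2 F) : Matrix (Fin 2) (Fin 2) F)
      map_add' := fun M M' => by rw [mul_add, add_mul]
      map_smul' := fun c M => by
        rw [Matrix.mul_smul, Matrix.smul_mul]
        rfl }
  map_one' := by
    ext1 M
    change ((1 : SL2 F) : Matrix (Fin 2) (Fin 2) F) * M *
      (((1 : SL2 F)⁻¹ : SL2 F) : Matrix (Fin 2) (Fin 2) F) = M
    rw [inv_one, Matrix.SpecialLinearGroup.coe_one, one_mul, mul_one]
  map_mul' g h := by
    ext1 M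
    change ((g * h : SL2 F) : Matrix (Fin 2) (Fin 2) F) * M *
      (((g * h)⁻¹ : SL2 F) : Matrix (Fin 2) (Fin 2) F) =
      (g : Matrix (Fin 2) (Fin 2) F) * ((h : Matrix (Fin 2) (Fin 2) F) * M *
        ((h⁻¹ : SL2 F) : Matrix (Fin 2) (Fin 2) F)) * ((g⁻¹ : SL2 F) : Matrix (Fin 2) (Fin 2) F)
    rw [_root_.mul_inv_rev, Matrix.SpecialLinearGroup.coe_mul, Matrix.SpecialLinearGroup.coe_mul]
    simp only [mul_assoc]

private def psiC {F : Type*} [Field F] (a : SL2 F) : Matrix (Fin 2) (Fin 2) F →ₗ[F] F :=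
  (Matrix.traceLinearMap (Fin 2) F F).comp
    (LinearMap.mulLeft F (a : Matrix (Fin 2) (Fin 2) F))

private lemma psi_rho {F : Type*} [Field F] (a g : SL2 F) :
    psiC a (rhoC F g (a : Matrix (Fin 2) (Fin 2) F)) = tr (a * (g * a * g⁻¹)) := by
  unfold tr
  rw [Matrix.SpecialLinearGroup.coe_mul, Matrix.SpecialLinearGroup.coe_mul,
    Matrix.SpecialLinearGroup.coe_mul]
  rfl

theorem chooseW (C : ℕ) : ∃ m q₀ : ℕ, ∀ (F : Type) [Field F] [Fintype F], q₀ ≤ Fintype.card F →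
    ∀ (S : Set (SL2 F)), Subgroup.closure S = ⊤ → ∀ a : SL2 F,
    (a : Matrix (Fin 2) (Fin 2) F) ≠ 1 → (a : Matrix (Fin 2) (Fin 2) F) ≠ -1 →
    ∃ w ∈ Words S m, tr (a * (w * a * w⁻¹)) ≠ 2 ∧ tr (a * (w * a * w⁻¹)) ≠ -2 ∧
      tr (a * (w * a * w⁻¹)) ≠ tr a ^ 2 - 2 ∧
      ∀ j : ℕ, 1 ≤ j → j ≤ C → (a * (w * a * w⁻¹)) ^ j ≠ 1 := by
  classical
  obtain ⟨N, hN⟩ := ordBad C
  refine ⟨5 ^ (N + 3), 2 * (N + 3) + 3, ?_⟩
  intro F _ _ hF S hS a h1 h2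
  obtain ⟨Ω, hΩ, hΩ2⟩ := hN F
  set Ω' : Finset F := Ω ∪ {2, -2, tr a ^ 2 - 2} with hΩ'
  have hcard : Ω'.card ≤ N + 3 := by
    refine (Finset.card_union_le _ _).trans ?_
    have h3 : ({2, -2, tr a ^ 2 - 2} : Finset F).card ≤ 3 := Finset.card_le_three
    omega
  obtain ⟨g, hg⟩ := manyVals (N + 3) hF a h1 h2 Ω' hcard
  have hg' : psiC a (rhoC F g (a : Matrix (Fin 2) (Fin 2) F)) ∉ Ω' := by
    rw [psi_rho]
    exact hg
  obtain ⟨w, hw, hw2⟩ := escAvoid (rhoC F) S (N + 3) (a : Matrix (Fin 2) (Fin 2) F) (psiC a) Ω'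
    hcard g (by rw [hS]; exact Subgroup.mem_top g) hg'
  have hfr : Module.finrank F (Matrix (Fin 2) (Fin 2) F) = 4 := by
    rw [Module.finrank_matrix]
    simp
  rw [hfr] at hw
  rw [psi_rho, hΩ', Finset.mem_union, not_or] at hw2
  obtain ⟨hw3, hw4⟩ := hw2
  simp only [Finset.mem_insert, Finset.mem_singleton, not_or] at hw4
  exact ⟨w, hw, hw4.1, hw4.2.1, hw4.2.2, fun j hj hj2 => hΩ2 _ hw3 j hj hj2⟩

end Pool.Agent.Helper72.PT
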