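import Pool.Agent.Helper72.PT.Defs

/-! # PT-CardH

The group generated by `a, b` is contained in the span of `1, a, b, a b` over the trace field.

Plan. `τ₁ = tr a, τ₂ = tr b, z = tr (a b) ∈ E`. `R = {x₀ 1 + x₁ a + x₂ b + x₃ a b | x_i ∈ E}` (matrices) is finite with at most
`|E|^4` elements and closed under left multiplication by `a, b, a⁻¹, b⁻¹`: `a² = τ₁ a - 1`, `b² = τ₂ b - 1` (Cayley-Hamilton),
`b a = -a b + τ₁ b + τ₂ a + (z - τ₁ τ₂)`, `b a b = (b a) b`, `a⁻¹ = τ₁ - a`, `b⁻¹ = τ₂ - b`. Verify the matrix identities with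
`Matrix.ext`, `Fin` cases, using `det = 1` (`det_eq`) and the trace equations. So every element of the closure has its
matrix in `R` (`Subgroup.closure_induction` with left multiplication: `closure_induction_left`, or show
that words stay in `R`). Hence finiteness and the bound (`Set.ncard` of the image of `Fin 4 → E`).
-/

namespace Pool.Agent.Helper72.PT

open Matrix Module Pool.Agent.Helper72.TV

private theorem cardH_sq {F : Type*} [Field F] (a : SL2 F) :
    (a : Matrix (Fin 2) (Fin 2) F) * (a : Matrix (Fin 2) (Fin 2) F) =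
      tr a • (a : Matrix (Fin 2) (Fin 2) F) - 1 := by
  have h := det_eq a
  have ht := tr_eq a
  ext i j
  fin_cases i <;> fin_cases j
  · simp only [Matrix.mul_apply, Fin.sum_univ_two, Matrix.sub_apply, Matrix.smul_apply, smul_eq_mul,
      Fin.zero_eta, Fin.mk_one, Fin.isValue, Matrix.one_apply_eq, ht]
    linear_combination -h
  · simp only [Matrix.mul_apply, Fin.sum_univ_two, Matrix.sub_apply, Matrix.smul_apply, smul_eq_mul,
      Fin.zero_eta, Fin.mk_one, Fin.isValue, ht]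
    rw [Matrix.one_apply_ne (by decide)]
    ring
  · simp only [Matrix.mul_apply, Fin.sum_univ_two, Matrix.sub_apply, Matrix.smul_apply, smul_eq_mul,
      Fin.zero_eta, Fin.mk_one, Fin.isValue, ht]
    rw [Matrix.one_apply_ne (by decide)]
    ring
  · simp only [Matrix.mul_apply, Fin.sum_univ_two, Matrix.sub_apply, Matrix.smul_apply, smul_eq_mul,
      Fin.zero_eta, Fin.mk_one, Fin.isValue, Matrix.one_apply_eq, ht]
    linear_combination -h

private theorem cardH_comm {F : Type*} [Field F] (a b : SL2 F) :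
    (b : Matrix (Fin 2) (Fin 2) F) * (a : Matrix (Fin 2) (Fin 2) F) =
      -((a : Matrix (Fin 2) (Fin 2) F) * (b : Matrix (Fin 2) (Fin 2) F)) +
        tr a • (b : Matrix (Fin 2) (Fin 2) F) + tr b • (a : Matrix (Fin 2) (Fin 2) F) +
        (tr (a * b) - tr a * tr b) • (1 : Matrix (Fin 2) (Fin 2) F) := by
  have h1 := tr_eq a
  have h2 := tr_eq b
  have h3 := tr_eq (a * b)
  rw [Matrix.SpecialLinearGroup.coe_mul] at h3
  simp only [Matrix.mul_apply, Fin.sum_univ_two, Fin.isValue] at h3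
  ext i j
  fin_cases i <;> fin_cases j
  · simp only [Matrix.mul_apply, Fin.sum_univ_two, Matrix.add_apply, Matrix.neg_apply,
      Matrix.smul_apply, smul_eq_mul,
      Fin.zero_eta, Fin.mk_one, Fin.isValue, Matrix.one_apply_eq, h1, h2, h3]
    ring
  · simp only [Matrix.mul_apply, Fin.sum_univ_two, Matrix.add_apply, Matrix.neg_apply,
      Matrix.smul_apply, smul_eq_mul, Fin.zero_eta, Fin.mk_one, Fin.isValue, h1, h2, h3]
    rw [Matrix.one_apply_ne (by decide)]
    ring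
  · simp only [Matrix.mul_apply, Fin.sum_univ_two, Matrix.add_apply, Matrix.neg_apply,
      Matrix.smul_apply, smul_eq_mul, Fin.zero_eta, Fin.mk_one, Fin.isValue, h1, h2, h3]
    rw [Matrix.one_apply_ne (by decide)]
    ring
  · simp only [Matrix.mul_apply, Fin.sum_univ_two, Matrix.add_apply, Matrix.neg_apply,
      Matrix.smul_apply, smul_eq_mul,
      Fin.zero_eta, Fin.mk_one, Fin.isValue, Matrix.one_apply_eq, h1, h2, h3]
    ring

private theorem cardH_inv {F : Type*} [Field F] (a : SL2 F) :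
    ((a⁻¹ : SL2 F) : Matrix (Fin 2) (Fin 2) F) =
      tr a • (1 : Matrix (Fin 2) (Fin 2) F) - (a : Matrix (Fin 2) (Fin 2) F) := by
  have ht := tr_eq a
  rw [inv_coe]
  ext i j
  fin_cases i <;> fin_cases j <;> simp [ht]

/-- the span of `1, A, B, A B` over `E` -/
private def RS {F : Type*} [Field F] (E : Subfield F) (A B : Matrix (Fin 2) (Fin 2) F)
    (M : Matrix (Fin 2) (Fin 2) F) : Prop :=
  ∃ x : Fin 4 → E, M = (x 0 : F) • (1 : Matrix (Fin 2) (Fin 2) F) + (x 1 : F) • A + (x 2 : F) • B +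
    (x 3 : F) • (A * B)

private theorem RS.mk {F : Type*} [Field F] {E : Subfield F} {A B M : Matrix (Fin 2) (Fin 2) F}
    {x₀ x₁ x₂ x₃ : F} (h0 : x₀ ∈ E) (h1 : x₁ ∈ E) (h2 : x₂ ∈ E) (h3 : x₃ ∈ E)
    (h : M = x₀ • (1 : Matrix (Fin 2) (Fin 2) F) + x₁ • A + x₂ • B + x₃ • (A * B)) : RS E A B M :=
  ⟨![⟨x₀, h0⟩, ⟨x₁, h1⟩, ⟨x₂, h2⟩, ⟨x₃, h3⟩], h⟩

private theorem RS.sub {F : Type*} [Field F] {E : Subfield F} {A B M N : Matrix (Fin 2) (Fin 2) F}
    (hM : RS E A B M) (hN : RS E A B N) : RS E A B (M - N) := by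
  obtain ⟨x, hx⟩ := hM
  obtain ⟨y, hy⟩ := hN
  refine RS.mk (E.sub_mem (x 0).2 (y 0).2) (E.sub_mem (x 1).2 (y 1).2) (E.sub_mem (x 2).2 (y 2).2)
    (E.sub_mem (x 3).2 (y 3).2) ?_
  rw [hx, hy]
  module

private theorem RS.smul {F : Type*} [Field F] {E : Subfield F} {A B M : Matrix (Fin 2) (Fin 2) F}
    {c : F} (hc : c ∈ E) (hM : RS E A B M) : RS E A B (c • M) := by
  obtain ⟨x, hx⟩ := hM
  refine RS.mk (E.mul_mem hc (x 0).2) (E.mul_mem hc (x 1).2) (E.mul_mem hc (x 2).2)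
    (E.mul_mem hc (x 3).2) ?_
  rw [hx]
  module

private theorem RS.left {F : Type*} [Field F] {E : Subfield F} {a b : SL2 F}
    (ha : tr a ∈ E) {M : Matrix (Fin 2) (Fin 2) F}
    (hM : RS E (a : Matrix (Fin 2) (Fin 2) F) (b : Matrix (Fin 2) (Fin 2) F) M) :
    RS E (a : Matrix (Fin 2) (Fin 2) F) (b : Matrix (Fin 2) (Fin 2) F)
      ((a : Matrix (Fin 2) (Fin 2) F) * M) := by
  obtain ⟨x, hx⟩ := hM
  refine RS.mk (E.neg_mem (x 1).2) (E.add_mem (x 0).2 (E.mul_mem ha (x 1).2))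
    (E.neg_mem (x 3).2) (E.add_mem (x 2).2 (E.mul_mem ha (x 3).2)) ?_
  have h1 : (a : Matrix (Fin 2) (Fin 2) F) *
      ((a : Matrix (Fin 2) (Fin 2) F) * (b : Matrix (Fin 2) (Fin 2) F)) =
      tr a • ((a : Matrix (Fin 2) (Fin 2) F) * (b : Matrix (Fin 2) (Fin 2) F)) -
        (b : Matrix (Fin 2) (Fin 2) F) := by
    rw [← mul_assoc, cardH_sq, sub_mul, smul_mul_assoc, one_mul]
  rw [hx, mul_add, mul_add, mul_add, mul_smul_comm, mul_smul_comm, mul_smul_comm, mul_smul_comm,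
    mul_one, h1, cardH_sq]
  module

private theorem RS.right {F : Type*} [Field F] {E : Subfield F} {a b : SL2 F}
    (ha : tr a ∈ E) (hb : tr b ∈ E) (hab : tr (a * b) ∈ E) {M : Matrix (Fin 2) (Fin 2) F}
    (hM : RS E (a : Matrix (Fin 2) (Fin 2) F) (b : Matrix (Fin 2) (Fin 2) F) M) :
    RS E (a : Matrix (Fin 2) (Fin 2) F) (b : Matrix (Fin 2) (Fin 2) F)
      ((b : Matrix (Fin 2) (Fin 2) F) * M) := by
  obtain ⟨x, hx⟩ := hM
  have h1 : (b : Matrix (Fin 2) (Fin 2) F) *
      ((a : Matrix (Fin 2) (Fin 2) F) * (b : Matrix (Fin 2) (Fin 2) F)) =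
      (a : Matrix (Fin 2) (Fin 2) F) - tr a • (1 : Matrix (Fin 2) (Fin 2) F) +
        tr (a * b) • (b : Matrix (Fin 2) (Fin 2) F) := by
    rw [← mul_assoc, cardH_comm, add_mul, add_mul, add_mul, neg_mul, mul_assoc, smul_mul_assoc,
      smul_mul_assoc, smul_mul_assoc, cardH_sq b, mul_sub, mul_smul_comm, one_mul, mul_one]
    module
  refine RS.mk (x₀ := (tr (a * b) - tr a * tr b) * x 1 - x 2 - tr a * x 3)
    (x₁ := tr b * x 1 + x 3) (x₂ := x 0 + tr a * x 1 + tr b * x 2 + tr (a * b) * x 3)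
    (x₃ := -(x 1)) ?_ ?_ ?_ (E.neg_mem (x 1).2) ?_
  · exact E.sub_mem (E.sub_mem (E.mul_mem (E.sub_mem hab (E.mul_mem ha hb)) (x 1).2) (x 2).2)
      (E.mul_mem ha (x 3).2)
  · exact E.add_mem (E.mul_mem hb (x 1).2) (x 3).2
  · exact E.add_mem (E.add_mem (E.add_mem (x 0).2 (E.mul_mem ha (x 1).2)) (E.mul_mem hb (x 2).2))
      (E.mul_mem hab (x 3).2)
  rw [hx, mul_add, mul_add, mul_add, mul_smul_comm, mul_smul_comm, mul_smul_comm, mul_smul_comm,
    mul_one, h1, cardH_sq, cardH_comm]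
  module

theorem cardH {F : Type*} [Field F] (E : Subfield F) (hE : (E : Set F).Finite) (a b : SL2 F)
    (ha : tr a ∈ E) (hb : tr b ∈ E) (hab : tr (a * b) ∈ E) :
    (Subgroup.closure ({a, b} : Set (SL2 F)) : Set (SL2 F)).Finite ∧
    Nat.card (Subgroup.closure ({a, b} : Set (SL2 F))) ≤ Nat.card E ^ 4 := by
  have hfin : Finite E := hE
  have key : ∀ g ∈ Subgroup.closure ({a, b} : Set (SL2 F)),
      RS E (a : Matrix (Fin 2) (Fin 2) F) (b : Matrix (Fin 2) (Fin 2) F)
        (g : Matrix (Fin 2) (Fin 2) F) := by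
    intro g hg
    induction hg using Subgroup.closure_induction_left with
    | one =>
      refine RS.mk E.one_mem E.zero_mem E.zero_mem E.zero_mem ?_
      rw [Matrix.SpecialLinearGroup.coe_one]
      module
    | mul_left x hx y hy ih =>
      rw [Matrix.SpecialLinearGroup.coe_mul]
      rcases hx with rfl | hx
      · exact ih.left ha
      · rw [Set.mem_singleton_iff] at hx
        subst hx
        exact ih.right ha hb hab
    | inv_mul_cancel x hx y hy ih =>
      rw [Matrix.SpecialLinearGroup.coe_mul, cardH_inv, sub_mul, smul_mul_assoc, one_mul]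
      rcases hx with rfl | hx
      · exact (ih.smul ha).sub (ih.left ha)
      · rw [Set.mem_singleton_iff] at hx
        subst hx
        exact (ih.smul hb).sub (ih.right ha hb hab)
  set φ : (Fin 4 → E) → Matrix (Fin 2) (Fin 2) F := fun x =>
    (x 0 : F) • (1 : Matrix (Fin 2) (Fin 2) F) + (x 1 : F) • (a : Matrix (Fin 2) (Fin 2) F) +
      (x 2 : F) • (b : Matrix (Fin 2) (Fin 2) F) +
      (x 3 : F) • ((a : Matrix (Fin 2) (Fin 2) F) * (b : Matrix (Fin 2) (Fin 2) F)) with hφ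
  have hmem : ∀ g ∈ (Subgroup.closure ({a, b} : Set (SL2 F)) : Set (SL2 F)),
      (g : Matrix (Fin 2) (Fin 2) F) ∈ Set.range φ := by
    intro g hg
    obtain ⟨x, hx⟩ := key g hg
    exact ⟨x, hx.symm⟩
  have hinj : Function.Injective (fun g : SL2 F => (g : Matrix (Fin 2) (Fin 2) F)) :=
    fun g h hgh => Subtype.ext hgh
  have hrf : (Set.range φ).Finite := Set.finite_range φ
  refine ⟨(hrf.preimage hinj.injOn).subset hmem, ?_⟩
  have h1 : Nat.card (Subgroup.closure ({a, b} : Set (SL2 F))) =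
      (Subgroup.closure ({a, b} : Set (SL2 F)) : Set (SL2 F)).ncard := rfl
  rw [h1]
  have h2 := Set.ncard_le_ncard_of_injOn (fun g : SL2 F => (g : Matrix (Fin 2) (Fin 2) F)) hmem
    hinj.injOn hrf
  refine h2.trans ?_
  rw [← Set.image_univ]
  refine (Set.ncard_image_le (Set.toFinite _)).trans ?_
  rw [Set.ncard_univ, Nat.card_fun, Nat.card_eq_fintype_card (α := Fin 4), Fintype.card_fin]

end Pool.Agent.Helper72.PT
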