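import Pool.Agent.Helper72.PT.Defs

/-! # PT-Irr

Irreducibility and primitivity of the group generated by `a, b` with `tr a = tr b = τ ≠ 0`, `tr (a b) ≠ 2, τ² - 2`.

Plan. `irr1`: suppose `om (act g w) w = 0` for all `g ∈ closure {a, b}`. Then `act a w = α • w`, `act b w = β • w`, with
`α + α⁻¹ = τ = β + β⁻¹` (an element of `SL₂` with eigenvalue `α` has trace `α + α⁻¹`), so `β = α` or `β = α⁻¹`, and `a b` has
eigenvalue `α β` on `w`, so `tr (a b) = αβ + (αβ)⁻¹` is `α² + α⁻² = τ² - 2` or `2`. Contradiction.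
`irr2`: suppose every `g ∈ closure {a, b}` fixes or swaps the lines of `w, w'`. If `a` swaps them (`om (act a w) w' = 0`,
`om (act a w') w = 0`) then in the basis `w, w'` the diagonal of `a` is zero, `tr a = 0`, excluded. So `a` fixes both lines,
and so does `b`; then all elements of the closure fix the line of `w` (`Subgroup.closure_induction`), contradiction
to `irr1`.
-/

namespace Pool.Agent.Helper72.PT

open Matrix Module Pool.Agent.Helper72.TV

private theorem irr_eig {K : Type*} [Field K] (g : SL2 K) {w : Fin 2 → K} (hw : w ≠ 0)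
    (h : om (act g w) w = 0) :
    ∃ α : K, act g w = α • w ∧ α ^ 2 - tr g * α + 1 = 0 := by
  obtain ⟨α, hα⟩ := exists_smul_of_om hw h
  refine ⟨α, hα, ?_⟩
  have h0 := congrFun hα 0
  have h1 := congrFun hα 1
  rw [act_apply_zero, Pi.smul_apply, smul_eq_mul] at h0
  rw [act_apply_one, Pi.smul_apply, smul_eq_mul] at h1
  have hd := det_eq g
  rw [tr_eq]
  have hw' : w 0 ≠ 0 ∨ w 1 ≠ 0 := by
    by_contra hc
    push Not at hc
    apply hw
    ext i
    fin_cases i
    · exact hc.1
    · exact hc.2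
  have e0 : (α ^ 2 - ((g : Matrix (Fin 2) (Fin 2) K) 0 0 +
      (g : Matrix (Fin 2) (Fin 2) K) 1 1) * α + 1) * w 0 = 0 := by
    linear_combination ((g : Matrix (Fin 2) (Fin 2) K) 1 1 - α) * h0 -
      (g : Matrix (Fin 2) (Fin 2) K) 0 1 * h1 - w 0 * hd
  have e1 : (α ^ 2 - ((g : Matrix (Fin 2) (Fin 2) K) 0 0 +
      (g : Matrix (Fin 2) (Fin 2) K) 1 1) * α + 1) * w 1 = 0 := by
    linear_combination ((g : Matrix (Fin 2) (Fin 2) K) 0 0 - α) * h1 -
      (g : Matrix (Fin 2) (Fin 2) K) 1 0 * h0 - w 1 * hd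
  rcases hw' with h2 | h2
  · exact (mul_eq_zero.mp e0).resolve_right h2
  · exact (mul_eq_zero.mp e1).resolve_right h2

private theorem irr_tr {K : Type*} [Field K] (g : SL2 K) (w w' : Fin 2 → K) :
    tr g * om w w' = om (act g w) w' - om (act g w') w := by
  unfold om
  rw [act_apply_zero, act_apply_zero, act_apply_one, act_apply_one, tr_eq]
  ring

private theorem irr_mem_a {K : Type*} [Field K] (a b : SL2 K) :
    a ∈ Subgroup.closure ({a, b} : Set (SL2 K)) := Subgroup.subset_closure (by simp)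

private theorem irr_mem_b {K : Type*} [Field K] (a b : SL2 K) :
    b ∈ Subgroup.closure ({a, b} : Set (SL2 K)) := Subgroup.subset_closure (by simp)

theorem irr1 {K : Type*} [Field K] (a b : SL2 K) (hab : tr a = tr b)
    (hz2 : tr (a * b) ≠ 2) (hz3 : tr (a * b) ≠ tr a ^ 2 - 2) (w : Fin 2 → K) (hw : w ≠ 0) :
    ∃ g ∈ Subgroup.closure ({a, b} : Set (SL2 K)), om (act g w) w ≠ 0 := by
  by_contra hc
  push Not at hc
  obtain ⟨α, hα, hα2⟩ := irr_eig a hw (hc a (irr_mem_a a b))
  obtain ⟨β, hβ, hβ2⟩ := irr_eig b hw (hc b (irr_mem_b a b))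
  obtain ⟨γ, hγ, hγ2⟩ := irr_eig (a * b) hw (hc _ (mul_mem (irr_mem_a a b) (irr_mem_b a b)))
  have hg : γ = α * β := by
    rw [act_mul, hβ, act_smul, hα, smul_smul] at hγ
    have h2 : (γ - α * β) • w = 0 := by
      rw [sub_smul, ← hγ, mul_comm β α, sub_self]
    rcases smul_eq_zero.mp h2 with h3 | h3
    · exact sub_eq_zero.mp h3
    · exact absurd h3 hw
  rw [← hab] at hβ2
  rw [hg] at hγ2
  have hα0 : α ≠ 0 := by
    rintro rfl
    simp at hα2
  have h1 : (α - β) * (α + β - tr a) = 0 := by linear_combination hα2 - hβ2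
  rcases mul_eq_zero.mp h1 with h2 | h2
  · have h3 : β = α := (sub_eq_zero.mp h2).symm
    apply hz3
    rw [h3] at hγ2
    have h4 : (tr (a * b) - (tr a ^ 2 - 2)) * (α * α) = 0 := by
      linear_combination -hγ2 + (α ^ 2 + tr a * α + 1) * hα2
    have h5 := (mul_eq_zero.mp h4).resolve_right (mul_ne_zero hα0 hα0)
    exact sub_eq_zero.mp h5
  · have h3 : β = tr a - α := by linear_combination h2
    apply hz2
    have h4 : α * β = 1 := by
      rw [h3]
      linear_combination -hα2
    rw [h4] at hγ2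
    linear_combination -hγ2

theorem irr2 {K : Type*} [Field K] (a b : SL2 K) (hab : tr a = tr b) (ha : tr a ≠ 0)
    (hz2 : tr (a * b) ≠ 2) (hz3 : tr (a * b) ≠ tr a ^ 2 - 2) (w w' : Fin 2 → K)
    (hw : om w w' ≠ 0) :
    ∃ g ∈ Subgroup.closure ({a, b} : Set (SL2 K)),
      ¬ ((om (act g w) w = 0 ∧ om (act g w') w' = 0) ∨
        (om (act g w) w' = 0 ∧ om (act g w') w = 0)) := by
  by_contra hc
  push Not at hc
  have hw0 : w ≠ 0 := by
    rintro rfl
    apply hw
    simp [om]
  have key : ∀ g ∈ Subgroup.closure ({a, b} : Set (SL2 K)), tr g ≠ 0 → om (act g w) w = 0 := by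
    intro g hg htr
    rcases hc g hg with h | h
    · exact h.1
    · exfalso
      have h1 := irr_tr g w w'
      rw [h.1, h.2, sub_self] at h1
      rcases mul_eq_zero.mp h1 with h2 | h2
      · exact htr h2
      · exact hw h2
  have h1 := key a (irr_mem_a a b) ha
  have h2 := key b (irr_mem_b a b) (by rw [← hab]; exact ha)
  obtain ⟨g, hg, hg2⟩ := irr1 a b hab hz2 hz3 w hw0
  apply hg2
  clear hg2
  induction hg using Subgroup.closure_induction with
  | mem x hx =>
    rcases hx with rfl | hx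
    · exact h1
    · rw [Set.mem_singleton_iff] at hx
      rw [hx]
      exact h2
  | one =>
    rw [act_one, om_self]
  | mul x y _ _ hx hy =>
    obtain ⟨c, hc'⟩ := exists_smul_of_om hw0 hy
    rw [act_mul, hc', act_smul, om_smul_left, hx, mul_zero]
  | inv x _ hx =>
    rw [← om_act x, act_act_inv, om_swap, hx, neg_zero]

end Pool.Agent.Helper72.PT
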