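import Pool.Agent.Helper72.PT.Cent

/-! # PT-Neumann

The escape property from irreducibility.

Plan. Cent (`eig_lines`) may be still sorried. `Words H 1 = H` (`words_subgroup`). Given `w₁ = w, w₂ = w'` nonzero. Suppose that for
every `g ∈ H` one of the four numbers `om (act g w_i) w_j` vanishes. Let `H_i = {g ∈ H | om (act g w_i) w_i = 0}` (a
subgroup). The set `{g ∈ H | om (act g w_i) w_j = 0}` is empty or a coset of `H_i` (if `g, g'` are in it, `act g w_i ∥ w_j ∥ act g' w_i`,
so `g'⁻¹ g ∈ H_i`), so `|H| ≤ 2 |H_1| + 2 |H_2|` and some `i` has `|H| ≤ 4 |H_i|`: the orbit of the line of `w_i` has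
`s = |H| / |H_i| ≤ 4` elements. By `h1` `s ≠ 1`; by `h2` `s ≠ 2` (if the orbit is `{K w_i, K u}` then `om w_i u ≠ 0` and every `g ∈ H`
fixes or swaps the two lines). So `3 ≤ s ≤ 4` and the action of `H` on the orbit has as kernel elements fixing
three different lines, i.e. of matrix `±1` (`eig_lines`): at most 2. So `|H| ≤ 2 * 4! = 48`, contradiction.
(Orbit as a finset of lines: choose representatives `act g_k w_i`, `k < s`; permutation of `Fin s`.)
-/

namespace Pool.Agent.Helper72.PT

open Matrix Module Pool.Agent.Helper72.TV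

/-- the stabiliser of the line of `w` -/
private def stab {K : Type*} [Field K] (H : Subgroup (SL2 K)) (w : Fin 2 → K) (hw : w ≠ 0) :
    Subgroup H where
  carrier := {g | om (act (g : SL2 K) w) w = 0}
  one_mem' := by
    rw [Set.mem_ofPred_eq, OneMemClass.coe_one, act_one, om_self]
  mul_mem' := by
    intro a b ha hb
    rw [Set.mem_ofPred_eq] at ha hb ⊢
    obtain ⟨c, hc⟩ := exists_smul_of_om hw hb
    rw [Subgroup.coe_mul, act_mul, hc, act_smul, om_smul_left, ha, mul_zero]
  inv_mem' := by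
    intro a ha
    rw [Set.mem_ofPred_eq] at ha ⊢
    rw [← om_act (a : SL2 K), Subgroup.coe_inv, act_act_inv, om_swap, ha, neg_zero]

private theorem mem_stab {K : Type*} [Field K] {H : Subgroup (SL2 K)} {w : Fin 2 → K} {hw : w ≠ 0}
    {g : H} : g ∈ stab H w hw ↔ om (act (g : SL2 K) w) w = 0 := Iff.rfl

private theorem card_move {K : Type*} [Field K] (H : Subgroup (SL2 K)) [Finite H]
    (u v : Fin 2 → K) (hu : u ≠ 0) (hv : v ≠ 0) :
    {g : H | om (act (g : SL2 K) u) v = 0}.ncard ≤ Nat.card (stab H u hu) := by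
  rcases Set.eq_empty_or_nonempty {g : H | om (act (g : SL2 K) u) v = 0} with he | ⟨g0, hg0⟩
  · rw [he, Set.ncard_empty]
    exact Nat.zero_le _
  · have h1 : Nat.card (stab H u hu) = (stab H u hu : Set H).ncard := Nat.card_coe_set_eq _
    rw [h1]
    refine Set.ncard_le_ncard_of_injOn (fun g => g0⁻¹ * g) ?_ ?_ (Set.toFinite _)
    · intro g hg
      have hg' : om (act (g : SL2 K) u) v = 0 := hg
      have hg0' : om (act (g0 : SL2 K) u) v = 0 := hg0
      obtain ⟨c, hc⟩ := exists_smul_of_om hv hg'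
      obtain ⟨c0, hc0⟩ := exists_smul_of_om hv hg0'
      have h2 : om (act ((g0⁻¹ * g : H) : SL2 K) u) u = 0 := by
        rw [← om_act (g0 : SL2 K), Subgroup.coe_mul, Subgroup.coe_inv, act_mul, act_act_inv, hc, hc0,
          om_smul_left, om_smul_right, om_self, mul_zero, mul_zero]
      exact mem_stab.2 h2
    · intro a _ b _ hab
      exact mul_left_cancel hab

private theorem om_zero_of_parallel {K : Type*} [Field K] {x y z : Fin 2 → K} (hz : z ≠ 0)
    (h1 : om x z = 0) (h2 : om y z = 0) : om x y = 0 := by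
  obtain ⟨c, hc⟩ := exists_smul_of_om hz h1
  obtain ⟨c', hc'⟩ := exists_smul_of_om hz h2
  rw [hc, hc', om_smul_left, om_smul_right, om_self, mul_zero, mul_zero]

private theorem main_bound {K : Type*} [Field K] (H : Subgroup (SL2 K)) [Finite H]
    (hN : 48 < Nat.card H)
    (h1 : ∀ w : Fin 2 → K, w ≠ 0 → ∃ g ∈ H, om (act g w) w ≠ 0)
    (h2 : ∀ w w' : Fin 2 → K, om w w' ≠ 0 → ∃ g ∈ H,
      ¬ ((om (act g w) w = 0 ∧ om (act g w') w' = 0) ∨
        (om (act g w) w' = 0 ∧ om (act g w') w = 0)))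
    (w : Fin 2 → K) (hw : w ≠ 0) (hS : Nat.card H ≤ 4 * Nat.card (stab H w hw)) : False := by
  -- three lines in the orbit
  obtain ⟨g1, hg1, ho1⟩ := h1 w hw
  have hw2 : act g1 w ≠ 0 := act_ne_zero g1 hw
  have ho1' : om w (act g1 w) ≠ 0 := by
    rw [om_swap]
    exact neg_ne_zero.2 ho1
  have hthird : ∃ h ∈ H, om (act h w) w ≠ 0 ∧ om (act h w) (act g1 w) ≠ 0 := by
    by_contra hcon
    push Not at hcon
    obtain ⟨g, hg, hgn⟩ := h2 w (act g1 w) ho1'
    have hA : ∀ x ∈ H, om (act x w) w = 0 ∨ om (act x w) (act g1 w) = 0 := by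
      intro x hx
      by_cases h : om (act x w) w = 0
      · exact Or.inl h
      · exact Or.inr (hcon x hx h)
    have hind : om (act g w) (act g (act g1 w)) ≠ 0 := by
      rw [om_act]
      exact ho1'
    have hB := hA g hg
    have hC := hA (g * g1) (H.mul_mem hg hg1)
    rw [act_mul] at hC
    apply hgn
    rcases hB with hB | hB
    · rcases hC with hC | hC
      · exact absurd (om_zero_of_parallel hw hB hC) hind
      · exact Or.inl ⟨hB, hC⟩
    · rcases hC with hC | hC
      · exact Or.inr ⟨hB, hC⟩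
      · exact absurd (om_zero_of_parallel hw2 hB hC) hind
  obtain ⟨h, hh, ho2, ho3⟩ := hthird
  -- the kernel of the action
  set φ := MulAction.toPermHom H (H ⧸ stab H w hw) with hφ
  have hker : ∀ g ∈ φ.ker, ∀ x ∈ H, om (act (g : SL2 K) (act x w)) (act x w) = 0 := by
    intro g hg x hx
    have e1 : φ g = 1 := hg
    have e2 : (φ g) ((⟨x, hx⟩ : H) : H ⧸ stab H w hw) = ((⟨x, hx⟩ : H) : H ⧸ stab H w hw) := by
      rw [e1]
      rfl
    have e3 : (((g * ⟨x, hx⟩ : H)) : H ⧸ stab H w hw) = ((⟨x, hx⟩ : H) : H ⧸ stab H w hw) := e2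
    rw [eq_comm, QuotientGroup.eq, mem_stab] at e3
    rw [← om_act x, Subgroup.coe_mul, Subgroup.coe_mul, Subgroup.coe_inv, act_mul, act_act_inv,
      act_mul] at e3
    exact e3
  have hval : ∀ g ∈ φ.ker, ((g : SL2 K) : Matrix (Fin 2) (Fin 2) K) = 1 ∨
      ((g : SL2 K) : Matrix (Fin 2) (Fin 2) K) = -1 := by
    intro g hg
    have k1 := hker g hg 1 H.one_mem
    rw [act_one] at k1
    refine eig_lines (g : SL2 K) w (act g1 w) (act h w) ho1' ?_ ?_ k1 (hker g hg g1 hg1)
      (hker g hg h hh)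
    · rw [om_swap]
      exact neg_ne_zero.2 ho2
    · rw [om_swap]
      exact neg_ne_zero.2 ho3
  have hkc : Nat.card φ.ker ≤ 2 := by
    have e1 : Nat.card φ.ker = (φ.ker : Set H).ncard := Nat.card_coe_set_eq _
    rw [e1]
    have e2 : (φ.ker : Set H).ncard ≤
        ({1, -1} : Set (Matrix (Fin 2) (Fin 2) K)).ncard := by
      refine Set.ncard_le_ncard_of_injOn
        (fun g : H => ((g : SL2 K) : Matrix (Fin 2) (Fin 2) K)) ?_ ?_ (Set.toFinite _)
      · intro g hg
        rcases hval g hg with h | h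
        · exact Or.inl h
        · exact Or.inr h
      · intro a _ b _ hab
        exact Subtype.ext (Subtype.ext hab)
    refine e2.trans ((Set.ncard_insert_le _ _).trans ?_)
    rw [Set.ncard_singleton]
  -- the index
  have hSpos : 0 < Nat.card (stab H w hw) := Nat.card_pos
  have hidx : (stab H w hw).index ≤ 4 := by
    have e1 := (stab H w hw).card_mul_index
    have e2 : Nat.card (stab H w hw) * (stab H w hw).index ≤ Nat.card (stab H w hw) * 4 := by
      rw [e1, mul_comm (Nat.card (stab H w hw)) 4]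
      exact hS
    exact Nat.le_of_mul_le_mul_left e2 hSpos
  have hrange : Nat.card φ.range ≤ 24 := by
    have e1 : Nat.card φ.range ≤ Nat.card (Equiv.Perm (H ⧸ stab H w hw)) :=
      Subgroup.card_le_card_group _
    rw [Nat.card_perm] at e1
    have e2 : Nat.card (H ⧸ stab H w hw) ≤ 4 := hidx
    exact e1.trans (Nat.factorial_le e2)
  have hfinal : Nat.card H = Nat.card φ.ker * Nat.card φ.range := by
    rw [← Subgroup.index_ker, Subgroup.card_mul_index]
  have : Nat.card φ.ker * Nat.card φ.range ≤ 2 * 24 := Nat.mul_le_mul hkc hrange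
  omega

theorem neumann {K : Type*} [Field K] (H : Subgroup (SL2 K))
    (hfin : (H : Set (SL2 K)).Finite) (hN : 48 < Nat.card H)
    (h1 : ∀ w : Fin 2 → K, w ≠ 0 → ∃ g ∈ H, om (act g w) w ≠ 0)
    (h2 : ∀ w w' : Fin 2 → K, om w w' ≠ 0 → ∃ g ∈ H,
      ¬ ((om (act g w) w = 0 ∧ om (act g w') w' = 0) ∨
        (om (act g w) w' = 0 ∧ om (act g w') w = 0))) :
    Esc (H : Set (SL2 K)) 1 := by
  have hF : Finite H := hfin.to_subtype
  intro w w' hw hw'
  rw [words_subgroup H le_rfl]
  by_contra hcon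
  push Not at hcon
  have hcov : (Set.univ : Set H) ⊆ ({g : H | om (act (g : SL2 K) w) w = 0} ∪
      {g : H | om (act (g : SL2 K) w) w' = 0}) ∪ ({g : H | om (act (g : SL2 K) w') w = 0} ∪
      {g : H | om (act (g : SL2 K) w') w' = 0}) := by
    intro g _
    by_cases a1 : om (act (g : SL2 K) w) w = 0
    · exact Or.inl (Or.inl a1)
    · by_cases a2 : om (act (g : SL2 K) w) w' = 0
      · exact Or.inl (Or.inr a2)
      · by_cases a3 : om (act (g : SL2 K) w') w = 0
        · exact Or.inr (Or.inl a3)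
        · exact Or.inr (Or.inr (hcon g g.2 a1 a2 a3))
  have hc := Set.ncard_le_ncard hcov (Set.toFinite _)
  rw [Set.ncard_univ] at hc
  have u1 := Set.ncard_union_le ({g : H | om (act (g : SL2 K) w) w = 0} ∪
      {g : H | om (act (g : SL2 K) w) w' = 0}) ({g : H | om (act (g : SL2 K) w') w = 0} ∪
      {g : H | om (act (g : SL2 K) w') w' = 0})
  have u2 := Set.ncard_union_le {g : H | om (act (g : SL2 K) w) w = 0}
      {g : H | om (act (g : SL2 K) w) w' = 0}
  have u3 := Set.ncard_union_le {g : H | om (act (g : SL2 K) w') w = 0}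
      {g : H | om (act (g : SL2 K) w') w' = 0}
  have b1 := card_move H w w hw hw
  have b2 := card_move H w w' hw hw'
  have b3 := card_move H w' w hw' hw
  have b4 := card_move H w' w' hw' hw'
  have hor : Nat.card H ≤ 4 * Nat.card (stab H w hw) ∨ Nat.card H ≤ 4 * Nat.card (stab H w' hw') := by
    omega
  rcases hor with hor | hor
  · exact main_bound H hN h1 h2 w hw hor
  · exact main_bound H hN h1 h2 w' hw' hor

end Pool.Agent.Helper72.PT
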