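import Mathlib

/-! # PT-SqField

A set of elements with squares in a subfield generates at most its quadratic extension.

Plan. `Q = |EF|`. `E₂ = {x : F | x ^ (Q^2) = x}` is a subfield of `F` (`Q` is a power of the characteristic, so
`x ↦ x ^ (Q^2)` is a ring homomorphism: iterate of Frobenius; or `FiniteField` lemmas) with at most `Q²` elements (roots of
`X^(Q^2) - X`). If `x² ∈ EF` then `(x²)^Q = x²`, so `(x^Q)² = x²`, `x^Q = ± x`, `x^(Q²) = (± x)^Q = ... = x` (if `x^Q = -x` then
`x^(Q²) = (-x)^Q = (-1)^Q x^Q = (-1)^Q (-x) = x`, for `Q` odd; for `Q` even `-x = x`). So `closure X ≤ E₂`.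
-/

namespace Pool.Agent.Helper72.PT

theorem sqField {F : Type*} [Field F] [Finite F] (EF : Subfield F) (X : Set F)
    (hX : ∀ x ∈ X, x ^ 2 ∈ EF) :
    Nat.card (Subfield.closure X) ≤ Nat.card EF ^ 2 := by
  classical
  obtain ⟨p, hp⟩ := CharP.exists F
  have hE : CharP EF p := (EF.subtype).charP Subtype.coe_injective p
  have hfE : Finite EF := Subtype.finite
  have : Fintype EF := Fintype.ofFinite EF
  obtain ⟨n, hpp, hq⟩ := FiniteField.card EF p
  have : Fact p.Prime := ⟨hpp⟩
  have hQ : Nat.card EF = p ^ (n : ℕ) := by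
    rw [Nat.card_eq_fintype_card, hq]
  have hadd : p ^ (2 * (n : ℕ)) = p ^ (n : ℕ) * p ^ (n : ℕ) := by
    rw [← pow_add, two_mul]
  set E2 : Subfield F := RingHom.eqLocusField (iterateFrobenius F p (2 * n)) (RingHom.id F)
    with hE2
  have hmem : ∀ x, x ∈ E2 ↔ x ^ (p ^ (2 * (n : ℕ))) = x := by
    intro x
    show iterateFrobenius F p (2 * n) x = x ↔ _
    rw [iterateFrobenius_def]
  have hcl : Subfield.closure X ≤ E2 := by
    rw [Subfield.closure_le]
    intro x hx
    show x ∈ E2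
    rw [hmem, hadd, pow_mul]
    have h1 : (x ^ 2) ^ (p ^ (n : ℕ)) = x ^ 2 := by
      have h2 := FiniteField.pow_card (⟨x ^ 2, hX x hx⟩ : EF)
      rw [hq] at h2
      have h3 := congrArg Subtype.val h2
      simpa using h3
    have h4 : (x ^ (p ^ (n : ℕ))) ^ 2 = x ^ 2 := by
      rw [← h1, ← pow_mul, ← pow_mul, mul_comm]
    rcases sq_eq_sq_iff_eq_or_eq_neg.1 h4 with h5 | h5
    · rw [h5, h5]
    · rw [h5]
      have h6 : (-x) ^ (p ^ (n : ℕ)) = -(x ^ (p ^ (n : ℕ))) := by
        rw [← iterateFrobenius_def, ← iterateFrobenius_def, map_neg]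
      rw [h6, h5, neg_neg]
  have h1 : Nat.card (Subfield.closure X) ≤ Nat.card E2 :=
    Nat.card_le_card_of_injective (Set.inclusion hcl) (Set.inclusion_injective hcl)
  have hN : 1 < p ^ (2 * (n : ℕ)) :=
    Nat.one_lt_pow (Nat.mul_ne_zero two_ne_zero n.pos.ne') hpp.one_lt
  have h2 : Nat.card E2 ≤ p ^ (2 * (n : ℕ)) := by
    have h3 : (E2 : Set F) ⊆
        ((Polynomial.X ^ (p ^ (2 * (n : ℕ))) - Polynomial.X : Polynomial F).roots.toFinset :
          Set F) := by
      intro x hx
      rw [Finset.mem_coe, Multiset.mem_toFinset,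
        Polynomial.mem_roots (FiniteField.X_pow_card_sub_X_ne_zero F hN), Polynomial.IsRoot.def,
        Polynomial.eval_sub, Polynomial.eval_pow, Polynomial.eval_X, (hmem x).1 hx, sub_self]
    have h4 := Set.ncard_le_ncard h3 (Finset.finite_toSet _)
    rw [Set.ncard_coe_finset] at h4
    have h5 := Multiset.toFinset_card_le
      (Polynomial.X ^ (p ^ (2 * (n : ℕ))) - Polynomial.X : Polynomial F).roots
    have h6 := Polynomial.card_roots'
      (Polynomial.X ^ (p ^ (2 * (n : ℕ))) - Polynomial.X : Polynomial F)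
    rw [FiniteField.X_pow_card_sub_X_natDegree_eq F hN] at h6
    have h7 : Nat.card E2 = (E2 : Set F).ncard := rfl
    omega
  rw [hQ, sq, ← hadd]
  exact h1.trans h2

end Pool.Agent.Helper72.PT
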