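import Pool.Agent.Helper72.TV.Defs

/-! # Word balls in `SL₂(K)`: definitions and easy lemmas -/

namespace Pool.Agent.Helper72.PT

open Matrix Module Pool.Agent.Helper72.TV

section Defs

variable {K : Type*} [Field K]

/-- the group `SL₂(K)` -/
abbrev SL2 (K : Type*) [Field K] := Matrix.SpecialLinearGroup (Fin 2) K

/-- action on column vectors -/
def act (g : SL2 K) (w : Fin 2 → K) : Fin 2 → K := (g : Matrix (Fin 2) (Fin 2) K) *ᵥ w

/-- the symplectic form; `om x y = 0` iff `x, y` are linearly dependent -/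
def om (x y : Fin 2 → K) : K := x 0 * y 1 - x 1 * y 0

/-- trace -/
def tr (g : SL2 K) : K := (g : Matrix (Fin 2) (Fin 2) K).trace

/-- the covector `om w · `, with `hat w ⬝ᵥ y = om w y` -/
def hat (w : Fin 2 → K) : Fin 2 → K := ![-(w 1), w 0]

/-- number of elements which are words of length at most `n` in `S` -/
noncomputable def ball (S : Set (SL2 K)) (n : ℕ) : ℕ := (Words S n).ncard

/-- escape at level `e`: some word of length at most `e` maps the lines of `w, w'` to lines
different from both of them -/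
def Esc (S : Set (SL2 K)) (e : ℕ) : Prop :=
  ∀ w w' : Fin 2 → K, w ≠ 0 → w' ≠ 0 → ∃ g ∈ Words S e,
    om (act g w) w ≠ 0 ∧ om (act g w) w' ≠ 0 ∧ om (act g w') w ≠ 0 ∧ om (act g w') w' ≠ 0

theorem act_mul (g h : SL2 K) (w : Fin 2 → K) : act (g * h) w = act g (act h w) := by
  unfold act
  rw [Matrix.SpecialLinearGroup.coe_mul, Matrix.mulVec_mulVec]

theorem act_one (w : Fin 2 → K) : act (1 : SL2 K) w = w := by
  unfold act
  rw [Matrix.SpecialLinearGroup.coe_one, Matrix.one_mulVec]

theorem act_inv_act (g : SL2 K) (w : Fin 2 → K) : act g⁻¹ (act g w) = w := by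
  rw [← act_mul, inv_mul_cancel, act_one]

theorem act_act_inv (g : SL2 K) (w : Fin 2 → K) : act g (act g⁻¹ w) = w := by
  rw [← act_mul, mul_inv_cancel, act_one]

theorem act_smul (g : SL2 K) (c : K) (w : Fin 2 → K) : act g (c • w) = c • act g w := by
  unfold act
  rw [Matrix.mulVec_smul]

theorem act_add (g : SL2 K) (w w' : Fin 2 → K) : act g (w + w') = act g w + act g w' := by
  unfold act
  rw [Matrix.mulVec_add]

theorem act_apply_zero (g : SL2 K) (w : Fin 2 → K) :
    act g w 0 = (g : Matrix (Fin 2) (Fin 2) K) 0 0 * w 0 +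
      (g : Matrix (Fin 2) (Fin 2) K) 0 1 * w 1 := by
  unfold act
  rw [Matrix.mulVec, dotProduct, Fin.sum_univ_two]

theorem act_apply_one (g : SL2 K) (w : Fin 2 → K) :
    act g w 1 = (g : Matrix (Fin 2) (Fin 2) K) 1 0 * w 0 +
      (g : Matrix (Fin 2) (Fin 2) K) 1 1 * w 1 := by
  unfold act
  rw [Matrix.mulVec, dotProduct, Fin.sum_univ_two]

theorem det_eq (g : SL2 K) :
    (g : Matrix (Fin 2) (Fin 2) K) 0 0 * (g : Matrix (Fin 2) (Fin 2) K) 1 1 -
      (g : Matrix (Fin 2) (Fin 2) K) 0 1 * (g : Matrix (Fin 2) (Fin 2) K) 1 0 = 1 := by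
  have h := g.det_coe
  rwa [Matrix.det_fin_two] at h

theorem om_act (g : SL2 K) (x y : Fin 2 → K) : om (act g x) (act g y) = om x y := by
  unfold om
  rw [act_apply_zero, act_apply_zero, act_apply_one, act_apply_one]
  have h := det_eq g
  linear_combination (x 0 * y 1 - x 1 * y 0) * h

theorem om_smul_left (c : K) (x y : Fin 2 → K) : om (c • x) y = c * om x y := by
  unfold om
  simp only [Pi.smul_apply, smul_eq_mul]
  ring

theorem om_smul_right (c : K) (x y : Fin 2 → K) : om x (c • y) = c * om x y := by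
  unfold om
  simp only [Pi.smul_apply, smul_eq_mul]
  ring

theorem om_swap (x y : Fin 2 → K) : om y x = -om x y := by
  unfold om
  ring

theorem om_self (x : Fin 2 → K) : om x x = 0 := by
  unfold om
  ring

theorem hat_dot (w y : Fin 2 → K) : hat w ⬝ᵥ y = om w y := by
  unfold hat om
  rw [dotProduct, Fin.sum_univ_two]
  simp
  ring

theorem exists_smul_of_om {x y : Fin 2 → K} (hy : y ≠ 0) (h : om x y = 0) : ∃ c : K, x = c • y := by
  unfold om at h
  by_cases h0 : y 0 = 0
  · have h1 : y 1 ≠ 0 := by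
      intro h1
      apply hy
      ext i
      fin_cases i
      · exact h0
      · exact h1
    refine ⟨x 1 / y 1, ?_⟩
    ext i
    fin_cases i
    · simp only [Fin.zero_eta, Fin.isValue, Pi.smul_apply, smul_eq_mul]
      rw [h0, mul_zero, sub_zero] at h
      rw [h0, mul_zero]
      rcases mul_eq_zero.mp h with h2 | h2
      · exact h2
      · exact absurd h2 h1
    · simp only [Fin.mk_one, Fin.isValue, Pi.smul_apply, smul_eq_mul]
      field_simp
  · refine ⟨x 0 / y 0, ?_⟩
    ext i
    fin_cases i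
    · simp only [Fin.zero_eta, Fin.isValue, Pi.smul_apply, smul_eq_mul]
      field_simp
    · simp only [Fin.mk_one, Fin.isValue, Pi.smul_apply, smul_eq_mul]
      field_simp
      linear_combination -h

theorem act_ne_zero (g : SL2 K) {w : Fin 2 → K} (hw : w ≠ 0) : act g w ≠ 0 := by
  intro h
  apply hw
  rw [← act_inv_act g w, h]
  unfold act
  rw [Matrix.mulVec_zero]

theorem inv_coe (g : SL2 K) :
    ((g⁻¹ : SL2 K) : Matrix (Fin 2) (Fin 2) K) =
      !![(g : Matrix (Fin 2) (Fin 2) K) 1 1, -(g : Matrix (Fin 2) (Fin 2) K) 0 1;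
        -(g : Matrix (Fin 2) (Fin 2) K) 1 0, (g : Matrix (Fin 2) (Fin 2) K) 0 0] := by
  rw [Matrix.SpecialLinearGroup.coe_inv, Matrix.adjugate_fin_two]

theorem tr_eq (g : SL2 K) : tr g = (g : Matrix (Fin 2) (Fin 2) K) 0 0 +
    (g : Matrix (Fin 2) (Fin 2) K) 1 1 := by
  unfold tr
  rw [Matrix.trace_fin_two]

theorem tr_inv (g : SL2 K) : tr g⁻¹ = tr g := by
  rw [tr_eq, tr_eq, inv_coe]
  simp
  ring

theorem tr_mul_comm (g h : SL2 K) : tr (g * h) = tr (h * g) := by
  unfold tr
  rw [Matrix.SpecialLinearGroup.coe_mul, Matrix.SpecialLinearGroup.coe_mul, Matrix.trace_mul_comm]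

theorem tr_conj (g h : SL2 K) : tr (g * h * g⁻¹) = tr h := by
  rw [tr_mul_comm, inv_mul_cancel_left]

variable {S : Set (SL2 K)}

theorem words_finite (hfin : (Subgroup.closure S : Set (SL2 K)).Finite) (n : ℕ) :
    (Words S n).Finite := hfin.subset (words_subset_closure n)

theorem ball_mono (hfin : (Subgroup.closure S : Set (SL2 K)).Finite) {m n : ℕ} (h : m ≤ n) :
    ball S m ≤ ball S n := Set.ncard_le_ncard (words_mono h) (words_finite hfin n)

theorem ball_le_card (hfin : (Subgroup.closure S : Set (SL2 K)).Finite) (n : ℕ) :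
    ball S n ≤ Nat.card (Subgroup.closure S) := by
  have h := Set.ncard_le_ncard (words_subset_closure n) hfin
  exact h

theorem one_le_ball (hfin : (Subgroup.closure S : Set (SL2 K)).Finite) (n : ℕ) :
    1 ≤ ball S n := by
  have h : (Words S n).Nonempty := ⟨1, one_mem_words n⟩
  exact (Set.ncard_pos (words_finite hfin n)).mpr h

/-- words of length at most `1` in a subgroup `H` are the elements of `H` -/
theorem words_subgroup (H : Subgroup (SL2 K)) {n : ℕ} (hn : 1 ≤ n) :
    Words (H : Set (SL2 K)) n = H := by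
  apply Set.Subset.antisymm
  · have h := words_subset_closure (S := (H : Set (SL2 K))) n
    rwa [Subgroup.closure_eq] at h
  · intro g hg
    exact words_mono hn (mem_words_one hg)

theorem ball_subgroup (H : Subgroup (SL2 K)) {n : ℕ} (hn : 1 ≤ n) :
    ball (H : Set (SL2 K)) n = Nat.card H := by
  unfold ball
  rw [words_subgroup H hn]
  rfl

end Defs

end Pool.Agent.Helper72.PT
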