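import Pool.Agent.Helper72.TV.PairStep
import Pool.Agent.Helper72.PT.Defs

/-! # PT-TrSq

The squares of the traces lie in the field of the root group.

Plan. `TV.pairStep` is proved and landed. `t x = 1 + x • vecMulVec v ψ`. For `h ∈ H` put `c h = ψ ⬝ᵥ (act h v)`. In `SL₂`:
`ψ ⬝ᵥ (act h⁻¹ v) = - c h` (choose `e` with `ψ ⬝ᵥ e = 1`; `v, e` is a basis with `om`-ratio; `ψ y = κ * om v y` for a constant `κ ≠ 0`, so
`c h = κ om v (act h v)` and `om v (act h⁻¹ v) = om (act h v) v = - om v (act h v)`). So `par v ψ h = - (c h)²`.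
(1) `(c h)² ∈ EF` for all `h ∈ H`: if `c h ≠ 0` apply `pairStep` with `k = EF` (a field, `Fintype`, `K = F`), `S = (H : Set _)`, `L = 1`,
`m = 1`, `w = h`, `lam = -(c h)²`: it gives `TW H _ k⟮lam⟯ v ψ`, and `Words H n ⊆ H` (`words_subset_closure`), so by `hiff` every element of
`EF⟮lam⟯` lies in `EF`; in particular `lam ∈ EF`.
(2) For `h, h' ∈ H`, `x ∈ EF`: `c (h * t x * h') = c (h h') + x c h c h'` (`t x y = y + x (ψ y) v`). So `(A + x B)² ∈ EF` with `A = c (h h')`,
`B = c h c h'`, `A², B² ∈ EF`; with `x = 1`: `2 A B ∈ EF`.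
(3) Let `c h ≠ 0`. By Cayley-Hamilton `h² = (tr h) h - 1`, so `c (h²) = (tr h) (c h)` (`ψ v = 0`). If `2 ≠ 0`: (2) with `h' = h` gives
`(tr h) (c h) (c h)² ∈ EF`, so `(tr h) (c h) ∈ EF`, so `(tr h)² = ((tr h)(c h))² / (c h)² ∈ EF`. If `2 = 0`: `EF` is a finite field of
characteristic 2, so `(c h)² = s²` with `s ∈ EF`, `c h = s ∈ EF`, `c (h²) ∈ EF` similarly, so `tr h = c (h²) / c h ∈ EF`.
(4) If `c h = 0` (i.e. `h` fixes the line of `v`): `tr h = tr (g h g⁻¹)` for `g ∈ H`, and `c (g h g⁻¹) = 0` iff `h` fixes the line of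
`act g⁻¹ v`. Let `g₀ ∈ H` move the line of `v` (`hmove`). If `h` fixes the lines of `v`, `act g₀⁻¹ v`-type vectors `u := act g₀ v` and
`act (t 1) u = u + (ψ u) v` (three different lines) then `h = ±1` (an endomorphism with three eigenlines in dimension 2
is scalar), and `tr h = ±2`. Otherwise use (3) for the conjugate `g h g⁻¹` with `g⁻¹ v` the line not fixed.
-/

namespace Pool.Agent.Helper72.PT

open Matrix Module Pool.Agent.Helper72.TV

private theorem trsq_kappa {F : Type*} [Field F] (v ψ : Fin 2 → F)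
    (hv : v ≠ 0) (hψ : ψ ≠ 0) (hψv : ψ ⬝ᵥ v = 0) :
    ∃ κ : F, κ ≠ 0 ∧ ∀ y, ψ ⬝ᵥ y = κ * om v y := by
  have hh : hat v ≠ 0 := by
    intro h
    apply hv
    have h0 : -(v 1) = 0 := congrFun h 0
    have h1 : v 0 = 0 := congrFun h 1
    ext i
    fin_cases i
    · exact h1
    · exact neg_eq_zero.mp h0
  have hom : om ψ (hat v) = 0 := by
    have h1 : ψ 0 * v 0 + ψ 1 * v 1 = 0 := by
      rw [dotProduct, Fin.sum_univ_two] at hψv
      exact hψv
    show ψ 0 * v 0 - ψ 1 * -(v 1) = 0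
    linear_combination h1
  obtain ⟨κ, hκ⟩ := exists_smul_of_om hh hom
  refine ⟨κ, ?_, fun y => ?_⟩
  · rintro rfl
    exact hψ (by rw [hκ, zero_smul])
  · rw [hκ, smul_dotProduct, hat_dot, smul_eq_mul]

private theorem trsq_sq {F : Type*} [Field F] (h : SL2 F) (v : Fin 2 → F) :
    om v (act (h * h) v) = tr h * om v (act h v) := by
  rw [act_mul, tr_eq]
  unfold om
  rw [act_apply_zero h (act h v), act_apply_one h (act h v), act_apply_zero, act_apply_one]
  ring

private theorem trsq_trace {F : Type*} [Field F] (h : SL2 F) (u v : Fin 2 → F) :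
    tr h * om u v = om (act h u) v + om u (act h v) := by
  rw [tr_eq]
  unfold om
  rw [act_apply_zero, act_apply_one, act_apply_zero, act_apply_one]
  ring

private theorem om_add_left {F : Type*} [Field F] (x y z : Fin 2 → F) :
    om (x + y) z = om x z + om y z := by
  unfold om
  simp only [Pi.add_apply]
  ring

private theorem om_add_right {F : Type*} [Field F] (x y z : Fin 2 → F) :
    om x (y + z) = om x y + om x z := by
  unfold om
  simp only [Pi.add_apply]
  ring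

theorem trSq {F : Type*} [Field F] [Fintype F] (H : Subgroup (SL2 F)) (v ψ : Fin 2 → F)
    (hv : v ≠ 0) (hψ : ψ ≠ 0) (hψv : ψ ⬝ᵥ v = 0) (EF : Subfield F) (h5 : 5 ≤ Nat.card EF)
    (hiff : ∀ x : F, (∃ g ∈ H, (g : Matrix (Fin 2) (Fin 2) F) = 1 + x • Matrix.vecMulVec v ψ) ↔
      x ∈ EF)
    (hmove : ∃ g ∈ H, om (act g v) v ≠ 0) :
    ∀ h ∈ H, tr h ^ 2 ∈ EF := by
  classical
  obtain ⟨κ, hκ, hκy⟩ := trsq_kappa v ψ hv hψ hψv
  haveI : Fintype EF := Fintype.ofFinite EF
  have h5' : 5 ≤ Fintype.card EF := by rwa [← Nat.card_eq_fintype_card]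
  -- (1)
  have hsq : ∀ h ∈ H, om v (act h v) ^ 2 * κ ^ 2 ∈ EF := by
    intro h hh
    by_cases hc : om v (act h v) = 0
    · rw [hc]
      simp
    have hinv : om v (act h⁻¹ v) = -om v (act h v) := by
      rw [← om_act h v (act h⁻¹ v), act_act_inv, om_swap]
    have hpar : par v ψ h = -(om v (act h v) ^ 2 * κ ^ 2) := by
      unfold par
      have e1 : ψ ⬝ᵥ ((h : Matrix (Fin 2) (Fin 2) F) *ᵥ v) = κ * om v (act h v) := hκy _
      have e2 : ψ ⬝ᵥ (((h⁻¹ : SL2 F) : Matrix (Fin 2) (Fin 2) F) *ᵥ v) =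
          κ * om v (act h⁻¹ v) := hκy _
      rw [e1, e2, hinv]
      ring
    have hlam : -(om v (act h v) ^ 2 * κ ^ 2) ≠ 0 := by
      rw [neg_ne_zero]
      exact mul_ne_zero (pow_ne_zero _ hc) (pow_ne_zero _ hκ)
    have hL : TW (H : Set (SL2 F)) 1 (Set.range (algebraMap EF F)) v ψ := by
      rintro x ⟨y, rfl⟩
      obtain ⟨g, hg, hg1⟩ := (hiff (algebraMap EF F y)).mpr y.2
      exact ⟨g, mem_words_one hg, hg1⟩
    obtain ⟨hT, -⟩ := pairStep (k := EF) (K := F) h5' (H : Set (SL2 F)) v ψ hψv 1 1 hL h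
      (mem_words_one hh) _ hpar hlam
    obtain ⟨g, hg, hg1⟩ := hT _ (IntermediateField.mem_adjoin_simple_self EF
      (-(om v (act h v) ^ 2 * κ ^ 2)))
    have hgH : g ∈ H := by
      have h3 := words_subset_closure _ hg
      rw [Subgroup.closure_eq] at h3
      exact h3
    have h4 := (hiff _).mp ⟨g, hgH, hg1⟩
    exact neg_mem_iff.mp h4
  -- (3)
  have hmain : ∀ h ∈ H, om v (act h v) ≠ 0 → tr h ^ 2 ∈ EF := by
    intro h hh hc
    have h1 := hsq h hh
    have h2 := hsq (h * h) (mul_mem hh hh)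
    rw [trsq_sq] at h2
    have h3 : tr h ^ 2 = (tr h * om v (act h v)) ^ 2 * κ ^ 2 / (om v (act h v) ^ 2 * κ ^ 2) := by
      field_simp
    rw [h3]
    exact div_mem h2 h1
  intro h hh
  by_contra hcon
  -- all conjugates fix the line of `v`
  have hfix : ∀ g ∈ H, om (act g v) (act h (act g v)) = 0 := by
    intro g hg
    by_contra hne
    apply hcon
    have h1 := hmain (g⁻¹ * h * g⁻¹⁻¹) (mul_mem (mul_mem (inv_mem hg) hh) (inv_mem (inv_mem hg)))
      (by
        rw [inv_inv, act_mul, act_mul, ← om_act g v, act_act_inv]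
        exact hne)
    rwa [tr_conj] at h1
  obtain ⟨g₀, hg₀, hg₀v⟩ := hmove
  obtain ⟨t, htH, ht⟩ := (hiff 1).mpr (one_mem EF)
  have hact : ∀ y, act t y = y + (ψ ⬝ᵥ y) • v := by
    intro y
    unfold act
    rw [ht, Matrix.add_mulVec, Matrix.one_mulVec, one_smul, Matrix.vecMulVec_mulVec]
    ext i
    simp [mul_comm]
  have q1 : om v (act h v) = 0 := by
    have h1 := hfix 1 (one_mem H)
    rwa [act_one] at h1
  have q2 := hfix g₀ hg₀
  have q3 := hfix (t * g₀) (mul_mem htH hg₀)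
  rw [act_mul] at q3
  obtain ⟨u, hu⟩ : ∃ u, u = act g₀ v := ⟨_, rfl⟩
  rw [← hu] at q2 q3 hg₀v
  rw [hact u] at q3
  obtain ⟨s, hs⟩ : ∃ s, s = ψ ⬝ᵥ u := ⟨_, rfl⟩
  rw [← hs, act_add, act_smul, om_add_left, om_add_right, om_add_right, om_smul_left,
    om_smul_left, om_smul_right, om_smul_right, q1, q2] at q3
  have hs0 : s ≠ 0 := by
    rw [hs, hκy, om_swap]
    exact mul_ne_zero hκ (neg_ne_zero.mpr hg₀v)
  have hu0 : u ≠ 0 := by
    rw [hu]
    exact act_ne_zero g₀ hv
  obtain ⟨α, hα⟩ := exists_smul_of_om (x := act h v) hv (by rw [om_swap, q1, neg_zero])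
  obtain ⟨β, hβ⟩ := exists_smul_of_om (x := act h u) hu0 (by rw [om_swap, q2, neg_zero])
  have e1 := om_act h u v
  have e2 := trsq_trace h u v
  rw [hα, hβ, om_smul_left, om_smul_right] at e1 e2
  rw [hα, hβ, om_smul_right, om_smul_right] at q3
  have hαβ : α * β = 1 := by
    have h1 : (α * β - 1) * om u v = 0 := by linear_combination e1
    rcases mul_eq_zero.mp h1 with h2 | h2
    · exact sub_eq_zero.mp h2
    · exact absurd h2 hg₀v
  have hαβ' : α = β := by
    have h1 : (α - β) * (s * om u v) = 0 := by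
      have h2 := om_swap u v
      rw [h2] at q3
      linear_combination q3
    rcases mul_eq_zero.mp h1 with h2 | h2
    · exact sub_eq_zero.mp h2
    · exact absurd h2 (mul_ne_zero hs0 hg₀v)
  have htr : tr h = α + β := by
    have h1 : (tr h - (α + β)) * om u v = 0 := by linear_combination e2
    rcases mul_eq_zero.mp h1 with h2 | h2
    · exact sub_eq_zero.mp h2
    · exact absurd h2 hg₀v
  apply hcon
  have h4 : tr h ^ 2 = ((4 : ℕ) : F) := by
    rw [htr, ← hαβ']
    rw [← hαβ'] at hαβ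
    push_cast
    linear_combination 4 * hαβ
  rw [h4]
  exact natCast_mem EF 4

end Pool.Agent.Helper72.PT
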