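import Pool.Agent.Helper72.PT.Cent

/-! # PT-WordsSS

Exponential growth up to the degree of the trace, semisimple case `τ² ≠ 4`.

Proof. `1, a, b, a b` are linearly independent over `F`, because `tr [a, b] - 2 = (z - 2) (z + 2 - τ²) ≠ 0`. In this basis
left multiplication by `a`, `a⁻¹`, `b` is given by matrices with entries in `E₀[z]` (constants for `a`, degree one for `b`).
So the word `b a^(ε_2) b ... a^(ε_ℓ) b` has coordinates which are polynomials of degree `≤ ℓ - 1` in `z` over `E₀`,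
and the coefficients of `X ^ (ℓ - 1)` are `(0, 0, ±1, 0)`; after multiplication by `a` they are `(0, 0, 0, ±1)`, after
multiplication by `a⁻¹` they are `(0, 0, ±τ, ∓1)`. So the coordinate at `b` tells the sign `ε_1`; cancel and induct.
-/

namespace Pool.Agent.Helper72.PT

open Matrix Module Pool.Agent.Helper72.TV IntermediateField

private theorem wss_ch {F : Type*} [Field F] (A : Matrix (Fin 2) (Fin 2) F) (hA : A.det = 1) :
    A * A = A.trace • A - 1 := by
  rw [Matrix.det_fin_two] at hA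
  ext i j
  fin_cases i <;> fin_cases j <;>
    simp [Matrix.mul_apply, Fin.sum_univ_two, Matrix.trace_fin_two]
  · linear_combination -hA
  · ring
  · ring
  · linear_combination -hA

private theorem wss_polar {F : Type*} [Field F] (A B : Matrix (Fin 2) (Fin 2) F) :
    B * A = -(A * B) + A.trace • B + B.trace • A +
      ((A * B).trace - A.trace * B.trace) • (1 : Matrix (Fin 2) (Fin 2) F) := by
  ext i j
  fin_cases i <;> fin_cases j <;>
    simp [Matrix.mul_apply, Fin.sum_univ_two, Matrix.trace_fin_two] <;> ring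

private theorem wss_bab {F : Type*} [Field F] (A B : Matrix (Fin 2) (Fin 2) F) (hB : B.det = 1) :
    B * (A * B) = A + (A * B).trace • B - A.trace • (1 : Matrix (Fin 2) (Fin 2) F) := by
  rw [← mul_assoc, wss_polar A B, add_mul, add_mul, add_mul, neg_mul, mul_assoc A B B,
    wss_ch B hB, smul_mul_assoc, smul_mul_assoc, smul_mul_assoc, wss_ch B hB, one_mul, mul_sub,
    mul_one, mul_smul_comm, smul_sub, smul_smul, sub_smul]
  abel

private theorem wss_det {F : Type*} [Field F] (A B : Matrix (Fin 2) (Fin 2) F) (hA : A.det = 1)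
    (hB : B.det = 1) (ht : A.trace = B.trace) :
    (A * B - B * A).det = -(((A * B).trace - 2) * ((A * B).trace + 2 - A.trace ^ 2)) := by
  rw [Matrix.det_fin_two] at hA hB
  rw [Matrix.trace_fin_two, Matrix.trace_fin_two] at ht
  rw [Matrix.det_fin_two]
  simp only [Matrix.sub_apply, Matrix.mul_apply, Fin.sum_univ_two, Matrix.trace_fin_two]
  have hb : B 1 1 = A 0 0 + A 1 1 - B 0 0 := by linear_combination -ht
  rw [hb] at hB ⊢
  linear_combination (-(A 0 0 + A 1 1) ^ 2 + 4 * (B 0 0 * (A 0 0 + A 1 1 - B 0 0) - B 0 1 * B 1 0)) * hA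
    + (-(A 0 0 + A 1 1) ^ 2 + 4) * hB

/-- the coordinate of `B` in the basis `1, A, B, A B` -/
private theorem wss_indep {F : Type*} [Field F] (A B : Matrix (Fin 2) (Fin 2) F)
    (hd : (A * B - B * A).det ≠ 0) (c₀ c₁ c₂ c₃ : F)
    (h : c₀ • (1 : Matrix (Fin 2) (Fin 2) F) + c₁ • A + c₂ • B + c₃ • (A * B) = 0) : c₂ = 0 := by
  set C := A * B - B * A with hC
  have h1 : (c₂ • (1 : Matrix (Fin 2) (Fin 2) F) + c₃ • A) * C = 0 := by
    have h2 : A * (c₀ • (1 : Matrix (Fin 2) (Fin 2) F) + c₁ • A + c₂ • B + c₃ • (A * B)) -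
        (c₀ • (1 : Matrix (Fin 2) (Fin 2) F) + c₁ • A + c₂ • B + c₃ • (A * B)) * A = 0 := by
      rw [h]
      simp
    rw [← h2, hC]
    simp only [add_mul, mul_add, smul_mul_assoc, mul_smul_comm, one_mul, mul_one, mul_sub,
      mul_assoc]
    abel
  have h3 : (c₂ • (1 : Matrix (Fin 2) (Fin 2) F) + c₃ • A) = 0 := by
    have h4 : (c₂ • (1 : Matrix (Fin 2) (Fin 2) F) + c₃ • A) * C * C.adjugate = 0 := by
      rw [h1, zero_mul]
    rw [mul_assoc, Matrix.mul_adjugate, mul_smul_comm, mul_one] at h4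
    exact (smul_eq_zero.mp h4).resolve_left hd
  by_cases h5 : c₃ = 0
  · rw [h5, zero_smul, add_zero] at h3
    have h6 := congrFun (congrFun h3 0) 0
    simpa using h6
  · exfalso
    have h6 : A = (-(c₃⁻¹ * c₂)) • (1 : Matrix (Fin 2) (Fin 2) F) := by
      have h7 : c₃⁻¹ • (c₂ • (1 : Matrix (Fin 2) (Fin 2) F) + c₃ • A) = 0 := by
        rw [h3, smul_zero]
      rw [smul_add, smul_smul, smul_smul, inv_mul_cancel₀ h5, one_smul] at h7
      rw [neg_smul]
      exact eq_neg_of_add_eq_zero_right h7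
    apply hd
    rw [hC, h6]
    simp

/-- the linear combination with given coordinates -/
private def comb {F : Type*} [Field F] (A B : Matrix (Fin 2) (Fin 2) F) (c₀ c₁ c₂ c₃ : F) :
    Matrix (Fin 2) (Fin 2) F :=
  c₀ • (1 : Matrix (Fin 2) (Fin 2) F) + c₁ • A + c₂ • B + c₃ • (A * B)

private theorem wss_La {F : Type*} [Field F] (A B : Matrix (Fin 2) (Fin 2) F) (hA : A.det = 1)
    (c₀ c₁ c₂ c₃ : F) :
    A * comb A B c₀ c₁ c₂ c₃ =
      comb A B (-c₁) (c₀ + A.trace * c₁) (-c₃) (c₂ + A.trace * c₃) := by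
  unfold comb
  simp only [mul_add, mul_smul_comm, mul_one]
  rw [← mul_assoc A A B, wss_ch A hA, sub_mul, one_mul, smul_mul_assoc]
  simp only [smul_sub, smul_smul, add_smul, neg_smul]
  rw [mul_comm A.trace c₁, mul_comm A.trace c₃]
  abel

private theorem wss_Lb {F : Type*} [Field F] (A B : Matrix (Fin 2) (Fin 2) F)
    (hB : B.det = 1) (c₀ c₁ c₂ c₃ : F) :
    B * comb A B c₀ c₁ c₂ c₃ =
      comb A B (c₁ * ((A * B).trace - A.trace * B.trace) - c₂ - A.trace * c₃)
        (B.trace * c₁ + c₃) (c₀ + A.trace * c₁ + B.trace * c₂ + (A * B).trace * c₃) (-c₁) := by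
  unfold comb
  simp only [mul_add, mul_smul_comm, mul_one]
  rw [wss_ch B hB, wss_bab A B hB, wss_polar A B]
  simp only [smul_sub, smul_add, smul_smul, add_smul, neg_smul, sub_smul, smul_neg]
  rw [mul_comm A.trace c₁, mul_comm A.trace c₃, mul_comm B.trace c₁, mul_comm B.trace c₂,
    mul_comm (A * B).trace c₃, mul_sub, sub_smul]
  abel

private def wd {F : Type*} [Field F] (a b : SL2 F) : List Bool → SL2 F
  | [] => 1
  | s :: l => (if s then a else a⁻¹) * (b * wd a b l)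

private theorem wss_inv {F : Type*} [Field F] (a : SL2 F) :
    ((a⁻¹ : SL2 F) : Matrix (Fin 2) (Fin 2) F) =
      tr a • (1 : Matrix (Fin 2) (Fin 2) F) - (a : Matrix (Fin 2) (Fin 2) F) := by
  rw [inv_coe, tr_eq]
  ext i j
  fin_cases i <;> fin_cases j <;> simp

private theorem wss_Lai {F : Type*} [Field F] (a b : SL2 F) (c₀ c₁ c₂ c₃ : F) :
    ((a⁻¹ : SL2 F) : Matrix (Fin 2) (Fin 2) F) *
        comb (a : Matrix (Fin 2) (Fin 2) F) (b : Matrix (Fin 2) (Fin 2) F) c₀ c₁ c₂ c₃ =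
      comb (a : Matrix (Fin 2) (Fin 2) F) (b : Matrix (Fin 2) (Fin 2) F) (tr a * c₀ + c₁) (-c₀)
        (tr a * c₂ + c₃) (-c₂) := by
  rw [wss_inv, sub_mul, smul_mul_assoc, one_mul, wss_La _ _ a.det_coe]
  unfold comb tr
  simp only [smul_smul, add_smul, neg_smul, smul_add]
  abel

open Polynomial in
/-- coordinates of the word with the sign `s` in front -/
private theorem wss_stepA {F : Type*} [Field F] (E₀ : Subfield F) (a b : SL2 F) (τ z : F)
    (ha : tr a = τ) (τ' : E₀) (hτ' : (τ' : F) = τ) (hτ : τ ≠ 0)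
    (g : SL2 F) (n : ℕ) (p₀ p₁ p₂ p₃ : E₀[X])
    (h1 : ∀ m, n < m → p₀.coeff m = 0 ∧ p₁.coeff m = 0 ∧ p₂.coeff m = 0 ∧ p₃.coeff m = 0)
    (h2 : p₀.coeff n = 0) (h3 : p₁.coeff n = 0) (h4 : p₂.coeff n ≠ 0) (h5 : p₃.coeff n = 0)
    (h6 : ((g : SL2 F) : Matrix (Fin 2) (Fin 2) F) =
        comb (a : Matrix (Fin 2) (Fin 2) F) (b : Matrix (Fin 2) (Fin 2) F)
          (aeval z p₀) (aeval z p₁) (aeval z p₂) (aeval z p₃)) (s : Bool) :
    ∃ q₀ q₁ q₂ q₃ : E₀[X],
      (∀ m, n < m → q₀.coeff m = 0 ∧ q₁.coeff m = 0 ∧ q₂.coeff m = 0 ∧ q₃.coeff m = 0) ∧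
      q₁.coeff n = 0 ∧ q₃.coeff n ≠ 0 ∧ (q₂.coeff n = 0 ↔ s = true) ∧
      (((if s then a else a⁻¹) * g : SL2 F) : Matrix (Fin 2) (Fin 2) F) =
        comb (a : Matrix (Fin 2) (Fin 2) F) (b : Matrix (Fin 2) (Fin 2) F)
          (aeval z q₀) (aeval z q₁) (aeval z q₂) (aeval z q₃) := by
  have hτ0 : τ' ≠ 0 := by
    rintro rfl
    apply hτ
    rw [← hτ']
    rfl
  have hal : algebraMap E₀ F τ' = τ := hτ'
  cases s with
  | true =>
    refine ⟨-p₁, p₀ + C τ' * p₁, -p₃, p₂ + C τ' * p₃, ?_, ?_, ?_, ?_, ?_⟩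
    · intro m hm
      obtain ⟨k0, k1, k2, k3⟩ := h1 m hm
      simp [coeff_C_mul, k0, k1, k2, k3]
    · simp [coeff_C_mul, h2, h3]
    · simpa [coeff_C_mul, h5] using h4
    · simp [h5]
    · rw [if_pos rfl, Matrix.SpecialLinearGroup.coe_mul, h6, wss_La _ _ a.det_coe]
      have ha' : (a : Matrix (Fin 2) (Fin 2) F).trace = τ := ha
      rw [ha']
      simp [hal]
  | false =>
    refine ⟨C τ' * p₀ + p₁, -p₀, C τ' * p₂ + p₃, -p₂, ?_, ?_, ?_, ?_, ?_⟩
    · intro m hm
      obtain ⟨k0, k1, k2, k3⟩ := h1 m hm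
      simp [coeff_C_mul, k0, k1, k2, k3]
    · simp [h2]
    · simpa using h4
    · simp [coeff_C_mul, h5, h4, hτ0]
    · rw [if_neg (by simp), Matrix.SpecialLinearGroup.coe_mul, h6, wss_Lai, ha]
      simp [hal]

open Polynomial in
private theorem wss_rep {F : Type*} [Field F] (E₀ : Subfield F) (a b : SL2 F) (τ z : F)
    (ha : tr a = τ) (hb : tr b = τ) (hz : tr (a * b) = z) (τ' : E₀) (hτ' : (τ' : F) = τ)
    (hτ : τ ≠ 0) (l : List Bool) :
    ∃ p₀ p₁ p₂ p₃ : E₀[X],
      (∀ m, l.length < m → p₀.coeff m = 0 ∧ p₁.coeff m = 0 ∧ p₂.coeff m = 0 ∧ p₃.coeff m = 0) ∧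
      p₀.coeff l.length = 0 ∧ p₁.coeff l.length = 0 ∧ p₂.coeff l.length ≠ 0 ∧
      p₃.coeff l.length = 0 ∧
      ((b * wd a b l : SL2 F) : Matrix (Fin 2) (Fin 2) F) =
        comb (a : Matrix (Fin 2) (Fin 2) F) (b : Matrix (Fin 2) (Fin 2) F)
          (aeval z p₀) (aeval z p₁) (aeval z p₂) (aeval z p₃) := by
  induction l with
  | nil =>
    refine ⟨0, 0, 1, 0, ?_, ?_, ?_, ?_, ?_, ?_⟩
    · intro m hm
      simp only [List.length_nil] at hm
      simp [Polynomial.coeff_one, hm.ne']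
    · simp
    · simp
    · simp
    · simp
    · simp [wd, comb]
  | cons s l ih =>
    obtain ⟨p₀, p₁, p₂, p₃, h1, h2, h3, h4, h5, h6⟩ := ih
    obtain ⟨q₀, q₁, q₂, q₃, k1, k2, k3, -, k4⟩ := wss_stepA E₀ a b τ z ha τ' hτ' hτ _ _ p₀ p₁ p₂ p₃
      h1 h2 h3 h4 h5 h6 s
    have ha' : (a : Matrix (Fin 2) (Fin 2) F).trace = τ := ha
    have hb' : (b : Matrix (Fin 2) (Fin 2) F).trace = τ := hb
    have hz' : ((a : Matrix (Fin 2) (Fin 2) F) * (b : Matrix (Fin 2) (Fin 2) F)).trace = z := by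
      rw [← Matrix.SpecialLinearGroup.coe_mul]
      exact hz
    have hal : algebraMap E₀ F τ' = τ := hτ'
    refine ⟨X * q₁ - C (τ' * τ') * q₁ - q₂ - C τ' * q₃, C τ' * q₁ + q₃,
      q₀ + C τ' * q₁ + C τ' * q₂ + X * q₃, -q₁, ?_, ?_, ?_, ?_, ?_, ?_⟩
    · intro m hm
      rw [List.length_cons] at hm
      obtain ⟨m, rfl⟩ : ∃ m', m = m' + 1 := ⟨m - 1, by omega⟩
      obtain ⟨j0, j1, j2, j3⟩ := k1 m (by omega)
      obtain ⟨i0, i1, i2, i3⟩ := k1 (m + 1) (by omega)
      refine ⟨?_, ?_, ?_, ?_⟩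
      · rw [coeff_sub, coeff_sub, coeff_sub, coeff_X_mul, coeff_C_mul, coeff_C_mul, j1, i1, i2, i3]
        simp
      · rw [coeff_add, coeff_C_mul, i1, i3]
        simp
      · rw [coeff_add, coeff_add, coeff_add, coeff_X_mul, coeff_C_mul, coeff_C_mul, i0, i1, i2, j3]
        simp
      · rw [coeff_neg, i1, neg_zero]
    · obtain ⟨i0, i1, i2, i3⟩ := k1 (l.length + 1) (by omega)
      rw [List.length_cons]
      rw [coeff_sub, coeff_sub, coeff_sub, coeff_X_mul, coeff_C_mul, coeff_C_mul, k2, i1, i2, i3]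
      simp
    · obtain ⟨i0, i1, i2, i3⟩ := k1 (l.length + 1) (by omega)
      rw [List.length_cons]
      rw [coeff_add, coeff_C_mul, i1, i3]
      simp
    · obtain ⟨i0, i1, i2, i3⟩ := k1 (l.length + 1) (by omega)
      rw [List.length_cons]
      rw [coeff_add, coeff_add, coeff_add, coeff_X_mul, coeff_C_mul, coeff_C_mul, i0, i1, i2]
      simpa using k3
    · obtain ⟨i0, i1, i2, i3⟩ := k1 (l.length + 1) (by omega)
      rw [List.length_cons]
      simp [i1]
    · rw [wd, Matrix.SpecialLinearGroup.coe_mul b, k4, wss_Lb _ _ b.det_coe, ha', hb', hz']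
      congr 1
      · simp only [map_sub, map_mul, aeval_X, aeval_C, hal]
        ring
      · simp only [map_add, map_mul, aeval_C, hal]
      · simp only [map_add, map_mul, aeval_X, aeval_C, hal]
      · simp only [map_neg]

/-- a polynomial of small degree is determined by its value at `z` -/
private theorem wss_ev {F : Type*} [Field F] (E₀ : Subfield F) (z : F) (n : ℕ)
    (hn : n < finrank E₀ E₀⟮z⟯) (p : Polynomial E₀) (hp : ∀ m, n < m → p.coeff m = 0)
    (h : Polynomial.aeval z p = 0) : p = 0 := by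
  by_contra hp0
  have hfin : FiniteDimensional E₀ E₀⟮z⟯ := Module.finite_of_finrank_pos (by omega)
  have hint : IsIntegral E₀ z := by
    have h1 := IsIntegral.of_finite E₀ (AdjoinSimple.gen E₀ z)
    exact (IntermediateField.AdjoinSimple.isIntegral_gen E₀ z).mp h1
  rw [IntermediateField.adjoin.finrank hint] at hn
  have h2 := Polynomial.natDegree_le_natDegree (minpoly.degree_le_of_ne_zero E₀ z hp0 h)
  have h3 : p.natDegree ≤ n := Polynomial.natDegree_le_iff_coeff_eq_zero.mpr hp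
  omega

private theorem wss_inj {F : Type*} [Field F] (E₀ : Subfield F) (a b : SL2 F) (τ z : F)
    (ha : tr a = τ) (hb : tr b = τ) (hz : tr (a * b) = z) (hτE : τ ∈ E₀) (hτ : τ ≠ 0)
    (hz2 : z ≠ 2) (hz3 : z ≠ τ ^ 2 - 2) (l : List Bool) : ∀ l' : List Bool,
    l.length = l'.length → l.length ≤ finrank E₀ E₀⟮z⟯ → wd a b l = wd a b l' → l = l' := by
  induction l with
  | nil =>
    intro l' h1 _ _
    rw [List.length_nil] at h1
    exact (List.length_eq_zero_iff.mp h1.symm).symm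
  | cons s l ih =>
    intro l' h1 h2 h3
    cases l' with
    | nil => simp at h1
    | cons s' l' =>
      simp only [List.length_cons, add_left_inj] at h1 h2
      obtain ⟨p₀, p₁, p₂, p₃, u1, u2, u3, u4, u5, u6⟩ :=
        wss_rep E₀ a b τ z ha hb hz ⟨τ, hτE⟩ rfl hτ l
      obtain ⟨q₀, q₁, q₂, q₃, v1, v2, v3, v4, v5⟩ := wss_stepA E₀ a b τ z ha ⟨τ, hτE⟩ rfl hτ _ _
        p₀ p₁ p₂ p₃ u1 u2 u3 u4 u5 u6 s
      obtain ⟨p₀', p₁', p₂', p₃', u1', u2', u3', u4', u5', u6'⟩ :=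
        wss_rep E₀ a b τ z ha hb hz ⟨τ, hτE⟩ rfl hτ l'
      obtain ⟨q₀', q₁', q₂', q₃', v1', v2', v3', v4', v5'⟩ := wss_stepA E₀ a b τ z ha ⟨τ, hτE⟩ rfl hτ
        _ _ p₀' p₁' p₂' p₃' u1' u2' u3' u4' u5' u6' s'
      have e1 : comb (a : Matrix (Fin 2) (Fin 2) F) (b : Matrix (Fin 2) (Fin 2) F)
          (Polynomial.aeval z q₀) (Polynomial.aeval z q₁) (Polynomial.aeval z q₂) (Polynomial.aeval z q₃) =
          comb (a : Matrix (Fin 2) (Fin 2) F) (b : Matrix (Fin 2) (Fin 2) F)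
          (Polynomial.aeval z q₀') (Polynomial.aeval z q₁') (Polynomial.aeval z q₂')
          (Polynomial.aeval z q₃') := by
        rw [← v5, ← v5']
        exact congrArg _ h3
      have ha' : (a : Matrix (Fin 2) (Fin 2) F).trace = τ := ha
      have hb' : (b : Matrix (Fin 2) (Fin 2) F).trace = τ := hb
      have hz' : ((a : Matrix (Fin 2) (Fin 2) F) * (b : Matrix (Fin 2) (Fin 2) F)).trace = z := by
        rw [← Matrix.SpecialLinearGroup.coe_mul]
        exact hz
      have hd : ((a : Matrix (Fin 2) (Fin 2) F) * (b : Matrix (Fin 2) (Fin 2) F) -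
          (b : Matrix (Fin 2) (Fin 2) F) * (a : Matrix (Fin 2) (Fin 2) F)).det ≠ 0 := by
        rw [wss_det _ _ a.det_coe b.det_coe (by rw [ha', hb']), ha', hz']
        refine neg_ne_zero.mpr (mul_ne_zero (sub_ne_zero.mpr hz2) ?_)
        intro h
        apply hz3
        linear_combination h
      have e2 : Polynomial.aeval z (q₂ - q₂') = 0 := by
        rw [map_sub]
        refine wss_indep _ _ hd (Polynomial.aeval z q₀ - Polynomial.aeval z q₀')
          (Polynomial.aeval z q₁ - Polynomial.aeval z q₁') _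
          (Polynomial.aeval z q₃ - Polynomial.aeval z q₃') ?_
        unfold comb at e1
        simp only [sub_smul]
        rw [← sub_eq_zero] at e1
        rw [← e1]
        abel
      have e3 : q₂ - q₂' = 0 := by
        refine wss_ev E₀ z l.length (by omega) _ ?_ e2
        intro m hm
        rw [Polynomial.coeff_sub, (v1 m hm).2.2.1, (v1' m (by omega)).2.2.1, sub_zero]
      rw [sub_eq_zero] at e3
      have e4 : s = s' := by
        rw [e3, h1] at v4
        have h5 := v4.symm.trans v4'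
        exact Bool.eq_iff_iff.mpr h5
      subst e4
      rw [wd, wd, mul_right_inj, mul_right_inj] at h3
      rw [ih l' h1 (by omega) h3]

private theorem wss_words_finite {G : Type*} [Group G] (S : Set G) (hS : S.Finite) (n : ℕ) :
    (Words S n).Finite := by
  have hT : ({x : G | x ∈ S ∨ x⁻¹ ∈ S}).Finite := by
    have h1 : {x : G | x ∈ S ∨ x⁻¹ ∈ S} = S ∪ S⁻¹ := by
      ext x
      simp
    rw [h1]
    exact hS.union hS.inv
  have : Finite {x : G // x ∈ S ∨ x⁻¹ ∈ S} := hT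
  have h2 := List.finite_length_le {x : G // x ∈ S ∨ x⁻¹ ∈ S} n
  refine (h2.image (fun l => (l.map Subtype.val).prod)).subset ?_
  rintro g ⟨l, hl, h3, h4⟩
  refine ⟨l.attach.map (fun x => ⟨x.1, h3 x.1 x.2⟩), ?_, ?_⟩
  · simpa using hl
  · simp only [List.map_map]
    rw [← h4]
    congr 1
    exact List.attach_map_subtype_val l

/-- the same statement without the hypothesis `τ² ≠ 4` and without the loss of a factor 2 -/
theorem wordsAll {F : Type*} [Field F] (E₀ : Subfield F) (a b : SL2 F) (τ z : F)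
    (ha : tr a = τ) (hb : tr b = τ) (hz : tr (a * b) = z) (hτE : τ ∈ E₀) (hτ : τ ≠ 0)
    (hz2 : z ≠ 2) (hz3 : z ≠ τ ^ 2 - 2) (ℓ : ℕ) (hℓ : ℓ ≤ finrank E₀ E₀⟮z⟯) :
    2 ^ ℓ ≤ ball ({a, b} : Set (SL2 F)) (2 * ℓ) := by
  let f : (Fin ℓ → Bool) → SL2 F := fun ε => wd a b (List.ofFn ε)
  have hf : Function.Injective f := by
    intro ε ε' h
    have h1 := wss_inj E₀ a b τ z ha hb hz hτE hτ hz2 hz3 (List.ofFn ε) (List.ofFn ε') (by simp)
      (by simpa using hℓ) h
    exact List.ofFn_injective h1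
  have hw : ∀ l : List Bool, wd a b l ∈ Words ({a, b} : Set (SL2 F)) (2 * l.length) := by
    intro l
    induction l with
    | nil => exact one_mem_words _
    | cons s l ih =>
      rw [wd, List.length_cons]
      have h1 : (if s then a else a⁻¹) ∈ Words ({a, b} : Set (SL2 F)) 1 := by
        cases s with
        | true => exact mem_words_one (by simp)
        | false => exact inv_mem_words (mem_words_one (by simp))
      have h2 : b ∈ Words ({a, b} : Set (SL2 F)) 1 := mem_words_one (by simp)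
      exact words_mono (by omega) (mul_mem_words h1 (mul_mem_words h2 ih))
  unfold ball
  have h3 : Set.range f ⊆ Words ({a, b} : Set (SL2 F)) (2 * ℓ) := by
    rintro g ⟨ε, rfl⟩
    have := hw (List.ofFn ε)
    simpa [f] using this
  have h4 := Set.ncard_le_ncard h3 (wss_words_finite _ (by simp) _)
  refine le_trans (le_of_eq ?_) h4
  rw [← Set.image_univ, Set.ncard_image_of_injective _ hf, Set.ncard_univ]
  simp

theorem wordsSS {F : Type*} [Field F] (E₀ : Subfield F) (a b : SL2 F) (τ z : F)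
    (ha : tr a = τ) (hb : tr b = τ) (hz : tr (a * b) = z) (hτE : τ ∈ E₀) (hτ : τ ≠ 0)
    (hτ4 : τ ^ 2 ≠ 4) (hz2 : z ≠ 2) (hz3 : z ≠ τ ^ 2 - 2) (ℓ : ℕ)
    (hℓ : 2 * (ℓ + 2) ≤ finrank E₀ E₀⟮z⟯) :
    2 ^ ℓ ≤ ball ({a, b} : Set (SL2 F)) (2 * ℓ) :=
  wordsAll E₀ a b τ z ha hb hz hτE hτ hz2 hz3 ℓ (by omega)

end Pool.Agent.Helper72.PT
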