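import Pool.Agent.Helper72.PT.WordsSS

/-! # PT-WordsUni

Exponential growth up to the degree of the trace, case `τ² = 4`, `τ ≠ 0` (so the characteristic is not 2).

Here `τ = 2` or `τ = -2` lies in the prime field, and `z ≠ 2 = τ² - 2`, so that
`tr [a, b] - 2 = (z - 2) (z + 2 - τ²) = (z - 2)² ≠ 0`: the matrices `1, a, b, a b` are linearly independent, and the proof
of the semisimple case (`wordsAll` in `WordsSS`) applies without any change.
-/

namespace Pool.Agent.Helper72.PT

open Matrix Module Pool.Agent.Helper72.TV IntermediateField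

theorem wordsUni {F : Type*} [Field F] (E₀ : Subfield F) (a b : SL2 F) (τ z : F)
    (ha : tr a = τ) (hb : tr b = τ) (hz : tr (a * b) = z) (hτ : τ ≠ 0)
    (hτ4 : τ ^ 2 = 4) (hz2 : z ≠ 2) (ℓ : ℕ)
    (hℓ : 2 * (ℓ + 2) ≤ finrank E₀ E₀⟮z⟯) :
    2 ^ ℓ ≤ ball ({a, b} : Set (SL2 F)) (2 * ℓ) := by
  have h2 : (2 : F) ∈ E₀ := by
    have h := natCast_mem E₀ 2
    exact_mod_cast h
  have hτE : τ ∈ E₀ := by
    have h1 : (τ - 2) * (τ + 2) = 0 := by linear_combination hτ4
    rcases mul_eq_zero.mp h1 with h | h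
    · rw [sub_eq_zero.mp h]
      exact h2
    · rw [eq_neg_of_add_eq_zero_left h]
      exact neg_mem h2
  refine wordsAll E₀ a b τ z ha hb hz hτE hτ hz2 ?_ ℓ (by omega)
  intro h
  apply hz2
  rw [h, hτ4]
  norm_num

end Pool.Agent.Helper72.PT
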