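import Pool.Agent.Helper72.TV.Main
import Pool.Agent.Helper72.PT.PairF2
import Pool.Agent.Helper72.PT.ChooseW
import Pool.Agent.Helper72.PT.BallLin

/-! # Generating sets of `SL₂(F)` containing an element with trace in a small subfield -/

namespace Pool.Agent.Helper72.PT

open Matrix Module Pool.Agent.Helper72.TV

theorem card_sl_le {F : Type} [Field F] [Fintype F] :
    Nat.card (SL2 F) ≤ Fintype.card F ^ 4 := by
  have h1 : Nat.card (SL2 F) ≤ Nat.card (F × F × F × F) := by
    refine Nat.card_le_card_of_injective (fun g : SL2 F =>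
      ((g : Matrix (Fin 2) (Fin 2) F) 0 0, (g : Matrix (Fin 2) (Fin 2) F) 0 1,
        (g : Matrix (Fin 2) (Fin 2) F) 1 0, (g : Matrix (Fin 2) (Fin 2) F) 1 1)) ?_
    intro g h hgh
    simp only [Prod.mk.injEq] at hgh
    obtain ⟨h1, h2, h3, h4⟩ := hgh
    apply Matrix.SpecialLinearGroup.ext
    intro i j
    fin_cases i <;> fin_cases j
    · exact h1
    · exact h2
    · exact h3
    · exact h4
  have h2 : Nat.card (F × F × F × F) = Fintype.card F ^ 4 := by
    rw [Nat.card_prod, Nat.card_prod, Nat.card_prod, Nat.card_eq_fintype_card]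
    ring
  exact h1.trans h2.le

theorem card_field_le_sl {F : Type} [Field F] [Fintype F] :
    Fintype.card F ≤ Nat.card (SL2 F) := by
  have hfin : Finite (SL2 F) := Finite.of_injective
    (fun g : SL2 F => (g : Matrix (Fin 2) (Fin 2) F)) Subtype.val_injective
  rw [← Nat.card_eq_fintype_card]
  refine Nat.card_le_card_of_injective (fun x : F => uu x) ?_
  intro x y hxy
  have h := congrArg (fun g : SL2 F => (g : Matrix (Fin 2) (Fin 2) F) 0 1) hxy
  simpa [uu_coe] using h

/-- every element of a finite group generated by `S` is a word of length at most the order -/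
theorem words_card {F : Type} [Field F] [Fintype F] (S : Set (SL2 F))
    (hS : Subgroup.closure S = ⊤) (g : SL2 F) : g ∈ Words S (Nat.card (SL2 F)) := by
  have hfinG : Finite (SL2 F) := Finite.of_injective
    (fun g : SL2 F => (g : Matrix (Fin 2) (Fin 2) F)) Subtype.val_injective
  have hfin : (Subgroup.closure S : Set (SL2 F)).Finite := Set.toFinite _
  have h := ballLin S hfin (Nat.card (SL2 F))
  have hcard : Nat.card (Subgroup.closure S) = Nat.card (SL2 F) := by
    rw [hS]
    exact Subgroup.card_top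
  rw [hcard, min_eq_right (by omega)] at h
  unfold ball at h
  have h2 : Words S (Nat.card (SL2 F)) = Set.univ := by
    apply Set.eq_of_subset_of_ncard_le (Set.subset_univ _)
    rw [Set.ncard_univ]
    exact h
  rw [h2]
  exact Set.mem_univ g

theorem finalX2 : ∃ C : ℝ, 0 < C ∧ ∀ (F : Type) [Field F] [Fintype F] (S : Set (SL2 F)),
    Subgroup.closure S = ⊤ → ∀ (ℓ : ℕ) (a : SL2 F), a ∈ Words S ℓ →
    (a : Matrix (Fin 2) (Fin 2) F) ≠ 1 → (a : Matrix (Fin 2) (Fin 2) F) ≠ -1 → tr a ≠ 0 →
    ∀ F₀ : Subfield F, tr a ∈ F₀ → ∀ g : SL2 F, ∃ n : ℕ, g ∈ Words S n ∧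
      (n : ℝ) ≤ C * ℓ * Real.log (Nat.card F₀) ^ 8 * Real.log (Nat.card (SL2 F)) := by
  obtain ⟨C1, hC1, hpair⟩ := pairF2
  obtain ⟨m, q₀, hchoose⟩ := chooseW C1
  obtain ⟨C2, hC2, hmain⟩ := TV.main 2 le_rfl
  have hlog2 : 0 < Real.log 2 := Real.log_pos (by norm_num)
  refine ⟨(q₀ : ℝ) ^ 4 / Real.log 2 ^ 9 + C2 * C1 * (1 + 2 * m), ?_, ?_⟩
  · have h1 : (1 : ℝ) ≤ C1 := by exact_mod_cast hC1
    have h2 : (1 : ℝ) ≤ C2 := by exact_mod_cast hC2
    have h3 : 0 < (C2 : ℝ) * C1 * (1 + 2 * m) := by positivity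
    have h4 : 0 ≤ (q₀ : ℝ) ^ 4 / Real.log 2 ^ 9 := by positivity
    linarith
  · intro F _ _ S hS ℓ a haS ha1 ha2 ha0 F₀ hF₀ g
    have hfinF₀ : Finite F₀ := Subtype.finite
    have hF₀2 : 2 ≤ Nat.card F₀ := Finite.one_lt_card
    have hlogF₀ : Real.log 2 ≤ Real.log (Nat.card F₀) :=
      Real.log_le_log (by norm_num) (by exact_mod_cast hF₀2)
    have hlogF₀0 : 0 < Real.log (Nat.card F₀) := lt_of_lt_of_le hlog2 hlogF₀
    have hF2 : 2 ≤ Fintype.card F := Fintype.one_lt_card
    have hG2 : Fintype.card F ≤ Nat.card (SL2 F) := card_field_le_sl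
    have hlogF0 : 0 < Real.log (Fintype.card F) :=
      Real.log_pos (by exact_mod_cast (by omega : 1 < Fintype.card F))
    have hlogG : Real.log (Fintype.card F) ≤ Real.log (Nat.card (SL2 F)) :=
      Real.log_le_log (by exact_mod_cast (by omega : 0 < Fintype.card F))
        (by exact_mod_cast hG2)
    have hlogG2 : Real.log 2 ≤ Real.log (Nat.card (SL2 F)) :=
      le_trans (Real.log_le_log (by norm_num) (by exact_mod_cast hF2)) hlogG
    have hℓ : 1 ≤ ℓ := by
      rcases Nat.eq_zero_or_pos ℓ with h0 | h0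
      · exfalso
        subst h0
        obtain ⟨l, hl, -, hprod⟩ := haS
        have hl0 : l = [] := List.length_eq_zero_iff.mp (Nat.le_zero.mp hl)
        subst hl0
        rw [List.prod_nil] at hprod
        apply ha1
        rw [← hprod, Matrix.SpecialLinearGroup.coe_one]
      · exact h0
    have hℓ' : (1 : ℝ) ≤ ℓ := by exact_mod_cast hℓ
    have hA : 0 ≤ (q₀ : ℝ) ^ 4 / Real.log 2 ^ 9 := by positivity
    have hB : 0 ≤ (C2 : ℝ) * C1 * (1 + 2 * m) := by positivity
    have hpos : 0 ≤ (ℓ : ℝ) * Real.log (Nat.card F₀) ^ 8 * Real.log (Nat.card (SL2 F)) := by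
      have h1 : 0 ≤ Real.log (Nat.card (SL2 F)) := le_trans hlog2.le hlogG2
      positivity
    by_cases hq : q₀ ≤ Fintype.card F
    · obtain ⟨w, hw, hz2, hz2', hz3, hord⟩ := hchoose F hq S hS a ha1 ha2
      obtain ⟨v, ψ, EF, hv, hψ, hψv, hEF5, n, hn, hnle⟩ :=
        hpair F a (w * a * w⁻¹) (tr_conj w a).symm ha0 hz2 hz2' hz3 hord
      have hletters : ∀ z ∈ ({a, w * a * w⁻¹} : Set (SL2 F)),
          (MonoidHom.id (SL2 F)) z ∈ Words S (ℓ + 2 * m) := by
        intro z hz
        rw [MonoidHom.id_apply]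
        rcases hz with rfl | hz
        · exact words_mono (by omega) haS
        · rw [Set.mem_singleton_iff] at hz
          subst hz
          exact conj_mem_words hw haS
      have hwords : ∀ x : EF, ∃ g ∈ Words S (n * (ℓ + 2 * m)),
          (g : Matrix (Fin 2) (Fin 2) F) = 1 + algebraMap EF F x • Matrix.vecMulVec v ψ := by
        intro x
        obtain ⟨g, hg, hgx⟩ := hn x x.2
        exact ⟨g, map_mem_words (MonoidHom.id (SL2 F)) hletters hg, hgx⟩
      have hfinEF : Finite EF := Subtype.finite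
      have hfintypeEF : Fintype EF := Fintype.ofFinite EF
      have hcardEF : Fintype.card EF = Nat.card EF := (Nat.card_eq_fintype_card).symm
      have hg := hmain EF F (by rw [hcardEF]; exact hEF5) S hS v ψ hv hψ hψv _ hwords g
      refine ⟨_, hg, ?_⟩
      have hlogEF : 0 < Real.log (Nat.card EF) :=
        Real.log_pos (by exact_mod_cast (by omega : 1 < Nat.card EF))
      have hrank : (finrank EF F : ℝ) * Real.log (Nat.card EF) = Real.log (Fintype.card F) := by
        rw [← Real.log_pow]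
        congr 1
        rw [← Nat.card_eq_fintype_card, Module.natCard_eq_pow_finrank (K := EF) (V := F)]
        push_cast
        rfl
      have hcl : Real.log (Nat.card (Subfield.closure ({tr a} : Set F))) ≤
          Real.log (Nat.card F₀) := by
        have hle : Subfield.closure ({tr a} : Set F) ≤ F₀ := by
          rw [Subfield.closure_le]
          rintro x hx
          rw [Set.mem_singleton_iff] at hx
          rw [hx]
          exact hF₀
        have hcard : Nat.card (Subfield.closure ({tr a} : Set F)) ≤ Nat.card F₀ :=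
          Nat.card_le_card_of_injective (Set.inclusion hle) (Set.inclusion_injective hle)
        have hpos : 0 < Nat.card (Subfield.closure ({tr a} : Set F)) := Nat.card_pos
        exact Real.log_le_log (by exact_mod_cast hpos) (by exact_mod_cast hcard)
      have hcl0 : 0 ≤ Real.log (Nat.card (Subfield.closure ({tr a} : Set F))) :=
        Real.log_natCast_nonneg _
      have hpow : Real.log (Nat.card (Subfield.closure ({tr a} : Set F))) ^ 8 ≤
          Real.log (Nat.card F₀) ^ 8 := pow_le_pow_left₀ hcl0 hcl 8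
      have hnle2 : (n : ℝ) ≤ C1 * Real.log (Nat.card EF) * Real.log (Nat.card F₀) ^ 8 :=
        hnle.trans (mul_le_mul_of_nonneg_left hpow (by positivity))
      have hℓm : (ℓ : ℝ) + 2 * m ≤ (1 + 2 * m) * ℓ := by nlinarith [Nat.cast_nonneg (α := ℝ) m]
      push_cast
      calc (C2 : ℝ) * (finrank EF F : ℝ) * ((n : ℝ) * ((ℓ : ℝ) + 2 * m))
          ≤ C2 * (finrank EF F : ℝ) * ((C1 * Real.log (Nat.card EF) *
              Real.log (Nat.card F₀) ^ 8) * ((1 + 2 * m) * ℓ)) := by
            refine mul_le_mul_of_nonneg_left ?_ (by positivity)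
            exact mul_le_mul hnle2 hℓm (by positivity) (by positivity)
        _ = (C2 * C1 * (1 + 2 * m)) * (ℓ * Real.log (Nat.card F₀) ^ 8 *
              ((finrank EF F : ℝ) * Real.log (Nat.card EF))) := by ring
        _ ≤ (C2 * C1 * (1 + 2 * m)) * (ℓ * Real.log (Nat.card F₀) ^ 8 *
              Real.log (Nat.card (SL2 F))) := by
            rw [hrank]
            refine mul_le_mul_of_nonneg_left ?_ hB
            exact mul_le_mul_of_nonneg_left hlogG (by positivity)
        _ ≤ ((q₀ : ℝ) ^ 4 / Real.log 2 ^ 9 + C2 * C1 * (1 + 2 * m)) *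
              (ℓ * Real.log (Nat.card F₀) ^ 8 * Real.log (Nat.card (SL2 F))) :=
            mul_le_mul_of_nonneg_right (by linarith) hpos
        _ = _ := by ring
    · refine ⟨Nat.card (SL2 F), words_card S hS g, ?_⟩
      have h1 : (Nat.card (SL2 F) : ℝ) ≤ (q₀ : ℝ) ^ 4 := by
        have h2 : Nat.card (SL2 F) ≤ q₀ ^ 4 :=
          card_sl_le.trans (Nat.pow_le_pow_left (by omega) 4)
        exact_mod_cast h2
      have h3 : Real.log 2 ^ 9 ≤ ℓ * Real.log (Nat.card F₀) ^ 8 *
          Real.log (Nat.card (SL2 F)) := by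
        have h4 : Real.log 2 ^ 8 ≤ Real.log (Nat.card F₀) ^ 8 :=
          pow_le_pow_left₀ hlog2.le hlogF₀ 8
        calc Real.log 2 ^ 9 = 1 * Real.log 2 ^ 8 * Real.log 2 := by ring
          _ ≤ ℓ * Real.log (Nat.card F₀) ^ 8 * Real.log (Nat.card (SL2 F)) := by
              refine mul_le_mul ?_ hlogG2 hlog2.le (by positivity)
              exact mul_le_mul hℓ' h4 (by positivity) (by positivity)
      calc (Nat.card (SL2 F) : ℝ) ≤ (q₀ : ℝ) ^ 4 := h1
        _ = (q₀ : ℝ) ^ 4 / Real.log 2 ^ 9 * Real.log 2 ^ 9 := by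
            field_simp
        _ ≤ (q₀ : ℝ) ^ 4 / Real.log 2 ^ 9 * (ℓ * Real.log (Nat.card F₀) ^ 8 *
              Real.log (Nat.card (SL2 F))) := mul_le_mul_of_nonneg_left h3 hA
        _ ≤ ((q₀ : ℝ) ^ 4 / Real.log 2 ^ 9 + C2 * C1 * (1 + 2 * m)) *
              (ℓ * Real.log (Nat.card F₀) ^ 8 * Real.log (Nat.card (SL2 F))) :=
            mul_le_mul_of_nonneg_right (by linarith) hpos
        _ = _ := by ring

end Pool.Agent.Helper72.PT
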