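import Pool.Agent.Helper72.PT.FinalX2

/-! # All generating sets of `SL₂(F)`: explicit exponent -/

namespace Pool.Agent.Helper72.PT

open Matrix Module Pool.Agent.Helper72.TV

section

variable {F : Type} [Field F]

/-- commutation up to sign -/
private def sc (g h : SL2 F) : Prop :=
  (g : Matrix (Fin 2) (Fin 2) F) * (h : Matrix (Fin 2) (Fin 2) F) =
      (h : Matrix (Fin 2) (Fin 2) F) * (g : Matrix (Fin 2) (Fin 2) F) ∨
    (g : Matrix (Fin 2) (Fin 2) F) * (h : Matrix (Fin 2) (Fin 2) F) =
      -((h : Matrix (Fin 2) (Fin 2) F) * (g : Matrix (Fin 2) (Fin 2) F))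

private theorem sc_symm {g h : SL2 F} (H : sc g h) : sc h g := by
  rcases H with H | H
  · exact Or.inl H.symm
  · right
    rw [H, neg_neg]

private theorem sc_one (h : SL2 F) : sc 1 h := by
  left
  rw [Matrix.SpecialLinearGroup.coe_one, one_mul, mul_one]

private theorem sc_mul {g g' h : SL2 F} (H : sc g h) (H' : sc g' h) : sc (g * g') h := by
  unfold sc at *
  rw [Matrix.SpecialLinearGroup.coe_mul, mul_assoc]
  rcases H' with H' | H' <;> rw [H']
  · rcases H with H | H
    · left
      rw [← mul_assoc, H, mul_assoc]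
    · right
      rw [← mul_assoc, H, neg_mul, mul_assoc]
  · rcases H with H | H
    · right
      rw [mul_neg, ← mul_assoc, H, mul_assoc]
    · left
      rw [mul_neg, ← mul_assoc, H, neg_mul, neg_neg, mul_assoc]

private theorem coe_inv_mul (g : SL2 F) :
    ((g⁻¹ : SL2 F) : Matrix (Fin 2) (Fin 2) F) * (g : Matrix (Fin 2) (Fin 2) F) = 1 := by
  rw [← Matrix.SpecialLinearGroup.coe_mul, inv_mul_cancel, Matrix.SpecialLinearGroup.coe_one]

private theorem coe_mul_inv (g : SL2 F) :
    (g : Matrix (Fin 2) (Fin 2) F) * ((g⁻¹ : SL2 F) : Matrix (Fin 2) (Fin 2) F) = 1 := by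
  rw [← Matrix.SpecialLinearGroup.coe_mul, mul_inv_cancel, Matrix.SpecialLinearGroup.coe_one]

private theorem sc_inv {g h : SL2 F} (H : sc g h) : sc g⁻¹ h := by
  unfold sc at *
  set G : Matrix (Fin 2) (Fin 2) F := (g : Matrix (Fin 2) (Fin 2) F) with hG
  set I : Matrix (Fin 2) (Fin 2) F := ((g⁻¹ : SL2 F) : Matrix (Fin 2) (Fin 2) F) with hI
  set Hm : Matrix (Fin 2) (Fin 2) F := (h : Matrix (Fin 2) (Fin 2) F) with hH
  have h1 : I * G = 1 := coe_inv_mul g
  have h2 : G * I = 1 := coe_mul_inv g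
  rcases H with H | H
  · left
    calc I * Hm = I * Hm * (G * I) := by rw [h2, mul_one]
      _ = I * (Hm * G) * I := by simp only [mul_assoc]
      _ = I * (G * Hm) * I := by rw [H]
      _ = (I * G) * Hm * I := by simp only [mul_assoc]
      _ = Hm * I := by rw [h1, one_mul]
  · right
    have H' : Hm * G = -(G * Hm) := by rw [H, neg_neg]
    calc I * Hm = I * Hm * (G * I) := by rw [h2, mul_one]
      _ = I * (Hm * G) * I := by simp only [mul_assoc]
      _ = I * (-(G * Hm)) * I := by rw [H']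
      _ = -((I * G) * Hm * I) := by simp only [mul_assoc, mul_neg, neg_mul]
      _ = -(Hm * I) := by rw [h1, one_mul]

private theorem sc_closure (S : Set (SL2 F)) (h : SL2 F) (H : ∀ s ∈ S, sc s h)
    (g : SL2 F) (hg : g ∈ Subgroup.closure S) : sc g h := by
  induction hg using Subgroup.closure_induction with
  | mem x hx => exact H x hx
  | one => exact sc_one h
  | mul x y _ _ hx hy => exact sc_mul hx hy
  | inv x _ hx => exact sc_inv hx

/-- two traceless matrices anticommute up to a scalar -/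
private theorem sc_traceless (s t : SL2 F) (hs : tr s = 0) (ht : tr t = 0) (hst : tr (s * t) = 0) :
    sc s t := by
  right
  rw [tr_eq] at hs ht hst
  rw [Matrix.SpecialLinearGroup.coe_mul] at hst
  simp only [Matrix.mul_apply, Fin.sum_univ_two] at hst
  ext i j
  fin_cases i <;> fin_cases j <;>
    simp only [Matrix.mul_apply, Fin.sum_univ_two, Matrix.neg_apply, Fin.zero_eta, Fin.mk_one,
      Fin.isValue]
  · linear_combination hst + (t : Matrix (Fin 2) (Fin 2) F) 0 0 * hs -
      (s : Matrix (Fin 2) (Fin 2) F) 1 1 * ht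
  · linear_combination (s : Matrix (Fin 2) (Fin 2) F) 0 1 * ht +
      (t : Matrix (Fin 2) (Fin 2) F) 0 1 * hs
  · linear_combination (s : Matrix (Fin 2) (Fin 2) F) 1 0 * ht +
      (t : Matrix (Fin 2) (Fin 2) F) 1 0 * hs
  · linear_combination hst + (t : Matrix (Fin 2) (Fin 2) F) 1 1 * hs -
      (s : Matrix (Fin 2) (Fin 2) F) 0 0 * ht

/-- a generating set has a word of length at most 2 which is not `±1` and has nonzero trace -/
theorem exists_word_two (S : Set (SL2 F)) (hS : Subgroup.closure S = ⊤) :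
    ∃ a ∈ Words S 2, (a : Matrix (Fin 2) (Fin 2) F) ≠ 1 ∧
      (a : Matrix (Fin 2) (Fin 2) F) ≠ -1 ∧ tr a ≠ 0 := by
  by_contra hcon
  push Not at hcon
  have hbase : ∀ s ∈ S, ∀ t ∈ S, sc s t := by
    intro s hs t ht
    by_cases hs1 : (s : Matrix (Fin 2) (Fin 2) F) = 1
    · left
      rw [hs1, one_mul, mul_one]
    by_cases hs2 : (s : Matrix (Fin 2) (Fin 2) F) = -1
    · left
      rw [hs2, neg_one_mul, mul_neg_one]
    by_cases ht1 : (t : Matrix (Fin 2) (Fin 2) F) = 1
    · left
      rw [ht1, one_mul, mul_one]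
    by_cases ht2 : (t : Matrix (Fin 2) (Fin 2) F) = -1
    · left
      rw [ht2, neg_one_mul, mul_neg_one]
    have hs0 := hcon s (words_mono (by omega) (mem_words_one hs)) hs1 hs2
    have ht0 := hcon t (words_mono (by omega) (mem_words_one ht)) ht1 ht2
    have hst : s * t ∈ Words S 2 := mul_mem_words (mem_words_one hs) (mem_words_one ht)
    by_cases hst1 : ((s * t : SL2 F) : Matrix (Fin 2) (Fin 2) F) = 1
    · have h1 : t = s⁻¹ := by
        apply eq_inv_of_mul_eq_one_right
        apply Subtype.ext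
        exact hst1
      rw [h1]
      exact sc_symm (sc_inv (Or.inl rfl))
    by_cases hst2 : ((s * t : SL2 F) : Matrix (Fin 2) (Fin 2) F) = -1
    · left
      rw [Matrix.SpecialLinearGroup.coe_mul] at hst2
      rw [hst2]
      have h1 : (t : Matrix (Fin 2) (Fin 2) F) = -((s⁻¹ : SL2 F) : Matrix (Fin 2) (Fin 2) F) := by
        calc (t : Matrix (Fin 2) (Fin 2) F)
            = ((s⁻¹ : SL2 F) : Matrix (Fin 2) (Fin 2) F) *
              ((s : Matrix (Fin 2) (Fin 2) F) * (t : Matrix (Fin 2) (Fin 2) F)) := by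
                rw [← mul_assoc, coe_inv_mul, one_mul]
          _ = -((s⁻¹ : SL2 F) : Matrix (Fin 2) (Fin 2) F) := by
                rw [hst2, mul_neg_one]
      rw [h1, neg_mul, coe_inv_mul]
    exact sc_traceless s t hs0 ht0 (hcon (s * t) hst hst1 hst2)
  have hall : ∀ g h : SL2 F, sc g h := by
    intro g h
    have hg : g ∈ Subgroup.closure S := by rw [hS]; exact Subgroup.mem_top g
    have hh : h ∈ Subgroup.closure S := by rw [hS]; exact Subgroup.mem_top h
    apply sc_closure S h _ g hg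
    intro s hs
    apply sc_symm
    exact sc_closure S s (fun t ht => hbase t ht s hs) h hh
  have h1 := hall (uu 1) (vv 1)
  unfold sc at h1
  rw [uu_coe, vv_coe] at h1
  have h2 : (1 : F) ≠ 0 := one_ne_zero
  rcases h1 with h1 | h1
  · have h3 := congrFun (congrFun h1 0) 0
    simp [Matrix.mul_apply, Fin.sum_univ_two] at h3
  · have h3 := congrFun (congrFun h1 0) 0
    have h4 := congrFun (congrFun h1 0) 1
    simp [Matrix.mul_apply, Fin.sum_univ_two] at h3 h4
    -- `1 = -1` and `1 + 1 = -1`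
    apply h2
    linear_combination h3 - h4
end

theorem finalE : ∃ C : ℝ, 0 < C ∧ ∀ (F : Type) [Field F] [Fintype F] (S : Set (SL2 F)),
    Subgroup.closure S = ⊤ → ∀ g : SL2 F, ∃ n : ℕ, g ∈ Words S n ∧
      (n : ℝ) ≤ C * Real.log (Nat.card (SL2 F)) ^ 9 := by
  obtain ⟨C, hC, h⟩ := finalX2
  refine ⟨C * 2, by linarith, ?_⟩
  intro F _ _ S hS g
  obtain ⟨a, ha, ha1, ha2, ha0⟩ := exists_word_two S hS
  obtain ⟨n, hn, hle⟩ := h F S hS 2 a ha ha1 ha2 ha0 ⊤ (Subfield.mem_top _) g
  refine ⟨n, hn, hle.trans ?_⟩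
  have hF2 : 2 ≤ Fintype.card F := Fintype.one_lt_card
  have hG2 : Fintype.card F ≤ Nat.card (SL2 F) := card_field_le_sl
  have hcard : Nat.card (⊤ : Subfield F) = Fintype.card F := by
    rw [← Nat.card_eq_fintype_card]
    exact Nat.card_congr (Subfield.topEquiv (K := F)).toEquiv
  rw [hcard]
  have hlogF0 : 0 ≤ Real.log (Fintype.card F) := Real.log_natCast_nonneg _
  have hlogG : Real.log (Fintype.card F) ≤ Real.log (Nat.card (SL2 F)) :=
    Real.log_le_log (by exact_mod_cast (by omega : 0 < Fintype.card F))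
      (by exact_mod_cast hG2)
  have hlogG0 : 0 ≤ Real.log (Nat.card (SL2 F)) := hlogF0.trans hlogG
  have hpow : Real.log (Fintype.card F) ^ 8 ≤ Real.log (Nat.card (SL2 F)) ^ 8 :=
    pow_le_pow_left₀ hlogF0 hlogG 8
  push_cast
  calc C * 2 * Real.log (Fintype.card F) ^ 8 * Real.log (Nat.card (SL2 F))
      ≤ C * 2 * Real.log (Nat.card (SL2 F)) ^ 8 * Real.log (Nat.card (SL2 F)) := by
        refine mul_le_mul_of_nonneg_right (mul_le_mul_of_nonneg_left hpow (by linarith)) hlogG0
    _ = _ := by ring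

end Pool.Agent.Helper72.PT
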