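import Pool.Agent.Helper72.PT.Defs
import Pool.Agent.Helper72.PT.SumProd2

/-! # PT-Finishing

Once the word ball is large, the whole root group over `Eu` is reached.

Plan. `H = closure S`, `N = |H|`, `t x = 1 + x • vecMulVec w (hat w)` (for `x ∈ Eu` this is
the matrix of an element of `H`), `H_w = {g ∈ H | om (act g w) w = 0}.ncard`,
`B' = {b ∈ Words S (2 n) | om (act b w) w = 0}`.
(a) `ball S n * H_w ≤ |B'| * N`: the lines `K act g w`, `g ∈ H`, form an orbit with `N / H_w` elements; by pigeonhole some line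
contains `act g w` for at least `ball S n * H_w / N` elements `g ∈ Words S n`; for a fixed one `g₀` of them,
`g ↦ g₀⁻¹ g ∈ B'` is injective. (Or count pairs `(g, h) ∈ Words S n × H` with `act g w ∥ act h w`: for each `g` there are `H_w` such `h`;
for each `h` at most `|B'|` such `g`.)
(b) `|B'| ≤ 2 |D| |X|` with `D = {μ² | b ∈ B', act b w = μ • w} ⊆ Eu` and `X = {x | ∃ g ∈ Words S (4 n), g = t x} ⊆ Eu`: for fixed `μ`,
if `b₀, b ∈ B'` have eigenvalue `μ` then `b₀⁻¹ b` fixes `w`, so it is `t x` for some `x`, in `Words S (4 n)`; and `μ ↦ μ²` is at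
most 2-to-1.
(c) `|D| |X| > |Eu|`: from (a), (b) `ball S n * H_w ≤ 2 N |D| |X|`. Raise to the power 15:
`ball^15 * H_w^15 ≤ (2 N |D||X|)^15`, `ball^15 ≥ N^12 / C³`, `H_w^15 ≥ N^10 / 9216^15`, `|Eu|^15 ≤ 2⁵ N⁵`. If `|D||X| ≤ |Eu|` then
`N^22 ≤ C³ 9216^15 * 2^15 N^15 * 2⁵ N⁵`, i.e. `N² ≤ C³ 9216^15 2^20`: false for `N ≥ C' := C³ 9216^15 2^20 + 1`.
(d) By `sumProd2` in the finite field `Eu` every `x ∈ Eu` is `Σ ± d_i x_i` with `d_i ∈ D, x_i ∈ X`, and
`t (d x) = b (t x) b⁻¹ ∈ Words S (4 n + 2 * (2 n)) = Words S (8 n)`; `t (-y) = (t y)⁻¹`; the product of 8 factors is in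
`Words S (64 n)` (`t x * t y = t (x + y)`).
-/

namespace Pool.Agent.Helper72.PT

open Matrix Module Pool.Agent.Helper72.TV

private lemma tcoe {K : Type} [Field K] (w : Fin 2 → K) (x : K) :
    (1 + x • Matrix.vecMulVec w (hat w) : Matrix (Fin 2) (Fin 2) K) =
      !![1 - x * (w 0 * w 1), x * (w 0 * w 0); -(x * (w 1 * w 1)), 1 + x * (w 0 * w 1)] := by
  ext i j
  fin_cases i <;> fin_cases j
  · simp [hat]
    ring
  · simp [hat]
  · simp [hat]
  · simp [hat]
    left
    ring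

private lemma tadd {K : Type} [Field K] (w : Fin 2 → K) (x y : K) :
    (1 + x • Matrix.vecMulVec w (hat w)) * (1 + y • Matrix.vecMulVec w (hat w)) =
      (1 + (x + y) • Matrix.vecMulVec w (hat w) : Matrix (Fin 2) (Fin 2) K) := by
  rw [tcoe, tcoe, tcoe, Matrix.mul_fin_two]
  ext i j
  fin_cases i <;> fin_cases j <;> simp <;> ring

private lemma tinv {K : Type} [Field K] (w : Fin 2 → K) (x : K) (g : SL2 K)
    (hg : (g : Matrix (Fin 2) (Fin 2) K) = 1 + x • Matrix.vecMulVec w (hat w)) :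
    ((g⁻¹ : SL2 K) : Matrix (Fin 2) (Fin 2) K) = 1 + (-x) • Matrix.vecMulVec w (hat w) := by
  rw [inv_coe, hg, tcoe, tcoe]
  ext i j
  fin_cases i <;> fin_cases j <;> simp
  ring

private lemma fix_eq {K : Type} [Field K] {w : Fin 2 → K} (hw : w ≠ 0) (b : SL2 K)
    (hb : act b w = w) :
    ∃ x : K, (b : Matrix (Fin 2) (Fin 2) K) = 1 + x • Matrix.vecMulVec w (hat w) := by
  have h0 : (b : Matrix (Fin 2) (Fin 2) K) 0 0 * w 0 +
      (b : Matrix (Fin 2) (Fin 2) K) 0 1 * w 1 = w 0 := by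
    rw [← act_apply_zero, hb]
  have h1 : (b : Matrix (Fin 2) (Fin 2) K) 1 0 * w 0 +
      (b : Matrix (Fin 2) (Fin 2) K) 1 1 * w 1 = w 1 := by
    rw [← act_apply_one, hb]
  have hd := det_eq b
  set p := (b : Matrix (Fin 2) (Fin 2) K) 0 0 with hp
  set q := (b : Matrix (Fin 2) (Fin 2) K) 0 1 with hq
  set r := (b : Matrix (Fin 2) (Fin 2) K) 1 0 with hr
  set u := (b : Matrix (Fin 2) (Fin 2) K) 1 1 with hu
  have hbm : (b : Matrix (Fin 2) (Fin 2) K) = !![p, q; r, u] := by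
    rw [hp, hq, hr, hu]
    exact Matrix.eta_fin_two _
  by_cases hw0 : w 0 = 0
  · have hw1 : w 1 ≠ 0 := by
      intro hw1
      apply hw
      ext i
      fin_cases i
      · exact hw0
      · exact hw1
    rw [hw0] at h0 h1
    have hq0 : q = 0 := by
      have : q * w 1 = 0 := by linear_combination h0
      exact (mul_eq_zero.1 this).resolve_right hw1
    have hu1 : u = 1 := by
      have : (u - 1) * w 1 = 0 := by linear_combination h1
      have := (mul_eq_zero.1 this).resolve_right hw1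
      linear_combination this
    have hp1 : p = 1 := by
      rw [hq0, hu1] at hd
      linear_combination hd
    refine ⟨-(r / (w 1 * w 1)), ?_⟩
    rw [tcoe, hbm, hq0, hu1, hp1, hw0]
    have hr' : r = -(-(r / (w 1 * w 1)) * (w 1 * w 1)) := by
      field_simp
    ext i j
    fin_cases i <;> fin_cases j <;> simp
    field_simp
  · have hu2 : u * w 0 - q * w 1 = w 0 := by
      linear_combination w 0 * hd + q * h1 - u * h0
    refine ⟨q / (w 0 * w 0), ?_⟩
    rw [tcoe, hbm]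
    have e1 : p = 1 - q / (w 0 * w 0) * (w 0 * w 1) := by
      field_simp
      linear_combination h0
    have e2 : q = q / (w 0 * w 0) * (w 0 * w 0) := by
      field_simp
    have e3 : r = -(q / (w 0 * w 0) * (w 1 * w 1)) := by
      field_simp
      have h3 : w 0 * (r * w 0 ^ 2 + q * w 1 ^ 2) = 0 := by
        linear_combination w 0 ^ 2 * h1 - w 0 * w 1 * hu2
      have h4 := (mul_eq_zero.1 h3).resolve_left hw0
      linear_combination h4
    have e4 : u = 1 + q / (w 0 * w 0) * (w 0 * w 1) := by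
      field_simp
      linear_combination hu2
    ext i j
    fin_cases i <;> fin_cases j
    · simpa using e1
    · simpa using e2
    · simpa using e3
    · simpa using e4

private lemma tconj {K : Type} [Field K] (w : Fin 2 → K) (x μ : K) (b g : SL2 K)
    (hb : act b w = μ • w)
    (hg : (g : Matrix (Fin 2) (Fin 2) K) = 1 + x • Matrix.vecMulVec w (hat w)) :
    ((b * g * b⁻¹ : SL2 K) : Matrix (Fin 2) (Fin 2) K) =
      1 + (μ ^ 2 * x) • Matrix.vecMulVec w (hat w) := by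
  have h0 : (b : Matrix (Fin 2) (Fin 2) K) 0 0 * w 0 +
      (b : Matrix (Fin 2) (Fin 2) K) 0 1 * w 1 = μ * w 0 := by
    rw [← act_apply_zero, hb]; simp
  have h1 : (b : Matrix (Fin 2) (Fin 2) K) 1 0 * w 0 +
      (b : Matrix (Fin 2) (Fin 2) K) 1 1 * w 1 = μ * w 1 := by
    rw [← act_apply_one, hb]; simp
  have hd := det_eq b
  rw [Matrix.SpecialLinearGroup.coe_mul, Matrix.SpecialLinearGroup.coe_mul, inv_coe, hg, tcoe,
    tcoe]
  have hbm := Matrix.eta_fin_two (b : Matrix (Fin 2) (Fin 2) K)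
  generalize (b : Matrix (Fin 2) (Fin 2) K) 0 0 = p at *
  generalize (b : Matrix (Fin 2) (Fin 2) K) 0 1 = q at *
  generalize (b : Matrix (Fin 2) (Fin 2) K) 1 0 = r at *
  generalize (b : Matrix (Fin 2) (Fin 2) K) 1 1 = u at *
  rw [hbm, Matrix.mul_fin_two, Matrix.mul_fin_two]
  have e1 : μ ^ 2 * (w 0 * w 1) = (p * w 0 + q * w 1) * (r * w 0 + u * w 1) := by
    rw [h0, h1]; ring
  have e2 : μ ^ 2 * (w 0 * w 0) = (p * w 0 + q * w 1) * (p * w 0 + q * w 1) := by
    rw [h0]; ring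
  have e3 : μ ^ 2 * (w 1 * w 1) = (r * w 0 + u * w 1) * (r * w 0 + u * w 1) := by
    rw [h1]; ring
  ext i j
  fin_cases i <;> fin_cases j
  · simp
    linear_combination hd + x * e1
  · simp
    linear_combination (-x) * e2
  · simp
    linear_combination x * e3
  · simp
    linear_combination hd - x * e1

private lemma tsum {K : Type} [Field K] (S : Set (SL2 K)) (w : Fin 2 → K) (L : ℕ) :
    ∀ (m : ℕ) (f : Fin m → K), (∀ i, ∃ g ∈ Words S L, (g : Matrix (Fin 2) (Fin 2) K) =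
      1 + f i • Matrix.vecMulVec w (hat w)) → ∃ g ∈ Words S (m * L),
      (g : Matrix (Fin 2) (Fin 2) K) = 1 + (∑ i, f i) • Matrix.vecMulVec w (hat w) := by
  intro m
  induction m with
  | zero =>
    intro f _
    exact ⟨1, one_mem_words _, by simp⟩
  | succ m ih =>
    intro f hf
    obtain ⟨g, hg, hg2⟩ := ih (fun i => f i.succ) (fun i => hf i.succ)
    obtain ⟨g0, hg0, hg02⟩ := hf 0
    refine ⟨g0 * g, words_mono ?_ (mul_mem_words hg0 hg), ?_⟩
    · rw [Nat.succ_mul]; omega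
    · rw [Matrix.SpecialLinearGroup.coe_mul, hg02, hg2, tadd, Fin.sum_univ_succ]

private lemma om_trans {K : Type} [Field K] {x y z : Fin 2 → K} (hz : z ≠ 0) (h1 : om x z = 0)
    (h2 : om y z = 0) : om x y = 0 := by
  obtain ⟨c, rfl⟩ := exists_smul_of_om hz h1
  obtain ⟨c2, rfl⟩ := exists_smul_of_om hz h2
  rw [om_smul_left, om_smul_right, om_self]
  ring

open scoped Classical in
private lemma stepA {K : Type} [Field K] (S : Set (SL2 K)) (n : ℕ) (w : Fin 2 → K)
    (hfin : (Subgroup.closure S : Set (SL2 K)).Finite) (hw : w ≠ 0) :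
    ball S n * {g : SL2 K | g ∈ Subgroup.closure S ∧ om (act g w) w = 0}.ncard ≤
      {b : SL2 K | b ∈ Words S (2 * n) ∧ om (act b w) w = 0}.ncard *
        Nat.card (Subgroup.closure S) := by
  set Wf := (words_finite hfin n).toFinset with hWf
  set Hf := hfin.toFinset with hHf
  have hWH : ∀ g ∈ Words S n, g ∈ Subgroup.closure S := fun g hg => words_subset_closure n hg
  have hBfin : {b : SL2 K | b ∈ Words S (2 * n) ∧ om (act b w) w = 0}.Finite :=
    (words_finite hfin (2 * n)).subset (fun b hb => hb.1)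
  have hHwfin : {g : SL2 K | g ∈ Subgroup.closure S ∧ om (act g w) w = 0}.Finite :=
    hfin.subset (fun b hb => hb.1)
  have hcount := Finset.sum_card_bipartiteAbove_eq_sum_card_bipartiteBelow (s := Wf) (t := Hf)
    (fun g h : SL2 K => om (act g w) (act h w) = 0)
  have h1 : ∀ g ∈ Wf, (Hf.bipartiteAbove (fun g h : SL2 K => om (act g w) (act h w) = 0) g).card =
      {g : SL2 K | g ∈ Subgroup.closure S ∧ om (act g w) w = 0}.ncard := by
    intro g hg
    have hgW : g ∈ Words S n := by simpa [hWf] using hg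
    have hgH := hWH g hgW
    rw [Set.ncard_eq_toFinset_card _ hHwfin]
    refine Finset.card_bij (fun h _ => g⁻¹ * h) ?_ ?_ ?_
    · intro h hh
      rw [Finset.mem_bipartiteAbove] at hh
      have hhH : h ∈ Subgroup.closure S := by simpa [hHf] using hh.1
      rw [Set.Finite.mem_toFinset]
      refine ⟨mul_mem (inv_mem hgH) hhH, ?_⟩
      rw [act_mul]
      have h3 : om (act g⁻¹ (act h w)) w = om (act g (act g⁻¹ (act h w))) (act g w) :=
        (om_act g _ _).symm
      rw [h3, act_act_inv, om_swap, hh.2, neg_zero]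
    · intro a _ b _ hab
      exact mul_left_cancel hab
    · intro b hb
      rw [Set.Finite.mem_toFinset] at hb
      refine ⟨g * b, ?_, by simp⟩
      rw [Finset.mem_bipartiteAbove]
      refine ⟨by simpa [hHf] using mul_mem hgH hb.1, ?_⟩
      rw [act_mul, om_act, om_swap, hb.2, neg_zero]
  have h2 : ∀ h ∈ Hf, (Wf.bipartiteBelow (fun g h : SL2 K => om (act g w) (act h w) = 0) h).card ≤
      {b : SL2 K | b ∈ Words S (2 * n) ∧ om (act b w) w = 0}.ncard := by
    intro h _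
    rcases Finset.eq_empty_or_nonempty
      (Wf.bipartiteBelow (fun g h : SL2 K => om (act g w) (act h w) = 0) h) with he | ⟨g0, hg0⟩
    · rw [he]; simp
    · rw [Finset.mem_bipartiteBelow] at hg0
      have hg0W : g0 ∈ Words S n := by simpa [hWf] using hg0.1
      rw [Set.ncard_eq_toFinset_card _ hBfin]
      refine Finset.card_le_card_of_injOn (fun g => g0⁻¹ * g) ?_ ?_
      · intro g hg
        rw [Finset.mem_coe, Finset.mem_bipartiteBelow] at hg
        have hgW : g ∈ Words S n := by simpa [hWf] using hg.1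
        rw [Finset.mem_coe, Set.Finite.mem_toFinset]
        refine ⟨words_mono (by omega) (mul_mem_words (inv_mem_words hg0W) hgW), ?_⟩
        rw [act_mul]
        have h3 : om (act g0⁻¹ (act g w)) w = om (act g0 (act g0⁻¹ (act g w))) (act g0 w) :=
          (om_act g0 _ _).symm
        rw [h3, act_act_inv]
        exact om_trans (act_ne_zero h hw) hg.2 hg0.2
      · intro a _ b _ hab
        exact mul_left_cancel hab
  rw [Finset.sum_congr rfl h1, Finset.sum_const, smul_eq_mul] at hcount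
  have h3 : Wf.card = ball S n := by
    rw [ball, Set.ncard_eq_toFinset_card _ (words_finite hfin n)]
  have h4 : Hf.card = Nat.card (Subgroup.closure S) := by
    have : ((Subgroup.closure S : Set (SL2 K))).ncard = Hf.card := Set.ncard_eq_toFinset_card _ hfin
    rw [← this]
    rfl
  rw [← h3, ← h4, hcount]
  refine le_trans (Finset.sum_le_card_nsmul _ _ _ h2) ?_
  rw [smul_eq_mul, mul_comm]

private lemma numbers {C N b h E DX : ℕ} (hN : C ^ 3 * 9216 ^ 15 * 2 ^ 20 + 1 ≤ N)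
    (h1 : N ^ 4 ≤ C * b ^ 5) (h2 : N ^ 2 ≤ 9216 ^ 3 * h ^ 3) (h3 : E ^ 3 ≤ 2 * N)
    (h4 : b * h ≤ 2 * DX * N) : E < DX := by
  by_contra hcon
  rw [not_lt] at hcon
  have h5 : b * h ≤ 2 * E * N := h4.trans (Nat.mul_le_mul_right _ (Nat.mul_le_mul_left _ hcon))
  have h6 : N ^ 12 ≤ C ^ 3 * b ^ 15 := by
    calc N ^ 12 = (N ^ 4) ^ 3 := by ring
      _ ≤ (C * b ^ 5) ^ 3 := Nat.pow_le_pow_left h1 3
      _ = C ^ 3 * b ^ 15 := by ring
  have h7 : N ^ 10 ≤ 9216 ^ 15 * h ^ 15 := by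
    calc N ^ 10 = (N ^ 2) ^ 5 := by ring
      _ ≤ (9216 ^ 3 * h ^ 3) ^ 5 := Nat.pow_le_pow_left h2 5
      _ = 9216 ^ 15 * h ^ 15 := by ring
  have h8 : E ^ 15 ≤ 2 ^ 5 * N ^ 5 := by
    calc E ^ 15 = (E ^ 3) ^ 5 := by ring
      _ ≤ (2 * N) ^ 5 := Nat.pow_le_pow_left h3 5
      _ = 2 ^ 5 * N ^ 5 := by ring
  have h9 : N ^ 20 * N ^ 2 ≤ N ^ 20 * (C ^ 3 * 9216 ^ 15 * 2 ^ 20) := by
    calc N ^ 20 * N ^ 2 = N ^ 12 * N ^ 10 := by ring
      _ ≤ (C ^ 3 * b ^ 15) * (9216 ^ 15 * h ^ 15) := Nat.mul_le_mul h6 h7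
      _ = C ^ 3 * 9216 ^ 15 * (b * h) ^ 15 := by ring
      _ ≤ C ^ 3 * 9216 ^ 15 * (2 * E * N) ^ 15 :=
        Nat.mul_le_mul_left _ (Nat.pow_le_pow_left h5 15)
      _ = C ^ 3 * 9216 ^ 15 * 2 ^ 15 * N ^ 15 * E ^ 15 := by ring
      _ ≤ C ^ 3 * 9216 ^ 15 * 2 ^ 15 * N ^ 15 * (2 ^ 5 * N ^ 5) := Nat.mul_le_mul_left _ h8
      _ = N ^ 20 * (C ^ 3 * 9216 ^ 15 * 2 ^ 20) := by ring
  have hNpos : 0 < N := by omega
  have h10 : N ^ 2 ≤ C ^ 3 * 9216 ^ 15 * 2 ^ 20 :=
    Nat.le_of_mul_le_mul_left h9 (pow_pos hNpos 20)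
  have h11 : N ≤ N ^ 2 := by nlinarith
  omega

theorem finishing (C : ℕ) : ∃ C' : ℕ, ∀ (K : Type) [Field K] (S : Set (SL2 K)) (n : ℕ)
    (w : Fin 2 → K) (Eu : Subfield K),
    (Subgroup.closure S : Set (SL2 K)).Finite → w ≠ 0 → (Eu : Set K).Finite →
    (∀ x : K, (∃ g ∈ Subgroup.closure S, (g : Matrix (Fin 2) (Fin 2) K) =
      1 + x • Matrix.vecMulVec w (hat w)) ↔ x ∈ Eu) →
    (∀ b ∈ Subgroup.closure S, ∀ μ : K, act b w = μ • w → μ ^ 2 ∈ Eu) →
    Nat.card Eu ^ 3 ≤ 2 * Nat.card (Subgroup.closure S) →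
    Nat.card (Subgroup.closure S) ^ 2 ≤ 9216 ^ 3 *
      {g : SL2 K | g ∈ Subgroup.closure S ∧ om (act g w) w = 0}.ncard ^ 3 →
    C' ≤ Nat.card (Subgroup.closure S) →
    Nat.card (Subgroup.closure S) ^ 4 ≤ C * ball S n ^ 5 →
    ∀ x ∈ Eu, ∃ g ∈ Words S (64 * n), (g : Matrix (Fin 2) (Fin 2) K) =
      1 + x • Matrix.vecMulVec w (hat w) := by
  classical
  refine ⟨C ^ 3 * 9216 ^ 15 * 2 ^ 20 + 1, ?_⟩
  intro K _ S n w Eu hfin hw hEu ht hμ hE3 hHw hN hball x hx
  obtain ⟨i0, hi0⟩ : ∃ i, w i ≠ 0 := by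
    by_contra h
    push Not at h
    exact hw (funext h)
  have hBfin : {b : SL2 K | b ∈ Words S (2 * n) ∧ om (act b w) w = 0}.Finite :=
    (words_finite hfin (2 * n)).subset (fun b hb => hb.1)
  set Bf := hBfin.toFinset with hBf
  have hBmem : ∀ b, b ∈ Bf ↔ b ∈ Words S (2 * n) ∧ om (act b w) w = 0 := by
    intro b
    rw [hBf, Set.Finite.mem_toFinset]
    rfl
  set f : SL2 K → K := fun b => act b w i0 / w i0 with hf
  have hfB : ∀ b ∈ Bf, act b w = f b • w := by
    intro b hb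
    obtain ⟨c, hc⟩ := exists_smul_of_om hw ((hBmem b).1 hb).2
    have : f b = c := by
      rw [hf]
      show act b w i0 / w i0 = c
      rw [hc]
      simp [hi0]
    rw [this, hc]
  have hBH : ∀ b ∈ Bf, b ∈ Subgroup.closure S := fun b hb =>
    words_subset_closure _ ((hBmem b).1 hb).1
  have : Fintype Eu := hEu.fintype
  -- the set of squares of eigenvalues
  set M := Bf.image f with hM
  set DK := M.image (fun μ => μ ^ 2) with hDK
  set XK := hEu.toFinset.filter (fun y => ∃ g ∈ Words S (4 * n),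
    (g : Matrix (Fin 2) (Fin 2) K) = 1 + y • Matrix.vecMulVec w (hat w)) with hXK
  have hMD : M.card ≤ 2 * DK.card := by
    refine Finset.card_le_mul_card_image M 2 ?_
    intro a ha
    obtain ⟨μ0, hμ0, hμa⟩ := Finset.mem_image.1 ha
    have hsub : M.filter (fun μ => μ ^ 2 = a) ⊆ {μ0, -μ0} := by
      intro μ hμ'
      have h1 := (Finset.mem_filter.1 hμ').2
      have h2 : μ ^ 2 = μ0 ^ 2 := h1.trans hμa.symm
      rcases sq_eq_sq_iff_eq_or_eq_neg.1 h2 with h3 | h3
      · rw [h3]; simp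
      · rw [h3]; simp
    exact (Finset.card_le_card hsub).trans Finset.card_le_two
  have hBM : Bf.card ≤ XK.card * M.card := by
    refine Finset.card_le_mul_card_image Bf XK.card ?_
    intro μ hμ'
    obtain ⟨b0, hb0, hb0μ⟩ := Finset.mem_image.1 hμ'
    have key : ∀ b ∈ Bf.filter (fun b => f b = μ), ∃ y ∈ XK,
        ((b0⁻¹ * b : SL2 K) : Matrix (Fin 2) (Fin 2) K) =
          1 + y • Matrix.vecMulVec w (hat w) := by
      intro b hb
      obtain ⟨hb1, hb2⟩ := Finset.mem_filter.1 hb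
      have h1 : act (b0⁻¹ * b) w = w := by
        rw [act_mul, hfB b hb1, hb2, ← hb0μ, ← hfB b0 hb0, act_inv_act]
      obtain ⟨y, hy⟩ := fix_eq hw _ h1
      refine ⟨y, ?_, hy⟩
      rw [hXK, Finset.mem_filter, Set.Finite.mem_toFinset]
      refine ⟨?_, b0⁻¹ * b, ?_, hy⟩
      · exact (ht y).1 ⟨b0⁻¹ * b, mul_mem (inv_mem (hBH b0 hb0)) (hBH b hb1), hy⟩
      · exact words_mono (by omega)
          (mul_mem_words (inv_mem_words ((hBmem b0).1 hb0).1) ((hBmem b).1 hb1).1)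
    choose! φ hφ1 hφ2 using key
    refine Finset.card_le_card_of_injOn φ (fun b hb => hφ1 b hb) ?_
    intro b hb b' hb' hbb
    have h1 := hφ2 b hb
    have h2 := hφ2 b' hb'
    rw [hbb, ← h2] at h1
    have h3 : b0⁻¹ * b = b0⁻¹ * b' := Subtype.ext h1
    exact mul_left_cancel h3
  have hA := stepA S n w hfin hw
  have hBcard : {b : SL2 K | b ∈ Words S (2 * n) ∧ om (act b w) w = 0}.ncard = Bf.card :=
    Set.ncard_eq_toFinset_card _ hBfin
  rw [hBcard] at hA
  have hlt : Nat.card Eu < DK.card * XK.card := by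
    refine numbers hN hball hHw hE3 (hA.trans ?_)
    refine Nat.mul_le_mul_right _ (hBM.trans ?_)
    calc XK.card * M.card ≤ XK.card * (2 * DK.card) := Nat.mul_le_mul_left _ hMD
      _ = 2 * (DK.card * XK.card) := by ring
  -- as subsets of the field Eu
  have hDE : ∀ d ∈ DK, d ∈ Eu := by
    intro d hd
    obtain ⟨μ, hμM, rfl⟩ := Finset.mem_image.1 hd
    obtain ⟨b, hb, rfl⟩ := Finset.mem_image.1 hμM
    exact hμ b (hBH b hb) _ (hfB b hb)
  have hXE : ∀ y ∈ XK, y ∈ Eu := by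
    intro y hy
    have := (Finset.mem_filter.1 hy).1
    rwa [Set.Finite.mem_toFinset] at this
  set A : Finset Eu := Finset.univ.filter (fun d : Eu => (d : K) ∈ DK) with hAdef
  set B : Finset Eu := Finset.univ.filter (fun d : Eu => (d : K) ∈ XK) with hBdef
  have hAc : A.card = DK.card := by
    refine Finset.card_bij (fun d _ => (d : K)) ?_ ?_ ?_
    · intro d hd
      exact (Finset.mem_filter.1 hd).2
    · intro d _ d' _ h
      exact Subtype.ext h
    · intro d hd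
      exact ⟨⟨d, hDE d hd⟩, Finset.mem_filter.2 ⟨Finset.mem_univ _, hd⟩, rfl⟩
  have hBc : B.card = XK.card := by
    refine Finset.card_bij (fun d _ => (d : K)) ?_ ?_ ?_
    · intro d hd
      exact (Finset.mem_filter.1 hd).2
    · intro d _ d' _ h
      exact Subtype.ext h
    · intro d hd
      exact ⟨⟨d, hXE d hd⟩, Finset.mem_filter.2 ⟨Finset.mem_univ _, hd⟩, rfl⟩
  have hcardE : Fintype.card Eu < A.card * B.card := by
    rw [hAc, hBc, ← Nat.card_eq_fintype_card]
    exact hlt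
  obtain ⟨a, c, ha, hc, hxs⟩ := sumProd2 A B hcardE ⟨x, hx⟩
  have hxs' : x = ∑ i : Fin 8, (-1 : K) ^ (i : ℕ) * ((a i : K) * (c i : K)) := by
    have := congrArg (fun z : Eu => (z : K)) hxs
    simpa using this
  have hterm : ∀ i : Fin 8, ∃ g ∈ Words S (8 * n), (g : Matrix (Fin 2) (Fin 2) K) =
      1 + ((-1 : K) ^ (i : ℕ) * ((a i : K) * (c i : K))) • Matrix.vecMulVec w (hat w) := by
    intro i
    have hai : (a i : K) ∈ DK := (Finset.mem_filter.1 (ha i)).2
    have hci : (c i : K) ∈ XK := (Finset.mem_filter.1 (hc i)).2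
    obtain ⟨μ, hμM, hμ2⟩ := Finset.mem_image.1 hai
    obtain ⟨b, hb, hbμ⟩ := Finset.mem_image.1 hμM
    obtain ⟨_, g, hg, hg2⟩ := Finset.mem_filter.1 hci
    have hact : act b w = μ • w := by rw [← hbμ]; exact hfB b hb
    have h1 := tconj w (c i : K) μ b g hact hg2
    have h1w : b * g * b⁻¹ ∈ Words S (8 * n) :=
      words_mono (by omega) (conj_mem_words ((hBmem b).1 hb).1 hg)
    have hμ2' : μ ^ 2 = (a i : K) := hμ2
    rw [hμ2'] at h1
    rcases neg_one_pow_eq_or K (i : ℕ) with h2 | h2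
    · refine ⟨b * g * b⁻¹, h1w, ?_⟩
      rw [h1, h2, one_mul]
    · refine ⟨(b * g * b⁻¹)⁻¹, inv_mem_words h1w, ?_⟩
      rw [tinv w _ _ h1, h2, neg_one_mul]
  obtain ⟨g, hg, hg2⟩ := tsum S w (8 * n) 8 _ hterm
  refine ⟨g, words_mono (by omega) hg, ?_⟩
  rw [hg2, hxs']

end Pool.Agent.Helper72.PT
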