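import Mathlib

/-! # PT-Iter2

Iteration of the sharper growth inequality: exponent 9.

Plan. `F n = log (f n)`, `C₁ = log (2 C₀)`. Claim: if `n₀ ≤ n` and `f n ^ 3 < N ^ 2` then there is `n' > n` with
`n' ≤ 49 n` and `F n' ≥ (n'/n)^(1/9) F n`. Proof: the second alternative and `f n ^ 3 ≤ N ^ 2` give the first one (`f (2n) ≤ f (3n+2)`). So
`f n ^ 6 ≤ C₀ f(3n+2)³ (f(8n)² + f(48n+2e))`. Case `f(48n+2e) ≤ f(8n)²`: `6 F n ≤ 3 F(3n+2) + 2 F(8n) + C₁`. Case `>`: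
`6 F n ≤ 3 F(3n+2) + F(48n+2e) + C₁`. With `n ≥ C ≥ 20`, `n ≥ 2 e`: `3 n + 2 ≤ 3.1 n`, `48 n + 2 e ≤ 49 n`. If `F(3n+2) ≥ 3.1^(1/9) F n`, take
`n' = 3n+2`. Otherwise `3 F(3n+2) ≤ 3 * 3.1^(1/9) F n ≤ 3.403 F n` (`3.1^(1/9) < 1.1341`, i.e. `1.1341^9 > 3.1`), so the rest is
`≥ 2.597 F n - C₁ ≥ 2.55 F n` if `0.047 F n ≥ C₁` (ensured by `F n ≥ log C`): in the first case `F(8n) ≥ 1.275 F n ≥ 8^(1/9) F n`
(`1.275^9 > 8`: indeed `1.26^9 > 8`), in the second `F(48n+2e) ≥ 2.5 F n ≥ 49^(1/9) F n` (`2.5^9 > 49`).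
Iterate (well-founded on the bounded quantity, or choose `n*` maximal/minimal cleverly: since `F ≤ log N` and each step at
least multiplies `n` by more than 1 keeping `F n ≥ (n/n₀)^(1/9) F n₀`, so `n ≤ n₀ R^9` always, `R = log N / log (f n₀)`; there are finitely
many such `n`, take the largest one satisfying `F n ≥ (n/n₀)^(1/9) F n₀`, `n ≥ n₀`: for it `f n ^ 3 ≥ N ^ 2`).
Final step at this `n*`: both alternatives give `N⁴ ≤ 2 C₀ f(49 n*)⁵`. `n₁ = 49 n* ≤ 49 n₀ R^9`.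
`C = max` of `49, 20, 2 e, 2 C₀`, and a number with `0.047 log C ≥ log (2 C₀)`, at least 2.
-/

namespace Pool.Agent.Helper72.PT

private theorem log_six {C₁ a b c : ℕ} {k : ℕ} (ha : 0 < a) (hC : 0 < C₁) (hb : 0 < b) (hc : 0 < c)
    (h : a ^ 6 ≤ C₁ * b ^ 3 * c ^ k) :
    6 * Real.log a ≤ Real.log C₁ + 3 * Real.log b + k * Real.log c := by
  have ha' : (0 : ℝ) < a := by exact_mod_cast ha
  have hb' : (0 : ℝ) < b := by exact_mod_cast hb
  have hc' : (0 : ℝ) < c := by exact_mod_cast hc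
  have hC' : (0 : ℝ) < C₁ := by exact_mod_cast hC
  have h1 : (a : ℝ) ^ 6 ≤ C₁ * b ^ 3 * c ^ k := by exact_mod_cast h
  have h2 := Real.log_le_log (by positivity) h1
  rw [Real.log_pow, Real.log_mul (by positivity) (by positivity),
    Real.log_mul (by positivity) (by positivity), Real.log_pow, Real.log_pow] at h2
  push_cast at h2
  linarith

private theorem step2 {C₀ e : ℕ} {f : ℕ → ℕ} {N n : ℕ} (hmono : Monotone f)
    (hn : 49 ≤ n) (he : 2 * e ≤ n) (hf2 : (2 * C₀ + 1) ^ 22 ≤ f n) (hf1 : 2 ≤ f n)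
    (hN : f n ^ 3 < N ^ 2)
    (h : f n ^ 6 ≤ C₀ * f (3 * n + 2) ^ 3 * (f (8 * n) ^ 2 + f (48 * n + 2 * e)) ∨
        N ^ 2 * f n ^ 3 ≤ C₀ * f (2 * n) ^ 3 * (f (8 * n) ^ 2 + f (48 * n + 2 * e))) :
    ∃ n' : ℕ, n < n' ∧ (n' : ℝ) * Real.log (f n) ^ 9 ≤ n * Real.log (f n') ^ 9 := by
  have hA : f n ^ 6 ≤ C₀ * f (3 * n + 2) ^ 3 * (f (8 * n) ^ 2 + f (48 * n + 2 * e)) := by
    rcases h with h | h
    · exact h
    · have h1 : f (2 * n) ^ 3 ≤ f (3 * n + 2) ^ 3 := Nat.pow_le_pow_left (hmono (by omega)) 3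
      calc f n ^ 6 = f n ^ 3 * f n ^ 3 := by ring
        _ ≤ N ^ 2 * f n ^ 3 := Nat.mul_le_mul_right _ hN.le
        _ ≤ _ := h
        _ ≤ _ := Nat.mul_le_mul_right _ (Nat.mul_le_mul_left _ h1)
  have hpos : ∀ m, n ≤ m → 0 < f m := fun m hm => by
    have := hmono hm
    omega
  have hn' : (49 : ℝ) ≤ n := by exact_mod_cast hn
  have he' : 2 * (e : ℝ) ≤ n := by exact_mod_cast he
  obtain ⟨x, hx⟩ : ∃ x, x = Real.log (f n) := ⟨_, rfl⟩
  have hx0 : 0 < x := by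
    rw [hx]
    exact Real.log_pos (by exact_mod_cast (by omega : 1 < f n))
  have hx9 : 0 < x ^ 9 := by positivity
  have hC1 : Real.log ((2 * C₀ + 1 : ℕ) : ℝ) ≤ x / 22 := by
    have h1 : (((2 * C₀ + 1 : ℕ) : ℝ)) ^ 22 ≤ f n := by exact_mod_cast hf2
    have h0 : (0 : ℝ) < ((2 * C₀ + 1 : ℕ) : ℝ) := by positivity
    have h2 := Real.log_le_log (by positivity) h1
    rw [Real.log_pow, ← hx] at h2
    rw [le_div_iff₀ (by norm_num)]
    push_cast at h2 ⊢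
    linarith
  rw [← hx]
  by_cases h3 : 3.1 * x ^ 9 ≤ Real.log (f (3 * n + 2)) ^ 9
  · refine ⟨3 * n + 2, by omega, ?_⟩
    calc ((3 * n + 2 : ℕ) : ℝ) * x ^ 9 ≤ (3.1 * n) * x ^ 9 := by
          refine mul_le_mul_of_nonneg_right ?_ hx9.le
          push_cast
          linarith
      _ = n * (3.1 * x ^ 9) := by ring
      _ ≤ n * Real.log (f (3 * n + 2)) ^ 9 := mul_le_mul_of_nonneg_left h3 (Nat.cast_nonneg _)
  · have h4 : Real.log (f (3 * n + 2)) < 1.1341 * x := by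
      by_contra hcon
      push Not at hcon
      have h5 := pow_le_pow_left₀ (by positivity) hcon 9
      rw [mul_pow] at h5
      have h6 : (3.1 : ℝ) ≤ 1.1341 ^ 9 := by norm_num
      have h7 := mul_le_mul_of_nonneg_right h6 hx9.le
      exact h3 (h7.trans h5)
    rcases le_or_gt (f (48 * n + 2 * e)) (f (8 * n) ^ 2) with h5 | h5
    · have h6 : f n ^ 6 ≤ (2 * C₀ + 1) * f (3 * n + 2) ^ 3 * f (8 * n) ^ 2 := by
        refine hA.trans ?_
        calc C₀ * f (3 * n + 2) ^ 3 * (f (8 * n) ^ 2 + f (48 * n + 2 * e))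
            ≤ C₀ * f (3 * n + 2) ^ 3 * (f (8 * n) ^ 2 + f (8 * n) ^ 2) :=
              Nat.mul_le_mul_left _ (Nat.add_le_add_left h5 _)
          _ = 2 * C₀ * f (3 * n + 2) ^ 3 * f (8 * n) ^ 2 := by ring
          _ ≤ (2 * C₀ + 1) * f (3 * n + 2) ^ 3 * f (8 * n) ^ 2 :=
              Nat.mul_le_mul_right _ (Nat.mul_le_mul_right _ (by omega))
      have h7 := log_six (hpos n le_rfl) (by omega) (hpos _ (by omega)) (hpos _ (by omega)) h6
      rw [← hx] at h7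
      push_cast at h7 hC1
      refine ⟨8 * n, by omega, ?_⟩
      have h8 : 1.275 * x ≤ Real.log (f (8 * n)) := by linarith
      have h9 := pow_le_pow_left₀ (by positivity) h8 9
      rw [mul_pow] at h9
      have h10 : (8 : ℝ) ≤ 1.275 ^ 9 := by norm_num
      have h11 := mul_le_mul_of_nonneg_right h10 hx9.le
      calc ((8 * n : ℕ) : ℝ) * x ^ 9 = n * (8 * x ^ 9) := by push_cast; ring
        _ ≤ n * Real.log (f (8 * n)) ^ 9 :=
          mul_le_mul_of_nonneg_left (h11.trans h9) (Nat.cast_nonneg _)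
    · have h6 : f n ^ 6 ≤ (2 * C₀ + 1) * f (3 * n + 2) ^ 3 * f (48 * n + 2 * e) ^ 1 := by
        refine hA.trans ?_
        calc C₀ * f (3 * n + 2) ^ 3 * (f (8 * n) ^ 2 + f (48 * n + 2 * e))
            ≤ C₀ * f (3 * n + 2) ^ 3 * (f (48 * n + 2 * e) + f (48 * n + 2 * e)) :=
              Nat.mul_le_mul_left _ (Nat.add_le_add_right h5.le _)
          _ = 2 * C₀ * f (3 * n + 2) ^ 3 * f (48 * n + 2 * e) ^ 1 := by ring
          _ ≤ (2 * C₀ + 1) * f (3 * n + 2) ^ 3 * f (48 * n + 2 * e) ^ 1 :=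
              Nat.mul_le_mul_right _ (Nat.mul_le_mul_right _ (by omega))
      have h7 := log_six (hpos n le_rfl) (by omega) (hpos _ (by omega)) (hpos _ (by omega)) h6
      rw [← hx] at h7
      push_cast at h7 hC1
      refine ⟨48 * n + 2 * e, by omega, ?_⟩
      have h8 : 2.55 * x ≤ Real.log (f (48 * n + 2 * e)) := by linarith
      have h9 := pow_le_pow_left₀ (by positivity) h8 9
      rw [mul_pow] at h9
      have h10 : (49 : ℝ) ≤ 2.55 ^ 9 := by norm_num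
      have h11 := mul_le_mul_of_nonneg_right h10 hx9.le
      calc ((48 * n + 2 * e : ℕ) : ℝ) * x ^ 9 ≤ (49 * n) * x ^ 9 := by
            refine mul_le_mul_of_nonneg_right ?_ hx9.le
            push_cast
            linarith
        _ = n * (49 * x ^ 9) := by ring
        _ ≤ n * Real.log (f (48 * n + 2 * e)) ^ 9 :=
          mul_le_mul_of_nonneg_left (h11.trans h9) (Nat.cast_nonneg _)

theorem iter2 (C₀ e : ℕ) : ∃ C : ℕ, 2 ≤ C ∧ ∀ (f : ℕ → ℕ) (N n₀ : ℕ), (∀ n, f n ≤ N) →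
    Monotone f → C ≤ n₀ → C ≤ f n₀ →
    (∀ n, n₀ ≤ n →
      (f n ^ 6 ≤ C₀ * f (3 * n + 2) ^ 3 * (f (8 * n) ^ 2 + f (48 * n + 2 * e)) ∨
        N ^ 2 * f n ^ 3 ≤ C₀ * f (2 * n) ^ 3 * (f (8 * n) ^ 2 + f (48 * n + 2 * e)))) →
    ∃ n₁ : ℕ, n₀ ≤ n₁ ∧ (n₁ : ℝ) ≤ C * n₀ * (Real.log N / Real.log (f n₀)) ^ 9 ∧
      N ^ 4 ≤ C * f n₁ ^ 5 := by
  obtain ⟨K, hK⟩ : ∃ K, K = (2 * C₀ + 1) ^ 22 := ⟨_, rfl⟩
  have hK1 : 2 * C₀ + 1 ≤ K := by
    rw [hK]
    exact Nat.le_self_pow (by norm_num) _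
  refine ⟨49 + 2 * e + K, by omega, ?_⟩
  intro f N n₀ hfN hmono hn₀ hC hf
  have hbig : ∀ n, n₀ ≤ n → 49 + 2 * e + K ≤ f n := fun n hn => hC.trans (hmono hn)
  have hlogpos : ∀ n, n₀ ≤ n → 0 < Real.log (f n) := fun n hn => by
    have := hbig n hn
    exact Real.log_pos (by exact_mod_cast (by omega : 1 < f n))
  have hlogN : ∀ n, n₀ ≤ n → Real.log (f n) ≤ Real.log N := by
    intro n hn
    have := hbig n hn
    exact Real.log_le_log (by exact_mod_cast (by omega : 0 < f n)) (by exact_mod_cast hfN n)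
  have h0 := hlogpos n₀ le_rfl
  have h09 : 0 < Real.log (f n₀) ^ 9 := pow_pos h0 9
  have hn₀r : (0 : ℝ) < n₀ := by exact_mod_cast (by omega : 0 < n₀)
  -- the set of admissible indices is bounded
  have hbd : ∀ n : ℕ, n₀ ≤ n → (n : ℝ) * Real.log (f n₀) ^ 9 ≤ n₀ * Real.log (f n) ^ 9 →
      (n : ℝ) ≤ n₀ * (Real.log N / Real.log (f n₀)) ^ 9 := by
    intro n hn h
    rw [div_pow, ← mul_div_assoc, le_div_iff₀ h09]
    refine h.trans (mul_le_mul_of_nonneg_left ?_ hn₀r.le)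
    exact pow_le_pow_left₀ (hlogpos n hn).le (hlogN n hn) 9
  classical
  obtain ⟨B, hB⟩ := exists_nat_ge ((n₀ : ℝ) * (Real.log N / Real.log (f n₀)) ^ 9)
  obtain ⟨n, hnmem, hnmax⟩ : ∃ n : ℕ, (n₀ ≤ n ∧
      (n : ℝ) * Real.log (f n₀) ^ 9 ≤ n₀ * Real.log (f n) ^ 9) ∧
      ∀ m : ℕ, (n₀ ≤ m ∧ (m : ℝ) * Real.log (f n₀) ^ 9 ≤ n₀ * Real.log (f m) ^ 9) → m ≤ n := by
    have hP : ∀ m : ℕ, (n₀ ≤ m ∧ (m : ℝ) * Real.log (f n₀) ^ 9 ≤ n₀ * Real.log (f m) ^ 9) →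
        m ≤ B := by
      intro m hm
      have := (hbd m hm.1 hm.2).trans hB
      exact_mod_cast this
    refine ⟨Nat.findGreatest (fun m => n₀ ≤ m ∧
      (m : ℝ) * Real.log (f n₀) ^ 9 ≤ n₀ * Real.log (f m) ^ 9) B, ?_, ?_⟩
    · exact Nat.findGreatest_spec (P := fun m => n₀ ≤ m ∧
        (m : ℝ) * Real.log (f n₀) ^ 9 ≤ n₀ * Real.log (f m) ^ 9)
        (hP n₀ ⟨le_rfl, le_rfl⟩) ⟨le_rfl, le_rfl⟩
    · intro m hm
      exact Nat.le_findGreatest (hP m hm) hm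
  obtain ⟨hnn, hninv⟩ := hnmem
  have hbn := hbig n hnn
  have hfin : N ^ 2 ≤ f n ^ 3 := by
    by_contra hcon
    push Not at hcon
    obtain ⟨n', h1, h2⟩ := step2 (C₀ := C₀) (e := e) (N := N) (n := n) hmono (by omega) (by omega)
      (by rw [← hK]; omega) (by omega) hcon (hf n hnn)
    have h3 : (n' : ℝ) * Real.log (f n₀) ^ 9 ≤ n₀ * Real.log (f n') ^ 9 := by
      have h4 : 0 < (n : ℝ) * Real.log (f n) ^ 9 := by
        have h5 : (0 : ℝ) < n := by exact_mod_cast (by omega : 0 < n)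
        exact mul_pos h5 (pow_pos (hlogpos n hnn) 9)
      have h7 : 0 < Real.log (f n') := hlogpos n' (by omega)
      refine le_of_mul_le_mul_left ?_ h4
      calc (n : ℝ) * Real.log (f n) ^ 9 * (n' * Real.log (f n₀) ^ 9)
          = (n' * Real.log (f n) ^ 9) * (n * Real.log (f n₀) ^ 9) := by ring
        _ ≤ (n * Real.log (f n') ^ 9) * (n₀ * Real.log (f n) ^ 9) := by
            exact mul_le_mul h2 hninv (mul_nonneg (Nat.cast_nonneg _) h09.le)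
              (mul_nonneg (Nat.cast_nonneg _) (pow_pos h7 9).le)
        _ = _ := by ring
    have := hnmax n' ⟨by omega, h3⟩
    omega
  refine ⟨49 * n, by omega, ?_, ?_⟩
  · have h1 := hbd n hnn hninv
    have h2 : (0 : ℝ) ≤ n₀ * (Real.log N / Real.log (f n₀)) ^ 9 := le_trans (Nat.cast_nonneg _) h1
    push_cast
    calc (49 : ℝ) * n ≤ 49 * (n₀ * (Real.log N / Real.log (f n₀)) ^ 9) := by linarith
      _ ≤ (49 + 2 * e + K) * (n₀ * (Real.log N / Real.log (f n₀)) ^ 9) := by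
          refine mul_le_mul_of_nonneg_right ?_ h2
          have h3 : (0 : ℝ) ≤ e := Nat.cast_nonneg _
          have h4 : (0 : ℝ) ≤ K := Nat.cast_nonneg _
          linarith
      _ = _ := by ring
  · have m1 : f (3 * n + 2) ≤ f (49 * n) := hmono (by omega)
    have m2 : f (8 * n) ≤ f (49 * n) := hmono (by omega)
    have m3 : f (48 * n + 2 * e) ≤ f (49 * n) := hmono (by omega)
    have m4 : f (2 * n) ≤ f (49 * n) := hmono (by omega)
    have m5 : f (49 * n) ≤ f (49 * n) ^ 2 := Nat.le_self_pow (by norm_num) _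
    have m6 : f (8 * n) ^ 2 + f (48 * n + 2 * e) ≤ 2 * f (49 * n) ^ 2 := by
      have := Nat.pow_le_pow_left m2 2
      omega
    have fin1 : ∀ y, y ≤ f (49 * n) →
        C₀ * y ^ 3 * (f (8 * n) ^ 2 + f (48 * n + 2 * e)) ≤ (49 + 2 * e + K) * f (49 * n) ^ 5 := by
      intro y hy
      calc C₀ * y ^ 3 * (f (8 * n) ^ 2 + f (48 * n + 2 * e))
          ≤ C₀ * f (49 * n) ^ 3 * (2 * f (49 * n) ^ 2) :=
            Nat.mul_le_mul (Nat.mul_le_mul_left _ (Nat.pow_le_pow_left hy 3)) m6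
        _ = (2 * C₀) * f (49 * n) ^ 5 := by ring
        _ ≤ (49 + 2 * e + K) * f (49 * n) ^ 5 := Nat.mul_le_mul_right _ (by omega)
    rcases hf n hnn with h | h
    · refine le_trans ?_ (h.trans (fin1 _ m1))
      calc N ^ 4 = (N ^ 2) ^ 2 := by ring
        _ ≤ (f n ^ 3) ^ 2 := Nat.pow_le_pow_left hfin 2
        _ = f n ^ 6 := by ring
    · refine le_trans ?_ (h.trans (fin1 _ m4))
      calc N ^ 4 = N ^ 2 * N ^ 2 := by ring
        _ ≤ N ^ 2 * f n ^ 3 := Nat.mul_le_mul_left _ hfin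

end Pool.Agent.Helper72.PT
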