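import Mathlib

/-! # PT-Iter

Iteration of the growth inequality (pure real analysis).

Plan. Put `F i = f (80^i * n₀)`; `F 0 ≥ C ≥ C₀² + 2`. As long as `F i ^ 3 < N ^ 2` we have
`F i ^ 6 < N ^ 2 * F i ^ 3`, so `F i ^ 6 ≤ C₀ * F (i+1) ^ 5`, and with `C₀ ≤ F i ^ (1/2)` (as `C₀² ≤ F i`):
`F (i+1) ≥ F i ^ (11/10)`; hence `F (i+1) ≥ F 0 ^ (1.1^(i+1))`. Since `f ≤ N` and `F 0 ≥ 2` there is a first `i` with
`F i ^ 3 ≥ N ^ 2`; then `min (F i ^ 6) (N^2 F i ^3) ≥ N ^ 4`, so `N ^ 4 ≤ C₀ * F (i+1) ^ 5`. Take `n₁ = 80^(i+1) * n₀`.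
If `i ≥ 1` then `F (i-1) ^ 3 < N ^ 2` and `F (i-1) ≥ F 0 ^ (1.1^(i-1))` give `1.1^(i-1) log F 0 < log N`, so with
`R = log N / log (F 0) ≥ 1`: `1.1^(i-1) ≤ R`, and `80 ≤ 1.1^46` (numerical fact: `1.1^46 > 80.1`; check
`(11/10 : ℝ)^46 > 80` by `norm_num`), so `80^(i+1) = 80² * 80^(i-1) ≤ 6400 * R ^ 46`. If `i = 0`: `80 ≤ 6400 R^46`.
Take `C = max 6400 (max (C₀ ^ 2 + 2) C₀)`.
-/

namespace Pool.Agent.Helper72.PT

theorem iter (C₀ : ℕ) : ∃ C : ℕ, 2 ≤ C ∧ ∀ (f : ℕ → ℕ) (N n₀ : ℕ), (∀ n, f n ≤ N) →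
    Monotone f → 1 ≤ n₀ → C ≤ f n₀ →
    (∀ n, n₀ ≤ n → min (f n ^ 6) (N ^ 2 * f n ^ 3) ≤ C₀ * f (80 * n) ^ 5) →
    ∃ n₁ : ℕ, n₀ ≤ n₁ ∧ (n₁ : ℝ) ≤ C * n₀ * (Real.log N / Real.log (f n₀)) ^ 46 ∧
      N ^ 4 ≤ C * f n₁ ^ 5 := by
  refine ⟨max 6400 (max (C₀ ^ 2 + 2) C₀), ?_, ?_⟩
  · exact le_trans (by norm_num) (le_max_left _ _)
  intro f N n₀ hfN hmono hn₀ hC hf
  set C := max 6400 (max (C₀ ^ 2 + 2) C₀) with hCdef
  have hC1 : 6400 ≤ C := le_max_left _ _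
  have hC2 : C₀ ^ 2 + 2 ≤ C := (le_max_left _ _).trans (le_max_right _ _)
  have hC3 : C₀ ≤ C := (le_max_right _ _).trans (le_max_right _ _)
  set F : ℕ → ℕ := fun i => f (80 ^ i * n₀) with hF
  have hpow : ∀ i, n₀ ≤ 80 ^ i * n₀ := fun i => Nat.le_mul_of_pos_left _ (by positivity)
  have hF0 : F 0 = f n₀ := by simp [hF]
  have hFge : ∀ i, C ≤ F i := fun i => hC.trans (hmono (hpow i))
  have hFN : ∀ i, F i ≤ N := fun i => hfN _
  have hFpos : ∀ i, 0 < F i := fun i => by have := hFge i; omega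
  have hmin : ∀ i, min (F i ^ 6) (N ^ 2 * F i ^ 3) ≤ C₀ * F (i + 1) ^ 5 := by
    intro i
    have h := hf (80 ^ i * n₀) (hpow i)
    have e : 80 * (80 ^ i * n₀) = 80 ^ (i + 1) * n₀ := by ring
    rw [e] at h
    exact h
  -- growth
  have hgrow : ∀ i, F i ^ 3 < N ^ 2 → F i ^ 11 ≤ F (i + 1) ^ 10 := by
    intro i hi
    have h1 : F i ^ 6 ≤ N ^ 2 * F i ^ 3 := by
      calc F i ^ 6 = F i ^ 3 * F i ^ 3 := by ring
        _ ≤ N ^ 2 * F i ^ 3 := Nat.mul_le_mul_right _ hi.le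
    have h2 := hmin i
    rw [min_eq_left h1] at h2
    have h3 : F i * F i ^ 11 ≤ F i * F (i + 1) ^ 10 := by
      calc F i * F i ^ 11 = (F i ^ 6) ^ 2 := by ring
        _ ≤ (C₀ * F (i + 1) ^ 5) ^ 2 := Nat.pow_le_pow_left h2 2
        _ = C₀ ^ 2 * F (i + 1) ^ 10 := by ring
        _ ≤ F i * F (i + 1) ^ 10 := Nat.mul_le_mul_right _ (by have := hFge i; omega)
    exact Nat.le_of_mul_le_mul_left h3 (hFpos i)
  have hlog0 : 0 < Real.log (F 0) := by
    refine Real.log_pos ?_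
    have := hFge 0
    exact_mod_cast (by omega : 1 < F 0)
  have hlogstep : ∀ i, F i ^ 3 < N ^ 2 → 11 / 10 * Real.log (F i) ≤ Real.log (F (i + 1)) := by
    intro i hi
    have h1 : ((F i : ℝ)) ^ 11 ≤ (F (i + 1) : ℝ) ^ 10 := by exact_mod_cast hgrow i hi
    have hpos : (0 : ℝ) < (F i : ℝ) ^ 11 := by
      have : (0 : ℝ) < F i := by exact_mod_cast hFpos i
      positivity
    have h2 := Real.log_le_log hpos h1
    rw [Real.log_pow, Real.log_pow] at h2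
    push_cast at h2
    linarith
  have hlog : ∀ i, (∀ j < i, F j ^ 3 < N ^ 2) →
      (11 / 10 : ℝ) ^ i * Real.log (F 0) ≤ Real.log (F i) := by
    intro i
    induction i with
    | zero => intro _; simp
    | succ i ih =>
      intro h
      have h1 := ih fun j hj => h j (hj.trans (Nat.lt_succ_self i))
      have h2 := hlogstep i (h i (Nat.lt_succ_self i))
      calc (11 / 10 : ℝ) ^ (i + 1) * Real.log (F 0) =
          11 / 10 * ((11 / 10 : ℝ) ^ i * Real.log (F 0)) := by ring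
        _ ≤ 11 / 10 * Real.log (F i) := by linarith
        _ ≤ _ := h2
  have hlogN : ∀ i, Real.log (F i) ≤ Real.log N := by
    intro i
    refine Real.log_le_log (by exact_mod_cast hFpos i) (by exact_mod_cast hFN i)
  have hex : ∃ i, N ^ 2 ≤ F i ^ 3 := by
    by_contra hcon
    push Not at hcon
    obtain ⟨i, hi⟩ := pow_unbounded_of_one_lt (Real.log N / Real.log (F 0))
      (by norm_num : (1 : ℝ) < 11 / 10)
    have h1 := (hlog i fun j _ => hcon j).trans (hlogN i)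
    rw [div_lt_iff₀ hlog0] at hi
    linarith
  classical
  set i := Nat.find hex with hi
  have hi1 : N ^ 2 ≤ F i ^ 3 := Nat.find_spec hex
  have hi2 : ∀ j < i, F j ^ 3 < N ^ 2 := fun j hj => not_le.1 (Nat.find_min hex hj)
  refine ⟨80 ^ (i + 1) * n₀, hpow _, ?_, ?_⟩
  · have hR1 : 1 ≤ Real.log N / Real.log (f n₀) := by
      rw [← hF0, one_le_div hlog0]
      exact hlogN 0
    have hC1' : (6400 : ℝ) ≤ C := by exact_mod_cast hC1
    have hn0' : (0 : ℝ) ≤ n₀ := Nat.cast_nonneg _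
    have key : (80 : ℝ) ^ (i + 1) ≤ 6400 * (Real.log N / Real.log (f n₀)) ^ 46 := by
      rcases Nat.eq_zero_or_pos i with h0 | h0
      · rw [h0]
        have : (1 : ℝ) ≤ (Real.log N / Real.log (f n₀)) ^ 46 := one_le_pow₀ hR1
        norm_num
        linarith
      · obtain ⟨k, hk⟩ : ∃ k, i = k + 1 := ⟨i - 1, by omega⟩
        have h1 := hlog k fun j hj => hi2 j (by omega)
        have h2 : (11 / 10 : ℝ) ^ k ≤ Real.log N / Real.log (f n₀) := by
          rw [← hF0, le_div_iff₀ hlog0]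
          exact h1.trans (hlogN k)
        have h3 : (80 : ℝ) ≤ (11 / 10) ^ 46 := by norm_num
        calc (80 : ℝ) ^ (i + 1) = 6400 * 80 ^ k := by rw [hk]; ring
          _ ≤ 6400 * ((11 / 10 : ℝ) ^ 46) ^ k := by
            have := pow_le_pow_left₀ (by norm_num) h3 k
            linarith
          _ = 6400 * ((11 / 10 : ℝ) ^ k) ^ 46 := by rw [← pow_mul, ← pow_mul, mul_comm 46 k]
          _ ≤ 6400 * (Real.log N / Real.log (f n₀)) ^ 46 := by
            have := pow_le_pow_left₀ (by positivity) h2 46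
            linarith
    have hR0 : (0 : ℝ) ≤ (Real.log N / Real.log (f n₀)) ^ 46 := by
      have : (0 : ℝ) ≤ Real.log N / Real.log (f n₀) := by linarith
      positivity
    push_cast
    calc (80 : ℝ) ^ (i + 1) * n₀ ≤ 6400 * (Real.log N / Real.log (f n₀)) ^ 46 * n₀ :=
          mul_le_mul_of_nonneg_right key hn0'
      _ ≤ C * (Real.log N / Real.log (f n₀)) ^ 46 * n₀ :=
          mul_le_mul_of_nonneg_right (mul_le_mul_of_nonneg_right hC1' hR0) hn0'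
      _ = _ := by ring
  · have h1 : N ^ 4 ≤ min (F i ^ 6) (N ^ 2 * F i ^ 3) := by
      refine le_min ?_ ?_
      · calc N ^ 4 = (N ^ 2) ^ 2 := by ring
          _ ≤ (F i ^ 3) ^ 2 := Nat.pow_le_pow_left hi1 2
          _ = F i ^ 6 := by ring
      · calc N ^ 4 = N ^ 2 * N ^ 2 := by ring
          _ ≤ N ^ 2 * F i ^ 3 := Nat.mul_le_mul_left _ hi1
    exact h1.trans ((hmin i).trans (Nat.mul_le_mul_right _ hC3))

end Pool.Agent.Helper72.PT
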