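import Pool.Agent.Helper72.PT.Defs

/-! # PT-Cent

Regular semisimple elements and their centralisers; eigenlines.

Plan. The characteristic polynomial of `g` is `X² - (tr g) X + 1`; `K` is algebraically closed, so it has a root
`s ≠ 0`, the other one is `s⁻¹`. If `tr g ^ 2 ≠ 4` then `s ≠ s⁻¹`; eigenvectors `w, w'` for `s, s⁻¹`
(`Matrix.exists_mulVec_eq_zero_iff` for `g - s`) are independent. If `h g = g h` then `act h w` is again an
eigenvector of `g` for `s`, hence parallel to `w` (the eigenspace is one-dimensional because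
`s ≠ s⁻¹`). `torus_tr`: in the basis `w, w'`, `g = diag (s, s⁻¹)`, and `(s + s⁻¹)² = 4` means `(s - s⁻¹)² = 0`, `s = ±1`.
`exists_eig`: an eigenvector exists. `eig_lines`: if `g` is not `±1` then three pairwise independent vectors cannot
all be eigenvectors of `g`.
-/

namespace Pool.Agent.Helper72.PT

open Matrix Module Pool.Agent.Helper72.TV

private theorem om_act_self {K : Type*} [Field K] (g : SL2 K) (w : Fin 2 → K) :
    om (act g w) w = (g : Matrix (Fin 2) (Fin 2) K) 0 1 * w 1 ^ 2 +
      ((g : Matrix (Fin 2) (Fin 2) K) 0 0 - (g : Matrix (Fin 2) (Fin 2) K) 1 1) * w 0 * w 1 -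
      (g : Matrix (Fin 2) (Fin 2) K) 1 0 * w 0 ^ 2 := by
  unfold om
  rw [act_apply_zero, act_apply_one]
  ring

private theorem om_tr {K : Type*} [Field K] (g : SL2 K) (w w' : Fin 2 → K) :
    om (act g w) w' + om w (act g w') = tr g * om w w' := by
  unfold om
  rw [act_apply_zero, act_apply_one, act_apply_zero, act_apply_one, tr_eq]
  ring

private theorem exists_quad {K : Type*} [Field K] [IsAlgClosed K] (a b c : K) (ha : a ≠ 0) :
    ∃ x : K, a * x ^ 2 + b * x + c = 0 := by
  obtain ⟨x, hx⟩ := IsAlgClosed.exists_root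
    (Polynomial.C a * Polynomial.X ^ 2 + Polynomial.C b * Polynomial.X + Polynomial.C c)
    (by rw [Polynomial.degree_quadratic ha]; decide)
  refine ⟨x, ?_⟩
  rw [Polynomial.IsRoot.def] at hx
  simpa using hx

private theorem ne_zero_left {K : Type*} [Field K] {w w' : Fin 2 → K} (hw : om w w' ≠ 0) :
    w ≠ 0 := by
  rintro rfl
  apply hw
  simp [om]

private theorem ne_zero_right {K : Type*} [Field K] {w w' : Fin 2 → K} (hw : om w w' ≠ 0) :
    w' ≠ 0 := by
  rintro rfl
  apply hw
  simp [om]

/-- eigenvalues on a pair of eigenlines -/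
private theorem eigs {K : Type*} [Field K] (g : SL2 K) (w w' : Fin 2 → K) (hw : om w w' ≠ 0)
    (h1 : om (act g w) w = 0) (h2 : om (act g w') w' = 0) :
    ∃ s s' : K, act g w = s • w ∧ act g w' = s' • w' ∧ s * s' = 1 ∧ s + s' = tr g := by
  obtain ⟨s, hs⟩ := exists_smul_of_om (ne_zero_left hw) h1
  obtain ⟨s', hs'⟩ := exists_smul_of_om (ne_zero_right hw) h2
  refine ⟨s, s', hs, hs', ?_, ?_⟩
  · have h := om_act g w w'
    rw [hs, hs', om_smul_left, om_smul_right] at h
    have h3 : (s * s' - 1) * om w w' = 0 := by linear_combination h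
    rcases mul_eq_zero.mp h3 with h4 | h4
    · linear_combination h4
    · exact absurd h4 hw
  · have h := om_tr g w w'
    rw [hs, hs', om_smul_left, om_smul_right] at h
    have h3 : (s + s' - tr g) * om w w' = 0 := by linear_combination h
    rcases mul_eq_zero.mp h3 with h4 | h4
    · linear_combination h4
    · exact absurd h4 hw

theorem exists_eig {K : Type*} [Field K] [IsAlgClosed K] (g : SL2 K) :
    ∃ w : Fin 2 → K, w ≠ 0 ∧ om (act g w) w = 0 := by
  by_cases hc : (g : Matrix (Fin 2) (Fin 2) K) 1 0 = 0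
  · refine ⟨![1, 0], ?_, ?_⟩
    · intro h
      have := congrFun h 0
      simp at this
    · rw [om_act_self, hc]
      simp
  · obtain ⟨x, hx⟩ := exists_quad ((g : Matrix (Fin 2) (Fin 2) K) 1 0)
      (-((g : Matrix (Fin 2) (Fin 2) K) 0 0 - (g : Matrix (Fin 2) (Fin 2) K) 1 1))
      (-(g : Matrix (Fin 2) (Fin 2) K) 0 1) hc
    refine ⟨![x, 1], ?_, ?_⟩
    · intro h
      have := congrFun h 1
      simp at this
    · rw [om_act_self]
      simp only [Matrix.cons_val_zero, Matrix.cons_val_one]
      linear_combination -hx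

/-- for a given torus containing a regular element, the same conclusion -/
theorem cent_of_torus {K : Type*} [Field K] (g : SL2 K) (hg : tr g ^ 2 ≠ 4)
    (w w' : Fin 2 → K) (hw : om w w' ≠ 0) (h1 : om (act g w) w = 0) (h2 : om (act g w') w' = 0)
    (h : SL2 K) (hh : h * g = g * h) : om (act h w) w = 0 ∧ om (act h w') w' = 0 := by
  obtain ⟨s, s', e1, e2, e3, e4⟩ := eigs g w w' hw h1 h2
  have key : ∀ (v : Fin 2 → K) (r : K), act g v = r • v → r ^ 2 ≠ 1 → om (act h v) v = 0 := by
    intro v r hv hr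
    have h3 : act g (act h v) = r • act h v := by
      rw [← act_mul, ← hh, act_mul, hv, act_smul]
    have h4 := om_act g (act h v) v
    rw [h3, hv, om_smul_left, om_smul_right] at h4
    have h5 : (r ^ 2 - 1) * om (act h v) v = 0 := by linear_combination h4
    rcases mul_eq_zero.mp h5 with h6 | h6
    · exact absurd (by linear_combination h6) hr
    · exact h6
  constructor
  · refine key w s e1 ?_
    intro h3
    apply hg
    rw [← e4]
    -- s ^ 2 = 1, s * s' = 1
    have h4 : s' = s := by
      calc s' = s ^ 2 * s' := by rw [h3, one_mul]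
        _ = s * (s * s') := by ring
        _ = s := by rw [e3, mul_one]
    rw [h4]
    linear_combination 4 * h3
  · refine key w' s' e2 ?_
    intro h3
    apply hg
    rw [← e4]
    have h4 : s = s' := by
      calc s = s * s' ^ 2 := by rw [h3, mul_one]
        _ = (s * s') * s' := by ring
        _ = s' := by rw [e3, one_mul]
    rw [h4]
    linear_combination 4 * h3

theorem cent {K : Type*} [Field K] [IsAlgClosed K] (g : SL2 K) (hg : tr g ^ 2 ≠ 4) :
    ∃ w w' : Fin 2 → K, om w w' ≠ 0 ∧ om (act g w) w = 0 ∧ om (act g w') w' = 0 ∧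
      ∀ h : SL2 K, h * g = g * h → om (act h w) w = 0 ∧ om (act h w') w' = 0 := by
  suffices h : ∃ w w' : Fin 2 → K, om w w' ≠ 0 ∧ om (act g w) w = 0 ∧ om (act g w') w' = 0 by
    obtain ⟨w, w', h1, h2, h3⟩ := h
    exact ⟨w, w', h1, h2, h3, fun h hh => cent_of_torus g hg w w' h1 h2 h3 h hh⟩
  have hd := det_eq g
  rw [tr_eq] at hg
  set a := (g : Matrix (Fin 2) (Fin 2) K) 0 0 with ha
  set b := (g : Matrix (Fin 2) (Fin 2) K) 0 1 with hb
  set c := (g : Matrix (Fin 2) (Fin 2) K) 1 0 with hc
  set d := (g : Matrix (Fin 2) (Fin 2) K) 1 1 with hd'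
  by_cases hc0 : c = 0
  · have had : a - d ≠ 0 := by
      intro h
      apply hg
      rw [hc0] at hd
      linear_combination (a - d) * h + 4 * hd
    refine ⟨![1, 0], ![-b / (a - d), 1], ?_, ?_, ?_⟩
    · simp [om]
    · rw [om_act_self, ← hc, hc0]
      simp
    · rw [om_act_self, ← ha, ← hb, ← hc, ← hd', hc0]
      simp only [Matrix.cons_val_zero, Matrix.cons_val_one]
      field_simp
      ring
  · obtain ⟨x, hx⟩ := exists_quad c (-(a - d)) (-b) hc0
    refine ⟨![x, 1], ![(a - d) / c - x, 1], ?_, ?_, ?_⟩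
    · intro h
      simp only [om, Matrix.cons_val_zero, Matrix.cons_val_one] at h
      apply hg
      have h2 : 2 * c * x = a - d := by
        field_simp at h
        linear_combination h
      linear_combination -4 * c * hx + (2 * c * x - (a - d)) * h2 + 4 * hd
    · rw [om_act_self, ← ha, ← hb, ← hc, ← hd']
      simp only [Matrix.cons_val_zero, Matrix.cons_val_one]
      linear_combination -hx
    · rw [om_act_self, ← ha, ← hb, ← hc, ← hd']
      simp only [Matrix.cons_val_zero, Matrix.cons_val_one]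
      field_simp
      linear_combination -c * hx

/-- an element of a torus with trace squared `4` acts as `1` or `-1` -/
theorem torus_tr {K : Type*} [Field K] (g : SL2 K) (w w' : Fin 2 → K) (hw : om w w' ≠ 0)
    (h1 : om (act g w) w = 0) (h2 : om (act g w') w' = 0) (hg : tr g ^ 2 = 4) :
    (g : Matrix (Fin 2) (Fin 2) K) = 1 ∨ (g : Matrix (Fin 2) (Fin 2) K) = -1 := by
  obtain ⟨s, s', e1, e2, e3, e4⟩ := eigs g w w' hw h1 h2
  have hss : s = s' := by
    have h3 : (s - s') ^ 2 = 0 := by
      rw [← e4] at hg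
      linear_combination hg - 4 * e3
    have h4 := pow_eq_zero_iff (two_ne_zero) |>.mp h3
    exact sub_eq_zero.mp h4
  subst hss
  have hs : (s - 1) * (s + 1) = 0 := by linear_combination e3
  have c0 := congrFun e1 0
  have c1 := congrFun e1 1
  have c2 := congrFun e2 0
  have c3 := congrFun e2 1
  rw [act_apply_zero, Pi.smul_apply, smul_eq_mul] at c0 c2
  rw [act_apply_one, Pi.smul_apply, smul_eq_mul] at c1 c3
  unfold om at hw
  have cancel : ∀ t : K, t * (w 0 * w' 1 - w 1 * w' 0) = 0 → t = 0 := by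
    intro t ht
    rcases mul_eq_zero.mp ht with h | h
    · exact h
    · exact absurd h hw
  have f00 : (g : Matrix (Fin 2) (Fin 2) K) 0 0 - s = 0 := by
    apply cancel
    linear_combination w' 1 * c0 - w 1 * c2
  have f01 : (g : Matrix (Fin 2) (Fin 2) K) 0 1 = 0 := by
    apply cancel
    linear_combination w 0 * c2 - w' 0 * c0
  have f10 : (g : Matrix (Fin 2) (Fin 2) K) 1 0 = 0 := by
    apply cancel
    linear_combination w' 1 * c1 - w 1 * c3
  have f11 : (g : Matrix (Fin 2) (Fin 2) K) 1 1 - s = 0 := by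
    apply cancel
    linear_combination w 0 * c3 - w' 0 * c1
  rw [sub_eq_zero] at f00 f11
  rcases mul_eq_zero.mp hs with h | h
  · left
    have hs1 : s = 1 := sub_eq_zero.mp h
    ext i j
    fin_cases i <;> fin_cases j
    · simpa [hs1] using f00
    · simpa using f01
    · simpa using f10
    · simpa [hs1] using f11
  · right
    have hs1 : s = -1 := eq_neg_of_add_eq_zero_left h
    ext i j
    fin_cases i <;> fin_cases j
    · simpa [hs1] using f00
    · simpa using f01
    · simpa using f10
    · simpa [hs1] using f11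

/-- an element with three eigenlines is `1` or `-1` -/
theorem eig_lines {K : Type*} [Field K] (g : SL2 K) (w₁ w₂ w₃ : Fin 2 → K)
    (h12 : om w₁ w₂ ≠ 0) (h13 : om w₁ w₃ ≠ 0) (h23 : om w₂ w₃ ≠ 0)
    (h1 : om (act g w₁) w₁ = 0) (h2 : om (act g w₂) w₂ = 0) (h3 : om (act g w₃) w₃ = 0) :
    (g : Matrix (Fin 2) (Fin 2) K) = 1 ∨ (g : Matrix (Fin 2) (Fin 2) K) = -1 := by
  obtain ⟨s, s', e1, e2, e3, e4⟩ := eigs g w₁ w₂ h12 h1 h2
  obtain ⟨r, r', f1, f2, f3, f4⟩ := eigs g w₁ w₃ h13 h1 h3
  obtain ⟨q, q', k1, k2, k3, k4⟩ := eigs g w₂ w₃ h23 h2 h3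
  have inj : ∀ (v : Fin 2 → K) (x y : K), v ≠ 0 → act g v = x • v → act g v = y • v → x = y := by
    intro v x y hv hx hy
    rw [hx] at hy
    exact smul_left_injective K hv hy
  have g1 : s = r := inj w₁ s r (ne_zero_left h12) e1 f1
  have g2 : s' = q := inj w₂ s' q (ne_zero_left h23) e2 k1
  have g3 : r' = q' := inj w₃ r' q' (ne_zero_right h23) f2 k2
  refine torus_tr g w₂ w₃ h23 h2 h3 ?_
  rw [← k4, ← g2, ← g3]
  rw [← g2, ← g3] at k3
  rw [← g1] at f3
  have h5 : s' = r' := by
    calc s' = s' * (s * r') := by rw [f3, mul_one]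
      _ = (s * s') * r' := by ring
      _ = r' := by rw [e3, one_mul]
  rw [h5] at k3 ⊢
  linear_combination 4 * k3

/-- an element with an eigenline and trace squared different from `4` is regular; with trace
squared `4` its eigenvalue is `1` or `-1` -/
theorem eig_of_tr {K : Type*} [Field K] (g : SL2 K) (w : Fin 2 → K) (hw : w ≠ 0)
    (h1 : om (act g w) w = 0) (hg : tr g ^ 2 = 4) : act g w = w ∨ act g w = -w := by
  obtain ⟨s, hs⟩ := exists_smul_of_om hw h1
  have hd := det_eq g
  have ht := tr_eq g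
  have c0 := congrFun hs 0
  have c1 := congrFun hs 1
  rw [act_apply_zero, Pi.smul_apply, smul_eq_mul] at c0
  rw [act_apply_one, Pi.smul_apply, smul_eq_mul] at c1
  set a := (g : Matrix (Fin 2) (Fin 2) K) 0 0 with ha
  set b := (g : Matrix (Fin 2) (Fin 2) K) 0 1 with hb
  set c := (g : Matrix (Fin 2) (Fin 2) K) 1 0 with hc
  set d := (g : Matrix (Fin 2) (Fin 2) K) 1 1 with hd'
  have hchar : s ^ 2 - tr g * s + 1 = 0 := by
    have m0 : (s ^ 2 - tr g * s + 1) * w 0 = 0 := by
      rw [ht]
      linear_combination -hd * w 0 - (s - d) * c0 - b * c1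
    have m1 : (s ^ 2 - tr g * s + 1) * w 1 = 0 := by
      rw [ht]
      linear_combination -hd * w 1 - (s - a) * c1 - c * c0
    rcases mul_eq_zero.mp m0 with h | h
    · exact h
    · rcases mul_eq_zero.mp m1 with h' | h'
      · exact h'
      · exfalso
        apply hw
        ext i
        fin_cases i
        · exact h
        · exact h'
  have ht2 : (tr g - 2) * (tr g + 2) = 0 := by linear_combination hg
  rcases mul_eq_zero.mp ht2 with h | h
  · left
    have h3 : (s - 1) ^ 2 = 0 := by linear_combination hchar + s * h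
    have h4 := sub_eq_zero.mp (pow_eq_zero_iff (two_ne_zero) |>.mp h3)
    rw [hs, h4, one_smul]
  · right
    have h3 : (s + 1) ^ 2 = 0 := by linear_combination hchar + s * h
    have h4 := eq_neg_of_add_eq_zero_left (pow_eq_zero_iff (two_ne_zero) |>.mp h3)
    rw [hs, h4, neg_smul, one_smul]

end Pool.Agent.Helper72.PT
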