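import Pool.Agent.Helper72.PT.LPC
import Pool.Agent.Helper72.PT.Cent

/-! # PT-StructA

Sizes of unipotent and Borel subgroups of a large finite subgroup.

Plan. `lpU, lpC`, Cent may be still sorried; use them with `S = H`, `e = 1`, `n = 1` (`words_subgroup`,
`ball_subgroup`, `closure H = H`). `N = |H|`, `Q = {g ∈ H | act g w = w}.ncard`, `H_w = {g ∈ H | om (act g w) w = 0}.ncard`,
`c = {h ∈ H | tr h = 2}.ncard`, `c³ ≤ 110592 N²` (`110592 = 48³`).
* `tr u = 2`: an element of `SL₂` fixing a nonzero vector has eigenvalues `1, 1`.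
* Centraliser: `x ∈ H` commuting with `u` preserves the line of `w` (the only eigenline of `u`, because
  `u ≠ 1`; `act u (act x w) = act x w`) and from `x u x⁻¹ = u` its eigenvalue `μ` satisfies `μ² = 1` (`u = 1 + y (w ⊗ hat w)`,
  `x u x⁻¹ = 1 + μ² y (w ⊗ hat w)`), so `act x w = ± w`; the number of such `x` is `≤ 2 Q` (those with `-w` form a coset
  of `{g ∈ H | act g w = w}` or none). The conjugacy class of `u` in `H` consists of elements of trace 2, so
  `N ≤ 2 Q c`; hence `N³ ≤ 8 Q³ * 48³ N²`, `N ≤ 96³ Q³`.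
* Orbit of the line of `w`: it has `N / H_w` lines, each line `act h w` carries `Q - 1` nontrivial elements
  `h g h⁻¹` of `H` of trace 2, different for different lines: `(N / H_w) (Q - 1) ≤ c`. As `Q ≥ 2`: `N Q ≤ 2 c H_w`.
  With `N ≤ 2 Q c`: `N² ≤ 2 c * (N Q) ≤ 4 c² H_w`, `N⁶ ≤ 64 c⁶ H_w³ ≤ 64 * 48⁶ N⁴ H_w³`, so
  `N² ≤ 64 * 48⁶ H_w³ = 9216³ H_w³` (`9216 = 4 * 48²`).
-/

namespace Pool.Agent.Helper72.PT

open Matrix Module Pool.Agent.Helper72.TV

private theorem fix_two {K : Type*} [Field K] {g : SL2 K} {x y : Fin 2 → K}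
    (hx : act g x = x) (hy : act g y = y) (hxy : om x y ≠ 0) : g = 1 := by
  have hx0 := congrFun hx 0
  have hx1 := congrFun hx 1
  have hy0 := congrFun hy 0
  have hy1 := congrFun hy 1
  rw [act_apply_zero] at hx0 hy0
  rw [act_apply_one] at hx1 hy1
  unfold om at hxy
  ext i j
  fin_cases i <;> fin_cases j
  · apply mul_right_cancel₀ hxy
    simp only [Fin.zero_eta, Fin.isValue, Matrix.SpecialLinearGroup.coe_one, Matrix.one_apply_eq]
    linear_combination (y 1) * hx0 - (x 1) * hy0
  · apply mul_right_cancel₀ hxy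
    simp only [Fin.zero_eta, Fin.mk_one, Fin.isValue, Matrix.SpecialLinearGroup.coe_one, ne_eq,
      zero_ne_one, not_false_eq_true, Matrix.one_apply_ne]
    linear_combination (x 0) * hy0 - (y 0) * hx0
  · apply mul_right_cancel₀ hxy
    simp only [Fin.zero_eta, Fin.mk_one, Fin.isValue, Matrix.SpecialLinearGroup.coe_one, ne_eq,
      one_ne_zero, not_false_eq_true, Matrix.one_apply_ne]
    linear_combination (y 1) * hx1 - (x 1) * hy1
  · apply mul_right_cancel₀ hxy
    simp only [Fin.mk_one, Fin.isValue, Matrix.SpecialLinearGroup.coe_one, Matrix.one_apply_eq]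
    linear_combination (x 0) * hy1 - (y 0) * hx1

private theorem tr_of_fix {K : Type*} [Field K] {g : SL2 K} {w : Fin 2 → K} (hw : w ≠ 0)
    (h : act g w = w) : tr g = 2 := by
  have hd := det_eq g
  have ht := tr_eq g
  have c0 := congrFun h 0
  have c1 := congrFun h 1
  rw [act_apply_zero] at c0
  rw [act_apply_one] at c1
  set a := (g : Matrix (Fin 2) (Fin 2) K) 0 0 with ha
  set b := (g : Matrix (Fin 2) (Fin 2) K) 0 1 with hb
  set c := (g : Matrix (Fin 2) (Fin 2) K) 1 0 with hc
  set d := (g : Matrix (Fin 2) (Fin 2) K) 1 1 with hd'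
  have m0 : (2 - tr g) * w 0 = 0 := by
    rw [ht]
    linear_combination -hd * w 0 - (1 - d) * c0 - b * c1
  have m1 : (2 - tr g) * w 1 = 0 := by
    rw [ht]
    linear_combination -hd * w 1 - (1 - a) * c1 - c * c0
  rcases mul_eq_zero.mp m0 with h0 | h0
  · linear_combination -h0
  · rcases mul_eq_zero.mp m1 with h1 | h1
    · linear_combination -h1
    · exfalso
      apply hw
      ext i
      fin_cases i
      · exact h0
      · exact h1

/-- an element commuting with a nontrivial unipotent element acts on its line by a sign -/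
private theorem commute_sign {K : Type*} [Field K] [IsAlgClosed K] {u z : SL2 K} {w : Fin 2 → K}
    (hw : w ≠ 0) (hu1 : u ≠ 1) (huw : act u w = w) (hz : z * u = u * z) :
    act z w = w ∨ act z w = -w := by
  have h1 : act u (act z w) = act z w := by
    rw [← act_mul, ← hz, act_mul, huw]
  have h2 : om (act z w) w = 0 := by
    by_contra h
    exact hu1 (fix_two h1 huw h)
  by_cases htr : tr z ^ 2 = 4
  · exact eig_of_tr z w hw h2 htr
  · exfalso
    obtain ⟨w₁, w₂, hne, -, -, hall⟩ := cent z htr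
    obtain ⟨e1, e2⟩ := hall u hz.symm
    have htu : tr u ^ 2 = 4 := by
      rw [tr_of_fix hw huw]
      norm_num
    rcases torus_tr u w₁ w₂ hne e1 e2 htu with h | h
    · exact hu1 (Subtype.ext h)
    · have h3 : -w = w := by
        have h4 : act u w = -w := by
          unfold act
          rw [h, Matrix.neg_mulVec, Matrix.one_mulVec]
        rw [← h4, huw]
      have h5 : ∃ i, w i ≠ 0 := by
        by_contra hcon
        push Not at hcon
        exact hw (funext hcon)
      obtain ⟨i, hi⟩ := h5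
      have h6 : -w i = w i := congrFun h3 i
      have h7 : (1 : K) = -1 := by
        have h8 : w i * (1 - (-1)) = 0 := by linear_combination -h6
        rcases mul_eq_zero.mp h8 with h9 | h9
        · exact absurd h9 hi
        · linear_combination h9
      apply hu1
      apply Subtype.ext
      rw [h]
      ext a b
      fin_cases a <;> fin_cases b
      · simpa using h7.symm
      · simp
      · simp
      · simpa using h7.symm

theorem structA {K : Type*} [Field K] [IsAlgClosed K] (H : Subgroup (SL2 K))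
    (hfin : (H : Set (SL2 K)).Finite) (hesc : Esc (H : Set (SL2 K)) 1)
    (w : Fin 2 → K) (hw : w ≠ 0) (u : SL2 K) (hu : u ∈ H) (hu1 : u ≠ 1) (huw : act u w = w) :
    Nat.card H ≤ 96 ^ 3 * {g : SL2 K | g ∈ H ∧ act g w = w}.ncard ^ 3 ∧
    Nat.card H ^ 2 ≤ 9216 ^ 3 * {g : SL2 K | g ∈ H ∧ om (act g w) w = 0}.ncard ^ 3 ∧
    {g : SL2 K | g ∈ H ∧ act g w = w}.ncard ^ 3 ≤ 2 * Nat.card H ∧
    Nat.card H * {g : SL2 K | g ∈ H ∧ act g w = w}.ncard ≤
      2 * {g : SL2 K | g ∈ H ∧ om (act g w) w = 0}.ncard * {h : SL2 K | h ∈ H ∧ tr h = 2}.ncard ∧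
    {h : SL2 K | h ∈ H ∧ tr h = 2}.ncard ^ 3 ≤ 110592 * Nat.card H ^ 2 := by
  classical
  have hcl : (Subgroup.closure (H : Set (SL2 K)) : Set (SL2 K)).Finite := by
    rw [Subgroup.closure_eq]
    exact hfin
  have hQ := lpU (H : Set (SL2 K)) hcl 1 1 hesc le_rfl w hw
  have hC := lpC (H : Set (SL2 K)) hcl 1 1 hesc le_rfl (2 : K)
  rw [words_subgroup H le_rfl, ball_subgroup H (by norm_num)] at hQ hC
  set N := Nat.card H with hN
  -- finsets
  set HF : Finset (SL2 K) := hfin.toFinset with hHF
  have hmH : ∀ x, x ∈ HF ↔ x ∈ H := by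
    intro x
    rw [hHF, Set.Finite.mem_toFinset]
    rfl
  have hNc : N = HF.card := by
    rw [hN, hHF, ← Set.ncard_eq_toFinset_card _ hfin]
    rfl
  set UF : Finset (SL2 K) := HF.filter (fun g => act g w = w) with hUF
  set BF : Finset (SL2 K) := HF.filter (fun g => om (act g w) w = 0) with hBF
  set CF : Finset (SL2 K) := HF.filter (fun g => tr g = 2) with hCF
  have hUc : {g : SL2 K | g ∈ H ∧ act g w = w}.ncard = UF.card := by
    rw [← Set.ncard_coe_finset]
    congr 1
    ext g
    simp only [Set.mem_ofPred_eq, hUF, Finset.coe_filter, hmH]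
  have hBc : {g : SL2 K | g ∈ H ∧ om (act g w) w = 0}.ncard = BF.card := by
    rw [← Set.ncard_coe_finset]
    congr 1
    ext g
    simp only [Set.mem_ofPred_eq, hBF, Finset.coe_filter, hmH]
  have hCc : {g : SL2 K | g ∈ H ∧ tr g = 2}.ncard = CF.card := by
    rw [← Set.ncard_coe_finset]
    congr 1
    ext g
    simp only [Set.mem_ofPred_eq, hCF, Finset.coe_filter, hmH]
  have hQ' : UF.card ^ 3 ≤ 2 * N := by
    rw [← hUc]
    exact hQ
  have hC' : CF.card ^ 3 ≤ 110592 * N ^ 2 := by
    rw [← hCc]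
    exact hC
  rw [hUc, hBc, hCc]
  -- N ≤ 2 Q c
  have hA : N ≤ 2 * UF.card * CF.card := by
    rw [hNc]
    refine Finset.card_le_mul_card_image_of_maps_to (f := fun x => x * u * x⁻¹) ?_ _ ?_
    · intro x hx
      rw [hmH] at hx
      rw [hCF, Finset.mem_filter, hmH]
      exact ⟨H.mul_mem (H.mul_mem hx hu) (H.inv_mem hx), by rw [tr_conj, tr_of_fix hw huw]⟩
    · intro y hy
      rcases (HF.filter (fun x => x * u * x⁻¹ = y)).eq_empty_or_nonempty with h0 | ⟨x₀, hx₀⟩
      · rw [h0]
        simp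
      · rw [Finset.mem_filter, hmH] at hx₀
        -- fibre elements
        have hsub : ∀ x ∈ HF.filter (fun x => x * u * x⁻¹ = y),
            act (x₀⁻¹ * x) w = w ∨ act (x₀⁻¹ * x) w = -w := by
          intro x hx
          rw [Finset.mem_filter, hmH] at hx
          apply commute_sign hw hu1 huw
          have h3 : x * u * x⁻¹ = x₀ * u * x₀⁻¹ := by rw [hx.2, hx₀.2]
          calc x₀⁻¹ * x * u = x₀⁻¹ * (x * u * x⁻¹) * x := by group
            _ = x₀⁻¹ * (x₀ * u * x₀⁻¹) * x := by rw [h3]
            _ = u * (x₀⁻¹ * x) := by group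
        set F₁ := HF.filter (fun x => act (x₀⁻¹ * x) w = w) with hF₁
        set F₂ := HF.filter (fun x => act (x₀⁻¹ * x) w = -w) with hF₂
        have h4 : HF.filter (fun x => x * u * x⁻¹ = y) ⊆ F₁ ∪ F₂ := by
          intro x hx
          rw [Finset.mem_union, hF₁, hF₂, Finset.mem_filter, Finset.mem_filter]
          have hxH := (Finset.mem_filter.mp hx).1
          rcases hsub x hx with h | h
          · exact Or.inl ⟨hxH, h⟩
          · exact Or.inr ⟨hxH, h⟩
        have h5 : F₁.card ≤ UF.card := by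
          apply Finset.card_le_card_of_injOn (fun x => x₀⁻¹ * x)
          · intro x hx
            rw [Finset.mem_coe, hF₁, Finset.mem_filter, hmH] at hx
            rw [Finset.mem_coe, hUF, Finset.mem_filter, hmH]
            exact ⟨H.mul_mem (H.inv_mem hx₀.1) hx.1, hx.2⟩
          · intro x _ x' _ h
            exact mul_left_cancel h
        have h6 : F₂.card ≤ UF.card := by
          rcases F₂.eq_empty_or_nonempty with h0 | ⟨x₁, hx₁⟩
          · rw [h0]
            simp
          · rw [hF₂, Finset.mem_filter, hmH] at hx₁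
            apply Finset.card_le_card_of_injOn (fun x => x₁⁻¹ * x)
            · intro x hx
              rw [Finset.mem_coe, hF₂, Finset.mem_filter, hmH] at hx
              rw [Finset.mem_coe, hUF, Finset.mem_filter, hmH]
              refine ⟨H.mul_mem (H.inv_mem hx₁.1) hx.1, ?_⟩
              have h7 : act x w = act x₁ w := by
                have h8 : act (x₀⁻¹ * x) w = act (x₀⁻¹ * x₁) w := by rw [hx.2, hx₁.2]
                rw [act_mul, act_mul] at h8
                have h9 := congrArg (act x₀) h8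
                rwa [act_act_inv, act_act_inv] at h9
              show act (x₁⁻¹ * x) w = w
              rw [act_mul, h7, act_inv_act]
            · intro x _ x' _ h
              exact mul_left_cancel h
        calc (HF.filter (fun x => x * u * x⁻¹ = y)).card ≤ (F₁ ∪ F₂).card := Finset.card_le_card h4
          _ ≤ F₁.card + F₂.card := Finset.card_union_le _ _
          _ ≤ UF.card + UF.card := Nat.add_le_add h5 h6
          _ = 2 * UF.card := by ring
  -- N (Q - 1) ≤ Hw c
  have h1U : (1 : SL2 K) ∈ UF := by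
    rw [hUF, Finset.mem_filter, hmH]
    exact ⟨H.one_mem, act_one w⟩
  have hUU : u ∈ UF := by
    rw [hUF, Finset.mem_filter, hmH]
    exact ⟨hu, huw⟩
  have hQ2 : 2 ≤ UF.card := by
    have h := Finset.one_lt_card.mpr ⟨u, hUU, 1, h1U, hu1⟩
    omega
  have hB : N * (UF.card - 1) ≤ BF.card * CF.card := by
    rw [hNc, ← Finset.card_erase_of_mem h1U, ← Finset.card_product]
    refine Finset.card_le_mul_card_image_of_maps_to (f := fun q => q.1 * q.2 * q.1⁻¹) ?_ _ ?_
    · rintro ⟨h, g⟩ hq
      rw [Finset.mem_product, Finset.mem_erase, hUF, Finset.mem_filter, hmH, hmH] at hq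
      obtain ⟨hh, -, hg, hgw⟩ := hq
      show h * g * h⁻¹ ∈ CF
      rw [hCF, Finset.mem_filter, hmH]
      exact ⟨H.mul_mem (H.mul_mem hh hg) (H.inv_mem hh), by rw [tr_conj, tr_of_fix hw hgw]⟩
    · intro y hy
      rcases ((HF ×ˢ UF.erase 1).filter (fun q => q.1 * q.2 * q.1⁻¹ = y)).eq_empty_or_nonempty
        with h0 | ⟨⟨h₀, g₀⟩, hx₀⟩
      · rw [h0]
        simp
      · rw [Finset.mem_filter, Finset.mem_product, Finset.mem_erase, hUF, Finset.mem_filter, hmH,
          hmH] at hx₀
        obtain ⟨⟨hh₀, hg1, hg₀, hgw₀⟩, hy₀⟩ := hx₀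
        simp only at hh₀ hg1 hg₀ hgw₀ hy₀
        have hy1 : y ≠ 1 := by
          intro h
          apply hg1
          rw [h] at hy₀
          calc g₀ = h₀⁻¹ * (h₀ * g₀ * h₀⁻¹) * h₀ := by group
            _ = 1 := by rw [hy₀]; group
        have hyf : ∀ (h g : SL2 K), act g w = w → h * g * h⁻¹ = y → act y (act h w) = act h w := by
          intro h g hg he
          rw [← he, act_mul, act_mul, act_inv_act, hg]
        apply Finset.card_le_card_of_injOn (fun q => h₀⁻¹ * q.1)
        · rintro ⟨h, g⟩ hq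
          rw [Finset.mem_coe, Finset.mem_filter, Finset.mem_product, Finset.mem_erase, hUF,
            Finset.mem_filter, hmH, hmH] at hq
          obtain ⟨⟨hh, -, hg, hgw⟩, hyy⟩ := hq
          simp only at hh hg hgw hyy
          show h₀⁻¹ * h ∈ BF
          rw [hBF, Finset.mem_filter, hmH]
          refine ⟨H.mul_mem (H.inv_mem hh₀) hh, ?_⟩
          have h1 := hyf h g hgw hyy
          have h2 := hyf h₀ g₀ hgw₀ hy₀
          rw [← om_act h₀, ← act_mul, mul_inv_cancel_left]
          by_contra h3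
          exact hy1 (fix_two h1 h2 h3)
        · rintro ⟨h, g⟩ hq ⟨h', g'⟩ hq' he
          rw [Finset.mem_coe, Finset.mem_filter] at hq hq'
          have e1 : h = h' := mul_left_cancel he
          have e2 : h * g * h⁻¹ = h' * g' * h'⁻¹ := by
            have a1 : h * g * h⁻¹ = y := hq.2
            have a2 : h' * g' * h'⁻¹ = y := hq'.2
            rw [a1, a2]
          rw [← e1] at e2
          have e3 : g = g' := by
            have e4 := mul_right_cancel e2
            exact mul_left_cancel e4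
          rw [← e1, ← e3]
  have hD : N * UF.card ≤ 2 * BF.card * CF.card := by
    have h1 : UF.card ≤ 2 * (UF.card - 1) := by omega
    calc N * UF.card ≤ N * (2 * (UF.card - 1)) := Nat.mul_le_mul_left _ h1
      _ = 2 * (N * (UF.card - 1)) := by ring
      _ ≤ 2 * (BF.card * CF.card) := Nat.mul_le_mul_left _ hB
      _ = 2 * BF.card * CF.card := by ring
  have hNpos : 0 < N := by
    rw [hNc]
    exact Finset.card_pos.mpr ⟨1, (hmH 1).mpr H.one_mem⟩
  refine ⟨?_, ?_, hQ', hD, hC'⟩
  · have h1 : N ^ 3 ≤ (2 * UF.card * CF.card) ^ 3 := Nat.pow_le_pow_left hA 3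
    have h2 : (2 * UF.card * CF.card) ^ 3 = 8 * UF.card ^ 3 * CF.card ^ 3 := by ring
    have h3 : 8 * UF.card ^ 3 * CF.card ^ 3 ≤ 8 * UF.card ^ 3 * (110592 * N ^ 2) :=
      Nat.mul_le_mul_left _ hC'
    have h4 : N * N ^ 2 ≤ (96 ^ 3 * UF.card ^ 3) * N ^ 2 := by
      calc N * N ^ 2 = N ^ 3 := by ring
        _ ≤ 8 * UF.card ^ 3 * (110592 * N ^ 2) := by
          rw [h2] at h1
          exact h1.trans h3
        _ = (96 ^ 3 * UF.card ^ 3) * N ^ 2 := by ring
    exact Nat.le_of_mul_le_mul_right h4 (by positivity)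
  · have h1 : N ^ 2 ≤ 4 * CF.card ^ 2 * BF.card := by
      calc N ^ 2 = N * N := by ring
        _ ≤ (2 * UF.card * CF.card) * N := Nat.mul_le_mul_right _ hA
        _ = 2 * CF.card * (N * UF.card) := by ring
        _ ≤ 2 * CF.card * (2 * BF.card * CF.card) := Nat.mul_le_mul_left _ hD
        _ = 4 * CF.card ^ 2 * BF.card := by ring
    have h2 : N ^ 2 * N ^ 4 ≤ (9216 ^ 3 * BF.card ^ 3) * N ^ 4 := by
      calc N ^ 2 * N ^ 4 = (N ^ 2) ^ 3 := by ring
        _ ≤ (4 * CF.card ^ 2 * BF.card) ^ 3 := Nat.pow_le_pow_left h1 3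
        _ = 64 * BF.card ^ 3 * (CF.card ^ 3) ^ 2 := by ring
        _ ≤ 64 * BF.card ^ 3 * (110592 * N ^ 2) ^ 2 :=
          Nat.mul_le_mul_left _ (Nat.pow_le_pow_left hC' 2)
        _ = (9216 ^ 3 * BF.card ^ 3) * N ^ 4 := by ring
    exact Nat.le_of_mul_le_mul_right h2 (by positivity)

end Pool.Agent.Helper72.PT
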