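import Pool.Agent.Helper72.PT.Unip
import Pool.Agent.Helper72.PT.StructA

/-! # PT-StructB

The unipotent subgroup is a root group over a finite subfield.

Plan. `unip, structA` may be still sorried. Take `w₀, u` from `unip`. `N = |H| ≥ 2^60`. The elements `g ∈ H` with
`act g w₀ = w₀` are the `t x = 1 + x • vecMulVec w₀ (hat w₀)`, `x ∈ M`, where `M = {x : K | ∃ g ∈ H, g = t x}` is a finite
additive subgroup of `K` with `|M| = Q ≥ 2` elements (`t x * t y = t (x + y)`). For `b ∈ H` with `act b w₀ = μ • w₀`: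
`b * t x * b⁻¹ = t (μ² x)`, so `μ² M = M`. Let `Θ = {μ² | b ∈ H, act b w₀ = μ • w₀}` (a finite multiplicative group) and let
`E` be the subring of `K` generated by `Θ`: `E M ⊆ M`, and `e ↦ e m₀` (`0 ≠ m₀ ∈ M`) is injective, so `E` is finite, hence
a field: a finite subfield `Eu` of `K` (closed under inverses because finite and without zero divisors), and
`M` is a vector space over it: `Q = |Eu|^j`, `j ≥ 1`.
Sizes: `H_w ≤ (number of μ) * Q ≤ 2 |Θ| Q`, `|Θ| < |Eu|` (as `0 ∉ Θ`). From `structA`: with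
`c = {h ∈ H | tr h = 2}.ncard`, `c³ ≤ 48³ N²`: `N Q ≤ 2 H_w c ≤ 4 |Θ| Q c`, so `N ≤ 4 c |Θ|`, `N³ ≤ 64 * 48³ N² |Θ|³`,
`N ≤ 192³ |Θ|³`. And `Q³ ≤ 2 N ≤ 2 * 192³ |Θ|³ < (242 |Eu|)³`, so `|Eu|^(j-1) < 242`, while
`|Eu|³ > |Θ|³ ≥ N / 192³ ≥ 2^60 / 192³ > 242³`; so `j = 1` and `M = β Eu` for any `0 ≠ β ∈ M` (`β Eu ⊆ M`, same cardinality).
Choose `c₀ ∈ K` with `c₀² = β` (`IsAlgClosed.exists_pow_nat_eq`) and put `w = c₀ • w₀`:
`vecMulVec w (hat w) = β • vecMulVec w₀ (hat w₀)`, so `1 + x • vecMulVec w (hat w) ∈ H` iff `β x ∈ M` iff `x ∈ Eu`.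
`act b w = μ • w` iff `act b w₀ = μ • w₀`; the sets for `w` and `w₀` are the same, so the last three claims are
`structA` (`Q = |Eu|`).
-/

namespace Pool.Agent.Helper72.PT

open Matrix Module Pool.Agent.Helper72.TV

private def tt {K : Type*} [Field K] (w : Fin 2 → K) (x : K) : SL2 K :=
  ⟨1 + x • Matrix.vecMulVec w (hat w), by
    rw [Matrix.det_fin_two]
    simp [hat]
    ring⟩

private theorem tt_coe {K : Type*} [Field K] (w : Fin 2 → K) (x : K) :
    (tt w x : Matrix (Fin 2) (Fin 2) K) = 1 + x • Matrix.vecMulVec w (hat w) := rfl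

private theorem tt_add {K : Type*} [Field K] (w : Fin 2 → K) (x y : K) :
    tt w x * tt w y = tt w (x + y) := by
  apply Subtype.ext
  rw [Matrix.SpecialLinearGroup.coe_mul, tt_coe, tt_coe, tt_coe]
  ext i j
  fin_cases i <;> fin_cases j <;>
    simp [Matrix.mul_apply, Fin.sum_univ_two, hat] <;> ring

private theorem tt_zero {K : Type*} [Field K] (w : Fin 2 → K) : tt w 0 = 1 := by
  apply Subtype.ext
  rw [tt_coe, zero_smul, add_zero]
  rfl

private theorem tt_neg {K : Type*} [Field K] (w : Fin 2 → K) (x : K) :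
    tt w (-x) = (tt w x)⁻¹ := by
  apply eq_inv_of_mul_eq_one_right
  rw [tt_add, add_neg_cancel, tt_zero]

private theorem tt_fix {K : Type*} [Field K] (w : Fin 2 → K) (x : K) : act (tt w x) w = w := by
  ext i
  fin_cases i
  · show act (tt w x) w 0 = w 0
    rw [act_apply_zero, tt_coe]
    simp [hat]
    ring
  · show act (tt w x) w 1 = w 1
    rw [act_apply_one, tt_coe]
    simp [hat]
    ring

private theorem exists_ne {K : Type*} [Field K] {w : Fin 2 → K} (hw : w ≠ 0) :
    w 0 ≠ 0 ∨ w 1 ≠ 0 := by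
  by_contra h
  push Not at h
  apply hw
  ext i
  fin_cases i
  · exact h.1
  · exact h.2

private theorem tt_inj {K : Type*} [Field K] {w : Fin 2 → K} (hw : w ≠ 0) :
    Function.Injective (tt w) := by
  intro x y h
  have h1 : (tt w x : Matrix (Fin 2) (Fin 2) K) = (tt w y : Matrix (Fin 2) (Fin 2) K) := by rw [h]
  rw [tt_coe, tt_coe] at h1
  rcases exists_ne hw with h0 | h0
  · have h2 := congrFun (congrFun h1 0) 1
    simp [hat] at h2
    rcases h2 with h2 | h2
    · exact h2
    · exact absurd h2 h0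
  · have h2 := congrFun (congrFun h1 1) 0
    simp [hat] at h2
    rcases h2 with h2 | h2
    · exact h2
    · exact absurd h2 h0

private theorem trB {K : Type*} [Field K] {g : SL2 K} {w : Fin 2 → K} (hw : w ≠ 0)
    (h : act g w = w) : (g : Matrix (Fin 2) (Fin 2) K) 0 0 +
      (g : Matrix (Fin 2) (Fin 2) K) 1 1 = 2 := by
  have hd := det_eq g
  have c0 := congrFun h 0
  have c1 := congrFun h 1
  rw [act_apply_zero] at c0
  rw [act_apply_one] at c1
  set a := (g : Matrix (Fin 2) (Fin 2) K) 0 0 with ha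
  set b := (g : Matrix (Fin 2) (Fin 2) K) 0 1 with hb
  set c := (g : Matrix (Fin 2) (Fin 2) K) 1 0 with hc
  set d := (g : Matrix (Fin 2) (Fin 2) K) 1 1 with hd'
  have m0 : (2 - (a + d)) * w 0 = 0 := by
    linear_combination -hd * w 0 - (1 - d) * c0 - b * c1
  have m1 : (2 - (a + d)) * w 1 = 0 := by
    linear_combination -hd * w 1 - (1 - a) * c1 - c * c0
  rcases exists_ne hw with h0 | h0
  · rcases mul_eq_zero.mp m0 with h1 | h1
    · linear_combination -h1
    · exact absurd h1 h0
  · rcases mul_eq_zero.mp m1 with h1 | h1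
    · linear_combination -h1
    · exact absurd h1 h0

private theorem fix_tt {K : Type*} [Field K] {w : Fin 2 → K} (hw : w ≠ 0) {g : SL2 K}
    (h : act g w = w) : ∃ x, g = tt w x := by
  have htr := trB hw h
  have hd := det_eq g
  have c0 := congrFun h 0
  have c1 := congrFun h 1
  rw [act_apply_zero] at c0
  rw [act_apply_one] at c1
  rcases exists_ne hw with h0 | h0
  · refine ⟨(g : Matrix (Fin 2) (Fin 2) K) 0 1 / (w 0) ^ 2, ?_⟩
    apply Subtype.ext
    rw [tt_coe]
    ext i j
    fin_cases i <;> fin_cases j <;> simp [hat] <;> field_simp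
    · linear_combination c0
    · linear_combination (w 0) * c1 - (w 0 * w 1) * htr + w 1 * c0
    · linear_combination (w 0) * htr - c0
  · refine ⟨-(g : Matrix (Fin 2) (Fin 2) K) 1 0 / (w 1) ^ 2, ?_⟩
    apply Subtype.ext
    rw [tt_coe]
    ext i j
    fin_cases i <;> fin_cases j <;> simp [hat] <;> field_simp
    · linear_combination (w 1) * htr - c1
    · linear_combination (w 1) * c0 - (w 0 * w 1) * htr + w 0 * c1
    · linear_combination c1

private theorem tt_conj {K : Type*} [Field K] {w : Fin 2 → K} {b : SL2 K} {μ : K}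
    (h : act b w = μ • w) (x : K) : b * tt w x * b⁻¹ = tt w (μ ^ 2 * x) := by
  rw [mul_inv_eq_iff_eq_mul]
  have hd := det_eq b
  have c0 := congrFun h 0
  have c1 := congrFun h 1
  rw [act_apply_zero] at c0
  rw [act_apply_one] at c1
  simp only [Pi.smul_apply, smul_eq_mul] at c0 c1
  set p := (b : Matrix (Fin 2) (Fin 2) K) 0 0 with hp
  set q := (b : Matrix (Fin 2) (Fin 2) K) 0 1 with hq
  set r := (b : Matrix (Fin 2) (Fin 2) K) 1 0 with hr
  set s := (b : Matrix (Fin 2) (Fin 2) K) 1 1 with hs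
  have k0 : μ * (-(w 1) * p + w 0 * r) = -(w 1) := by
    linear_combination -(w 1) * hd - r * c0 + p * c1
  have k1 : μ * (-(w 1) * q + w 0 * s) = w 0 := by
    linear_combination (w 0) * hd - s * c0 + q * c1
  apply Subtype.ext
  rw [Matrix.SpecialLinearGroup.coe_mul, Matrix.SpecialLinearGroup.coe_mul, tt_coe, tt_coe]
  ext i j
  fin_cases i <;> fin_cases j <;>
    simp [Matrix.mul_apply, Fin.sum_univ_two, hat,
      ← hp, ← hq, ← hr, ← hs]
  · linear_combination x * (-(w 1)) * c0 - x * μ * w 0 * k0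
  · linear_combination x * (w 0) * c0 - x * μ * w 0 * k1
  · linear_combination x * (-(w 1)) * c1 - x * μ * w 1 * k0
  · linear_combination x * (w 0) * c1 - x * μ * w 1 * k1

private theorem num_final {N Q q th c B : ℕ} (hN : 2 ^ 60 ≤ N) (h1 : N * Q ≤ 2 * B * c)
    (hc : c ^ 3 ≤ 110592 * N ^ 2) (hB : B ≤ 2 * th * Q) (hQ : 2 ≤ Q) (hq : th < q)
    (hQ3 : Q ^ 3 ≤ 2 * N) (hqq : q ^ 2 ≤ Q) : False := by
  have a1 : N * Q ≤ (4 * th * c) * Q := by
    calc N * Q ≤ 2 * B * c := h1
      _ ≤ 2 * (2 * th * Q) * c := by gcongr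
      _ = (4 * th * c) * Q := by ring
  have a2 : N ≤ 4 * th * c := Nat.le_of_mul_le_mul_right a1 (by omega)
  have a3 : N * N ^ 2 ≤ (7077888 * th ^ 3) * N ^ 2 := by
    calc N * N ^ 2 = N ^ 3 := by ring
      _ ≤ (4 * th * c) ^ 3 := Nat.pow_le_pow_left a2 3
      _ = 64 * th ^ 3 * c ^ 3 := by ring
      _ ≤ 64 * th ^ 3 * (110592 * N ^ 2) := Nat.mul_le_mul_left _ hc
      _ = (7077888 * th ^ 3) * N ^ 2 := by ring
  have hNp : 0 < N := by
    have : 0 < 2 ^ 60 := by positivity
    omega
  have a4 : N ≤ 7077888 * th ^ 3 := Nat.le_of_mul_le_mul_right a3 (by positivity)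
  have a5 : th ^ 3 ≤ q ^ 3 := Nat.pow_le_pow_left hq.le 3
  have a6 : Q ^ 3 ≤ (242 * q) ^ 3 := by
    calc Q ^ 3 ≤ 2 * N := hQ3
      _ ≤ 2 * (7077888 * th ^ 3) := by omega
      _ ≤ 2 * (7077888 * q ^ 3) := by omega
      _ ≤ (242 * q) ^ 3 := by
        rw [mul_pow]
        norm_num
        omega
  have a7 : Q ≤ 242 * q := (Nat.pow_le_pow_iff_left (by norm_num)).mp a6
  have hqp : 0 < q := by omega
  have a8 : q * q ≤ 242 * q := by
    calc q * q = q ^ 2 := by ring
      _ ≤ Q := hqq
      _ ≤ 242 * q := a7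
  have a9 : q ≤ 242 := Nat.le_of_mul_le_mul_right a8 hqp
  have a10 : th ^ 3 ≤ 242 ^ 3 := Nat.pow_le_pow_left (by omega) 3
  have a11 : (2 : ℕ) ^ 60 ≤ 7077888 * 242 ^ 3 := by omega
  norm_num at a11

theorem structB {K : Type*} [Field K] [IsAlgClosed K] (H : Subgroup (SL2 K))
    (hfin : (H : Set (SL2 K)).Finite) (hN : 2 ^ 60 ≤ Nat.card H) (hesc : Esc (H : Set (SL2 K)) 1) :
    ∃ (w : Fin 2 → K) (Eu : Subfield K), w ≠ 0 ∧ (Eu : Set K).Finite ∧
      (∀ x : K, (∃ g ∈ H, (g : Matrix (Fin 2) (Fin 2) K) = 1 + x • Matrix.vecMulVec w (hat w)) ↔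
        x ∈ Eu) ∧
      (∀ b ∈ H, ∀ μ : K, act b w = μ • w → μ ^ 2 ∈ Eu) ∧
      Nat.card H ≤ 96 ^ 3 * Nat.card Eu ^ 3 ∧
      Nat.card Eu ^ 3 ≤ 2 * Nat.card H ∧
      Nat.card H ^ 2 ≤ 9216 ^ 3 * {g : SL2 K | g ∈ H ∧ om (act g w) w = 0}.ncard ^ 3 := by
  classical
  obtain ⟨w₀, hw₀, u, hu, hu1, huw⟩ := unip H hfin hN hesc
  obtain ⟨s1, s2, s3, s4, s5⟩ := structA H hfin hesc w₀ hw₀ u hu hu1 huw
  -- the additive group
  let M : AddSubgroup K :=
    { carrier := {x | tt w₀ x ∈ H}
      zero_mem' := by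
        show tt w₀ 0 ∈ H
        rw [tt_zero]
        exact H.one_mem
      add_mem' := by
        intro x y hx hy
        show tt w₀ (x + y) ∈ H
        rw [← tt_add]
        exact H.mul_mem hx hy
      neg_mem' := by
        intro x hx
        show tt w₀ (-x) ∈ H
        rw [tt_neg]
        exact H.inv_mem hx }
  have hM : ∀ x, x ∈ M ↔ tt w₀ x ∈ H := fun x => Iff.rfl
  have himg : {g : SL2 K | g ∈ H ∧ act g w₀ = w₀} = tt w₀ '' (M : Set K) := by
    ext g
    constructor
    · rintro ⟨hg, hgw⟩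
      obtain ⟨x, rfl⟩ := fix_tt hw₀ hgw
      exact ⟨x, hg, rfl⟩
    · rintro ⟨x, hx, rfl⟩
      exact ⟨hx, tt_fix w₀ x⟩
  have hUfin : {g : SL2 K | g ∈ H ∧ act g w₀ = w₀}.Finite := hfin.subset (fun g hg => hg.1)
  have hMfin : (M : Set K).Finite := by
    rw [himg] at hUfin
    exact Set.Finite.of_finite_image hUfin (tt_inj hw₀).injOn
  have hQ : {g : SL2 K | g ∈ H ∧ act g w₀ = w₀}.ncard = (M : Set K).ncard := by
    rw [himg]
    exact Set.ncard_image_of_injective _ (tt_inj hw₀)
  rw [hQ] at s1 s3 s4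
  set Q := (M : Set K).ncard with hQd
  obtain ⟨β, hβ⟩ := fix_tt hw₀ huw
  have hβM : β ∈ M := by
    rw [hM, ← hβ]
    exact hu
  have hβ0 : β ≠ 0 := by
    rintro rfl
    rw [tt_zero] at hβ
    exact hu1 hβ
  -- the stabiliser field
  let Eu : Subfield K :=
    { carrier := {e | ∀ x ∈ M, e * x ∈ M}
      one_mem' := by
        intro x hx
        rw [one_mul]
        exact hx
      zero_mem' := by
        intro x hx
        rw [zero_mul]
        exact M.zero_mem
      add_mem' := by
        intro a b ha hb x hx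
        rw [add_mul]
        exact M.add_mem (ha x hx) (hb x hx)
      mul_mem' := by
        intro a b ha hb x hx
        rw [mul_assoc]
        exact ha _ (hb x hx)
      neg_mem' := by
        intro a ha x hx
        rw [neg_mul]
        exact M.neg_mem (ha x hx)
      inv_mem' := by
        intro a ha x hx
        by_cases h0 : a = 0
        · rw [h0, _root_.inv_zero, zero_mul]
          exact M.zero_mem
        have himg' : (fun y => a * y) '' (M : Set K) = (M : Set K) := by
          apply Set.eq_of_subset_of_ncard_le _ _ hMfin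
          · rintro _ ⟨y, hy, rfl⟩
            exact ha y hy
          · rw [Set.ncard_image_of_injective _ (mul_right_injective₀ h0)]
        have hx' : x ∈ (fun y => a * y) '' (M : Set K) := by
          rw [himg']
          exact hx
        obtain ⟨y, hy, hyx⟩ := hx'
        simp only at hyx
        rw [← hyx, inv_mul_cancel_left₀ h0]
        exact hy }
  have hEu : ∀ e, e ∈ Eu ↔ ∀ x ∈ M, e * x ∈ M := fun e => Iff.rfl
  have hEfin : (Eu : Set K).Finite := by
    apply Set.Finite.of_finite_image (f := fun e => e * β)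
    · apply hMfin.subset
      rintro _ ⟨e, he, rfl⟩
      exact (hEu e).mp he β hβM
    · intro a _ b _ h
      exact mul_right_cancel₀ hβ0 h
  have hEsq : ∀ b ∈ H, ∀ μ : K, act b w₀ = μ • w₀ → μ ^ 2 ∈ Eu := by
    intro b hb μ hμ
    rw [hEu]
    intro x hx
    rw [hM, ← tt_conj hμ]
    exact H.mul_mem (H.mul_mem hb hx) (H.inv_mem hb)
  have hQ2 : 2 ≤ Q := by
    rw [hQd]
    have h := (Set.one_lt_ncard hMfin).mpr ⟨β, hβM, 0, M.zero_mem, hβ0⟩
    omega
  have : Finite Eu := hEfin.to_subtype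
  have : Finite M := hMfin.to_subtype
  have hqcard : Nat.card Eu = (Eu : Set K).ncard := rfl
  have hMcard : Nat.card M = Q := rfl
  -- multipliers
  have hmu : ∀ g : SL2 K, om (act g w₀) w₀ = 0 → ∃ μ : K, μ ≠ 0 ∧ act g w₀ = μ • w₀ := by
    intro g hg
    obtain ⟨μ, hμ⟩ := exists_smul_of_om hw₀ hg
    refine ⟨μ, ?_, hμ⟩
    rintro rfl
    rw [zero_smul] at hμ
    exact act_ne_zero g hw₀ hμ
  choose! mu hmu0 hmu1 using hmu
  -- finsets
  set HF : Finset (SL2 K) := hfin.toFinset with hHF
  have hmH : ∀ x, x ∈ HF ↔ x ∈ H := by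
    intro x
    rw [hHF, Set.Finite.mem_toFinset]
    rfl
  set BF : Finset (SL2 K) := HF.filter (fun g => om (act g w₀) w₀ = 0) with hBF
  set UF : Finset (SL2 K) := HF.filter (fun g => act g w₀ = w₀) with hUF
  have hBc : {g : SL2 K | g ∈ H ∧ om (act g w₀) w₀ = 0}.ncard = BF.card := by
    rw [← Set.ncard_coe_finset]
    congr 1
    ext g
    simp only [Set.mem_ofPred_eq, hBF, Finset.coe_filter, hmH]
  have hUc : UF.card = Q := by
    rw [← hQ, ← Set.ncard_coe_finset]
    congr 1
    ext g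
    simp only [Set.mem_ofPred_eq, hUF, Finset.coe_filter, hmH]
  set EF : Finset K := hEfin.toFinset.erase 0 with hEF
  have hEFc : EF.card < Nat.card Eu := by
    have h0 : (0 : K) ∈ hEfin.toFinset := by
      rw [Set.Finite.mem_toFinset]
      exact Eu.zero_mem
    rw [hEF, Finset.card_erase_of_mem h0, hqcard, Set.ncard_eq_toFinset_card _ hEfin]
    have := Finset.card_pos.mpr ⟨0, h0⟩
    omega
  have hBcard : BF.card ≤ 2 * EF.card * Q := by
    have hgen : BF.card ≤ (2 * Q) * EF.card := by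
      refine Finset.card_le_mul_card_image_of_maps_to (f := fun g => mu g ^ 2) ?_ _ ?_
      · intro g hg
        rw [hBF, Finset.mem_filter, hmH] at hg
        rw [hEF, Finset.mem_erase, Set.Finite.mem_toFinset]
        exact ⟨pow_ne_zero 2 (hmu0 g hg.2), hEsq g hg.1 _ (hmu1 g hg.2)⟩
      · intro y hy
        rcases (BF.filter (fun g => mu g ^ 2 = y)).eq_empty_or_nonempty with h0 | ⟨g₀, hg₀⟩
        · rw [h0]
          simp
        · rw [Finset.mem_filter, hBF, Finset.mem_filter, hmH] at hg₀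
          obtain ⟨⟨hgH, hgo⟩, hgy⟩ := hg₀
          set F₁ := HF.filter (fun x => act (g₀⁻¹ * x) w₀ = w₀) with hF₁
          set F₂ := HF.filter (fun x => act (g₀⁻¹ * x) w₀ = -w₀) with hF₂
          have h4 : BF.filter (fun g => mu g ^ 2 = y) ⊆ F₁ ∪ F₂ := by
            intro x hx
            rw [Finset.mem_filter, hBF, Finset.mem_filter, hmH] at hx
            obtain ⟨⟨hxH, hxo⟩, hxy⟩ := hx
            rw [Finset.mem_union, hF₁, hF₂, Finset.mem_filter, Finset.mem_filter, hmH]
            have h5 : mu x = mu g₀ ∨ mu x = -mu g₀ := by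
              apply sq_eq_sq_iff_eq_or_eq_neg.mp
              rw [hxy, hgy]
            have h6 : act g₀⁻¹ w₀ = (mu g₀)⁻¹ • w₀ := by
              have h7 := congrArg (act g₀⁻¹) (hmu1 g₀ hgo)
              rw [act_inv_act, act_smul] at h7
              rw [eq_inv_smul_iff₀ (hmu0 g₀ hgo)]
              exact h7.symm
            rcases h5 with h5 | h5
            · left
              refine ⟨hxH, ?_⟩
              rw [act_mul, hmu1 x hxo, act_smul, h6, h5, smul_smul,
                mul_inv_cancel₀ (hmu0 g₀ hgo), one_smul]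
            · right
              refine ⟨hxH, ?_⟩
              rw [act_mul, hmu1 x hxo, act_smul, h6, h5, smul_smul, neg_mul,
                mul_inv_cancel₀ (hmu0 g₀ hgo), neg_smul, one_smul]
          have h5 : F₁.card ≤ UF.card := by
            apply Finset.card_le_card_of_injOn (fun x => g₀⁻¹ * x)
            · intro x hx
              rw [Finset.mem_coe, hF₁, Finset.mem_filter, hmH] at hx
              rw [Finset.mem_coe, hUF, Finset.mem_filter, hmH]
              exact ⟨H.mul_mem (H.inv_mem hgH) hx.1, hx.2⟩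
            · intro x _ x' _ h
              exact mul_left_cancel h
          have h6 : F₂.card ≤ UF.card := by
            rcases F₂.eq_empty_or_nonempty with h0 | ⟨x₁, hx₁⟩
            · rw [h0]
              simp
            · rw [hF₂, Finset.mem_filter, hmH] at hx₁
              apply Finset.card_le_card_of_injOn (fun x => x₁⁻¹ * x)
              · intro x hx
                rw [Finset.mem_coe, hF₂, Finset.mem_filter, hmH] at hx
                rw [Finset.mem_coe, hUF, Finset.mem_filter, hmH]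
                refine ⟨H.mul_mem (H.inv_mem hx₁.1) hx.1, ?_⟩
                have h7 : act x w₀ = act x₁ w₀ := by
                  have h8 : act (g₀⁻¹ * x) w₀ = act (g₀⁻¹ * x₁) w₀ := by rw [hx.2, hx₁.2]
                  rw [act_mul, act_mul] at h8
                  have h9 := congrArg (act g₀) h8
                  rwa [act_act_inv, act_act_inv] at h9
                show act (x₁⁻¹ * x) w₀ = w₀
                rw [act_mul, h7, act_inv_act]
              · intro x _ x' _ h
                exact mul_left_cancel h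
          calc (BF.filter (fun g => mu g ^ 2 = y)).card ≤ (F₁ ∪ F₂).card :=
                Finset.card_le_card h4
            _ ≤ F₁.card + F₂.card := Finset.card_union_le _ _
            _ ≤ UF.card + UF.card := Nat.add_le_add h5 h6
            _ = 2 * Q := by rw [hUc]; ring
    calc BF.card ≤ (2 * Q) * EF.card := hgen
      _ = 2 * EF.card * Q := by ring
  -- M = β Eu
  have hMle : ∀ x ∈ M, ∃ e ∈ Eu, x = e * β := by
    intro γ hγ
    by_contra hcon
    push Not at hcon
    have hqq : Nat.card Eu ^ 2 ≤ Q := by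
      have hinj : Function.Injective (fun p : Eu × Eu =>
          (⟨(p.1 : K) * β + (p.2 : K) * γ, M.add_mem (p.1.2 β hβM) (p.2.2 γ hγ)⟩ : M)) := by
        rintro ⟨a, b⟩ ⟨a', b'⟩ h
        have h1 : (a : K) * β + (b : K) * γ = (a' : K) * β + (b' : K) * γ :=
          congrArg Subtype.val h
        have h2 : ((b : K) - b') * γ = ((a' : K) - a) * β := by linear_combination h1
        by_cases hb : (b : K) - b' = 0
        · rw [hb, zero_mul] at h2
          have h3 : (a' : K) - a = 0 := by
            rcases mul_eq_zero.mp h2.symm with h3 | h3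
            · exact h3
            · exact absurd h3 hβ0
          have e1 : a = a' := Subtype.ext (sub_eq_zero.mp h3).symm
          have e2 : b = b' := Subtype.ext (sub_eq_zero.mp hb)
          rw [e1, e2]
        · exfalso
          refine hcon (((b : K) - b')⁻¹ * ((a' : K) - a)) ?_ ?_
          · exact Eu.mul_mem (Eu.inv_mem (Eu.sub_mem b.2 b'.2)) (Eu.sub_mem a'.2 a.2)
          · rw [mul_assoc, ← h2, inv_mul_cancel_left₀ hb]
      have h := Nat.card_le_card_of_injective _ hinj
      rw [Nat.card_prod, hMcard] at h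
      rw [pow_two]
      exact h
    rw [hBc] at s4
    exact num_final hN s4 s5 hBcard hQ2 hEFc s3 hqq
  have hQq : Q = Nat.card Eu := by
    have h : (M : Set K) = (fun e => e * β) '' (Eu : Set K) := by
      ext x
      constructor
      · intro hx
        obtain ⟨e, he, rfl⟩ := hMle x hx
        exact ⟨e, he, rfl⟩
      · rintro ⟨e, he, rfl⟩
        exact (hEu e).mp he β hβM
    rw [hQd, h, hqcard]
    exact Set.ncard_image_of_injective _ (mul_left_injective₀ hβ0)
  -- the vector
  obtain ⟨c₀, hc₀⟩ := IsAlgClosed.exists_pow_nat_eq β (n := 2) (by norm_num)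
  have hc0 : c₀ ≠ 0 := by
    rintro rfl
    apply hβ0
    rw [← hc₀]
    norm_num
  have htt : ∀ x, tt (c₀ • w₀) x = tt w₀ (x * β) := by
    intro x
    apply Subtype.ext
    rw [tt_coe, tt_coe, ← hc₀]
    ext i j
    fin_cases i <;> fin_cases j <;> simp [hat] <;> ring
  refine ⟨c₀ • w₀, Eu, ?_, hEfin, ?_, ?_, ?_, ?_, ?_⟩
  · exact smul_ne_zero hc0 hw₀
  · intro x
    have h1 : (∃ g ∈ H, (g : Matrix (Fin 2) (Fin 2) K) =
        1 + x • Matrix.vecMulVec (c₀ • w₀) (hat (c₀ • w₀))) ↔ tt (c₀ • w₀) x ∈ H := by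
      constructor
      · rintro ⟨g, hg, hgx⟩
        have : g = tt (c₀ • w₀) x := Subtype.ext hgx
        rwa [← this]
      · intro h
        exact ⟨_, h, rfl⟩
    rw [h1, htt, ← hM]
    constructor
    · intro h
      obtain ⟨e, he, hxe⟩ := hMle _ h
      rw [mul_right_cancel₀ hβ0 hxe]
      exact he
    · intro h
      exact (hEu x).mp h β hβM
  · intro b hb μ hμ
    apply hEsq b hb μ
    rw [act_smul, smul_comm μ c₀ w₀] at hμ
    exact smul_right_injective _ hc0 hμ
  · rw [← hQq]
    exact s1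
  · rw [← hQq]
    exact s3
  · have h : {g : SL2 K | g ∈ H ∧ om (act g (c₀ • w₀)) (c₀ • w₀) = 0} =
        {g : SL2 K | g ∈ H ∧ om (act g w₀) w₀ = 0} := by
      ext g
      simp only [Set.mem_ofPred_eq]
      rw [act_smul, om_smul_left, om_smul_right]
      constructor
      · rintro ⟨h1, h2⟩
        refine ⟨h1, ?_⟩
        rcases mul_eq_zero.mp h2 with h3 | h3
        · exact absurd h3 hc0
        · rcases mul_eq_zero.mp h3 with h4 | h4
          · exact absurd h4 hc0
          · exact h4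
      · rintro ⟨h1, h2⟩
        refine ⟨h1, ?_⟩
        rw [h2, mul_zero, mul_zero]
    rw [h]
    exact s2

end Pool.Agent.Helper72.PT
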