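import Pool.Agent.Helper72.PT.Growth2
import Pool.Agent.Helper72.PT.Iter2
import Pool.Agent.Helper72.PT.StructB
import Pool.Agent.Helper72.PT.Finishing
import Pool.Agent.Helper72.PT.Main

/-! # Product theorem for finite subgroups of `SL₂(K)`: from a word ball to a root group (exponent 9) -/

namespace Pool.Agent.Helper72.PT

open Matrix Module Pool.Agent.Helper72.TV

theorem ptMain2 : ∃ C : ℕ, 16 ≤ C ∧ ∀ (K : Type) [Field K] [IsAlgClosed K] (S : Set (SL2 K))
    (n₀ : ℕ), (Subgroup.closure S : Set (SL2 K)).Finite →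
    C ≤ Nat.card (Subgroup.closure S) → Esc S 16 → C ≤ n₀ → C ≤ ball S n₀ →
    (∃ g ∈ Words S (2 * n₀), tr g ^ 2 ≠ 4) →
    ∃ (w : Fin 2 → K) (Eu : Subfield K), w ≠ 0 ∧ (Eu : Set K).Finite ∧
      (∀ x : K, (∃ g ∈ Subgroup.closure S, (g : Matrix (Fin 2) (Fin 2) K) =
        1 + x • Matrix.vecMulVec w (hat w)) ↔ x ∈ Eu) ∧
      Nat.card (Subgroup.closure S) ≤ 96 ^ 3 * Nat.card Eu ^ 3 ∧
      ∃ n₁ : ℕ, (n₁ : ℝ) ≤ C * n₀ *
          (Real.log (Nat.card (Subgroup.closure S)) / Real.log (ball S n₀)) ^ 9 ∧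
        ∀ x ∈ Eu, ∃ g ∈ Words S n₁, (g : Matrix (Fin 2) (Fin 2) K) =
          1 + x • Matrix.vecMulVec w (hat w) := by
  obtain ⟨C1, hC1, hiter⟩ := iter2 (64 * 512 * 110592) 16
  obtain ⟨C2, hfinish⟩ := finishing C1
  refine ⟨max (64 * C1) (max (2 ^ 60) C2), ?_, ?_⟩
  · have h : 64 * C1 ≤ max (64 * C1) (max (2 ^ 60) C2) := le_max_left _ _
    omega
  · intro K _ _ S n₀ hfin hN hesc hn hball hreg
    have hA1 : 64 * C1 ≤ max (64 * C1) (max (2 ^ 60) C2) := le_max_left _ _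
    have hA2 : 2 ^ 60 ≤ max (64 * C1) (max (2 ^ 60) C2) :=
      le_trans (le_max_left _ _) (le_max_right _ _)
    have hA3 : C2 ≤ max (64 * C1) (max (2 ^ 60) C2) :=
      le_trans (le_max_right _ _) (le_max_right _ _)
    have hescH := esc_closure S 16 hesc
    obtain ⟨w, Eu, hw, hEfin, hiff, hmu, hs1, hs2, hs3⟩ :=
      structB (Subgroup.closure S) hfin (hA2.trans hN) hescH
    refine ⟨w, Eu, hw, hEfin, hiff, hs1, ?_⟩
    obtain ⟨n₁, hn1, hn2, hn3⟩ := hiter (ball S) (Nat.card (Subgroup.closure S)) n₀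
      (ball_le_card hfin) (fun a b hab => ball_mono hfin hab) (by omega) (by omega)
      (fun n hnn => growth2 S hfin 16 n hesc (by omega) (by
        obtain ⟨g, hg, hg4⟩ := hreg
        exact ⟨g, words_mono (by omega) hg, hg4⟩))
    refine ⟨64 * n₁, ?_, ?_⟩
    · push_cast
      have hR : 0 ≤ (n₀ : ℝ) * (Real.log (Nat.card (Subgroup.closure S)) /
          Real.log (ball S n₀)) ^ 9 := by
        refine mul_nonneg (Nat.cast_nonneg _) (pow_nonneg (div_nonneg ?_ ?_) _)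
        · exact Real.log_natCast_nonneg _
        · exact Real.log_natCast_nonneg _
      have hA1' : (64 : ℝ) * C1 ≤ ((max (64 * C1) (max (2 ^ 60) C2) : ℕ) : ℝ) := by
        exact_mod_cast hA1
      calc (64 : ℝ) * n₁ ≤ 64 * (C1 * n₀ * (Real.log (Nat.card (Subgroup.closure S)) /
            Real.log (ball S n₀)) ^ 9) := by linarith
        _ = (64 * C1) * (n₀ * (Real.log (Nat.card (Subgroup.closure S)) /
            Real.log (ball S n₀)) ^ 9) := by ring
        _ ≤ ((max (64 * C1) (max (2 ^ 60) C2) : ℕ) : ℝ) * (n₀ *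
            (Real.log (Nat.card (Subgroup.closure S)) / Real.log (ball S n₀)) ^ 9) :=
            mul_le_mul_of_nonneg_right hA1' hR
        _ = ((max (64 * C1) (max (2 ^ 60) C2) : ℕ) : ℝ) * n₀ *
            (Real.log (Nat.card (Subgroup.closure S)) / Real.log (ball S n₀)) ^ 9 := by ring
        _ = _ := by push_cast; ring
    · exact hfinish K S n₁ w Eu hfin hw hEfin hiff hmu hs2 hs3 (hA3.trans hN) hn3

end Pool.Agent.Helper72.PT
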