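import Pool.Agent.Helper72.PT.LPU
import Pool.Agent.Helper72.PT.LPB

/-! # PT-BadZ

Elements of given trace mapping one line to another one.

Plan. `lpU, lpT, lpB` may be still sorried. `X = {z ∈ Words S n | tr z = τ ∧ om (act z w) u = 0}`, `y = ball S (20 n)`.
Case A: `om w u = 0`, so `u ∥ w` and every `z ∈ X` has `act z w = μ • w` with `μ + μ⁻¹ = τ` (`μ` a root of
`X² - τ X + 1`): at most two values of `μ`. For `z, z₀ ∈ X` with the same `μ`, `act (z₀⁻¹ z) w = w`, so
`z ↦ z₀⁻¹ z` injects `{z ∈ X | μ(z) = μ}` into `{g ∈ Words S (2 n) | act g w = w}`, whose cardinality `a` satisfies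
`a³ ≤ 2 ball S (10 n)`. So `|X| ≤ 2 a`, `|X|³ ≤ 16 y`.
Case B: `om w u ≠ 0`, basis `w, u`; `z ∈ X` has `act z w = α • u`, `α ≠ 0`, and from `det = 1`, `tr = τ`:
`z = !![0, -δ/α; α, τ]` in this basis (`δ = 1`: `act z u = -α⁻¹ • w + τ • u`); so `z` is determined by `α`. For
`z, z'` with parameters `α, β`: `z z'⁻¹` maps `u` to `(α/β) • u`, so it lies in `B(u)`, and
`z z'⁻¹ = !![β/α, 0; τ (α - β), α/β]` in the basis `w, u` (check).
 If `τ ≠ 0`: the map `(z, z') ↦ z z'⁻¹` from pairs with `z ≠ z'` to `{g ∈ Words S (2 n) | om (act g u) u = 0}` is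
 injective (`ρ = β/α ≠ 1` and `τ α (1 - ρ)` are determined), so `|X|² - |X| ≤ b`, `b⁶ ≤ 512 ball S (20 n)⁴`.
 Hence `(|X| - 1)² ≤ b`, `(|X|-1)^12 ≤ 512 y⁴`; if `|X| ≤ 8` then `|X|³ ≤ 512 ≤ 512 y`; if `|X| ≥ 9` then
 `|X| ≤ (9/8) (|X| - 1)`, so `|X|^12 ≤ (9/8)^12 * 512 * y⁴ ≤ (512 y)⁴`.
 If `τ = 0`: for fixed `z'`, `z ↦ z z'⁻¹` injects `X` into the torus set of LPT for `w, u` (words of length
 `2 n`), so `|X|³ ≤ 512 ball S (10 n)`.
-/

namespace Pool.Agent.Helper72.PT

open Matrix Module Pool.Agent.Helper72.TV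

section BadZAux

variable {K : Type*} [Field K]

private theorem bz_ext {g h : SL2 K} {w u : Fin 2 → K} (hwu : om w u ≠ 0)
    (h1 : act g w = act h w) (h2 : act g u = act h u) : g = h := by
  apply Matrix.SpecialLinearGroup.ext
  have a0 := congrFun h1 0
  have a1 := congrFun h1 1
  have b0 := congrFun h2 0
  have b1 := congrFun h2 1
  rw [act_apply_zero, act_apply_zero] at a0 b0
  rw [act_apply_one, act_apply_one] at a1 b1
  unfold om at hwu
  intro i j
  fin_cases i <;> fin_cases j
  · simp only [Fin.zero_eta, Fin.isValue]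
    apply mul_left_cancel₀ hwu
    linear_combination u 1 * a0 - w 1 * b0
  · simp only [Fin.zero_eta, Fin.isValue, Fin.mk_one]
    apply mul_left_cancel₀ hwu
    linear_combination w 0 * b0 - u 0 * a0
  · simp only [Fin.zero_eta, Fin.isValue, Fin.mk_one]
    apply mul_left_cancel₀ hwu
    linear_combination u 1 * a1 - w 1 * b1
  · simp only [Fin.isValue, Fin.mk_one]
    apply mul_left_cancel₀ hwu
    linear_combination w 0 * b1 - u 0 * a1

private theorem bz_vec {x y w u : Fin 2 → K} (hwu : om w u ≠ 0) (h1 : om w x = om w y)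
    (h2 : om u x = om u y) : x = y := by
  unfold om at *
  ext i
  fin_cases i
  · simp only [Fin.zero_eta, Fin.isValue]
    apply mul_left_cancel₀ hwu
    linear_combination u 0 * h1 - w 0 * h2
  · simp only [Fin.isValue, Fin.mk_one]
    apply mul_left_cancel₀ hwu
    linear_combination u 1 * h1 - w 1 * h2

private theorem bz_tr (g : SL2 K) (w u : Fin 2 → K) :
    tr g * om w u = om (act g w) u + om w (act g u) := by
  rw [tr_eq]
  unfold om
  rw [act_apply_zero, act_apply_zero, act_apply_one, act_apply_one]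
  ring

private theorem bz_par {w u : Fin 2 → K} (hwu : om w u ≠ 0) (hu : u ≠ 0) (hw : w ≠ 0) {z : SL2 K}
    {τ : K} (ht : tr z = τ) (hz : om (act z w) u = 0) :
    ∃ α : K, α ≠ 0 ∧ act z w = α • u ∧ act z u = -(α⁻¹) • w + τ • u := by
  obtain ⟨α, hα⟩ := exists_smul_of_om hu hz
  have hα0 : α ≠ 0 := by
    intro h
    rw [h, zero_smul] at hα
    exact act_ne_zero z hw hα
  refine ⟨α, hα0, hα, ?_⟩
  have h1 := bz_tr z w u
  rw [ht, hz, zero_add] at h1
  have h2 := om_act z w u
  rw [hα, om_smul_left] at h2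
  apply bz_vec hwu
  · rw [← h1]
    unfold om
    simp only [Pi.add_apply, Pi.smul_apply, smul_eq_mul]
    ring
  · have h3 : om u (act z u) = α⁻¹ * om w u := by
      rw [← h2, ← mul_assoc, inv_mul_cancel₀ hα0, one_mul]
    rw [h3]
    unfold om
    simp only [Pi.add_apply, Pi.smul_apply, smul_eq_mul]
    ring

private theorem bz_inv {w u : Fin 2 → K} {z : SL2 K} {τ β : K} (hβ : β ≠ 0)
    (h1 : act z w = β • u) (h2 : act z u = -(β⁻¹) • w + τ • u) :
    act z⁻¹ u = β⁻¹ • w ∧ act z⁻¹ w = τ • w + (-β) • u := by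
  have h3 : act z⁻¹ u = β⁻¹ • w := by
    have h := act_inv_act z w
    rw [h1, act_smul] at h
    rw [← h, smul_smul, inv_mul_cancel₀ hβ, one_smul]
  refine ⟨h3, ?_⟩
  have h := act_inv_act z u
  rw [h2, act_add, act_smul, act_smul, h3] at h
  have h4 : act z⁻¹ w = β • (β⁻¹ • act z⁻¹ w) := by
    rw [smul_smul, mul_inv_cancel₀ hβ, one_smul]
  have h5 : β⁻¹ • act z⁻¹ w = (τ * β⁻¹) • w + (-1 : K) • u := by
    have h6 : -(β⁻¹) • act z⁻¹ w + τ • β⁻¹ • w = u := h
    rw [← h6]
    ext i
    simp only [Pi.add_apply, Pi.smul_apply, smul_eq_mul]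
    ring
  rw [h4, h5]
  ext i
  simp only [Pi.add_apply, Pi.smul_apply, smul_eq_mul]
  field_simp

private theorem bz_prod {w u : Fin 2 → K} {z z' : SL2 K} {τ α β : K} (hα : α ≠ 0) (hβ : β ≠ 0)
    (h1 : act z w = α • u) (h2 : act z u = -(α⁻¹) • w + τ • u)
    (h3 : act z' w = β • u) (h4 : act z' u = -(β⁻¹) • w + τ • u) :
    act (z * z'⁻¹) u = (α / β) • u ∧ act (z * z'⁻¹) w = (β / α) • w + (τ * (α - β)) • u := by
  obtain ⟨h5, h6⟩ := bz_inv hβ h3 h4
  rw [act_mul, act_mul, h5, h6, act_smul, act_add, act_smul, act_smul, h1, h2]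
  constructor
  · rw [smul_smul]
    congr 1
    rw [div_eq_inv_mul]
  · ext i
    simp only [Pi.add_apply, Pi.smul_apply, smul_eq_mul]
    field_simp
    ring

private theorem bz_coord {w u : Fin 2 → K} (hwu : om w u ≠ 0) {a b c d : K}
    (h : a • w + b • u = c • w + d • u) : a = c ∧ b = d := by
  have h0 := congrFun h 0
  have h1 := congrFun h 1
  simp only [Pi.add_apply, Pi.smul_apply, smul_eq_mul] at h0 h1
  unfold om at hwu
  constructor
  · apply mul_left_cancel₀ hwu
    linear_combination u 1 * h0 - u 0 * h1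
  · apply mul_left_cancel₀ hwu
    linear_combination w 0 * h1 - w 1 * h0

private theorem bz_arith (x b y : ℕ) (hy : 1 ≤ y) (hx : x ^ 2 - x ≤ b) (hb : b ^ 6 ≤ 512 * y ^ 4) :
    x ^ 3 ≤ 512 * y := by
  by_cases h8 : x ≤ 8
  · calc x ^ 3 ≤ 8 ^ 3 := Nat.pow_le_pow_left h8 3
      _ = 512 * 1 := by norm_num
      _ ≤ 512 * y := Nat.mul_le_mul_left _ hy
  · have h1 : 8 * x ^ 2 ≤ 9 * b := by
      have h2 : 9 * x ≤ x ^ 2 := by
        rw [pow_two]
        exact Nat.mul_le_mul_right _ (by omega)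
      omega
    have h3 : 8 ^ 6 * x ^ 12 ≤ 9 ^ 6 * (512 * y ^ 4) := by
      calc 8 ^ 6 * x ^ 12 = (8 * x ^ 2) ^ 6 := by ring
        _ ≤ (9 * b) ^ 6 := Nat.pow_le_pow_left h1 6
        _ = 9 ^ 6 * b ^ 6 := by ring
        _ ≤ 9 ^ 6 * (512 * y ^ 4) := Nat.mul_le_mul_left _ hb
    have h4 : (x ^ 3) ^ 4 ≤ (512 * y) ^ 4 := by
      have h5 : 8 ^ 6 * (x ^ 3) ^ 4 ≤ 8 ^ 6 * (512 * y) ^ 4 := by
        calc 8 ^ 6 * (x ^ 3) ^ 4 = 8 ^ 6 * x ^ 12 := by ring
          _ ≤ 9 ^ 6 * (512 * y ^ 4) := h3
          _ = (9 ^ 6 * 512) * y ^ 4 := by ring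
          _ ≤ (8 ^ 6 * 512 ^ 4) * y ^ 4 := Nat.mul_le_mul_right _ (by norm_num)
          _ = 8 ^ 6 * (512 * y) ^ 4 := by ring
      exact Nat.le_of_mul_le_mul_left h5 (by norm_num)
    exact (Nat.pow_le_pow_iff_left (by norm_num)).1 h4

/-- the elements of given eigenvalue -/
private theorem bz_caseA (S : Set (SL2 K)) (hfin : (Subgroup.closure S : Set (SL2 K)).Finite)
    (n : ℕ) (w : Fin 2 → K) (μ : K) :
    {z ∈ Words S n | act z w = μ • w}.ncard ≤ {g ∈ Words S (2 * n) | act g w = w}.ncard := by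
  rcases Set.eq_empty_or_nonempty {z ∈ Words S n | act z w = μ • w} with h | ⟨z₀, hz₀, hz₀'⟩
  · rw [h, Set.ncard_empty]
    exact Nat.zero_le _
  · refine Set.ncard_le_ncard_of_injOn (fun z => z₀⁻¹ * z) ?_ ?_ ((words_finite hfin _).subset
      fun x hx => hx.1)
    · rintro z ⟨hz, hz'⟩
      refine ⟨?_, ?_⟩
      · have h := mul_mem_words (inv_mem_words hz₀) hz
        rwa [← two_mul] at h
      · change act (z₀⁻¹ * z) w = w
        rw [act_mul, hz', ← hz₀', act_inv_act]
    · intro z _ z' _ h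
      exact mul_left_cancel h

end BadZAux

theorem badZ {K : Type*} [Field K] (S : Set (SL2 K))
    (hfin : (Subgroup.closure S : Set (SL2 K)).Finite) (e n : ℕ) (hesc : Esc S e) (hen : e ≤ n)
    (w u : Fin 2 → K) (hw : w ≠ 0) (hu : u ≠ 0) (τ : K) :
    {z ∈ Words S n | tr z = τ ∧ om (act z w) u = 0}.ncard ^ 3 ≤ 512 * ball S (20 * n) := by
  have hXfin : {z ∈ Words S n | tr z = τ ∧ om (act z w) u = 0}.Finite :=
    (words_finite hfin n).subset fun x hx => hx.1
  have hy1 : 1 ≤ ball S (20 * n) := one_le_ball hfin _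
  have hwX : ∀ z ∈ {z ∈ Words S n | tr z = τ ∧ om (act z w) u = 0}, z ∈ Words S n := fun z hz => hz.1
  by_cases hwu : om w u = 0
  · -- Case A
    have hA := lpU S hfin e (2 * n) hesc (by omega) w hw
    have hcard : {z ∈ Words S n | tr z = τ ∧ om (act z w) u = 0}.ncard ≤
        2 * {g ∈ Words S (2 * n) | act g w = w}.ncard := by
      rcases Set.eq_empty_or_nonempty {z ∈ Words S n | tr z = τ ∧ om (act z w) u = 0} with
        h | ⟨z₀, hz₀⟩
      · rw [h, Set.ncard_empty]
        exact Nat.zero_le _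
      · have hex : ∀ z ∈ {z ∈ Words S n | tr z = τ ∧ om (act z w) u = 0},
            ∃ μ : K, act z w = μ • w ∧ μ * μ - τ * μ + 1 = 0 := by
          rintro z ⟨hz, ht, ho⟩
          obtain ⟨c, hc⟩ := exists_smul_of_om hu hwu
          obtain ⟨d, hd⟩ := exists_smul_of_om hu ho
          have hc0 : c ≠ 0 := by
            intro h
            rw [h, zero_smul] at hc
            exact hw hc
          have hμ : act z w = (d / c) • w := by
            rw [hd]
            conv_rhs => rw [hc]
            rw [smul_smul, div_mul_cancel₀ _ hc0]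
          refine ⟨d / c, hμ, ?_⟩
          set μ := d / c with hμdef
          have a0 := congrFun hμ 0
          have a1 := congrFun hμ 1
          rw [act_apply_zero] at a0
          rw [act_apply_one] at a1
          simp only [Pi.smul_apply, smul_eq_mul] at a0 a1
          have hdet := det_eq z
          rw [tr_eq] at ht
          have k0 : (μ * μ - τ * μ + 1) * w 0 = 0 := by
            rw [← ht]
            linear_combination (-(μ - (z : Matrix (Fin 2) (Fin 2) K) 1 1)) * a0 +
              (-((z : Matrix (Fin 2) (Fin 2) K) 0 1)) * a1 - w 0 * hdet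
          have k1 : (μ * μ - τ * μ + 1) * w 1 = 0 := by
            rw [← ht]
            linear_combination (-(μ - (z : Matrix (Fin 2) (Fin 2) K) 0 0)) * a1 +
              (-((z : Matrix (Fin 2) (Fin 2) K) 1 0)) * a0 - w 1 * hdet
          by_contra hne
          apply hw
          ext i
          fin_cases i
          · rcases mul_eq_zero.mp k0 with h | h
            · exact absurd h hne
            · exact h
          · rcases mul_eq_zero.mp k1 with h | h
            · exact absurd h hne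
            · exact h
        obtain ⟨μ₀, hμ₀, hq₀⟩ := hex z₀ hz₀
        have hsub : {z ∈ Words S n | tr z = τ ∧ om (act z w) u = 0} ⊆
            {z ∈ Words S n | act z w = μ₀ • w} ∪ {z ∈ Words S n | act z w = (τ - μ₀) • w} := by
          intro z hz
          obtain ⟨μ, hμ, hq⟩ := hex z hz
          have h1 : (μ - μ₀) * (μ - (τ - μ₀)) = 0 := by
            linear_combination hq - hq₀
          rcases mul_eq_zero.mp h1 with h | h
          · left
            refine ⟨hz.1, ?_⟩
            rw [hμ, sub_eq_zero.mp h]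
          · right
            refine ⟨hz.1, ?_⟩
            rw [hμ, sub_eq_zero.mp h]
        have hfu : ({z ∈ Words S n | act z w = μ₀ • w} ∪
            {z ∈ Words S n | act z w = (τ - μ₀) • w}).Finite :=
          (words_finite hfin n).subset (Set.union_subset (fun x hx => hx.1) (fun x hx => hx.1))
        refine (Set.ncard_le_ncard hsub hfu).trans ((Set.ncard_union_le _ _).trans ?_)
        have b1 := bz_caseA S hfin n w μ₀
        have b2 := bz_caseA S hfin n w (τ - μ₀)
        omega
    calc {z ∈ Words S n | tr z = τ ∧ om (act z w) u = 0}.ncard ^ 3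
        ≤ (2 * {g ∈ Words S (2 * n) | act g w = w}.ncard) ^ 3 := Nat.pow_le_pow_left hcard 3
      _ = 8 * {g ∈ Words S (2 * n) | act g w = w}.ncard ^ 3 := by ring
      _ ≤ 8 * (2 * ball S (5 * (2 * n))) := Nat.mul_le_mul_left _ hA
      _ = 16 * ball S (5 * (2 * n)) := by ring
      _ ≤ 16 * ball S (20 * n) := Nat.mul_le_mul_left _ (ball_mono hfin (by omega))
      _ ≤ 512 * ball S (20 * n) := Nat.mul_le_mul_right _ (by norm_num)
  · -- Case B
    by_cases hτ : τ = 0
    · rcases Set.eq_empty_or_nonempty {z ∈ Words S n | tr z = τ ∧ om (act z w) u = 0} with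
        h | ⟨z', hz'⟩
      · rw [h, Set.ncard_empty]
        exact Nat.zero_le _
      · obtain ⟨β, hβ, g3, g4⟩ := bz_par hwu hu hw hz'.2.1 hz'.2.2
        have hle : {z ∈ Words S n | tr z = τ ∧ om (act z w) u = 0}.ncard ≤
            {g ∈ Words S (2 * n) | om (act g w) w = 0 ∧ om (act g u) u = 0}.ncard := by
          refine Set.ncard_le_ncard_of_injOn (fun z => z * z'⁻¹) ?_ ?_
            ((words_finite hfin _).subset fun x hx => hx.1)
          · intro z hz
            obtain ⟨α, hα, g1, g2⟩ := bz_par hwu hu hw hz.2.1 hz.2.2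
            obtain ⟨g5, g6⟩ := bz_prod hα hβ g1 g2 g3 g4
            refine ⟨?_, ?_, ?_⟩
            · have h := mul_mem_words hz.1 (inv_mem_words hz'.1)
              rwa [← two_mul] at h
            · change om (act (z * z'⁻¹) w) w = 0
              rw [g6, hτ, zero_mul, zero_smul, add_zero, om_smul_left, om_self, mul_zero]
            · change om (act (z * z'⁻¹) u) u = 0
              rw [g5, om_smul_left, om_self, mul_zero]
          · intro z _ z₁ _ h
            exact mul_right_cancel h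
        calc {z ∈ Words S n | tr z = τ ∧ om (act z w) u = 0}.ncard ^ 3
            ≤ {g ∈ Words S (2 * n) | om (act g w) w = 0 ∧ om (act g u) u = 0}.ncard ^ 3 :=
              Nat.pow_le_pow_left hle 3
          _ ≤ 512 * ball S (5 * (2 * n)) := lpT S hfin e (2 * n) hesc (by omega) w u hwu
          _ ≤ 512 * ball S (20 * n) := Nat.mul_le_mul_left _ (ball_mono hfin (by omega))
    · have hB := lpB S hfin e (2 * n) hesc (by omega) u hu
      rw [show 10 * (2 * n) = 20 * n by ring] at hB
      refine bz_arith _ {g ∈ Words S (2 * n) | om (act g u) u = 0}.ncard _ hy1 ?_ hB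
      set X : Finset (SL2 K) := hXfin.toFinset with hX
      have hXc : {z ∈ Words S n | tr z = τ ∧ om (act z w) u = 0}.ncard = X.card :=
        Set.ncard_eq_toFinset_card _ hXfin
      have hmemX : ∀ z, z ∈ X ↔ z ∈ {z ∈ Words S n | tr z = τ ∧ om (act z w) u = 0} := fun z =>
        hXfin.mem_toFinset
      have hYfin : {g ∈ Words S (2 * n) | om (act g u) u = 0}.Finite :=
        (words_finite hfin _).subset fun x hx => hx.1
      have hYc : {g ∈ Words S (2 * n) | om (act g u) u = 0}.ncard = hYfin.toFinset.card :=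
        Set.ncard_eq_toFinset_card _ hYfin
      rw [hXc, hYc, pow_two, ← Finset.offDiag_card]
      refine Finset.card_le_card_of_injOn (fun p => p.1 * p.2⁻¹) ?_ ?_
      · intro p hp
        rw [Finset.mem_coe, Finset.mem_offDiag] at hp
        have hz := (hmemX _).1 hp.1
        have hz' := (hmemX _).1 hp.2.1
        obtain ⟨α, hα, g1, g2⟩ := bz_par hwu hu hw hz.2.1 hz.2.2
        obtain ⟨β, hβ, g3, g4⟩ := bz_par hwu hu hw hz'.2.1 hz'.2.2
        obtain ⟨g5, g6⟩ := bz_prod hα hβ g1 g2 g3 g4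
        rw [Finset.mem_coe, Set.Finite.mem_toFinset]
        refine ⟨?_, ?_⟩
        · have h := mul_mem_words hz.1 (inv_mem_words hz'.1)
          rwa [← two_mul] at h
        · change om (act (p.1 * p.2⁻¹) u) u = 0
          rw [g5, om_smul_left, om_self, mul_zero]
      · intro p hp q hq hpq
        rw [Finset.mem_coe, Finset.mem_offDiag] at hp hq
        have hpz := (hmemX _).1 hp.1
        have hpz' := (hmemX _).1 hp.2.1
        have hqz := (hmemX _).1 hq.1
        have hqz' := (hmemX _).1 hq.2.1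
        obtain ⟨α, hα, g1, g2⟩ := bz_par hwu hu hw hpz.2.1 hpz.2.2
        obtain ⟨β, hβ, g3, g4⟩ := bz_par hwu hu hw hpz'.2.1 hpz'.2.2
        obtain ⟨g5, g6⟩ := bz_prod hα hβ g1 g2 g3 g4
        obtain ⟨α₁, hα₁, k1, k2⟩ := bz_par hwu hu hw hqz.2.1 hqz.2.2
        obtain ⟨β₁, hβ₁, k3, k4⟩ := bz_par hwu hu hw hqz'.2.1 hqz'.2.2
        obtain ⟨k5, k6⟩ := bz_prod hα₁ hβ₁ k1 k2 k3 k4
        have hpq' : p.1 * p.2⁻¹ = q.1 * q.2⁻¹ := hpq
        rw [hpq', k6] at g6
        obtain ⟨e1, e2⟩ := bz_coord hwu g6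
        have e3 : α₁ - β₁ = α - β := mul_left_cancel₀ hτ e2
        have hαβ : α - β ≠ 0 := by
          intro h
          apply hp.2.2
          apply bz_ext hwu
          · rw [g1, g3, sub_eq_zero.mp h]
          · rw [g2, g4, sub_eq_zero.mp h]
        rw [div_eq_div_iff hα₁ hα] at e1
        have e4 : (α - β) * (β₁ - β) = 0 := by
          linear_combination e1 + β * e3
        have e5 : β₁ = β := by
          rcases mul_eq_zero.mp e4 with h | h
          · exact absurd h hαβ
          · exact sub_eq_zero.mp h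
        have e6 : α₁ = α := by
          rw [e5] at e3
          linear_combination e3
        have f1 : p.1 = q.1 := by
          apply bz_ext hwu
          · rw [g1, k1, e6]
          · rw [g2, k2, e6]
        have f2 : p.2 = q.2 := by
          apply bz_ext hwu
          · rw [g3, k3, e5]
          · rw [g4, k4, e5]
        exact Prod.ext f1 f2

end Pool.Agent.Helper72.PT
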