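import Pool.Agent.Helper72.PT.LPB
import Pool.Agent.Helper72.PT.LPTor2

/-! # PT-LPB2

Sharper form of `lpB`. Plan: the proof in `Pool/Agent/Helper72/PT/LPB.lean` (landed) with `lpT2` (may be still sorried) in place
of `lpT` and without the inclusion into `Words S (3 n)`: `|X|² ≤ ball S (2 n + e) * t` and
`t³ ≤ 512 * ball S (3 (2 n) + 2 e)`, cube the first and insert the second.
-/

namespace Pool.Agent.Helper72.PT

open Matrix Module Pool.Agent.Helper72.TV

private lemma stB2_mul {K : Type*} [Field K] {g h : SL2 K} {w : Fin 2 → K} (hw : w ≠ 0)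
    (hg : om (act g w) w = 0) (hh : om (act h w) w = 0) : om (act (g * h) w) w = 0 := by
  obtain ⟨c, hc⟩ := exists_smul_of_om hw hh
  rw [act_mul, hc, act_smul, om_smul_left, hg, mul_zero]

private lemma stB2_inv {K : Type*} [Field K] {g : SL2 K} {w : Fin 2 → K}
    (hg : om (act g w) w = 0) : om (act g⁻¹ w) w = 0 := by
  rw [← om_act g, act_act_inv, om_swap, hg, neg_zero]

theorem lpB2 {K : Type*} [Field K] (S : Set (SL2 K))
    (hfin : (Subgroup.closure S : Set (SL2 K)).Finite) (e n : ℕ) (hesc : Esc S e)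
    (w : Fin 2 → K) (hw : w ≠ 0) :
    {g ∈ Words S n | om (act g w) w = 0}.ncard ^ 6 ≤
      512 * ball S (2 * n + e) ^ 3 * ball S (6 * n + 2 * e) := by
  classical
  obtain ⟨g₀, hg₀, hne, -, -, -⟩ := hesc w w hw hw
  set w' := act g₀ w with hw'
  have hXfin : {g ∈ Words S n | om (act g w) w = 0}.Finite :=
    (words_finite hfin n).subset fun g hg => hg.1
  have hTfin : {g ∈ Words S (2 * n) | om (act g w) w = 0 ∧ om (act g w') w' = 0}.Finite :=
    (words_finite hfin (2 * n)).subset fun g hg => hg.1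
  set t := {g ∈ Words S (2 * n) | om (act g w) w = 0 ∧ om (act g w') w' = 0}.ncard with ht
  set X := hXfin.toFinset with hX
  set T := hTfin.toFinset with hT
  have hXm : ∀ g, g ∈ X ↔ g ∈ Words S n ∧ om (act g w) w = 0 := fun g => by
    rw [hX, Set.Finite.mem_toFinset]
    rfl
  have hTm : ∀ g, g ∈ T ↔ g ∈ Words S (2 * n) ∧ om (act g w) w = 0 ∧ om (act g w') w' = 0 :=
    fun g => by
      rw [hT, Set.Finite.mem_toFinset]
      rfl
  have hXc : {g ∈ Words S n | om (act g w) w = 0}.ncard = X.card :=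
    Set.ncard_eq_toFinset_card _ hXfin
  have hTc : T.card = t := (Set.ncard_eq_toFinset_card _ hTfin).symm
  have hlp : t ^ 3 ≤ 512 * ball S (3 * (2 * n) + 2 * e) := by
    refine lpT2 S hfin e (2 * n) hesc w w' ?_
    rw [om_swap]
    exact neg_ne_zero.2 hne
  let F : SL2 K × SL2 K → SL2 K := fun p => p.1 * g₀ * p.2
  have hfib : ∀ v ∈ (X ×ˢ X).image F, ((X ×ˢ X).filter (fun p => F p = v)).card ≤ t := by
    intro v hv
    obtain ⟨⟨c, c'⟩, hc, rfl⟩ := Finset.mem_image.1 hv
    rw [Finset.mem_product] at hc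
    have hc1 := (hXm c).1 hc.1
    have hc2 := (hXm c').1 hc.2
    rw [← hTc]
    refine Finset.card_le_card_of_injOn (fun p => c⁻¹ * p.1) ?_ ?_
    · rintro ⟨b, b'⟩ hb
      have hb1 := (Finset.mem_filter.1 (Finset.mem_coe.1 hb))
      have hb2 := Finset.mem_product.1 hb1.1
      have hbX := (hXm b).1 hb2.1
      have hbX' := (hXm b').1 hb2.2
      have heq : b * g₀ * b' = c * g₀ * c' := hb1.2
      have hconj : c⁻¹ * b = g₀ * (c' * b'⁻¹) * g₀⁻¹ := by
        have h1 : b = c * g₀ * c' * b'⁻¹ * g₀⁻¹ := by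
          rw [← heq]
          group
        rw [h1]
        group
      refine Finset.mem_coe.2 ((hTm _).2 ⟨?_, ?_, ?_⟩)
      · have := mul_mem_words (inv_mem_words hc1.1) hbX.1
        rwa [← two_mul] at this
      · exact stB2_mul hw (stB2_inv hc1.2) hbX.2
      · change om (act (c⁻¹ * b) w') w' = 0
        rw [hconj, hw', act_mul, act_inv_act, act_mul, om_act]
        exact stB2_mul hw hc2.2 (stB2_inv hbX'.2)
    · rintro ⟨b, b'⟩ hb ⟨d, d'⟩ hd hbd
      have hb1 := (Finset.mem_filter.1 (Finset.mem_coe.1 hb)).2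
      have hd1 := (Finset.mem_filter.1 (Finset.mem_coe.1 hd)).2
      have h1 : b = d := mul_left_cancel hbd
      have h2 : b * g₀ * b' = d * g₀ * d' := (hb1.trans hd1.symm)
      rw [h1] at h2
      have h3 : b' = d' := mul_left_cancel h2
      rw [h1, h3]
  have hcard := Finset.card_le_mul_card_image (f := F) (X ×ˢ X) t hfib
  have himg : ((X ×ˢ X).image F).card ≤ ball S (2 * n + e) := by
    rw [ball, ← Set.ncard_coe_finset]
    refine Set.ncard_le_ncard ?_ (words_finite hfin _)
    intro v hv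
    obtain ⟨⟨c, c'⟩, hc, rfl⟩ := Finset.mem_image.1 (Finset.mem_coe.1 hv)
    rw [Finset.mem_product] at hc
    have h1 := mul_mem_words (mul_mem_words ((hXm c).1 hc.1).1 hg₀) ((hXm c').1 hc.2).1
    exact words_mono (by omega) h1
  have h5 : 3 * (2 * n) + 2 * e = 6 * n + 2 * e := by ring
  rw [h5] at hlp
  rw [Finset.card_product] at hcard
  rw [hXc]
  have hmain : X.card * X.card ≤ t * ball S (2 * n + e) :=
    hcard.trans (Nat.mul_le_mul_left _ himg)
  calc X.card ^ 6 = (X.card * X.card) ^ 3 := by ring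
    _ ≤ (t * ball S (2 * n + e)) ^ 3 := Nat.pow_le_pow_left hmain 3
    _ = t ^ 3 * ball S (2 * n + e) ^ 3 := by ring
    _ ≤ (512 * ball S (6 * n + 2 * e)) * ball S (2 * n + e) ^ 3 := Nat.mul_le_mul_right _ hlp
    _ = 512 * ball S (2 * n + e) ^ 3 * ball S (6 * n + 2 * e) := by ring

end Pool.Agent.Helper72.PT
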