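import Pool.Agent.Helper72.PT.EscAvoid
import Pool.Agent.Helper72.PT.OrdBad
import Pool.Agent.Helper72.TV.ParTop

/-! # PT-ChooseD

A short word `w` such that the transvections in the directions `(v, φ)`, `(w v, φ w⁻¹)` form a good pair.

Plan. `escAvoid, ordBad` may be still sorried; `TV.pair_completion` is landed. Let `N` be the number of `ordBad C`. Given `F`, `Ω`
from `ordBad`: `Ω' = {y : F | y + 2 ∈ Ω ∪ {2, -2}}` (a finset of cardinality `≤ N + 2`). The elements
`g = 1 + y • vecMulVec v' φ'` (`pair_completion`, see the plan of `TV.ParTop`) have `par v φ g = - y²`, which takes at least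
`|F| / 2 > N + 2` values for `|F| ≥ q₀ := 2 (N + 2) + 3`; so some `g ∈ SL_d(F)` has `par v φ g ∉ Ω'`. `escAvoid` for the
representation `ρ g M = g * M * g⁻¹` on `Matrix (Fin d) (Fin d) F` (finrank `d²`), the vector `vecMulVec v φ` and the functional
`M ↦ φ ⬝ᵥ (M *ᵥ v)` (`= par v φ g` at `ρ g`): there is `w ∈ Words S ((d^2 + 1)^(N + 2))` with `lam = par v φ w ∉ Ω'`.
`tr (uu 1 * vv lam) = 2 + lam`.
-/

namespace Pool.Agent.Helper72.PT

open Matrix Module Pool.Agent.Helper72.TV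

private theorem cd_rk_mul {K : Type*} [Field K] {d : ℕ} (a b : Fin d → K) (h : b ⬝ᵥ a = 0)
    (y z : K) : (1 + y • vecMulVec a b) * (1 + z • vecMulVec a b) =
      (1 + (y + z) • vecMulVec a b : Matrix (Fin d) (Fin d) K) := by
  rw [mul_add, mul_one, add_mul, one_mul, smul_mul_smul_comm, vecMulVec_mul_vecMulVec, h]
  simp only [zero_smul, vecMulVec_zero, smul_zero, add_zero]
  rw [add_assoc, ← add_smul]

private theorem cd_rk_det {K : Type*} [Field K] {d : ℕ} (a b : Fin d → K) (h : b ⬝ᵥ a = 0)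
    (y : K) : (1 + y • vecMulVec a b : Matrix (Fin d) (Fin d) K).det = 1 := by
  have h1 := det_one_add_replicateCol_mul_replicateRow (ι := Unit) (y • a) b
  rw [← vecMulVec_eq, smul_vecMulVec, dotProduct_smul, h, smul_zero, add_zero] at h1
  exact h1

private def cd_rk {K : Type*} [Field K] {d : ℕ} (a b : Fin d → K) (h : b ⬝ᵥ a = 0) (y : K) :
    Matrix.SpecialLinearGroup (Fin d) K := ⟨1 + y • vecMulVec a b, cd_rk_det a b h y⟩

private theorem cd_rk_inv {K : Type*} [Field K] {d : ℕ} (a b : Fin d → K) (h : b ⬝ᵥ a = 0)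
    (y : K) : (cd_rk a b h y)⁻¹ = cd_rk a b h (-y) := by
  apply inv_eq_of_mul_eq_one_right
  apply Subtype.ext
  rw [Matrix.SpecialLinearGroup.coe_mul, Matrix.SpecialLinearGroup.coe_one]
  change (1 + y • vecMulVec a b) * (1 + (-y) • vecMulVec a b) = (1 : Matrix (Fin d) (Fin d) K)
  rw [cd_rk_mul a b h, add_neg_cancel, zero_smul, add_zero]

private theorem cd_rk_mulVec {K : Type*} [Field K] {d : ℕ} (a b v : Fin d → K)
    (h : b ⬝ᵥ a = 0) (y : K) :
    (cd_rk a b h y : Matrix (Fin d) (Fin d) K) *ᵥ v = v + (y * (b ⬝ᵥ v)) • a := by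
  change (1 + y • vecMulVec a b) *ᵥ v = _
  rw [add_mulVec, one_mulVec, smul_mulVec, vecMulVec_mulVec]
  ext k
  simp [mul_assoc, mul_comm, mul_left_comm]

private theorem cd_exists_par_eq {K : Type*} [Field K] {d : ℕ}
    (v φ : Fin d → K) (hv : v ≠ 0) (hφ : φ ≠ 0) (hφv : φ ⬝ᵥ v = 0) (y : K) :
    ∃ g : Matrix.SpecialLinearGroup (Fin d) K, par v φ g = - (y ^ 2) := by
  obtain ⟨v', φ', h1, h2, h3⟩ := pair_completion v φ hv hφ hφv
  refine ⟨cd_rk v' φ' h3 y, ?_⟩
  rw [par, cd_rk_inv, cd_rk_mulVec, cd_rk_mulVec, h2, dotProduct_add, dotProduct_add,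
    dotProduct_smul, dotProduct_smul, h1, hφv]
  simp only [mul_one, smul_eq_mul, zero_add]
  ring

/-- conjugation as a representation -/
private def cdRho (F : Type) [Field F] (d : ℕ) :
    Matrix.SpecialLinearGroup (Fin d) F →* Module.End F (Matrix (Fin d) (Fin d) F) where
  toFun g :=
    { toFun := fun M => (g : Matrix (Fin d) (Fin d) F) * M *
        ((g⁻¹ : Matrix.SpecialLinearGroup (Fin d) F) : Matrix (Fin d) (Fin d) F)
      map_add' := fun M N => by rw [mul_add, add_mul]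
      map_smul' := fun c M => by rw [mul_smul_comm, smul_mul_assoc]; rfl }
  map_one' := by
    apply LinearMap.ext
    intro M
    show ((1 : Matrix.SpecialLinearGroup (Fin d) F) : Matrix (Fin d) (Fin d) F) * M *
      (((1 : Matrix.SpecialLinearGroup (Fin d) F)⁻¹ : Matrix.SpecialLinearGroup (Fin d) F) :
        Matrix (Fin d) (Fin d) F) = M
    rw [inv_one, Matrix.SpecialLinearGroup.coe_one, one_mul, mul_one]
  map_mul' g h := by
    apply LinearMap.ext
    intro M
    show ((g * h : Matrix.SpecialLinearGroup (Fin d) F) : Matrix (Fin d) (Fin d) F) * M *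
      (((g * h : Matrix.SpecialLinearGroup (Fin d) F)⁻¹ : Matrix.SpecialLinearGroup (Fin d) F) :
        Matrix (Fin d) (Fin d) F) =
      (g : Matrix (Fin d) (Fin d) F) * ((h : Matrix (Fin d) (Fin d) F) * M *
        ((h⁻¹ : Matrix.SpecialLinearGroup (Fin d) F) : Matrix (Fin d) (Fin d) F)) *
        ((g⁻¹ : Matrix.SpecialLinearGroup (Fin d) F) : Matrix (Fin d) (Fin d) F)
    rw [_root_.mul_inv_rev, Matrix.SpecialLinearGroup.coe_mul, Matrix.SpecialLinearGroup.coe_mul]
    simp only [mul_assoc]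

private def cdPsi {F : Type} [Field F] {d : ℕ} (v φ : Fin d → F) :
    Matrix (Fin d) (Fin d) F →ₗ[F] F where
  toFun M := φ ⬝ᵥ (M *ᵥ v)
  map_add' M N := by rw [add_mulVec, dotProduct_add]
  map_smul' c M := by rw [smul_mulVec, dotProduct_smul]; rfl

private theorem cd_psi_rho {F : Type} [Field F] {d : ℕ} (v φ : Fin d → F)
    (g : Matrix.SpecialLinearGroup (Fin d) F) :
    cdPsi v φ (cdRho F d g (vecMulVec v φ)) = par v φ g := by
  show φ ⬝ᵥ (((g : Matrix (Fin d) (Fin d) F) * vecMulVec v φ *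
    ((g⁻¹ : Matrix.SpecialLinearGroup (Fin d) F) : Matrix (Fin d) (Fin d) F)) *ᵥ v) = _
  unfold par
  rw [← mulVec_mulVec, ← mulVec_mulVec, vecMulVec_mulVec, op_smul_eq_smul,
    mulVec_smul, dotProduct_smul, smul_eq_mul, mul_comm]

private theorem cd_tr {F : Type} [Field F] (x : F) : tr (uu 1 * vv x) = x + 2 := by
  rw [tr_eq, Matrix.SpecialLinearGroup.coe_mul, uu_coe, vv_coe]
  simp [Matrix.mul_fin_two]
  ring

theorem chooseD (d C : ℕ) (hd : 2 ≤ d) : ∃ m q₀ : ℕ, ∀ (F : Type) [Field F] [Fintype F],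
    q₀ ≤ Fintype.card F →
    ∀ (S : Set (Matrix.SpecialLinearGroup (Fin d) F)), Subgroup.closure S = ⊤ →
    ∀ v φ : Fin d → F, v ≠ 0 → φ ≠ 0 → φ ⬝ᵥ v = 0 →
    ∃ w ∈ Words S m, par v φ w ≠ 0 ∧ tr (uu 1 * vv (par v φ w)) ≠ 2 ∧
      tr (uu 1 * vv (par v φ w)) ≠ -2 ∧
      ∀ j : ℕ, 1 ≤ j → j ≤ C → (uu 1 * vv (par v φ w)) ^ j ≠ 1 := by
  classical
  obtain ⟨N, hN⟩ := ordBad C
  refine ⟨(d * d + 1) ^ (N + 2), 2 * (N + 2) + 1, ?_⟩
  intro F _ _ hF S hS v φ hv hφ hφv
  obtain ⟨Ω, hΩ, hgood⟩ := hN F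
  set Ω' : Finset F := (Ω ∪ {2, -2}).image (fun z => z - 2) with hΩ'
  have hcard : Ω'.card ≤ N + 2 := by
    have h1 : Ω'.card ≤ (Ω ∪ {2, -2}).card := Finset.card_image_le
    have h2 := Finset.card_union_le Ω ({2, -2} : Finset F)
    have h3 : ({2, -2} : Finset F).card ≤ 2 := Finset.card_le_two
    omega
  have hex : ∃ y : F, -(y ^ 2) ∉ Ω' := by
    by_contra hc
    push Not at hc
    have h1 : (Finset.univ : Finset F).card ≤ 2 * Ω'.card := by
      refine Finset.card_le_mul_card_image_of_maps_to (f := fun y => -(y ^ 2))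
        (fun y _ => hc y) 2 ?_
      intro ω _
      rcases (Finset.univ.filter fun y : F => -(y ^ 2) = ω).eq_empty_or_nonempty
        with h0 | ⟨y0, hy0⟩
      · rw [h0, Finset.card_empty]
        exact Nat.zero_le _
      · have hy0' := (Finset.mem_filter.1 hy0).2
        refine (Finset.card_le_card (t := {y0, -y0}) ?_).trans Finset.card_le_two
        intro y hy
        have hy' := (Finset.mem_filter.1 hy).2
        have h3 : (y - y0) * (y + y0) = 0 := by linear_combination hy0' - hy'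
        rw [Finset.mem_insert, Finset.mem_singleton]
        rcases mul_eq_zero.1 h3 with h5 | h5
        · left; linear_combination h5
        · right; linear_combination h5
    rw [Finset.card_univ] at h1
    omega
  obtain ⟨y, hy⟩ := hex
  obtain ⟨g, hg⟩ := cd_exists_par_eq v φ hv hφ hφv y
  obtain ⟨w, hw, hw'⟩ := escAvoid (cdRho F d) S (N + 2) (vecMulVec v φ) (cdPsi v φ) Ω' hcard g
    (by rw [hS]; exact Subgroup.mem_top g) (by rw [cd_psi_rho, hg]; exact hy)
  rw [cd_psi_rho] at hw'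
  have hfr : Module.finrank F (Matrix (Fin d) (Fin d) F) = d * d := by
    rw [Module.finrank_matrix, Fintype.card_fin, Module.finrank_self, mul_one]
  rw [hfr] at hw
  have hnot : ∀ z ∈ Ω ∪ {2, -2}, par v φ w + 2 ≠ z := by
    intro z hz h1
    apply hw'
    rw [hΩ', Finset.mem_image]
    exact ⟨z, hz, by rw [← h1]; ring⟩
  have h2 : (2 : F) ∈ Ω ∪ {2, -2} := by simp
  have h2' : (-2 : F) ∈ Ω ∪ {2, -2} := by simp
  refine ⟨w, hw, ?_, ?_, ?_, ?_⟩
  · intro h0
    apply hnot 2 h2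
    rw [h0, zero_add]
  · rw [cd_tr]
    exact hnot 2 h2
  · rw [cd_tr]
    exact hnot (-2) h2'
  · apply hgood
    rw [cd_tr]
    intro h3
    exact hnot _ (Finset.mem_union_left _ h3) rfl

end Pool.Agent.Helper72.PT
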