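import Pool.Agent.Helper72.TV.Embed

/-! # PT-Embed2

The embedding of `SL₂(K)` for two transvections, with its action on all transvections.

Plan. `TV.embed` is proved in `Pool/Agent/Helper72/TV/Embed.lean`; copy its construction: `ι g = 1 + B * (g - 1) * C` with
`B : Matrix (Fin d) (Fin 2) K`, `C : Matrix (Fin 2) (Fin d) K`, `C * B = 1`. Then `ι g` for `g = 1 + x • vecMulVec a α` has the matrix
`1 + x • vecMulVec (B *ᵥ a) (α ᵥ* C)`, and `B *ᵥ a ≠ 0` for `a ≠ 0`, `α ᵥ* C ≠ 0` for `α ≠ 0`, `(α ᵥ* C) ⬝ᵥ (B *ᵥ a) = α ⬝ᵥ a`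
(all by `C * B = 1`).
-/

namespace Pool.Agent.Helper72.PT

open Matrix Module Pool.Agent.Helper72.TV

private lemma embed_key {K : Type*} [Field K] {d : ℕ} (B : Matrix (Fin d) (Fin 2) K)
    (C : Matrix (Fin 2) (Fin d) K) (hCB : C * B = 1) (M N : Matrix (Fin 2) (Fin 2) K) :
    (1 + B * (M - 1) * C) * (1 + B * (N - 1) * C) = 1 + B * (M * N - 1) * C := by
  have h1 : B * (M - 1) * C * (B * (N - 1) * C) = B * ((M - 1) * (N - 1)) * C := by
    calc B * (M - 1) * C * (B * (N - 1) * C) = B * (M - 1) * (C * B) * (N - 1) * C := by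
          simp only [Matrix.mul_assoc]
      _ = B * ((M - 1) * (N - 1)) * C := by
          rw [hCB, Matrix.mul_one]
          simp only [Matrix.mul_assoc]
  rw [add_mul, mul_add, mul_add, one_mul, one_mul, mul_one, h1]
  have h2 : M * N - 1 = (M - 1) * (N - 1) + (M - 1) + (N - 1) := by
    rw [sub_mul, mul_sub, one_mul, mul_one]
    abel
  rw [h2, Matrix.mul_add, Matrix.mul_add, Matrix.add_mul, Matrix.add_mul]
  abel

theorem embed2 {K : Type*} [Field K] {d : ℕ} (v φ v' φ' : Fin d → K) (hφv : φ ⬝ᵥ v = 0)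
    (hφv' : φ' ⬝ᵥ v' = 0) (lam : K) (h : (φ ⬝ᵥ v') * (φ' ⬝ᵥ v) = lam) (hlam : lam ≠ 0) :
    ∃ ι : Matrix.SpecialLinearGroup (Fin 2) K →* Matrix.SpecialLinearGroup (Fin d) K,
      (∀ x : K, (ι (uu x) : Matrix (Fin d) (Fin d) K) = 1 + x • Matrix.vecMulVec v φ) ∧
      (∀ y : K, (ι (vv y) : Matrix (Fin d) (Fin d) K) = 1 + (y / lam) • Matrix.vecMulVec v' φ') ∧
      ∀ a α : Fin 2 → K, a ≠ 0 → α ≠ 0 → α ⬝ᵥ a = 0 →
        ∃ a' α' : Fin d → K, a' ≠ 0 ∧ α' ≠ 0 ∧ α' ⬝ᵥ a' = 0 ∧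
          ∀ (x : K) (g : Matrix.SpecialLinearGroup (Fin 2) K),
            (g : Matrix (Fin 2) (Fin 2) K) = 1 + x • Matrix.vecMulVec a α →
            (ι g : Matrix (Fin d) (Fin d) K) = 1 + x • Matrix.vecMulVec a' α' := by
  obtain ⟨a, ha⟩ : ∃ a, a = φ ⬝ᵥ v' := ⟨_, rfl⟩
  have ha0 : a ≠ 0 := by
    intro h0
    apply hlam
    rw [← h, ← ha, h0, zero_mul]
  let e : Fin 2 → Fin d → K := ![a • v, v']
  let ε : Fin 2 → Fin d → K := ![lam⁻¹ • φ', a⁻¹ • φ]
  let B : Matrix (Fin d) (Fin 2) K := Matrix.of fun i j => e j i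
  let C : Matrix (Fin 2) (Fin d) K := Matrix.of fun i j => ε i j
  have hCB : C * B = 1 := by
    ext i j
    have h1 : (C * B) i j = ε i ⬝ᵥ e j := by
      rw [Matrix.mul_apply]
      rfl
    rw [h1]
    fin_cases i <;> fin_cases j
    · show (lam⁻¹ • φ') ⬝ᵥ (a • v) = 1
      rw [smul_dotProduct, dotProduct_smul, smul_eq_mul, smul_eq_mul, ha, h,
        inv_mul_cancel₀ hlam]
    · show (lam⁻¹ • φ') ⬝ᵥ v' = 0
      rw [smul_dotProduct, hφv', smul_zero]
    · show (a⁻¹ • φ) ⬝ᵥ (a • v) = 0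
      rw [smul_dotProduct, dotProduct_smul, hφv, smul_zero, smul_zero]
    · show (a⁻¹ • φ) ⬝ᵥ v' = 1
      rw [smul_dotProduct, smul_eq_mul, ← ha, inv_mul_cancel₀ ha0]
  have hdet : ∀ M : Matrix.SpecialLinearGroup (Fin 2) K,
      (1 + B * ((M : Matrix (Fin 2) (Fin 2) K) - 1) * C).det = 1 := by
    intro M
    rw [Matrix.mul_assoc, Matrix.det_one_add_mul_comm, Matrix.mul_assoc, hCB, Matrix.mul_one]
    have : (1 : Matrix (Fin 2) (Fin 2) K) + ((M : Matrix (Fin 2) (Fin 2) K) - 1) = M := by abel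
    rw [this, M.det_coe]
  refine ⟨{ toFun := fun M => ⟨1 + B * ((M : Matrix (Fin 2) (Fin 2) K) - 1) * C, hdet M⟩
            map_one' := ?_, map_mul' := ?_ }, ?_, ?_, ?_⟩
  · apply Subtype.ext
    show 1 + B * ((1 : Matrix (Fin 2) (Fin 2) K) - 1) * C = 1
    rw [sub_self, Matrix.mul_zero, Matrix.zero_mul, add_zero]
  · intro M N
    apply Subtype.ext
    show 1 + B * (((M : Matrix (Fin 2) (Fin 2) K) * (N : Matrix (Fin 2) (Fin 2) K)) - 1) * C =
      (1 + B * ((M : Matrix (Fin 2) (Fin 2) K) - 1) * C) *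
        (1 + B * ((N : Matrix (Fin 2) (Fin 2) K) - 1) * C)
    exact (embed_key B C hCB _ _).symm
  · intro x
    show 1 + B * ((uu x : Matrix (Fin 2) (Fin 2) K) - 1) * C = _
    congr 1
    ext i j
    rw [uu_coe, Matrix.mul_apply, Fin.sum_univ_two, Matrix.mul_apply, Matrix.mul_apply,
      Fin.sum_univ_two, Fin.sum_univ_two]
    simp [B, C, e, ε, Matrix.vecMulVec_apply]
    field_simp
  · intro y
    show 1 + B * ((vv y : Matrix (Fin 2) (Fin 2) K) - 1) * C = _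
    congr 1
    ext i j
    rw [vv_coe, Matrix.mul_apply, Fin.sum_univ_two, Matrix.mul_apply, Matrix.mul_apply,
      Fin.sum_univ_two, Fin.sum_univ_two]
    simp [B, C, e, ε, Matrix.vecMulVec_apply]
    ring
  · intro b β hb hβ hβb
    refine ⟨B *ᵥ b, β ᵥ* C, ?_, ?_, ?_, ?_⟩
    · intro h0
      apply hb
      have h1 : C *ᵥ (B *ᵥ b) = b := by rw [Matrix.mulVec_mulVec, hCB, Matrix.one_mulVec]
      rw [← h1, h0, Matrix.mulVec_zero]
    · intro h0
      apply hβ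
      have h1 : (β ᵥ* C) ᵥ* B = β := by rw [Matrix.vecMul_vecMul, hCB, Matrix.vecMul_one]
      rw [← h1, h0, Matrix.zero_vecMul]
    · rw [Matrix.dotProduct_mulVec, Matrix.vecMul_vecMul, hCB, Matrix.vecMul_one]
      exact hβb
    · intro x g hg
      show 1 + B * ((g : Matrix (Fin 2) (Fin 2) K) - 1) * C = _
      rw [hg, add_sub_cancel_left, Matrix.mul_smul, Matrix.smul_mul, Matrix.mul_vecMulVec,
        Matrix.vecMulVec_mul]

end Pool.Agent.Helper72.PT
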