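import Pool.Agent.Helper72.PT.EscProd

/-! # PT-EscAvoid

Avoiding a finite set of values of a matrix coefficient.

Plan. `escProd` may be still sorried. Use the representation `ρ ⊕ 1` on `W × K`
(`(ρ' g) (y, t) = (ρ g y, t)`, finrank `finrank K W + 1`), for each `ω ∈ Ω` the coefficient
`ψ_ω (y, t) = ψ y - ω t` at the vector `(x, 1)`: its value at `g` is `ψ (ρ g x) - ω`. Enumerate `Ω` by
`Fin Ω.card` (`Ω.equivFin` / `Finset.orderEmbOfFin` is not available without order; use
`Ω.equivFin.symm`) and apply `escProd` with `N = Ω.card`; the product is nonzero iff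
`ψ (ρ g x) ∉ Ω`. Then `(finrank K W + 1) ^ Ω.card ≤ (finrank K W + 1) ^ N`.
-/

namespace Pool.Agent.Helper72.PT

open Matrix Module Pool.Agent.Helper72.TV

theorem escAvoid {K G W : Type*} [Field K] [Group G] [AddCommGroup W] [Module K W]
    [FiniteDimensional K W] (ρ : G →* Module.End K W) (S : Set G) (N : ℕ)
    (x : W) (ψ : W →ₗ[K] K) (Ω : Finset K) (hΩ : Ω.card ≤ N)
    (g : G) (hg : g ∈ Subgroup.closure S) (h : ψ (ρ g x) ∉ Ω) :
    ∃ w ∈ Words S ((Module.finrank K W + 1) ^ N), ψ (ρ w x) ∉ Ω := by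
  let ρ' : G →* Module.End K (W × K) :=
    { toFun := fun g => (ρ g).prodMap LinearMap.id
      map_one' := by
        rw [map_one]
        rfl
      map_mul' := by
        intro a b
        rw [map_mul]
        rfl }
  have hρ' : ∀ g y t, ρ' g (y, t) = (ρ g y, t) := fun _ _ _ => rfl
  let ψ' : K → ((W × K) →ₗ[K] K) := fun ω => ψ.comp (LinearMap.fst K W K) - ω • LinearMap.snd K W K
  have hψ' : ∀ ω g, ψ' ω (ρ' g (x, 1)) = ψ (ρ g x) - ω := by
    intro ω g
    rw [hρ']
    show ψ (ρ g x) - ω * 1 = _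
    rw [mul_one]
  let e := Ω.equivFin
  have key : ∀ g, ∏ i : Fin Ω.card, ψ' (e.symm i : K) (ρ' g (x, 1)) ≠ 0 ↔ ψ (ρ g x) ∉ Ω := by
    intro g
    rw [Finset.prod_ne_zero_iff]
    constructor
    · intro h1 h2
      have h3 := h1 (e ⟨_, h2⟩) (Finset.mem_univ _)
      rw [hψ', Equiv.symm_apply_apply] at h3
      exact h3 (sub_self _)
    · intro h1 i _ h2
      rw [hψ'] at h2
      apply h1
      rw [sub_eq_zero.1 h2]
      exact (e.symm i).2
  obtain ⟨w, hw, hw'⟩ := escProd ρ' S Ω.card (fun _ => (x, (1 : K))) (fun i => ψ' (e.symm i : K)) g hg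
    ((key g).2 h)
  refine ⟨w, words_mono ?_ hw, (key w).1 hw'⟩
  rw [Module.finrank_prod, Module.finrank_self]
  exact Nat.pow_le_pow_right (Nat.succ_pos _) hΩ

end Pool.Agent.Helper72.PT
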