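import Pool.Agent.Helper72.TV.Main
import Pool.Agent.Helper72.PT.PairF2
import Pool.Agent.Helper72.PT.ChooseD
import Pool.Agent.Helper72.PT.Embed2

/-! # Generating sets of `SL_d(F)` containing a transvection, all odd characteristics -/

namespace Pool.Agent.Helper72.PT

open Matrix Module Pool.Agent.Helper72.TV

/-- every element of a finite group generated by `S` is a word of length at most the order -/
theorem words_card_gen {G : Type*} [Group G] [Finite G] (S : Set G)
    (hS : Subgroup.closure S = ⊤) (g : G) : g ∈ Words S (Nat.card G) := by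
  have key : ∀ n : ℕ, Words S n = Set.univ ∨ n + 1 ≤ (Words S n).ncard := by
    intro n
    induction n with
    | zero =>
      right
      have h : (Words S 0).Nonempty := ⟨1, one_mem_words 0⟩
      have h2 := (Set.ncard_pos (Set.toFinite _)).mpr h
      omega
    | succ n ih =>
      rcases ih with h | h
      · left
        apply Set.eq_univ_of_univ_subset
        rw [← h]
        exact words_mono (Nat.le_succ n)
      · by_cases heq : Words S (n + 1) = Words S n
        · left
          have hall : ∀ m : ℕ, Words S m ⊆ Words S n := by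
            intro m
            induction m with
            | zero => exact words_mono (Nat.zero_le n)
            | succ m ihm =>
              rintro x ⟨l, hl, hl1, rfl⟩
              cases l with
              | nil => exact one_mem_words n
              | cons a l =>
                rw [List.prod_cons]
                have ha : a ∈ Words S 1 := by
                  rcases hl1 a (by simp) with h' | h'
                  · exact mem_words_one h'
                  · have h2 := inv_mem_words (mem_words_one h')
                    rwa [inv_inv] at h2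
                have hl2 : l.prod ∈ Words S m := by
                  refine ⟨l, ?_, fun x hx => hl1 x (by simp [hx]), rfl⟩
                  simp only [List.length_cons] at hl
                  omega
                have h3 := mul_mem_words ha (ihm hl2)
                rw [Nat.add_comm 1 n, heq] at h3
                exact h3
          apply Set.eq_univ_of_forall
          intro x
          have hx : x ∈ Subgroup.closure S := by
            rw [hS]
            exact Subgroup.mem_top x
          obtain ⟨L, hL⟩ := exists_words_of_mem_closure hx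
          exact words_mono (Nat.le_succ n) (hall L hL)
        · right
          have hsub : Words S n ⊆ Words S (n + 1) := words_mono (Nat.le_succ n)
          have hlt : (Words S n).ncard < (Words S (n + 1)).ncard :=
            Set.ncard_lt_ncard (lt_of_le_of_ne hsub (fun h' => heq h'.symm)) (Set.toFinite _)
          omega
  rcases key (Nat.card G) with h | h
  · rw [h]
    exact Set.mem_univ g
  · exfalso
    have h2 := Set.ncard_le_ncard (Set.subset_univ (Words S (Nat.card G))) (Set.toFinite _)
    rw [Set.ncard_univ] at h2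
    omega

theorem card_sl_le_gen {F : Type} [Field F] [Fintype F] (d : ℕ) :
    Nat.card (Matrix.SpecialLinearGroup (Fin d) F) ≤ Fintype.card F ^ (d * d) := by
  have h1 : Nat.card (Matrix.SpecialLinearGroup (Fin d) F) ≤ Nat.card (Fin d × Fin d → F) := by
    refine Nat.card_le_card_of_injective
      (fun (g : Matrix.SpecialLinearGroup (Fin d) F) (p : Fin d × Fin d) =>
        (g : Matrix (Fin d) (Fin d) F) p.1 p.2) ?_
    intro g h hgh
    apply Matrix.SpecialLinearGroup.ext
    intro i j
    exact congrFun hgh (i, j)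
  have h2 : Nat.card (Fin d × Fin d → F) = Fintype.card F ^ (d * d) := by
    rw [Nat.card_eq_fintype_card, Fintype.card_fun, Fintype.card_prod, Fintype.card_fin]
  exact h1.trans h2.le

theorem card_field_le_sl_gen {F : Type} [Field F] [Fintype F] {d : ℕ} (hd : 2 ≤ d) :
    Fintype.card F ≤ Nat.card (Matrix.SpecialLinearGroup (Fin d) F) := by
  have hfin : Finite (Matrix.SpecialLinearGroup (Fin d) F) := Finite.of_injective
    (fun g => (g : Matrix (Fin d) (Fin d) F)) Subtype.val_injective
  have h01 : (⟨0, by omega⟩ : Fin d) ≠ ⟨1, by omega⟩ := by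
    intro h
    rw [Fin.mk.injEq] at h
    omega
  rw [← Nat.card_eq_fintype_card]
  refine Nat.card_le_card_of_injective
    (fun x : F => (⟨Matrix.transvection ⟨0, by omega⟩ ⟨1, by omega⟩ x,
      Matrix.det_transvection_of_ne _ _ h01 x⟩ : Matrix.SpecialLinearGroup (Fin d) F)) ?_
  intro x y hxy
  have h1 : Matrix.transvection (⟨0, by omega⟩ : Fin d) ⟨1, by omega⟩ x =
      Matrix.transvection ⟨0, by omega⟩ ⟨1, by omega⟩ y := congrArg Subtype.val hxy
  have h2 := congrFun (congrFun h1 ⟨0, by omega⟩) ⟨1, by omega⟩
  simpa [Matrix.transvection, Matrix.one_apply_ne h01] using h2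

theorem finalD2 (d : ℕ) (hd : 2 ≤ d) : ∃ C : ℝ, 0 < C ∧ ∀ (F : Type) [Field F] [Fintype F],
    (2 : F) ≠ 0 → ∀ (S : Set (Matrix.SpecialLinearGroup (Fin d) F)), Subgroup.closure S = ⊤ →
    ∀ (v φ : Fin d → F), v ≠ 0 → φ ≠ 0 → φ ⬝ᵥ v = 0 →
    ∀ (ℓ : ℕ) (t : Matrix.SpecialLinearGroup (Fin d) F), t ∈ Words S ℓ →
    (t : Matrix (Fin d) (Fin d) F) = 1 + Matrix.vecMulVec v φ →
    ∀ g : Matrix.SpecialLinearGroup (Fin d) F, ∃ n : ℕ, g ∈ Words S n ∧
      (n : ℝ) ≤ C * ℓ * Real.log (ringChar F) ^ 8 *
        Real.log (Nat.card (Matrix.SpecialLinearGroup (Fin d) F)) := by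
  obtain ⟨C1, hC1, hpair⟩ := pairF2
  obtain ⟨m, q₀, hchoose⟩ := chooseD d C1 hd
  obtain ⟨C2, hC2, hmain⟩ := TV.main d hd
  have hlog2 : 0 < Real.log 2 := Real.log_pos (by norm_num)
  refine ⟨(q₀ : ℝ) ^ (d * d) / Real.log 2 ^ 9 + C2 * C1 * (1 + 2 * m), ?_, ?_⟩
  · have h1 : (1 : ℝ) ≤ C1 := by exact_mod_cast hC1
    have h2 : (1 : ℝ) ≤ C2 := by exact_mod_cast hC2
    have h3 : 0 < (C2 : ℝ) * C1 * (1 + 2 * m) := by positivity
    have h4 : 0 ≤ (q₀ : ℝ) ^ (d * d) / Real.log 2 ^ 9 := by positivity
    linarith
  · intro F _ _ h2F S hS v φ hv hφ hφv ℓ t htS ht g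
    have hfinG : Finite (Matrix.SpecialLinearGroup (Fin d) F) := Finite.of_injective
      (fun g => (g : Matrix (Fin d) (Fin d) F)) Subtype.val_injective
    have hF2 : 2 ≤ Fintype.card F := Fintype.one_lt_card
    have hG2 : Fintype.card F ≤ Nat.card (Matrix.SpecialLinearGroup (Fin d) F) :=
      card_field_le_sl_gen hd
    have hprime : (ringChar F).Prime := by
      rcases CharP.char_is_prime_or_zero F (ringChar F) with h | h
      · exact h
      · exact absurd h (CharP.char_ne_zero_of_finite F (ringChar F))
    have hp2 : 2 ≤ ringChar F := hprime.two_le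
    have hlogp : Real.log 2 ≤ Real.log (ringChar F) :=
      Real.log_le_log (by norm_num) (by exact_mod_cast hp2)
    have hlogp0 : 0 < Real.log (ringChar F) := lt_of_lt_of_le hlog2 hlogp
    have hlogF0 : 0 < Real.log (Fintype.card F) :=
      Real.log_pos (by exact_mod_cast (by omega : 1 < Fintype.card F))
    have hlogG : Real.log (Fintype.card F) ≤
        Real.log (Nat.card (Matrix.SpecialLinearGroup (Fin d) F)) :=
      Real.log_le_log (by exact_mod_cast (by omega : 0 < Fintype.card F))
        (by exact_mod_cast hG2)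
    have hlogG2 : Real.log 2 ≤ Real.log (Nat.card (Matrix.SpecialLinearGroup (Fin d) F)) :=
      le_trans (Real.log_le_log (by norm_num) (by exact_mod_cast hF2)) hlogG
    have hℓ : 1 ≤ ℓ := by
      rcases Nat.eq_zero_or_pos ℓ with h0 | h0
      · exfalso
        subst h0
        obtain ⟨l, hl, -, hprod⟩ := htS
        have hl0 : l = [] := List.length_eq_zero_iff.mp (Nat.le_zero.mp hl)
        subst hl0
        rw [List.prod_nil] at hprod
        rw [← hprod, Matrix.SpecialLinearGroup.coe_one] at ht
        have h2 : Matrix.vecMulVec v φ = 0 := by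
          have h3 : (1 : Matrix (Fin d) (Fin d) F) + 0 = 1 + Matrix.vecMulVec v φ := by
            rw [add_zero]
            exact ht
          exact (add_left_cancel h3).symm
        obtain ⟨i, hi⟩ := Function.ne_iff.mp hv
        obtain ⟨j, hj⟩ := Function.ne_iff.mp hφ
        have h4 := congrFun (congrFun h2 i) j
        rw [Matrix.vecMulVec_apply] at h4
        rcases mul_eq_zero.mp h4 with h5 | h5
        · exact hi h5
        · exact hj h5
      · exact h0
    have hℓ' : (1 : ℝ) ≤ ℓ := by exact_mod_cast hℓ
    have hA : 0 ≤ (q₀ : ℝ) ^ (d * d) / Real.log 2 ^ 9 := by positivity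
    have hB : 0 ≤ (C2 : ℝ) * C1 * (1 + 2 * m) := by positivity
    have hpos : 0 ≤ (ℓ : ℝ) * Real.log (ringChar F) ^ 8 *
        Real.log (Nat.card (Matrix.SpecialLinearGroup (Fin d) F)) := by
      have h1 : 0 ≤ Real.log (Nat.card (Matrix.SpecialLinearGroup (Fin d) F)) :=
        le_trans hlog2.le hlogG2
      positivity
    by_cases hq : q₀ ≤ Fintype.card F
    · obtain ⟨w, hw, hpar, hz2, hz2', hord⟩ := hchoose F hq S hS v φ hv hφ hφv
      -- the pair in `SL₂(F)`
      have htru : tr (uu (1 : F)) = 2 := by
        rw [tr_eq, uu_coe]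
        norm_num
      have htrv : tr (vv (par v φ w)) = 2 := by
        rw [tr_eq, vv_coe]
        norm_num
      obtain ⟨a, α, EF, ha, hα, hαa, hEF5, n, hn, hnle⟩ :=
        hpair F (uu 1) (vv (par v φ w)) (by rw [htru, htrv]) (by rw [htru]; exact h2F) hz2 hz2'
          (by rw [htru]; norm_num; exact hz2) hord
      -- the embedding
      have hφ'v' : (φ ᵥ* ((w⁻¹ : Matrix.SpecialLinearGroup (Fin d) F) :
          Matrix (Fin d) (Fin d) F)) ⬝ᵥ ((w : Matrix (Fin d) (Fin d) F) *ᵥ v) = 0 := by
        rw [← Matrix.dotProduct_mulVec, Matrix.mulVec_mulVec, ← Matrix.SpecialLinearGroup.coe_mul,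
          inv_mul_cancel, Matrix.SpecialLinearGroup.coe_one, Matrix.one_mulVec, hφv]
      obtain ⟨ι, hι1, hι2, hι3⟩ := embed2 v φ ((w : Matrix (Fin d) (Fin d) F) *ᵥ v)
        (φ ᵥ* ((w⁻¹ : Matrix.SpecialLinearGroup (Fin d) F) : Matrix (Fin d) (Fin d) F))
        hφv hφ'v' (par v φ w) (by rw [← Matrix.dotProduct_mulVec]; rfl) hpar
      obtain ⟨a', α', ha', hα', hα'a', hιt⟩ := hι3 a α ha hα hαa
      have e1 : ι (uu 1) = t := by
        apply Subtype.ext
        change (ι (uu 1) : Matrix (Fin d) (Fin d) F) = (t : Matrix (Fin d) (Fin d) F)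
        rw [hι1, ht, one_smul]
      have e2 : ι (vv (par v φ w)) = w * t * w⁻¹ := by
        apply Subtype.ext
        change (ι (vv (par v φ w)) : Matrix (Fin d) (Fin d) F) =
          ((w * t * w⁻¹ : Matrix.SpecialLinearGroup (Fin d) F) : Matrix (Fin d) (Fin d) F)
        rw [hι2, div_self hpar, one_smul, Matrix.SpecialLinearGroup.coe_mul,
          Matrix.SpecialLinearGroup.coe_mul, ht, mul_add, mul_one, add_mul,
          ← Matrix.SpecialLinearGroup.coe_mul, mul_inv_cancel, Matrix.SpecialLinearGroup.coe_one,
          Matrix.mul_vecMulVec, Matrix.vecMulVec_mul]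
      have hletters : ∀ z ∈ ({uu 1, vv (par v φ w)} : Set (SL2 F)),
          ι z ∈ Words S (ℓ + 2 * m) := by
        intro z hz
        rcases hz with rfl | hz
        · rw [e1]
          exact words_mono (by omega) htS
        · rw [Set.mem_singleton_iff] at hz
          subst hz
          rw [e2]
          exact conj_mem_words hw htS
      have hwords : ∀ x : EF, ∃ g ∈ Words S (n * (ℓ + 2 * m)),
          (g : Matrix (Fin d) (Fin d) F) = 1 + algebraMap EF F x • Matrix.vecMulVec a' α' := by
        intro x
        obtain ⟨g, hg, hgx⟩ := hn x x.2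
        exact ⟨ι g, map_mem_words ι hletters hg, hιt _ _ hgx⟩
      have hfinEF : Finite EF := Subtype.finite
      have hfintypeEF : Fintype EF := Fintype.ofFinite EF
      have hcardEF : Fintype.card EF = Nat.card EF := (Nat.card_eq_fintype_card).symm
      have hg := hmain EF F (by rw [hcardEF]; exact hEF5) S hS a' α' ha' hα' hα'a' _ hwords g
      refine ⟨_, hg, ?_⟩
      have hlogEF : 0 < Real.log (Nat.card EF) :=
        Real.log_pos (by exact_mod_cast (by omega : 1 < Nat.card EF))
      have hrank : (finrank EF F : ℝ) * Real.log (Nat.card EF) = Real.log (Fintype.card F) := by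
        rw [← Real.log_pow]
        congr 1
        rw [← Nat.card_eq_fintype_card, Module.natCard_eq_pow_finrank (K := EF) (V := F)]
        push_cast
        rfl
      have hcl : Real.log (Nat.card (Subfield.closure ({tr (uu (1 : F))} : Set F))) =
          Real.log (ringChar F) := by
        have hbot : Subfield.closure ({tr (uu (1 : F))} : Set F) = ⊥ := by
          apply le_antisymm
          · rw [Subfield.closure_le]
            rintro x hx
            rw [Set.mem_singleton_iff] at hx
            rw [hx, htru]
            exact ofNat_mem _ 2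
          · exact bot_le
        have hfact : Fact (ringChar F).Prime := ⟨hprime⟩
        rw [hbot, Subfield.card_bot F (ringChar F)]
      rw [hcl] at hnle
      have hℓm : (ℓ : ℝ) + 2 * m ≤ (1 + 2 * m) * ℓ := by nlinarith [Nat.cast_nonneg (α := ℝ) m]
      push_cast
      calc (C2 : ℝ) * (finrank EF F : ℝ) * ((n : ℝ) * ((ℓ : ℝ) + 2 * m))
          ≤ C2 * (finrank EF F : ℝ) * ((C1 * Real.log (Nat.card EF) *
              Real.log (ringChar F) ^ 8) * ((1 + 2 * m) * ℓ)) := by
            refine mul_le_mul_of_nonneg_left ?_ (by positivity)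
            exact mul_le_mul hnle hℓm (by positivity) (by positivity)
        _ = (C2 * C1 * (1 + 2 * m)) * (ℓ * Real.log (ringChar F) ^ 8 *
              ((finrank EF F : ℝ) * Real.log (Nat.card EF))) := by ring
        _ ≤ (C2 * C1 * (1 + 2 * m)) * (ℓ * Real.log (ringChar F) ^ 8 *
              Real.log (Nat.card (Matrix.SpecialLinearGroup (Fin d) F))) := by
            rw [hrank]
            refine mul_le_mul_of_nonneg_left ?_ hB
            exact mul_le_mul_of_nonneg_left hlogG (by positivity)
        _ ≤ ((q₀ : ℝ) ^ (d * d) / Real.log 2 ^ 9 + C2 * C1 * (1 + 2 * m)) *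
              (ℓ * Real.log (ringChar F) ^ 8 *
                Real.log (Nat.card (Matrix.SpecialLinearGroup (Fin d) F))) :=
            mul_le_mul_of_nonneg_right (by linarith) hpos
        _ = _ := by ring
    · refine ⟨Nat.card (Matrix.SpecialLinearGroup (Fin d) F), words_card_gen S hS g, ?_⟩
      have h1 : (Nat.card (Matrix.SpecialLinearGroup (Fin d) F) : ℝ) ≤ (q₀ : ℝ) ^ (d * d) := by
        have h2 : Nat.card (Matrix.SpecialLinearGroup (Fin d) F) ≤ q₀ ^ (d * d) :=
          (card_sl_le_gen d).trans (Nat.pow_le_pow_left (by omega) _)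
        exact_mod_cast h2
      have h3 : Real.log 2 ^ 9 ≤ ℓ * Real.log (ringChar F) ^ 8 *
          Real.log (Nat.card (Matrix.SpecialLinearGroup (Fin d) F)) := by
        have h4 : Real.log 2 ^ 8 ≤ Real.log (ringChar F) ^ 8 :=
          pow_le_pow_left₀ hlog2.le hlogp 8
        calc Real.log 2 ^ 9 = 1 * Real.log 2 ^ 8 * Real.log 2 := by ring
          _ ≤ ℓ * Real.log (ringChar F) ^ 8 *
              Real.log (Nat.card (Matrix.SpecialLinearGroup (Fin d) F)) := by
              refine mul_le_mul ?_ hlogG2 hlog2.le (by positivity)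
              exact mul_le_mul hℓ' h4 (by positivity) (by positivity)
      calc (Nat.card (Matrix.SpecialLinearGroup (Fin d) F) : ℝ) ≤ (q₀ : ℝ) ^ (d * d) := h1
        _ = (q₀ : ℝ) ^ (d * d) / Real.log 2 ^ 9 * Real.log 2 ^ 9 := by
            field_simp
        _ ≤ (q₀ : ℝ) ^ (d * d) / Real.log 2 ^ 9 * (ℓ * Real.log (ringChar F) ^ 8 *
              Real.log (Nat.card (Matrix.SpecialLinearGroup (Fin d) F))) :=
            mul_le_mul_of_nonneg_left h3 hA
        _ ≤ ((q₀ : ℝ) ^ (d * d) / Real.log 2 ^ 9 + C2 * C1 * (1 + 2 * m)) *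
              (ℓ * Real.log (ringChar F) ^ 8 *
                Real.log (Nat.card (Matrix.SpecialLinearGroup (Fin d) F))) :=
            mul_le_mul_of_nonneg_right (by linarith) hpos
        _ = _ := by ring

end Pool.Agent.Helper72.PT
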