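import Pool.Agent.Helper72.PT.Defs

/-! # PT-Good

Three trace conditions determine an element up to two possibilities.

Plan. Work with `X = x⁻¹` as a matrix: `tr X = τ` (`tr_inv`), `tr (X Y) = τ`, `tr (X Z) = τ`, `det X = 1`.
Claim: `1, Y, Z` are linearly independent in `Matrix (Fin 2) (Fin 2) K`. Otherwise `α Z + β Y + γ = 0` nontrivially;
if `α ≠ 0` then `Z ∈ span (1, Y)` and every eigenvector of `Y` (exists, `K` algebraically closed) is one of `Z`;
if `α = 0` then `Y` is scalar and every eigenvector of `Z` is a common one. Contradiction to `hYZ`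
(an eigenvector `w` of `Y` satisfies `om (act Y w) w = 0`).
So the space of matrices `N` with `tr N = tr (N Y) = tr (N Z) = 0` is one-dimensional (the trace form is
nondegenerate), spanned by `N₀ ≠ 0`, and two solutions differ by a multiple of `N₀`. `det N₀ ≠ 0`: otherwise
`N₀² = 0`, `N₀ = c • vecMulVec w (hat w)`-like with `w ≠ 0` (rank one, trace zero), and `tr (N₀ Y) = 0` says
`om (act Y w) w = 0` up to a factor, similarly for `Z`: contradiction.
If `X₀` is one solution then `det (X₀ + s N₀) = 1 + s * (...) + s² det N₀`, so `det = 1` has at most two solutions `s`.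
Concretely: the solution set injects into `K` (via `s`), into the roots of a nonzero polynomial of
degree `≤ 2`; or show directly that among any three solutions two coincide.
-/

namespace Pool.Agent.Helper72.PT

open Matrix Module Pool.Agent.Helper72.TV

/-- a binary quadratic form over an algebraically closed field has a nontrivial zero -/
private theorem exists_zero {K : Type*} [Field K] [IsAlgClosed K] (A B C : K) :
    ∃ w0 w1 : K, (w0 ≠ 0 ∨ w1 ≠ 0) ∧ A * w0 ^ 2 + B * (w0 * w1) + C * w1 ^ 2 = 0 := by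
  by_cases hA : A = 0
  · refine ⟨1, 0, Or.inl one_ne_zero, ?_⟩
    rw [hA]
    ring
  · have hdeg : (Polynomial.C A * Polynomial.X ^ 2 + Polynomial.C B * Polynomial.X +
        Polynomial.C C).degree ≠ 0 := by
      rw [Polynomial.degree_quadratic hA]
      norm_num
    obtain ⟨t, ht⟩ := IsAlgClosed.exists_root _ hdeg
    refine ⟨t, 1, Or.inr one_ne_zero, ?_⟩
    rw [Polynomial.IsRoot.def] at ht
    simp only [Polynomial.eval_add, Polynomial.eval_mul, Polynomial.eval_C, Polynomial.eval_pow,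
      Polynomial.eval_X] at ht
    linear_combination ht

/-- the resultant of two binary quadratic forms without a common zero -/
private theorem res_ne {K : Type*} [Field K] [IsAlgClosed K] (A B C A' B' C' : K)
    (h : ∀ w0 w1 : K, (w0 ≠ 0 ∨ w1 ≠ 0) → ¬ (A * w0 ^ 2 + B * (w0 * w1) + C * w1 ^ 2 = 0 ∧
      A' * w0 ^ 2 + B' * (w0 * w1) + C' * w1 ^ 2 = 0)) :
    (A * C' - A' * C) ^ 2 - (A * B' - A' * B) * (B * C' - B' * C) ≠ 0 := by
  intro hR
  by_cases h3 : A * B' - A' * B = 0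
  · have h1 : A * C' - A' * C = 0 := by
      rw [h3, zero_mul, sub_zero] at hR
      exact pow_eq_zero_iff (two_ne_zero) |>.1 hR
    by_cases h2 : B * C' - B' * C = 0
    · by_cases hABC : A = 0 ∧ B = 0 ∧ C = 0
      · obtain ⟨w0, w1, hw, hz⟩ := exists_zero A' B' C'
        refine h w0 w1 hw ⟨?_, hz⟩
        rw [hABC.1, hABC.2.1, hABC.2.2]
        ring
      · obtain ⟨w0, w1, hw, hz⟩ := exists_zero A B C
        refine h w0 w1 hw ⟨hz, ?_⟩
        by_contra hz'
        apply hABC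
        have hA : A * (A' * w0 ^ 2 + B' * (w0 * w1) + C' * w1 ^ 2) = 0 := by
          linear_combination A' * hz + w0 * w1 * h3 + w1 ^ 2 * h1
        have hB : B * (A' * w0 ^ 2 + B' * (w0 * w1) + C' * w1 ^ 2) = 0 := by
          linear_combination B' * hz - w0 ^ 2 * h3 + w1 ^ 2 * h2
        have hC : C * (A' * w0 ^ 2 + B' * (w0 * w1) + C' * w1 ^ 2) = 0 := by
          linear_combination C' * hz - w0 ^ 2 * h1 - w0 * w1 * h2
        exact ⟨(mul_eq_zero.1 hA).resolve_right hz', (mul_eq_zero.1 hB).resolve_right hz',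
          (mul_eq_zero.1 hC).resolve_right hz'⟩
    · -- the common zero `(1, 0)`
      refine h 1 0 (Or.inl one_ne_zero) ⟨?_, ?_⟩
      · have hA : A * (B * C' - B' * C) = 0 := by
          linear_combination B * h1 - C * h3
        have hA' := (mul_eq_zero.1 hA).resolve_right h2
        rw [hA']
        ring
      · have hA : A' * (B * C' - B' * C) = 0 := by
          linear_combination B' * h1 - C' * h3
        have hA' := (mul_eq_zero.1 hA).resolve_right h2
        rw [hA']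
        ring
  · refine h (-(A * C' - A' * C)) (A * B' - A' * B) (Or.inr h3) ⟨?_, ?_⟩
    · linear_combination A * hR
    · linear_combination A' * hR

/-- among three solutions two coincide -/
private theorem three_sol {K : Type*} [Field K] {u1 u2 u3 v1 v2 v3 α β τ : K}
    (hR : (u2 * v3 - u3 * v2) ^ 2 + (u3 * v1 - u1 * v3) * (u1 * v2 - u2 * v1) ≠ 0)
    {p q r p' q' r' p0 q0 r0 : K}
    (a1 : u1 * p0 + u2 * q0 + u3 * r0 = α) (b1 : v1 * p0 + v2 * q0 + v3 * r0 = β)
    (c1 : p0 * (τ - p0) - q0 * r0 = 1)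
    (a2 : u1 * p + u2 * q + u3 * r = α) (b2 : v1 * p + v2 * q + v3 * r = β)
    (c2 : p * (τ - p) - q * r = 1)
    (a3 : u1 * p' + u2 * q' + u3 * r' = α) (b3 : v1 * p' + v2 * q' + v3 * r' = β)
    (c3 : p' * (τ - p') - q' * r' = 1) :
    (p = p0 ∧ q = q0 ∧ r = r0) ∨ (p' = p0 ∧ q' = q0 ∧ r' = r0) ∨ (p' = p ∧ q' = q ∧ r' = r) := by
  set n1 := u2 * v3 - u3 * v2 with hn1
  set n2 := u3 * v1 - u1 * v3 with hn2
  set n3 := u1 * v2 - u2 * v1 with hn3
  have lin : ∀ p q r : K, u1 * p + u2 * q + u3 * r = α → v1 * p + v2 * q + v3 * r = β →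
      p * (τ - p) - q * r = 1 → ∃ t : K, p = p0 + t * n1 ∧ q = q0 + t * n2 ∧ r = r0 + t * n3 ∧
        t * ((n1 * (τ - 2 * p0) - q0 * n3 - r0 * n2) - t * (n1 ^ 2 + n2 * n3)) = 0 := by
    intro p q r a b c
    have x1 : n2 * (r - r0) - n3 * (q - q0) = 0 := by
      rw [hn2, hn3]
      linear_combination v1 * (a - a1) - u1 * (b - b1)
    have x2 : n3 * (p - p0) - n1 * (r - r0) = 0 := by
      rw [hn1, hn3]
      linear_combination v2 * (a - a1) - u2 * (b - b1)
    have x3 : n1 * (q - q0) - n2 * (p - p0) = 0 := by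
      rw [hn1, hn2]
      linear_combination v3 * (a - a1) - u3 * (b - b1)
    have e1 : p = p0 + (n1 * (p - p0) + n2 * (r - r0)) / (n1 ^ 2 + n2 * n3) * n1 := by
      field_simp
      linear_combination n2 * x2
    have e2 : q = q0 + (n1 * (p - p0) + n2 * (r - r0)) / (n1 ^ 2 + n2 * n3) * n2 := by
      field_simp
      linear_combination n1 * x3 - n2 * x1
    have e3 : r = r0 + (n1 * (p - p0) + n2 * (r - r0)) / (n1 ^ 2 + n2 * n3) * n3 := by
      field_simp
      linear_combination (-n1) * x2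
    refine ⟨(n1 * (p - p0) + n2 * (r - r0)) / (n1 ^ 2 + n2 * n3), e1, e2, e3, ?_⟩
    set t := (n1 * (p - p0) + n2 * (r - r0)) / (n1 ^ 2 + n2 * n3) with ht
    rw [e1, e2, e3] at c
    linear_combination c - c1
  obtain ⟨t, e1, e2, e3, e4⟩ := lin p q r a2 b2 c2
  obtain ⟨t', f1, f2, f3, f4⟩ := lin p' q' r' a3 b3 c3
  rcases mul_eq_zero.1 e4 with h | h
  · left
    rw [h] at e1 e2 e3
    exact ⟨by rw [e1]; ring, by rw [e2]; ring, by rw [e3]; ring⟩
  · rcases mul_eq_zero.1 f4 with h' | h'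
    · right
      left
      rw [h'] at f1 f2 f3
      exact ⟨by rw [f1]; ring, by rw [f2]; ring, by rw [f3]; ring⟩
    · right
      right
      have h5 : (t' - t) * (n1 ^ 2 + n2 * n3) = 0 := by
        linear_combination h - h'
      have h6 := (mul_eq_zero.1 h5).resolve_right hR
      have h7 : t' = t := sub_eq_zero.1 h6
      rw [f1, f2, f3, e1, e2, e3, h7]
      exact ⟨rfl, rfl, rfl⟩

theorem good {K : Type*} [Field K] [IsAlgClosed K] (Y Z : SL2 K)
    (hYZ : ∀ w : Fin 2 → K, w ≠ 0 → ¬ (om (act Y w) w = 0 ∧ om (act Z w) w = 0)) (τ : K) :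
    {x : SL2 K | tr x = τ ∧ tr (x⁻¹ * Y) = τ ∧ tr (x⁻¹ * Z) = τ}.Finite ∧
    {x : SL2 K | tr x = τ ∧ tr (x⁻¹ * Y) = τ ∧ tr (x⁻¹ * Z) = τ}.ncard ≤ 2 := by
  set y0 := (Y : Matrix (Fin 2) (Fin 2) K) 0 0 with hy0
  set y1 := (Y : Matrix (Fin 2) (Fin 2) K) 0 1 with hy1
  set y2 := (Y : Matrix (Fin 2) (Fin 2) K) 1 0 with hy2
  set y3 := (Y : Matrix (Fin 2) (Fin 2) K) 1 1 with hy3
  set z0 := (Z : Matrix (Fin 2) (Fin 2) K) 0 0 with hz0
  set z1 := (Z : Matrix (Fin 2) (Fin 2) K) 0 1 with hz1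
  set z2 := (Z : Matrix (Fin 2) (Fin 2) K) 1 0 with hz2
  set z3 := (Z : Matrix (Fin 2) (Fin 2) K) 1 1 with hz3
  have hres := res_ne (-y2) (y0 - y3) y1 (-z2) (z0 - z3) z1 (by
    intro w0 w1 hw hcon
    refine hYZ ![w0, w1] ?_ ⟨?_, ?_⟩
    · intro h0
      have h1 := congrFun h0 0
      have h2 := congrFun h0 1
      simp at h1 h2
      rcases hw with hw | hw
      · exact hw h1
      · exact hw h2
    · unfold om
      rw [act_apply_zero, act_apply_one]
      simp only [Matrix.cons_val_zero, Matrix.cons_val_one]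
      linear_combination hcon.1
    · unfold om
      rw [act_apply_zero, act_apply_one]
      simp only [Matrix.cons_val_zero, Matrix.cons_val_one]
      linear_combination hcon.2)
  have hR : (y2 * z1 - y1 * z2) ^ 2 + (y1 * (z0 - z3) - (y0 - y3) * z1) *
      ((y0 - y3) * z2 - y2 * (z0 - z3)) ≠ 0 := by
    intro h0
    apply hres
    linear_combination h0
  have htr : ∀ x g : SL2 K, tr (x⁻¹ * g) =
      (x : Matrix (Fin 2) (Fin 2) K) 1 1 * (g : Matrix (Fin 2) (Fin 2) K) 0 0 -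
      (x : Matrix (Fin 2) (Fin 2) K) 0 1 * (g : Matrix (Fin 2) (Fin 2) K) 1 0 -
      (x : Matrix (Fin 2) (Fin 2) K) 1 0 * (g : Matrix (Fin 2) (Fin 2) K) 0 1 +
      (x : Matrix (Fin 2) (Fin 2) K) 0 0 * (g : Matrix (Fin 2) (Fin 2) K) 1 1 := by
    intro x g
    rw [tr_eq, Matrix.SpecialLinearGroup.coe_mul, inv_coe, Matrix.mul_apply, Matrix.mul_apply,
      Fin.sum_univ_two, Fin.sum_univ_two]
    simp
    ring
  have sol : ∀ x : SL2 K, (tr x = τ ∧ tr (x⁻¹ * Y) = τ ∧ tr (x⁻¹ * Z) = τ) →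
      ((y0 - y3) * (x : Matrix (Fin 2) (Fin 2) K) 1 1 +
        y2 * (-(x : Matrix (Fin 2) (Fin 2) K) 0 1) + y1 * (-(x : Matrix (Fin 2) (Fin 2) K) 1 0) =
        τ - τ * y3) ∧ ((z0 - z3) * (x : Matrix (Fin 2) (Fin 2) K) 1 1 +
        z2 * (-(x : Matrix (Fin 2) (Fin 2) K) 0 1) + z1 * (-(x : Matrix (Fin 2) (Fin 2) K) 1 0) =
        τ - τ * z3) ∧ ((x : Matrix (Fin 2) (Fin 2) K) 1 1 *
          (τ - (x : Matrix (Fin 2) (Fin 2) K) 1 1) -
          (-(x : Matrix (Fin 2) (Fin 2) K) 0 1) * (-(x : Matrix (Fin 2) (Fin 2) K) 1 0) = 1) ∧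
        (x : Matrix (Fin 2) (Fin 2) K) 0 0 = τ - (x : Matrix (Fin 2) (Fin 2) K) 1 1 := by
    rintro x ⟨h1, h2, h3⟩
    rw [tr_eq] at h1
    rw [htr] at h2 h3
    have h4 := det_eq x
    have h5 : (x : Matrix (Fin 2) (Fin 2) K) 0 0 = τ - (x : Matrix (Fin 2) (Fin 2) K) 1 1 := by
      linear_combination h1
    refine ⟨?_, ?_, ?_, h5⟩
    · linear_combination h2 - y3 * h1
    · linear_combination h3 - z3 * h1
    · linear_combination h4 - (x : Matrix (Fin 2) (Fin 2) K) 1 1 * h5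
  have inj : ∀ x x' : SL2 K, (x : Matrix (Fin 2) (Fin 2) K) 0 0 =
        τ - (x : Matrix (Fin 2) (Fin 2) K) 1 1 →
      (x' : Matrix (Fin 2) (Fin 2) K) 0 0 = τ - (x' : Matrix (Fin 2) (Fin 2) K) 1 1 →
      ((x : Matrix (Fin 2) (Fin 2) K) 1 1 = (x' : Matrix (Fin 2) (Fin 2) K) 1 1 ∧
      (-(x : Matrix (Fin 2) (Fin 2) K) 0 1) = (-(x' : Matrix (Fin 2) (Fin 2) K) 0 1) ∧
      (-(x : Matrix (Fin 2) (Fin 2) K) 1 0) = (-(x' : Matrix (Fin 2) (Fin 2) K) 1 0)) → x = x' := by
    rintro x x' h1 h2 ⟨h3, h4, h5⟩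
    apply Matrix.SpecialLinearGroup.ext
    intro i j
    fin_cases i <;> fin_cases j
    · simp only [Fin.zero_eta, Fin.isValue]
      rw [h1, h2, h3]
    · simp only [Fin.zero_eta, Fin.isValue, Fin.mk_one]
      exact neg_injective h4
    · simp only [Fin.zero_eta, Fin.isValue, Fin.mk_one]
      exact neg_injective h5
    · simp only [Fin.isValue, Fin.mk_one]
      exact h3
  set S := {x : SL2 K | tr x = τ ∧ tr (x⁻¹ * Y) = τ ∧ tr (x⁻¹ * Z) = τ} with hS
  have hsub : ∃ x x' : SL2 K, S ⊆ {x, x'} := by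
    rcases S.eq_empty_or_nonempty with he | ⟨x0, hx0⟩
    · refine ⟨1, 1, ?_⟩
      rw [he]
      exact Set.empty_subset _
    · by_cases h1 : ∃ x1 ∈ S, x1 ≠ x0
      · obtain ⟨x1, hx1, hne⟩ := h1
        refine ⟨x0, x1, ?_⟩
        intro x2 hx2
        obtain ⟨a1, b1, c1, d1⟩ := sol x0 hx0
        obtain ⟨a2, b2, c2, d2⟩ := sol x1 hx1
        obtain ⟨a3, b3, c3, d3⟩ := sol x2 hx2
        rcases three_sol hR a1 b1 c1 a2 b2 c2 a3 b3 c3 with h | h | h
        · exact absurd (inj x1 x0 d2 d1 h) hne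
        · left
          exact inj x2 x0 d3 d1 h
        · right
          exact inj x2 x1 d3 d2 h
      · push Not at h1
        refine ⟨x0, x0, ?_⟩
        intro x hx
        left
        exact h1 x hx
  obtain ⟨x, x', hxx⟩ := hsub
  have hfin : ({x, x'} : Set (SL2 K)).Finite := Set.toFinite _
  refine ⟨hfin.subset hxx, (Set.ncard_le_ncard hxx hfin).trans ?_⟩
  refine (Set.ncard_insert_le _ _).trans ?_
  rw [Set.ncard_singleton]

end Pool.Agent.Helper72.PT
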