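import Pool.Agent.Helper72.PT.Cent

/-! # PT-PivA

Orbit-stabiliser for sets: many elements of an involved torus.

Plan. Map `a ↦ a * g * a⁻¹`, `Words S n → {x ∈ Words S (4 n) | tr x = tr g}` (`conj_mem_words`: length
`2 n + 2 n`; `tr_conj`). If `a g a⁻¹ = a' g a'⁻¹` then `a'⁻¹ a` commutes with `g`, so by `cent_of_torus` (module Cent, may
be still sorried) it lies in the torus set of words of length `2 n`; for fixed `a'` the map
`a ↦ a'⁻¹ a` is injective on the fibre. So every fibre has at most `T` elements; sum over the image.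
-/

namespace Pool.Agent.Helper72.PT

open Matrix Module Pool.Agent.Helper72.TV

theorem pivA {K : Type*} [Field K] (S : Set (SL2 K))
    (hfin : (Subgroup.closure S : Set (SL2 K)).Finite) (n : ℕ)
    (w w' : Fin 2 → K) (hw : om w w' ≠ 0) (g : SL2 K) (hg : g ∈ Words S (2 * n))
    (hg4 : tr g ^ 2 ≠ 4) (h1 : om (act g w) w = 0) (h2 : om (act g w') w' = 0) :
    ball S n ≤ {g ∈ Words S (2 * n) | om (act g w) w = 0 ∧ om (act g w') w' = 0}.ncard *
      {x ∈ Words S (4 * n) | tr x = tr g}.ncard := by
  classical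
  set T : Set (SL2 K) := {g ∈ Words S (2 * n) | om (act g w) w = 0 ∧ om (act g w') w' = 0}
    with hT
  set X : Set (SL2 K) := {x ∈ Words S (4 * n) | tr x = tr g} with hX
  have fW : (Words S n).Finite := words_finite hfin n
  have fT : T.Finite := (words_finite hfin (2 * n)).subset (fun x hx => hx.1)
  have fX : X.Finite := (words_finite hfin (4 * n)).subset (fun x hx => hx.1)
  unfold ball
  rw [Set.ncard_eq_toFinset_card _ fW, Set.ncard_eq_toFinset_card _ fT,
    Set.ncard_eq_toFinset_card _ fX]
  have hmap : ∀ a ∈ fW.toFinset, a * g * a⁻¹ ∈ fX.toFinset := by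
    intro a ha
    rw [Set.Finite.mem_toFinset] at ha ⊢
    refine ⟨words_mono ?_ (conj_mem_words ha hg), tr_conj a g⟩
    omega
  have hfib : ∀ x ∈ fX.toFinset,
      (fW.toFinset.filter (fun a => a * g * a⁻¹ = x)).card ≤ fT.toFinset.card := by
    intro x _
    rcases (fW.toFinset.filter (fun a => a * g * a⁻¹ = x)).eq_empty_or_nonempty with h | h
    · rw [h]
      simp
    · obtain ⟨a', ha'⟩ := h
      rw [Finset.mem_filter, Set.Finite.mem_toFinset] at ha'
      refine Finset.card_le_card_of_injOn (fun a => a'⁻¹ * a) ?_ ?_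
      · intro a ha
        rw [Finset.mem_coe, Finset.mem_filter, Set.Finite.mem_toFinset] at ha
        rw [Finset.mem_coe, Set.Finite.mem_toFinset]
        have hcomm : (a'⁻¹ * a) * g = g * (a'⁻¹ * a) := by
          have h3 : a * g * a⁻¹ = a' * g * a'⁻¹ := ha.2.trans ha'.2.symm
          calc (a'⁻¹ * a) * g = a'⁻¹ * (a * g * a⁻¹) * a := by group
            _ = a'⁻¹ * (a' * g * a'⁻¹) * a := by rw [h3]
            _ = g * (a'⁻¹ * a) := by group
        refine ⟨words_mono ?_ (mul_mem_words (inv_mem_words ha'.1) ha.1),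
          cent_of_torus g hg4 w w' hw h1 h2 _ hcomm⟩
        omega
      · intro a _ b _ hab
        exact mul_left_cancel hab
  exact Finset.card_le_mul_card_image_of_maps_to hmap _ hfib

end Pool.Agent.Helper72.PT
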