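import Pool.Agent.Helper72.PT.Cent

/-! # PT-PivB

Growth when a conjugate of the torus is not involved.

Plan. Map `(a, t) ↦ a * (h * t * h⁻¹) ∈ Words S (n + (2 n + 2 n)) = Words S (5 n)` on
`Words S n × {t ∈ Words S (2 n) | t in the torus of w, w'}`. If `a h t h⁻¹ = a' h t' h⁻¹` then
`a'⁻¹ a = h (t' t⁻¹) h⁻¹` lies in `Words S (2 n)` and fixes the lines of `act h w`, `act h w'`; by `hnot` its trace
squared is `4`, so by `torus_tr` (module Cent, may be still sorried) its matrix is `±1`. Hence for a given value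
there are at most two pairs `(a, t)`: `a = ± a'`, `t = ± t'`. So `ball S n * T ≤ 2 * ball S (5 n)`.
-/

namespace Pool.Agent.Helper72.PT

open Matrix Module Pool.Agent.Helper72.TV

private theorem om_inv_eig {K : Type*} [Field K] (t : SL2 K) (w : Fin 2 → K)
    (h : om (act t w) w = 0) : om (act t⁻¹ w) w = 0 := by
  rw [← om_act t, act_act_inv, om_swap, h, neg_zero]

private theorem om_mul_eig {K : Type*} [Field K] (t s : SL2 K) (w : Fin 2 → K) (hw : w ≠ 0)
    (h : om (act t w) w = 0) (h' : om (act s w) w = 0) : om (act (t * s) w) w = 0 := by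
  obtain ⟨c, hc⟩ := exists_smul_of_om hw h'
  rw [act_mul, hc, act_smul, om_smul_left, h, mul_zero]

theorem pivB {K : Type*} [Field K] (S : Set (SL2 K))
    (hfin : (Subgroup.closure S : Set (SL2 K)).Finite) (n : ℕ)
    (w w' : Fin 2 → K) (hw : om w w' ≠ 0) (h : SL2 K) (hh : h ∈ Words S n)
    (hnot : ∀ g ∈ Words S (2 * n), om (act g (act h w)) (act h w) = 0 →
      om (act g (act h w')) (act h w') = 0 → tr g ^ 2 = 4) :
    ball S n * {g ∈ Words S (2 * n) | om (act g w) w = 0 ∧ om (act g w') w' = 0}.ncard ≤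
      2 * ball S (5 * n) := by
  classical
  set T : Set (SL2 K) := {g ∈ Words S (2 * n) | om (act g w) w = 0 ∧ om (act g w') w' = 0}
    with hT
  have hw0 : w ≠ 0 := by
    rintro rfl
    apply hw
    simp [om]
  have hw0' : w' ≠ 0 := by
    rintro rfl
    apply hw
    simp [om]
  have fW : (Words S n).Finite := words_finite hfin n
  have fT : T.Finite := (words_finite hfin (2 * n)).subset (fun x hx => hx.1)
  have fX : (Words S (5 * n)).Finite := words_finite hfin (5 * n)
  unfold ball
  rw [Set.ncard_eq_toFinset_card _ fW, Set.ncard_eq_toFinset_card _ fT,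
    Set.ncard_eq_toFinset_card _ fX, ← Finset.card_product]
  have hmap : ∀ p ∈ fW.toFinset ×ˢ fT.toFinset, p.1 * (h * p.2 * h⁻¹) ∈ fX.toFinset := by
    intro p hp
    rw [Finset.mem_product, Set.Finite.mem_toFinset, Set.Finite.mem_toFinset] at hp
    rw [Set.Finite.mem_toFinset]
    refine words_mono ?_ (mul_mem_words hp.1 (conj_mem_words hh hp.2.1))
    omega
  have hfib : ∀ x ∈ fX.toFinset,
      ((fW.toFinset ×ˢ fT.toFinset).filter (fun p => p.1 * (h * p.2 * h⁻¹) = x)).card ≤ 2 := by
    intro x _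
    rcases ((fW.toFinset ×ˢ fT.toFinset).filter
      (fun p => p.1 * (h * p.2 * h⁻¹) = x)).eq_empty_or_nonempty with he | he
    · rw [he]
      simp
    · obtain ⟨⟨a', t'⟩, hp'⟩ := he
      rw [Finset.mem_filter, Finset.mem_product, Set.Finite.mem_toFinset,
        Set.Finite.mem_toFinset] at hp'
      obtain ⟨⟨ha', ht'⟩, hx'⟩ := hp'
      simp only at ha' ht' hx'
      refine le_trans (Finset.card_le_card_of_injOn
        (t := ({1, -1} : Finset (Matrix (Fin 2) (Fin 2) K)))
        (fun p => ((a'⁻¹ * p.1 : SL2 K) : Matrix (Fin 2) (Fin 2) K)) ?_ ?_) Finset.card_le_two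
      · rintro ⟨a, t⟩ hp
        rw [Finset.mem_coe, Finset.mem_filter, Finset.mem_product, Set.Finite.mem_toFinset,
          Set.Finite.mem_toFinset] at hp
        obtain ⟨⟨ha, ht⟩, hx⟩ := hp
        simp only at ha ht hx
        have hu : a'⁻¹ * a = h * (t' * t⁻¹) * h⁻¹ := by
          have h3 : a * (h * t * h⁻¹) = a' * (h * t' * h⁻¹) := hx.trans hx'.symm
          calc a'⁻¹ * a = a'⁻¹ * (a * (h * t * h⁻¹)) * (h * t⁻¹ * h⁻¹) := by group
            _ = a'⁻¹ * (a' * (h * t' * h⁻¹)) * (h * t⁻¹ * h⁻¹) := by rw [h3]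
            _ = h * (t' * t⁻¹) * h⁻¹ := by group
        have e : ∀ v : Fin 2 → K, om (act (t' * t⁻¹) v) v = 0 →
            om (act (a'⁻¹ * a) (act h v)) (act h v) = 0 := by
          intro v hv
          rw [hu, act_mul, act_inv_act, act_mul, om_act]
          exact hv
        have e1 := e w (om_mul_eig t' t⁻¹ w hw0 ht'.2.1 (om_inv_eig t w ht.2.1))
        have e2 := e w' (om_mul_eig t' t⁻¹ w' hw0' ht'.2.2 (om_inv_eig t w' ht.2.2))
        have hmem : a'⁻¹ * a ∈ Words S (2 * n) :=
          words_mono (by omega) (mul_mem_words (inv_mem_words ha') ha)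
        have h4 := hnot _ hmem e1 e2
        have h5 := torus_tr (a'⁻¹ * a) (act h w) (act h w') (by rw [om_act]; exact hw) e1 e2 h4
        simpa using h5
      · rintro ⟨a, t⟩ hp ⟨b, r⟩ hq hab
        rw [Finset.mem_coe, Finset.mem_filter] at hp hq
        simp only at hab
        have h6 : a'⁻¹ * a = a'⁻¹ * b := Subtype.ext hab
        have h7 : a = b := mul_left_cancel h6
        subst h7
        have h8 : a * (h * t * h⁻¹) = a * (h * r * h⁻¹) := hp.2.trans hq.2.symm
        have h9 := mul_left_cancel (mul_right_cancel (mul_left_cancel h8))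
        rw [h9]
  exact Finset.card_le_mul_card_image_of_maps_to hmap 2 hfib

end Pool.Agent.Helper72.PT
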