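import Pool.Agent.Helper72.PT.Cent

/-! # PT-PivC

Counting when all conjugates of the torus are involved.

Plan. `H = closure S` finite. Count the set
`Q = {(h, t) : h ∈ H, t ∈ Words S (2 n), t fixes the lines of act h w, act h w', t ≠ ±1 as a matrix}`.
For each `h ∈ H` there are at least `m₀ - 2` such `t`, so `|Q| ≥ |H| (m₀ - 2)`. For a fixed `t ≠ ±1` the elements `h`
with `(h, t) ∈ Q`: `t` has at most two eigenlines (`eig_lines`, module Cent, may be still sorried), so any two such
`h, h'` have `{K act h w, K act h w'} = {K act h' w, K act h' w'}`; fix one `h'`; then `h'⁻¹ h` fixes both lines `w, w'` or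
swaps them. The number of elements of `H` fixing both lines is `T = {g ∈ H | ...}.ncard`, and the number
of elements swapping them is `0` or `T` (a coset). So each `t` occurs at most `2 T` times:
`|H| (m₀ - 2) ≤ |Q| ≤ 2 T * ball S (2 n)`.
-/

namespace Pool.Agent.Helper72.PT

open Matrix Module Pool.Agent.Helper72.TV

private lemma om_trans {K : Type*} [Field K] {x y z : Fin 2 → K} (hx : x ≠ 0) (h1 : om x y = 0)
    (h2 : om x z = 0) : om y z = 0 := by
  have e0 : x 0 * om y z = 0 := by
    unfold om at *
    linear_combination y 0 * h2 - z 0 * h1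
  have e1 : x 1 * om y z = 0 := by
    unfold om at *
    linear_combination y 1 * h2 - z 1 * h1
  by_contra h
  apply hx
  ext i
  fin_cases i
  · exact (mul_eq_zero.1 e0).resolve_right h
  · exact (mul_eq_zero.1 e1).resolve_right h

private lemma om_zero_symm {K : Type*} [Field K] {x y : Fin 2 → K} (h : om x y = 0) :
    om y x = 0 := by
  rw [om_swap, h, neg_zero]

private lemma ne_of_om_left {K : Type*} [Field K] {x y : Fin 2 → K} (h : om x y ≠ 0) : x ≠ 0 := by
  rintro rfl
  apply h
  unfold om
  simp

private lemma ne_of_om_right {K : Type*} [Field K] {x y : Fin 2 → K} (h : om x y ≠ 0) :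
    y ≠ 0 := by
  rintro rfl
  apply h
  unfold om
  simp

private lemma om_inv_mul {K : Type*} [Field K] (g h : SL2 K) (x y : Fin 2 → K) :
    om (act (g⁻¹ * h) x) y = om (act h x) (act g y) := by
  rw [← om_act g, act_mul, act_act_inv]

theorem pivC {K : Type*} [Field K] (S : Set (SL2 K))
    (hfin : (Subgroup.closure S : Set (SL2 K)).Finite) (n : ℕ)
    (w w' : Fin 2 → K) (hw : om w w' ≠ 0) (m₀ : ℕ)
    (hinv : ∀ h ∈ Subgroup.closure S, m₀ ≤ {g ∈ Words S (2 * n) |
      om (act g (act h w)) (act h w) = 0 ∧ om (act g (act h w')) (act h w') = 0}.ncard) :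
    Nat.card (Subgroup.closure S) * (m₀ - 2) ≤
      2 * {g : SL2 K | g ∈ Subgroup.closure S ∧ om (act g w) w = 0 ∧ om (act g w') w' = 0}.ncard *
        ball S (2 * n) := by
  classical
  have hw0 : w ≠ 0 := ne_of_om_left hw
  have hw0' : w' ≠ 0 := ne_of_om_right hw
  set H := Subgroup.closure S with hH
  set HF : Finset (SL2 K) := hfin.toFinset with hHF
  have memH : ∀ g, g ∈ HF ↔ g ∈ H := fun g => by rw [hHF, Set.Finite.mem_toFinset]; rfl
  have hWfin := words_finite (S := S) hfin (2 * n)
  set WF : Finset (SL2 K) := hWfin.toFinset with hWF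
  have memW : ∀ g, g ∈ WF ↔ g ∈ Words S (2 * n) := fun g => by
    rw [hWF, Set.Finite.mem_toFinset]
  set P : SL2 K → SL2 K → Prop := fun h t =>
    om (act t (act h w)) (act h w) = 0 ∧ om (act t (act h w')) (act h w') = 0 with hP
  set nt : SL2 K → Prop := fun t =>
    (t : Matrix (Fin 2) (Fin 2) K) ≠ 1 ∧ (t : Matrix (Fin 2) (Fin 2) K) ≠ -1 with hnt
  set TF : Finset (SL2 K) := HF.filter (fun g => om (act g w) w = 0 ∧ om (act g w') w' = 0)
    with hTF
  set SF : Finset (SL2 K) := HF.filter (fun g => om (act g w) w' = 0 ∧ om (act g w') w = 0)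
    with hSF
  have hT : {g : SL2 K | g ∈ H ∧ om (act g w) w = 0 ∧ om (act g w') w' = 0}.ncard =
      TF.card := by
    rw [← Set.ncard_coe_finset]
    congr 1
    ext g
    simp only [hTF, Finset.coe_filter, Set.mem_ofPred_eq, memH]
  have hcardH : Nat.card H = HF.card := Set.ncard_eq_toFinset_card _ hfin
  have hball : ball S (2 * n) = WF.card := Set.ncard_eq_toFinset_card _ hWfin
  -- the swapping elements are a coset of the torus
  have hST : SF.card ≤ TF.card := by
    rcases SF.eq_empty_or_nonempty with h0 | ⟨g0, hg0⟩
    · rw [h0, Finset.card_empty]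
      exact Nat.zero_le _
    · rw [hSF, Finset.mem_filter] at hg0
      refine Finset.card_le_card_of_injOn (fun g => g0⁻¹ * g) ?_ ?_
      · intro g hg
        have hg' := (Finset.mem_filter.1 hg)
        apply Finset.mem_filter.2
        refine ⟨(memH _).2 (mul_mem (inv_mem ((memH _).1 hg0.1)) ((memH _).1 hg'.1)), ?_, ?_⟩
        · rw [om_inv_mul]
          exact om_trans hw0' (om_zero_symm hg'.2.1) (om_zero_symm hg0.2.1)
        · rw [om_inv_mul]
          exact om_trans hw0 (om_zero_symm hg'.2.2) (om_zero_symm hg0.2.2)
      · intro x _ y _ hxy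
        exact mul_left_cancel hxy
  -- every nontrivial element is counted at most twice the size of the torus
  have hup : ∀ t ∈ WF, nt t → (HF.filter (fun h => P h t)).card ≤ 2 * TF.card := by
    intro t _ ht
    rcases (HF.filter (fun h => P h t)).eq_empty_or_nonempty with h0 | ⟨h', hh'⟩
    · rw [h0, Finset.card_empty]
      exact Nat.zero_le _
    · rw [Finset.mem_filter] at hh'
      have hcard : (HF.filter (fun h => P h t)).card ≤ (TF ∪ SF).card := by
        refine Finset.card_le_card_of_injOn (fun g => h'⁻¹ * g) ?_ ?_
        · intro h hh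
          have hh2 := Finset.mem_filter.1 hh
          have hmem : h'⁻¹ * h ∈ HF :=
            (memH _).2 (mul_mem (inv_mem ((memH _).1 hh'.1)) ((memH _).1 hh2.1))
          have hind : om (act h' w) (act h' w') ≠ 0 := by rw [om_act]; exact hw
          have hind2 : om (act h w) (act h w') ≠ 0 := by rw [om_act]; exact hw
          have hA : ∀ z, om (act t z) z = 0 → om (act h' w) z = 0 ∨ om (act h' w') z = 0 := by
            intro z hz
            by_contra hc
            push Not at hc
            rcases eig_lines t _ _ _ hind hc.1 hc.2 hh'.2.1 hh'.2.2 hz with h3 | h3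
            · exact ht.1 h3
            · exact ht.2 h3
          have hn1 : act h' w ≠ 0 := act_ne_zero _ hw0
          have hn2 : act h' w' ≠ 0 := act_ne_zero _ hw0'
          apply Finset.mem_coe.2
          rw [Finset.mem_union]
          rcases hA _ hh2.2.1 with h1 | h1
          · rcases hA _ hh2.2.2 with h2 | h2
            · exact absurd (om_trans hn1 h1 h2) hind2
            · left
              apply Finset.mem_filter.2
              refine ⟨hmem, ?_, ?_⟩
              · rw [om_inv_mul]; exact om_zero_symm h1
              · rw [om_inv_mul]; exact om_zero_symm h2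
          · rcases hA _ hh2.2.2 with h2 | h2
            · right
              apply Finset.mem_filter.2
              refine ⟨hmem, ?_, ?_⟩
              · rw [om_inv_mul]; exact om_zero_symm h1
              · rw [om_inv_mul]; exact om_zero_symm h2
            · exact absurd (om_trans hn2 h1 h2) hind2
        · intro x _ y _ hxy
          exact mul_left_cancel hxy
      have h4 := Finset.card_union_le TF SF
      omega
  -- every element of the group is counted at least `m₀ - 2` times
  have hlow : ∀ h ∈ HF, m₀ - 2 ≤ (WF.filter (fun t => P h t ∧ nt t)).card := by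
    intro h hh
    have h1 := hinv h ((memH _).1 hh)
    have h2 : {g ∈ Words S (2 * n) |
        om (act g (act h w)) (act h w) = 0 ∧ om (act g (act h w')) (act h w') = 0}.ncard =
        (WF.filter (fun t => P h t)).card := by
      rw [← Set.ncard_coe_finset]
      congr 1
      ext g
      simp only [hP, Finset.coe_filter, Set.mem_ofPred_eq, memW]
    rw [h2] at h1
    have h3 : (WF.filter (fun t => P h t)).card ≤
        (WF.filter (fun t => P h t ∧ nt t)).card + 2 := by
      have h4 : WF.filter (fun t => P h t) ⊆
          WF.filter (fun t => P h t ∧ nt t) ∪ WF.filter (fun t => ¬ nt t) := by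
        intro t ht
        rw [Finset.mem_filter] at ht
        rw [Finset.mem_union, Finset.mem_filter, Finset.mem_filter]
        by_cases h5 : nt t
        · exact Or.inl ⟨ht.1, ht.2, h5⟩
        · exact Or.inr ⟨ht.1, h5⟩
      have h5 : (WF.filter (fun t => ¬ nt t)).card ≤ 2 := by
        have h6 : (WF.filter (fun t => ¬ nt t)).card ≤
            ({1, -1} : Finset (Matrix (Fin 2) (Fin 2) K)).card := by
          refine Finset.card_le_card_of_injOn
            (fun t : SL2 K => (t : Matrix (Fin 2) (Fin 2) K)) ?_ ?_
          · intro t ht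
            have h7 := (Finset.mem_filter.1 ht).2
            apply Finset.mem_coe.2
            rw [Finset.mem_insert, Finset.mem_singleton]
            by_contra hc
            push Not at hc
            exact h7 hc
          · intro x _ y _ hxy
            exact Subtype.ext hxy
        exact h6.trans Finset.card_le_two
      have h6 := Finset.card_le_card h4
      have h7 := Finset.card_union_le (WF.filter (fun t => P h t ∧ nt t))
        (WF.filter (fun t => ¬ nt t))
      omega
    omega
  have hdc := Finset.sum_card_bipartiteAbove_eq_sum_card_bipartiteBelow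
    (s := HF) (t := WF) (fun h t => P h t ∧ nt t)
  have h1 : HF.card * (m₀ - 2) ≤
      ∑ h ∈ HF, (Finset.bipartiteAbove (fun h t => P h t ∧ nt t) WF h).card := by
    rw [← smul_eq_mul]
    exact Finset.card_nsmul_le_sum _ _ _ fun h hh => hlow h hh
  have h2 : ∑ t ∈ WF, (Finset.bipartiteBelow (fun h t => P h t ∧ nt t) HF t).card ≤
      WF.card * (2 * TF.card) := by
    rw [← smul_eq_mul]
    refine Finset.sum_le_card_nsmul _ _ _ fun t ht => ?_
    by_cases h5 : nt t
    · refine le_trans (Finset.card_le_card ?_) (hup t ht h5)
      intro h hh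
      have h6 := Finset.mem_filter.1 hh
      exact Finset.mem_filter.2 ⟨h6.1, h6.2.1⟩
    · have h6 : Finset.bipartiteBelow (fun h t => P h t ∧ nt t) HF t = ∅ := by
        apply Finset.filter_eq_empty_iff.2
        intro h _ hc
        exact h5 hc.2
      rw [h6, Finset.card_empty]
      exact Nat.zero_le _
  rw [hT, hcardH, hball]
  calc HF.card * (m₀ - 2) ≤ _ := h1
    _ = _ := hdc
    _ ≤ _ := h2
    _ = 2 * TF.card * WF.card := by ring

end Pool.Agent.Helper72.PT
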