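import Pool.Agent.Helper72.PT.LPC
import Pool.Agent.Helper72.PT.PivA
import Pool.Agent.Helper72.PT.PivB
import Pool.Agent.Helper72.PT.PivC

/-! # PT-Growth

The growth inequality (pivoting).

Plan. `lpT, lpC, cent, pivA, pivB, pivC` may be still sorried. `N = |H|`, `H = closure S`, `f = ball S`, `M = f (80 n) ≥ 1`.
Say that `(u, u')` with `om u u' ≠ 0` is involved if some `g ∈ Words S (2 n)` with `tr g ^ 2 ≠ 4` fixes both lines. Let
`T(u, u')` be the number of elements of `Words S (2 n)` fixing both lines. If `(u, u')` is involved: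
`f n ≤ T(u, u') * c`, where `c³ ≤ 110592 f (80 n)² = 110592 M²` (`pivA`, `lpC` with `4 n`).
By `hreg` and `cent` there is an involved pair `(w, w')`.
(1) If for some `h ∈ H` the pair `(act h w, act h w')` is not involved: writing `h` as a word
(`exists_words_of_mem_closure`, induction on the length of the list) there is an involved pair `(u, u')` (a
translate) and `s ∈ Words S 1 ⊆ Words S n` (`1 ≤ n`) with `(act s u, act s u')` not involved. By `pivB`
`f n * T(u, u') ≤ 2 f (5 n) ≤ 2 M`, so `f n ^ 2 ≤ f n T c ≤ 2 M c`, `f n ^ 6 ≤ 8 M³ * 110592 M²`.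
(2) Otherwise all `(act h w, act h w')`, `h ∈ H`, are involved. Let `m₀` be the minimum over `h ∈ H` of
`T(act h w, act h w')`; `f n ≤ m₀ c`. If `m₀ ≤ 4`: `f n ≤ 4 c`, `f n ^ 6 ≤ 4096 c^6 ≤ 4096 * 110592² M⁴ ≤ C M⁵`. If `m₀ ≥ 4`:
`m₀ ≤ 2 (m₀ - 2)`, and by `pivC` `N (m₀ - 2) ≤ 2 T_H f (2 n)`, with `T_H³ ≤ 512 N` by `lpT` for the set `S' = H` and
`n = 1` (`Esc (H) 1` follows from `Esc S e`, `words_subgroup`, `ball_subgroup`, and the closure of `H` is `H`).
So `N m₀ ≤ 4 T_H M`, `N f n ≤ 4 T_H M c`, and cubing: `N³ f n ³ ≤ 64 * 512 N * M³ * 110592 M²`, i.e.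
`N² f n ³ ≤ C M⁵`.
`C₀ = 4096 * 110592 ^ 2` covers all cases.
-/

namespace Pool.Agent.Helper72.PT

open Matrix Module Pool.Agent.Helper72.TV

private def GInv {K : Type*} [Field K] (S : Set (SL2 K)) (n : ℕ) (u u' : Fin 2 → K) : Prop :=
  ∃ g ∈ Words S (2 * n), tr g ^ 2 ≠ 4 ∧ om (act g u) u = 0 ∧ om (act g u') u' = 0

private theorem growth_step {K : Type*} [Field K] (S : Set (SL2 K)) (n : ℕ) (w w' : Fin 2 → K)
    (hw : GInv S n w w') :
    ∀ l : List (SL2 K), (∀ x ∈ l, x ∈ S ∨ x⁻¹ ∈ S) →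
      ¬ GInv S n (act l.prod w) (act l.prod w') →
      ∃ h s : SL2 K, s ∈ Words S 1 ∧ GInv S n (act h w) (act h w') ∧
        ¬ GInv S n (act s (act h w)) (act s (act h w')) := by
  intro l
  induction l with
  | nil =>
    intro _ h
    rw [List.prod_nil, act_one, act_one] at h
    exact absurd hw h
  | cons a l ih =>
    intro hl h
    by_cases h1 : GInv S n (act l.prod w) (act l.prod w')
    · refine ⟨l.prod, a, ?_, h1, ?_⟩
      · refine ⟨[a], by simp, ?_, by simp⟩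
        intro x hx
        rw [List.mem_singleton] at hx
        rw [hx]
        exact hl a (by simp)
      · rw [List.prod_cons, act_mul, act_mul] at h
        exact h
    · exact ih (fun x hx => hl x (by simp [hx])) h1

private theorem growth_arith1 (F T c M : ℕ) (h1 : F ≤ T * c) (h2 : F * T ≤ 2 * M)
    (h3 : c ^ 3 ≤ 110592 * M ^ 2) : F ^ 6 ≤ 4096 * 110592 ^ 2 * M ^ 5 := by
  have h4 : F ^ 2 ≤ 2 * M * c := by
    calc F ^ 2 = F * F := by ring
      _ ≤ F * (T * c) := Nat.mul_le_mul_left _ h1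
      _ = F * T * c := by ring
      _ ≤ 2 * M * c := Nat.mul_le_mul_right _ h2
  calc F ^ 6 = (F ^ 2) ^ 3 := by ring
    _ ≤ (2 * M * c) ^ 3 := Nat.pow_le_pow_left h4 3
    _ = 8 * M ^ 3 * c ^ 3 := by ring
    _ ≤ 8 * M ^ 3 * (110592 * M ^ 2) := Nat.mul_le_mul_left _ h3
    _ = 884736 * M ^ 5 := by ring
    _ ≤ 4096 * 110592 ^ 2 * M ^ 5 := Nat.mul_le_mul_right _ (by norm_num)

private theorem growth_arith2 (F m c M : ℕ) (h1 : F ≤ m * c) (hm : m ≤ 4) (hM : 1 ≤ M)
    (h3 : c ^ 3 ≤ 110592 * M ^ 2) : F ^ 6 ≤ 4096 * 110592 ^ 2 * M ^ 5 := by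
  calc F ^ 6 ≤ (4 * c) ^ 6 := Nat.pow_le_pow_left (h1.trans (Nat.mul_le_mul_right _ hm)) 6
    _ = 4096 * (c ^ 3) ^ 2 := by ring
    _ ≤ 4096 * (110592 * M ^ 2) ^ 2 := Nat.mul_le_mul_left _ (Nat.pow_le_pow_left h3 2)
    _ = 4096 * 110592 ^ 2 * M ^ 4 := by ring
    _ ≤ 4096 * 110592 ^ 2 * M ^ 5 :=
      Nat.mul_le_mul_left _ (Nat.pow_le_pow_right hM (by norm_num))

private theorem growth_arith3 (F m c M N T : ℕ) (h1 : F ≤ m * c) (hm : 4 ≤ m) (hN : 1 ≤ N)
    (h2 : N * (m - 2) ≤ 2 * T * M) (hT : T ^ 3 ≤ 512 * N) (h3 : c ^ 3 ≤ 110592 * M ^ 2) :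
    N ^ 2 * F ^ 3 ≤ 4096 * 110592 ^ 2 * M ^ 5 := by
  have h4 : N * m ≤ 4 * T * M := by
    have h0 : m ≤ 2 * (m - 2) := by omega
    calc N * m ≤ N * (2 * (m - 2)) := Nat.mul_le_mul_left _ h0
      _ = 2 * (N * (m - 2)) := by ring
      _ ≤ 2 * (2 * T * M) := Nat.mul_le_mul_left _ h2
      _ = 4 * T * M := by ring
  have h5 : N * F ≤ 4 * T * M * c := by
    calc N * F ≤ N * (m * c) := Nat.mul_le_mul_left _ h1
      _ = N * m * c := by ring
      _ ≤ 4 * T * M * c := Nat.mul_le_mul_right _ h4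
  have h6 : N * (N ^ 2 * F ^ 3) ≤ N * (4096 * 110592 ^ 2 * M ^ 5) := by
    calc N * (N ^ 2 * F ^ 3) = (N * F) ^ 3 := by ring
      _ ≤ (4 * T * M * c) ^ 3 := Nat.pow_le_pow_left h5 3
      _ = 64 * M ^ 3 * (T ^ 3 * c ^ 3) := by ring
      _ ≤ 64 * M ^ 3 * ((512 * N) * (110592 * M ^ 2)) :=
        Nat.mul_le_mul_left _ (Nat.mul_le_mul hT h3)
      _ = N * (64 * 512 * 110592 * M ^ 5) := by ring
      _ ≤ N * (4096 * 110592 ^ 2 * M ^ 5) :=
        Nat.mul_le_mul_left _ (Nat.mul_le_mul_right _ (by norm_num))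
  exact Nat.le_of_mul_le_mul_left h6 hN

theorem growth {K : Type*} [Field K] [IsAlgClosed K] (S : Set (SL2 K))
    (hfin : (Subgroup.closure S : Set (SL2 K)).Finite) (e n : ℕ) (hesc : Esc S e) (hen : e ≤ n)
    (hn : 1 ≤ n) (hreg : ∃ g ∈ Words S (2 * n), tr g ^ 2 ≠ 4) :
    min (ball S n ^ 6) (Nat.card (Subgroup.closure S) ^ 2 * ball S n ^ 3) ≤
      4096 * 110592 ^ 2 * ball S (80 * n) ^ 5 := by
  have hM1 : 1 ≤ ball S (80 * n) := one_le_ball hfin _
  have keyA : ∀ u u' : Fin 2 → K, om u u' ≠ 0 → GInv S n u u' →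
      ∃ c : ℕ, c ^ 3 ≤ 110592 * ball S (80 * n) ^ 2 ∧
        ball S n ≤
          {g ∈ Words S (2 * n) | om (act g u) u = 0 ∧ om (act g u') u' = 0}.ncard * c := by
    rintro u u' hu ⟨g, hg, hg4, h1, h2⟩
    refine ⟨{x ∈ Words S (4 * n) | tr x = tr g}.ncard, ?_, pivA S hfin n u u' hu g hg hg4 h1 h2⟩
    have h := lpC S hfin e (4 * n) hesc (by omega) (tr g)
    rwa [show 20 * (4 * n) = 80 * n by ring] at h
  obtain ⟨g, hg, hg4⟩ := hreg
  obtain ⟨w, w', hw, hgw, hgw', -⟩ := cent g hg4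
  have hinv : GInv S n w w' := ⟨g, hg, hg4, hgw, hgw'⟩
  by_cases hall : ∀ h ∈ Subgroup.closure S, GInv S n (act h w) (act h w')
  · obtain ⟨h₀, hh₀, hmin⟩ := Set.exists_min_image (Subgroup.closure S : Set (SL2 K))
      (fun h => {g ∈ Words S (2 * n) | om (act g (act h w)) (act h w) = 0 ∧
        om (act g (act h w')) (act h w') = 0}.ncard) hfin ⟨1, one_mem _⟩
    obtain ⟨c, hc3, hc⟩ := keyA (act h₀ w) (act h₀ w') (by rw [om_act]; exact hw) (hall h₀ hh₀)
    by_cases hm : {g ∈ Words S (2 * n) | om (act g (act h₀ w)) (act h₀ w) = 0 ∧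
        om (act g (act h₀ w')) (act h₀ w') = 0}.ncard ≤ 4
    · exact (min_le_left _ _).trans (growth_arith2 _ _ c _ hc hm hM1 hc3)
    · refine (min_le_right _ _).trans (growth_arith3 _ _ c _ _
        {g : SL2 K | g ∈ Subgroup.closure S ∧ om (act g w) w = 0 ∧ om (act g w') w' = 0}.ncard
        hc (by omega) ((one_le_ball hfin n).trans (ball_le_card hfin n)) ?_ ?_ hc3)
      · refine (pivC S hfin n w w' hw _ hmin).trans ?_
        exact Nat.mul_le_mul_left _ (ball_mono hfin (by omega))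
      · have hcl : Subgroup.closure (Subgroup.closure S : Set (SL2 K)) = Subgroup.closure S :=
          Subgroup.closure_eq _
        have hfin' : (Subgroup.closure (Subgroup.closure S : Set (SL2 K)) :
            Set (SL2 K)).Finite := by
          rw [hcl]
          exact hfin
        have hesc' : Esc (Subgroup.closure S : Set (SL2 K)) 1 := by
          intro v v' hv hv'
          obtain ⟨g, hg, h⟩ := hesc v v' hv hv'
          refine ⟨g, ?_, h⟩
          rw [words_subgroup _ le_rfl]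
          exact words_subset_closure _ hg
        have h := lpT (Subgroup.closure S : Set (SL2 K)) hfin' 1 1 hesc' le_rfl w w' hw
        rw [words_subgroup _ le_rfl, ball_subgroup _ (by norm_num)] at h
        exact h
  · have hall' : ∃ h ∈ Subgroup.closure S, ¬ GInv S n (act h w) (act h w') := by
      by_contra hcon
      apply hall
      intro h hh
      by_contra hh2
      exact hcon ⟨h, hh, hh2⟩
    obtain ⟨h, hh, hnot⟩ := hall'
    obtain ⟨L, l, -, hl1, hl2⟩ := exists_words_of_mem_closure hh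
    rw [← hl2] at hnot
    obtain ⟨h', s, hs, hi, hni⟩ := growth_step S n w w' hinv l hl1 hnot
    have hom : om (act h' w) (act h' w') ≠ 0 := by
      rw [om_act]
      exact hw
    obtain ⟨c, hc3, hc⟩ := keyA _ _ hom hi
    have h5 := pivB S hfin n (act h' w) (act h' w') hom s (words_mono hn hs) (by
      intro g hg h1 h2
      by_contra hg4
      exact hni ⟨g, hg, hg4, h1, h2⟩)
    refine (min_le_left _ _).trans (growth_arith1 _ _ c _ hc (h5.trans ?_) hc3)
    exact Nat.mul_le_mul_left _ (ball_mono hfin (by omega))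

end Pool.Agent.Helper72.PT
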