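import Pool.Agent.Helper72.PT.LPC
import Pool.Agent.Helper72.PT.BadZ2

/-! # PT-LPC2

Sharper form of `lpC`. Plan: the proof in `Pool/Agent/Helper72/PT/LPC.lean` (landed) with `badZ2` (may be still sorried) in
place of `badZ`: with `m` = largest natural number with `m³ ≤ 512 y`, `y = ball S (12 n + 2 e)`: if `|N| ≥ 6 m` then
`|N|³ ≤ 4 ball S (2 n)²` (do not enlarge `ball S (2 n)`), otherwise `|N|³ ≤ 216 m³ ≤ 110592 y`.
-/

namespace Pool.Agent.Helper72.PT

open Matrix Module Pool.Agent.Helper72.TV

section LPC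

variable {K : Type*} [Field K]

/-- every vector is an eigenvector -/
private def Sca (Y : SL2 K) : Prop := ∀ w : Fin 2 → K, om (act Y w) w = 0

private theorem sca_entries {Y : SL2 K} (h : Sca Y) :
    (Y : Matrix (Fin 2) (Fin 2) K) 1 0 = 0 ∧ (Y : Matrix (Fin 2) (Fin 2) K) 0 1 = 0 ∧
      (Y : Matrix (Fin 2) (Fin 2) K) 0 0 = (Y : Matrix (Fin 2) (Fin 2) K) 1 1 ∧
      ((Y : Matrix (Fin 2) (Fin 2) K) 0 0 = 1 ∨ (Y : Matrix (Fin 2) (Fin 2) K) 0 0 = -1) := by
  have h1 := h ![1, 0]
  have h2 := h ![0, 1]
  have h3 := h ![1, 1]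
  unfold om at h1 h2 h3
  rw [act_apply_zero, act_apply_one] at h1 h2 h3
  simp only [Matrix.cons_val_zero, Matrix.cons_val_one, mul_one, mul_zero, add_zero, zero_add,
    sub_zero, zero_sub, neg_eq_zero] at h1 h2 h3
  have h4 : (Y : Matrix (Fin 2) (Fin 2) K) 0 0 = (Y : Matrix (Fin 2) (Fin 2) K) 1 1 := by
    rw [h1, h2] at h3
    linear_combination h3
  refine ⟨h1, h2, h4, ?_⟩
  have h5 := det_eq Y
  rw [h1, h2, ← h4, mul_zero, sub_zero] at h5
  have h6 : ((Y : Matrix (Fin 2) (Fin 2) K) 0 0 - 1) * ((Y : Matrix (Fin 2) (Fin 2) K) 0 0 + 1) = 0 := by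
    linear_combination h5
  rcases mul_eq_zero.mp h6 with h7 | h7
  · exact Or.inl (by linear_combination h7)
  · exact Or.inr (by linear_combination h7)

private theorem sca_eq {Y Z : SL2 K} (hY : Sca Y) (hZ : Sca Z)
    (h : (Y : Matrix (Fin 2) (Fin 2) K) 0 0 = (Z : Matrix (Fin 2) (Fin 2) K) 0 0) : Y = Z := by
  obtain ⟨a1, a2, a3, -⟩ := sca_entries hY
  obtain ⟨b1, b2, b3, -⟩ := sca_entries hZ
  apply Subtype.ext
  ext i j
  fin_cases i <;> fin_cases j
  · exact h
  · exact a2.trans b2.symm
  · exact a1.trans b1.symm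
  · exact a3.symm.trans (h.trans b3)

open Classical in
/-- at most two scalar elements -/
private theorem sca_card (N : Finset (SL2 K)) (x : SL2 K) :
    (N.filter (fun a => Sca (x * a))).card ≤ 2 := by
  have h1 : (N.filter (fun a => Sca (x * a))).card ≤ ({1, -1} : Finset K).card := by
    apply Finset.card_le_card_of_injOn (fun a => ((x * a : SL2 K) : Matrix (Fin 2) (Fin 2) K) 0 0)
    · intro a ha
      have ha' := (Finset.mem_filter.mp (Finset.mem_coe.mp ha)).2
      obtain ⟨-, -, -, h | h⟩ := sca_entries ha'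
      · simp only [Finset.coe_insert, Finset.coe_singleton, Set.mem_insert_iff, Set.mem_singleton_iff]
        exact Or.inl h
      · simp only [Finset.coe_insert, Finset.coe_singleton, Set.mem_insert_iff, Set.mem_singleton_iff]
        exact Or.inr h
    · intro a ha b hb hab
      have ha' := (Finset.mem_filter.mp (Finset.mem_coe.mp ha)).2
      have hb' := (Finset.mem_filter.mp (Finset.mem_coe.mp hb)).2
      exact mul_left_cancel (sca_eq ha' hb' hab)
  exact h1.trans Finset.card_le_two

private theorem om_add_left (x y z : Fin 2 → K) : om (x + y) z = om x z + om y z := by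
  unfold om
  simp only [Pi.add_apply]
  ring

private theorem om_add_right (x y z : Fin 2 → K) : om x (y + z) = om x y + om x z := by
  unfold om
  simp only [Pi.add_apply]
  ring

/-- decomposition of a vector in the basis `u, v` -/
private theorem decomp {u v : Fin 2 → K} (h : om u v ≠ 0) (w : Fin 2 → K) :
    w = (om w v / om u v) • u + (om u w / om u v) • v := by
  unfold om at h ⊢
  ext i
  fin_cases i
  · simp only [Fin.zero_eta, Fin.isValue, Pi.add_apply, Pi.smul_apply, smul_eq_mul]
    rw [div_mul_eq_mul_div, div_mul_eq_mul_div, ← add_div, eq_div_iff h]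
    ring
  · simp only [Fin.mk_one, Fin.isValue, Pi.add_apply, Pi.smul_apply, smul_eq_mul]
    rw [div_mul_eq_mul_div, div_mul_eq_mul_div, ← add_div, eq_div_iff h]
    ring

/-- a non scalar element has at most two eigenlines -/
private theorem two_lines {Y : SL2 K} (h : ¬ Sca Y) :
    ∃ w₁ w₂ : Fin 2 → K, w₁ ≠ 0 ∧ w₂ ≠ 0 ∧ ∀ w : Fin 2 → K, w ≠ 0 → om (act Y w) w = 0 →
      (∃ c : K, c ≠ 0 ∧ w = c • w₁) ∨ (∃ c : K, c ≠ 0 ∧ w = c • w₂) := by
  have hone : (![1, 0] : Fin 2 → K) ≠ 0 := by
    intro h0
    have := congrFun h0 0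
    simp at this
  by_cases h1 : ∃ w₁ : Fin 2 → K, w₁ ≠ 0 ∧ om (act Y w₁) w₁ = 0
  · obtain ⟨w₁, hw₁, he₁⟩ := h1
    have hne : ∀ {w u : Fin 2 → K} {c : K}, w ≠ 0 → w = c • u → c ≠ 0 := by
      intro w u c hw he hc
      apply hw
      rw [he, hc, zero_smul]
    by_cases h2 : ∃ w₂ : Fin 2 → K, w₂ ≠ 0 ∧ om (act Y w₂) w₂ = 0 ∧ om w₁ w₂ ≠ 0
    · obtain ⟨w₂, hw₂, he₂, h12⟩ := h2
      refine ⟨w₁, w₂, hw₁, hw₂, ?_⟩
      intro w hw he
      set α : K := om w w₂ / om w₁ w₂ with hα
      set β : K := om w₁ w / om w₁ w₂ with hβ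
      have hd : w = α • w₁ + β • w₂ := decomp h12 w
      have hq : om (act Y w) w = α * β * (om (act Y w₁) w₂ + om (act Y w₂) w₁) := by
        conv_lhs => rw [hd]
        rw [act_add, act_smul, act_smul, om_add_left, om_add_right, om_add_right]
        simp only [om_smul_left, om_smul_right]
        rw [he₁, he₂]
        ring
      by_cases hb : om (act Y w₁) w₂ + om (act Y w₂) w₁ = 0
      · exfalso
        apply h
        intro v
        have hd' := decomp h12 v
        conv_lhs => rw [hd']
        rw [act_add, act_smul, act_smul, om_add_left, om_add_right, om_add_right]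
        simp only [om_smul_left, om_smul_right]
        rw [he₁, he₂]
        linear_combination (om v w₂ / om w₁ w₂) * (om w₁ v / om w₁ w₂) * hb
      · rw [he] at hq
        have h3 : α * β = 0 := by
          rcases mul_eq_zero.mp hq.symm with h4 | h4
          · exact h4
          · exact absurd h4 hb
        rcases mul_eq_zero.mp h3 with h4 | h4
        · right
          rw [h4, zero_smul, zero_add] at hd
          exact ⟨β, hne hw hd, hd⟩
        · left
          rw [h4, zero_smul, add_zero] at hd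
          exact ⟨α, hne hw hd, hd⟩
    · refine ⟨w₁, w₁, hw₁, hw₁, ?_⟩
      intro w hw he
      left
      have h3 : om w₁ w = 0 := by
        by_contra h4
        exact h2 ⟨w, hw, he, h4⟩
      have h4 : om w w₁ = 0 := by rw [om_swap, h3, neg_zero]
      obtain ⟨c, hc⟩ := exists_smul_of_om hw₁ h4
      exact ⟨c, hne hw hc, hc⟩
  · refine ⟨![1, 0], ![1, 0], hone, hone, ?_⟩
    intro w hw he
    exact absurd ⟨w, hw, he⟩ h1

end LPC

open Classical in
theorem lpC2 {K : Type*} [Field K] [IsAlgClosed K] (S : Set (SL2 K))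
    (hfin : (Subgroup.closure S : Set (SL2 K)).Finite) (e n : ℕ) (hesc : Esc S e)
    (τ : K) :
    {x ∈ Words S n | tr x = τ}.ncard ^ 3 ≤
      4 * ball S (2 * n) ^ 2 + 110592 * ball S (12 * n + 2 * e) := by
  set y := ball S (12 * n + 2 * e) with hy
  have hy1 : 1 ≤ y := one_le_ball hfin _
  have hNf : {x ∈ Words S n | tr x = τ}.Finite := (words_finite hfin n).subset (Set.sep_subset _ _)
  set N : Finset (SL2 K) := hNf.toFinset with hN
  have hNc : {x ∈ Words S n | tr x = τ}.ncard = N.card := Set.ncard_eq_toFinset_card _ hNf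
  have hmN : ∀ x, x ∈ N ↔ x ∈ Words S n ∧ tr x = τ := by
    intro x
    rw [hN, Set.Finite.mem_toFinset]
    rfl
  rw [hNc]
  -- the number m
  set m : ℕ := Nat.findGreatest (fun m => m ^ 3 ≤ 512 * y) (512 * y) with hm
  have hm3 : m ^ 3 ≤ 512 * y :=
    Nat.findGreatest_spec (P := fun m => m ^ 3 ≤ 512 * y) (Nat.zero_le _) (by simp)
  have hmle : ∀ k : ℕ, k ^ 3 ≤ 512 * y → k ≤ m := by
    intro k hk
    refine Nat.le_findGreatest (P := fun m => m ^ 3 ≤ 512 * y) ?_ hk
    rcases Nat.eq_zero_or_pos k with h0 | h0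
    · omega
    · calc k = k ^ 1 := (pow_one k).symm
        _ ≤ k ^ 3 := Nat.pow_le_pow_right h0 (by norm_num)
        _ ≤ 512 * y := hk
  have hm8 : 8 ≤ m := hmle 8 (by omega)
  -- counting of b
  have hcount : ∀ w u : Fin 2 → K, w ≠ 0 → u ≠ 0 →
      (N.filter (fun b => om (act b w) u = 0)).card ≤ m := by
    intro w u hw hu
    apply hmle
    have h := badZ2 S hfin e n hesc w u hw hu τ
    have h2 : {z ∈ Words S n | tr z = τ ∧ om (act z w) u = 0}.ncard =
        (N.filter (fun b => om (act b w) u = 0)).card := by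
      rw [← Set.ncard_coe_finset]
      congr 1
      ext z
      simp only [Set.mem_ofPred_eq, Finset.coe_filter, hmN]
      tauto
    rw [← h2]
    exact h
  -- bad triples
  set Bad : SL2 K → SL2 K → SL2 K → Prop := fun x a b =>
    ∃ w : Fin 2 → K, w ≠ 0 ∧ om (act (x * a) w) w = 0 ∧ om (act (x * b) w) w = 0 with hBad
  have hbadpair : ∀ x a : SL2 K, ¬ Sca (x * a) → (N.filter (fun b => Bad x a b)).card ≤ 2 * m := by
    intro x a hsc
    obtain ⟨w₁, w₂, hw₁, hw₂, hall⟩ := two_lines hsc
    have hkey : ∀ (b : SL2 K) (w w' : Fin 2 → K) (c : K), c ≠ 0 → w = c • w' →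
        om (act (x * b) w) w = 0 → om (act b w') (act x⁻¹ w') = 0 := by
      intro b w w' c hc hw h
      rw [hw, act_smul, om_smul_left, om_smul_right] at h
      have h2 : om (act (x * b) w') w' = 0 := by
        rcases mul_eq_zero.mp h with h3 | h3
        · exact absurd h3 hc
        · rcases mul_eq_zero.mp h3 with h4 | h4
          · exact absurd h4 hc
          · exact h4
      rw [← om_act x, act_act_inv, ← act_mul]
      exact h2
    have hsub : N.filter (fun b => Bad x a b) ⊆
        N.filter (fun b => om (act b w₁) (act x⁻¹ w₁) = 0) ∪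
        N.filter (fun b => om (act b w₂) (act x⁻¹ w₂) = 0) := by
      intro b hb
      rw [Finset.mem_filter] at hb
      obtain ⟨hbN, w, hw, h1, h2⟩ := hb
      rw [Finset.mem_union, Finset.mem_filter, Finset.mem_filter]
      rcases hall w hw h1 with ⟨c, hc, hcw⟩ | ⟨c, hc, hcw⟩
      · exact Or.inl ⟨hbN, hkey b w w₁ c hc hcw h2⟩
      · exact Or.inr ⟨hbN, hkey b w w₂ c hc hcw h2⟩
    calc (N.filter (fun b => Bad x a b)).card
        ≤ (N.filter (fun b => om (act b w₁) (act x⁻¹ w₁) = 0) ∪
          N.filter (fun b => om (act b w₂) (act x⁻¹ w₂) = 0)).card := Finset.card_le_card hsub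
      _ ≤ _ := Finset.card_union_le _ _
      _ ≤ m + m := Nat.add_le_add (hcount _ _ hw₁ (act_ne_zero _ hw₁))
          (hcount _ _ hw₂ (act_ne_zero _ hw₂))
      _ = 2 * m := by ring
  -- total of bad triples
  set T : Finset (SL2 K × SL2 K × SL2 K) := N ×ˢ N ×ˢ N with hT
  have hTc : T.card = N.card ^ 3 := by
    rw [hT, Finset.card_product, Finset.card_product]
    ring
  have hsum : (T.filter (fun t => Bad t.1 t.2.1 t.2.2)).card ≤ (2 * m + 2) * N.card ^ 2 := by
    have h1 : (T.filter (fun t => Bad t.1 t.2.1 t.2.2)).card =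
        ∑ x ∈ N, ∑ a ∈ N, (N.filter (fun b => Bad x a b)).card := by
      rw [Finset.card_filter, hT, Finset.sum_product]
      apply Finset.sum_congr rfl
      intro x _
      rw [Finset.sum_product]
      apply Finset.sum_congr rfl
      intro a _
      rw [Finset.card_filter]
    have h2 : ∀ x ∈ N, ∑ a ∈ N, (N.filter (fun b => Bad x a b)).card ≤ (2 * m + 2) * N.card := by
      intro x _
      calc ∑ a ∈ N, (N.filter (fun b => Bad x a b)).card
          ≤ ∑ a ∈ N, (2 * m + if Sca (x * a) then N.card else 0) := by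
            apply Finset.sum_le_sum
            intro a _
            by_cases h : Sca (x * a)
            · rw [if_pos h]
              exact (Finset.card_filter_le _ _).trans (Nat.le_add_left _ _)
            · rw [if_neg h, add_zero]
              exact hbadpair x a h
        _ = N.card * (2 * m) + (N.filter (fun a => Sca (x * a))).card * N.card := by
            rw [Finset.sum_add_distrib, Finset.sum_const, smul_eq_mul, ← Finset.sum_filter,
              Finset.sum_const, smul_eq_mul]
        _ ≤ N.card * (2 * m) + 2 * N.card :=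
            Nat.add_le_add_left (Nat.mul_le_mul_right _ (sca_card N x)) _
        _ = (2 * m + 2) * N.card := by ring
    rw [h1]
    calc ∑ x ∈ N, ∑ a ∈ N, (N.filter (fun b => Bad x a b)).card
        ≤ ∑ x ∈ N, (2 * m + 2) * N.card := Finset.sum_le_sum h2
      _ = (2 * m + 2) * N.card ^ 2 := by
          rw [Finset.sum_const, smul_eq_mul]
          ring
  -- the other triples
  have hWf : (Words S (2 * n)).Finite := words_finite hfin _
  set W : Finset (SL2 K) := hWf.toFinset with hW
  have hWc : W.card = ball S (2 * n) := (Set.ncard_eq_toFinset_card _ hWf).symm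
  have hgood : (T.filter (fun t => ¬ Bad t.1 t.2.1 t.2.2)).card ≤ 2 * (W ×ˢ W).card := by
    apply Finset.card_le_mul_card_image_of_maps_to
      (f := fun t : SL2 K × SL2 K × SL2 K => (t.1 * t.2.1, t.1 * t.2.2))
    · intro t ht
      rw [Finset.mem_filter, hT, Finset.mem_product, Finset.mem_product] at ht
      obtain ⟨⟨h1, h2, h3⟩, -⟩ := ht
      have g1 := ((hmN _).mp h1).1
      have g2 := ((hmN _).mp h2).1
      have g3 := ((hmN _).mp h3).1
      rw [Finset.mem_product, hW, Set.Finite.mem_toFinset, Set.Finite.mem_toFinset, two_mul]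
      exact ⟨mul_mem_words g1 g2, mul_mem_words g1 g3⟩
    · rintro ⟨Y, Z⟩ _
      by_cases hYZ : ∀ w : Fin 2 → K, w ≠ 0 → ¬ (om (act Y w) w = 0 ∧ om (act Z w) w = 0)
      · obtain ⟨hf, hc⟩ := good Y Z hYZ τ
        refine le_trans ?_ hc
        rw [Set.ncard_eq_toFinset_card _ hf]
        apply Finset.card_le_card_of_injOn (fun t => t.1)
        · intro t ht
          have ht' := Finset.mem_coe.mp ht
          rw [Finset.mem_filter, Finset.mem_filter, hT, Finset.mem_product, Finset.mem_product] at ht'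
          obtain ⟨⟨⟨h1, h2, h3⟩, -⟩, h4⟩ := ht'
          rw [Prod.mk.injEq] at h4
          rw [Finset.mem_coe, Set.Finite.mem_toFinset]
          refine ⟨((hmN _).mp h1).2, ?_, ?_⟩
          · rw [← h4.1, inv_mul_cancel_left]
            exact ((hmN _).mp h2).2
          · rw [← h4.2, inv_mul_cancel_left]
            exact ((hmN _).mp h3).2
        · intro t ht t' ht' htt
          have g := (Finset.mem_filter.mp (Finset.mem_coe.mp ht)).2
          have g' := (Finset.mem_filter.mp (Finset.mem_coe.mp ht')).2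
          rw [Prod.mk.injEq] at g g'
          dsimp only at htt
          have e1 : t.2.1 = t'.2.1 := by
            have : t.1 * t.2.1 = t.1 * t'.2.1 := by
              rw [g.1, htt, g'.1]
            exact mul_left_cancel this
          have e2 : t.2.2 = t'.2.2 := by
            have : t.1 * t.2.2 = t.1 * t'.2.2 := by
              rw [g.2, htt, g'.2]
            exact mul_left_cancel this
          exact Prod.ext htt (Prod.ext e1 e2)
      · have hempty : ((T.filter (fun t => ¬ Bad t.1 t.2.1 t.2.2)).filter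
            (fun t : SL2 K × SL2 K × SL2 K => (t.1 * t.2.1, t.1 * t.2.2) = (Y, Z))) = ∅ := by
          rw [Finset.filter_eq_empty_iff]
          intro t ht h4
          rw [Prod.mk.injEq] at h4
          have ht' := (Finset.mem_filter.mp ht).2
          apply hYZ
          intro w hw h5
          apply ht'
          refine ⟨w, hw, ?_, ?_⟩
          · rw [h4.1]; exact h5.1
          · rw [h4.2]; exact h5.2
        rw [hempty, Finset.card_empty]
        exact Nat.zero_le _
  set z := ball S (2 * n) with hz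
  have htot : N.card ^ 3 ≤ 2 * z ^ 2 + 3 * m * N.card ^ 2 := by
    rw [← hTc, ← Finset.card_filter_add_card_filter_not (s := T) (fun t => Bad t.1 t.2.1 t.2.2)]
    rw [Finset.card_product, hWc, ← sq] at hgood
    have h2 : (2 * m + 2) * N.card ^ 2 ≤ 3 * m * N.card ^ 2 :=
      Nat.mul_le_mul_right _ (by omega)
    omega
  rcases le_or_gt (6 * m) N.card with hc | hc
  · have h1 : 6 * m * N.card ^ 2 ≤ N.card ^ 3 := by
      calc 6 * m * N.card ^ 2 ≤ N.card * N.card ^ 2 := Nat.mul_le_mul_right _ hc
        _ = N.card ^ 3 := by ring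
    have h2 : 6 * m * N.card ^ 2 = 2 * (3 * m * N.card ^ 2) := by ring
    omega
  · calc N.card ^ 3 ≤ (6 * m) ^ 3 := Nat.pow_le_pow_left hc.le 3
      _ = 216 * m ^ 3 := by ring
      _ ≤ 216 * (512 * y) := Nat.mul_le_mul_left _ hm3
      _ = 110592 * y := by ring
      _ ≤ 4 * z ^ 2 + 110592 * y := Nat.le_add_left _ _

end Pool.Agent.Helper72.PT
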