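import Pool.Agent.Helper72.PT.Growth
import Pool.Agent.Helper72.PT.LPC2
import Pool.Agent.Helper72.PT.PivB2

/-! # PT-Growth2

Sharper form of `growth`. Plan: the proof in `Pool/Agent/Helper72/PT/Growth.lean` (landed) with `lpC2, pivB2` (may be still
sorried). `P = ball S (8 n)² + ball S (48 n + 2 e)`; for an involved pair `f n ≤ T c` with
`c³ ≤ 4 f (8 n)² + 110592 f (48 n + 2 e) ≤ 110592 P` (`lpC2` for `4 n`).
(1) if some translate is not involved: `f n T ≤ 2 f (3 n + 2)`, so `f n ^ 2 ≤ 2 f (3n+2) c`, `f n ^ 6 ≤ 8 f (3n+2)³ c³`: first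
alternative. (2) all translates involved, `m₀ ≤ 4`: `f n ≤ 4 c`, `f n ^ 3 ≤ 64 c³`, `f n ^ 6 ≤ f (3n+2)³ * 64 c³`: first alternative.
`m₀ ≥ 4`: `N m₀ ≤ 4 T_H f (2 n)`, `N f n ≤ 4 T_H f (2 n) c`, cube with `T_H³ ≤ 512 N`:
`N² f n ³ ≤ 64 * 512 * f (2 n)³ c³`: second alternative.
-/

namespace Pool.Agent.Helper72.PT

open Matrix Module Pool.Agent.Helper72.TV

private def GInv {K : Type*} [Field K] (S : Set (SL2 K)) (n : ℕ) (u u' : Fin 2 → K) : Prop :=
  ∃ g ∈ Words S (2 * n), tr g ^ 2 ≠ 4 ∧ om (act g u) u = 0 ∧ om (act g u') u' = 0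

private theorem growth_step {K : Type*} [Field K] (S : Set (SL2 K)) (n : ℕ) (w w' : Fin 2 → K)
    (hw : GInv S n w w') :
    ∀ l : List (SL2 K), (∀ x ∈ l, x ∈ S ∨ x⁻¹ ∈ S) →
      ¬ GInv S n (act l.prod w) (act l.prod w') →
      ∃ h s : SL2 K, s ∈ Words S 1 ∧ GInv S n (act h w) (act h w') ∧
        ¬ GInv S n (act s (act h w)) (act s (act h w')) := by
  intro l
  induction l with
  | nil =>
    intro _ h
    rw [List.prod_nil, act_one, act_one] at h
    exact absurd hw h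
  | cons a l ih =>
    intro hl h
    by_cases h1 : GInv S n (act l.prod w) (act l.prod w')
    · refine ⟨l.prod, a, ?_, h1, ?_⟩
      · refine ⟨[a], by simp, ?_, by simp⟩
        intro x hx
        rw [List.mem_singleton] at hx
        rw [hx]
        exact hl a (by simp)
      · rw [List.prod_cons, act_mul, act_mul] at h
        exact h
    · exact ih (fun x hx => hl x (by simp [hx])) h1

private theorem growth_arith1 (F T c G P : ℕ) (h1 : F ≤ T * c) (h2 : F * T ≤ 2 * G)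
    (h3 : c ^ 3 ≤ 110592 * P) : F ^ 6 ≤ (64 * 512 * 110592) * G ^ 3 * P := by
  have h4 : F ^ 2 ≤ 2 * G * c := by
    calc F ^ 2 = F * F := by ring
      _ ≤ F * (T * c) := Nat.mul_le_mul_left _ h1
      _ = F * T * c := by ring
      _ ≤ 2 * G * c := Nat.mul_le_mul_right _ h2
  calc F ^ 6 = (F ^ 2) ^ 3 := by ring
    _ ≤ (2 * G * c) ^ 3 := Nat.pow_le_pow_left h4 3
    _ = 8 * G ^ 3 * c ^ 3 := by ring
    _ ≤ 8 * G ^ 3 * (110592 * P) := Nat.mul_le_mul_left _ h3
    _ = 884736 * (G ^ 3 * P) := by ring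
    _ ≤ (64 * 512 * 110592) * (G ^ 3 * P) := Nat.mul_le_mul_right _ (by norm_num)
    _ = (64 * 512 * 110592) * G ^ 3 * P := by ring

private theorem growth_arith2 (F m c G P : ℕ) (h1 : F ≤ m * c) (hm : m ≤ 4) (hG : F ≤ G)
    (h3 : c ^ 3 ≤ 110592 * P) : F ^ 6 ≤ (64 * 512 * 110592) * G ^ 3 * P := by
  have h4 : F ^ 3 ≤ 64 * c ^ 3 := by
    calc F ^ 3 ≤ (4 * c) ^ 3 := Nat.pow_le_pow_left (h1.trans (Nat.mul_le_mul_right _ hm)) 3
      _ = 64 * c ^ 3 := by ring
  calc F ^ 6 = F ^ 3 * F ^ 3 := by ring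
    _ ≤ G ^ 3 * (64 * c ^ 3) := Nat.mul_le_mul (Nat.pow_le_pow_left hG 3) h4
    _ ≤ G ^ 3 * (64 * (110592 * P)) :=
      Nat.mul_le_mul_left _ (Nat.mul_le_mul_left _ h3)
    _ = 7077888 * (G ^ 3 * P) := by ring
    _ ≤ (64 * 512 * 110592) * (G ^ 3 * P) := Nat.mul_le_mul_right _ (by norm_num)
    _ = (64 * 512 * 110592) * G ^ 3 * P := by ring

private theorem growth_arith3 (F m c B P N T : ℕ) (h1 : F ≤ m * c) (hm : 4 ≤ m) (hN : 1 ≤ N)
    (h2 : N * (m - 2) ≤ 2 * T * B) (hT : T ^ 3 ≤ 512 * N) (h3 : c ^ 3 ≤ 110592 * P) :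
    N ^ 2 * F ^ 3 ≤ (64 * 512 * 110592) * B ^ 3 * P := by
  have h4 : N * m ≤ 4 * T * B := by
    have h0 : m ≤ 2 * (m - 2) := by omega
    calc N * m ≤ N * (2 * (m - 2)) := Nat.mul_le_mul_left _ h0
      _ = 2 * (N * (m - 2)) := by ring
      _ ≤ 2 * (2 * T * B) := Nat.mul_le_mul_left _ h2
      _ = 4 * T * B := by ring
  have h5 : N * F ≤ 4 * T * B * c := by
    calc N * F ≤ N * (m * c) := Nat.mul_le_mul_left _ h1
      _ = N * m * c := by ring
      _ ≤ 4 * T * B * c := Nat.mul_le_mul_right _ h4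
  have h6 : N * (N ^ 2 * F ^ 3) ≤ N * ((64 * 512 * 110592) * B ^ 3 * P) := by
    calc N * (N ^ 2 * F ^ 3) = (N * F) ^ 3 := by ring
      _ ≤ (4 * T * B * c) ^ 3 := Nat.pow_le_pow_left h5 3
      _ = 64 * B ^ 3 * (T ^ 3 * c ^ 3) := by ring
      _ ≤ 64 * B ^ 3 * ((512 * N) * (110592 * P)) :=
        Nat.mul_le_mul_left _ (Nat.mul_le_mul hT h3)
      _ = N * ((64 * 512 * 110592) * B ^ 3 * P) := by ring
  exact Nat.le_of_mul_le_mul_left h6 hN

theorem growth2 {K : Type*} [Field K] [IsAlgClosed K] (S : Set (SL2 K))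
    (hfin : (Subgroup.closure S : Set (SL2 K)).Finite) (e n : ℕ) (hesc : Esc S e)
    (hn : 1 ≤ n) (hreg : ∃ g ∈ Words S (2 * n), tr g ^ 2 ≠ 4) :
    ball S n ^ 6 ≤ (64 * 512 * 110592) * ball S (3 * n + 2) ^ 3 *
        (ball S (8 * n) ^ 2 + ball S (48 * n + 2 * e)) ∨
    Nat.card (Subgroup.closure S) ^ 2 * ball S n ^ 3 ≤ (64 * 512 * 110592) *
        ball S (2 * n) ^ 3 * (ball S (8 * n) ^ 2 + ball S (48 * n + 2 * e)) := by
  have keyA : ∀ u u' : Fin 2 → K, om u u' ≠ 0 → GInv S n u u' →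
      ∃ c : ℕ, c ^ 3 ≤ 110592 * (ball S (8 * n) ^ 2 + ball S (48 * n + 2 * e)) ∧
        ball S n ≤
          {g ∈ Words S (2 * n) | om (act g u) u = 0 ∧ om (act g u') u' = 0}.ncard * c := by
    rintro u u' hu ⟨g, hg, hg4, h1, h2⟩
    refine ⟨{x ∈ Words S (4 * n) | tr x = tr g}.ncard, ?_, pivA S hfin n u u' hu g hg hg4 h1 h2⟩
    have h := lpC2 S hfin e (4 * n) hesc (tr g)
    rw [show 2 * (4 * n) = 8 * n by ring, show 12 * (4 * n) = 48 * n by ring] at h
    refine h.trans ?_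
    rw [mul_add]
    exact Nat.add_le_add_right (Nat.mul_le_mul_right _ (by norm_num)) _
  obtain ⟨g, hg, hg4⟩ := hreg
  obtain ⟨w, w', hw, hgw, hgw', -⟩ := cent g hg4
  have hinv : GInv S n w w' := ⟨g, hg, hg4, hgw, hgw'⟩
  by_cases hall : ∀ h ∈ Subgroup.closure S, GInv S n (act h w) (act h w')
  · obtain ⟨h₀, hh₀, hmin⟩ := Set.exists_min_image (Subgroup.closure S : Set (SL2 K))
      (fun h => {g ∈ Words S (2 * n) | om (act g (act h w)) (act h w) = 0 ∧
        om (act g (act h w')) (act h w') = 0}.ncard) hfin ⟨1, one_mem _⟩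
    obtain ⟨c, hc3, hc⟩ := keyA (act h₀ w) (act h₀ w') (by rw [om_act]; exact hw) (hall h₀ hh₀)
    by_cases hm : {g ∈ Words S (2 * n) | om (act g (act h₀ w)) (act h₀ w) = 0 ∧
        om (act g (act h₀ w')) (act h₀ w') = 0}.ncard ≤ 4
    · exact Or.inl (growth_arith2 _ _ c _ _ hc hm (ball_mono hfin (by omega)) hc3)
    · refine Or.inr (growth_arith3 _ _ c _ _ _
        {g : SL2 K | g ∈ Subgroup.closure S ∧ om (act g w) w = 0 ∧ om (act g w') w' = 0}.ncard
        hc (by omega) ((one_le_ball hfin n).trans (ball_le_card hfin n)) ?_ ?_ hc3)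
      · exact pivC S hfin n w w' hw _ hmin
      · have hcl : Subgroup.closure (Subgroup.closure S : Set (SL2 K)) = Subgroup.closure S :=
          Subgroup.closure_eq _
        have hfin' : (Subgroup.closure (Subgroup.closure S : Set (SL2 K)) :
            Set (SL2 K)).Finite := by
          rw [hcl]
          exact hfin
        have hesc' : Esc (Subgroup.closure S : Set (SL2 K)) 1 := by
          intro v v' hv hv'
          obtain ⟨g, hg, h⟩ := hesc v v' hv hv'
          refine ⟨g, ?_, h⟩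
          rw [words_subgroup _ le_rfl]
          exact words_subset_closure _ hg
        have h := lpT (Subgroup.closure S : Set (SL2 K)) hfin' 1 1 hesc' le_rfl w w' hw
        rw [words_subgroup _ le_rfl, ball_subgroup _ (by norm_num)] at h
        exact h
  · have hall' : ∃ h ∈ Subgroup.closure S, ¬ GInv S n (act h w) (act h w') := by
      by_contra hcon
      apply hall
      intro h hh
      by_contra hh2
      exact hcon ⟨h, hh, hh2⟩
    obtain ⟨h, hh, hnot⟩ := hall'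
    obtain ⟨L, l, -, hl1, hl2⟩ := exists_words_of_mem_closure hh
    rw [← hl2] at hnot
    obtain ⟨h', s, hs, hi, hni⟩ := growth_step S n w w' hinv l hl1 hnot
    have hom : om (act h' w) (act h' w') ≠ 0 := by
      rw [om_act]
      exact hw
    obtain ⟨c, hc3, hc⟩ := keyA _ _ hom hi
    have h5 := pivB2 S hfin n (act h' w) (act h' w') hom s hs (by
      intro g hg h1 h2
      by_contra hg4
      exact hni ⟨g, hg, hg4, h1, h2⟩)
    exact Or.inl (growth_arith1 _ _ c _ _ hc h5 hc3)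

end Pool.Agent.Helper72.PT
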