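import Pool.Agent.Helper72.PT.Defs

/-! # PT-LPT

Larsen-Pink inequality for tori.

Plan. `X = {g ∈ Words S n | om (act g w) w = 0 ∧ om (act g w') w' = 0}` (finite); `w, w'` is a basis of `K²`, and
`t ∈ X` acts by `act t w = s • w`, `act t w' = s⁻¹ • w'` (`om_act`), `s = s(t) ≠ 0`, and `t` is determined by `s(t)`.
Choose `g₀ ∈ Words S e` from `hesc w w'`; in the basis `w, w'` all four entries `a, b, c, d` of `g₀` are nonzero
(`act g₀ w = a w + c w'`, `act g₀ w' = b w + d w'`), `a d - b c = 1`.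
Map `(t₁, t₂, t₃) ↦ t₁ g₀ t₂ g₀ t₃ ∈ Words S (3 n + 2 e) ⊆ Words S (5 n)`. `M = g₀ t₂ g₀` has the entries
(with `s = s(t₂)`): `m₁₁ = s a² + s⁻¹ b c`, `m₁₂ = b (s a + s⁻¹ d)`, `m₂₁ = c (s a + s⁻¹ d)`, `m₂₂ = s b c + s⁻¹ d²`, and
`t₁ M t₃` has the entries `s₁ s₃ m₁₁, s₁ s₃⁻¹ m₁₂, s₁⁻¹ s₃ m₂₁, s₁⁻¹ s₃⁻¹ m₂₂`.
* The product of the diagonal entries `m₁₁ m₂₂ = s² a² b c + (a² d² + b² c²) + s⁻² b c d²` is an invariant
  of `t₁ M t₃`; for a given value, `s²` satisfies a quadratic equation with leading coefficient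
  `a² b c ≠ 0`, so there are at most 4 values of `s`.
* If `m₁₂ ≠ 0` and (`m₁₁ ≠ 0` or `m₂₂ ≠ 0`) then for a given `M` and given product `t₁ M t₃`, `s₁/s₃` is known
  and `s₁ s₃` is known, so `s₁²` is known: at most 2 pairs `(s₁, s₃)`.
* `m₁₂ = 0` means `s² = -d/a`: at most 2 values of `s`; `m₁₁ = 0` means `s² = -bc/a²`: at most 2 values.
So with `T = |X|`: `T² (T - 4) ≤ 8 * ball S (5 n)`. If `T ≥ 8` then `T³ ≤ 16 ball S (5n)`; if `T < 8` then
`T³ < 512 ≤ 512 * ball S (5 n)`.
-/

namespace Pool.Agent.Helper72.PT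

open Matrix Module Pool.Agent.Helper72.TV

section

variable {K : Type*} [Field K]

private theorem card_two {A B : K} (hA : A ≠ 0) (R : Finset K) (h : ∀ x ∈ R, A * x ^ 2 + B = 0) :
    R.card ≤ 2 := by
  have h0 : (Polynomial.C A * Polynomial.X ^ 2 + Polynomial.C B : Polynomial K) ≠ 0 := by
    intro h1
    have h2 := congrArg (fun p => Polynomial.coeff p 2) h1
    simp at h2
    exact hA h2
  have h1 : R.card ≤ (Polynomial.C A * Polynomial.X ^ 2 + Polynomial.C B : Polynomial K).natDegree := by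
    apply Polynomial.card_le_degree_of_subset_roots
    intro x hx
    rw [Polynomial.mem_roots h0, Polynomial.IsRoot.def]
    simpa using h x hx
  refine h1.trans ?_
  compute_degree

private theorem card_four {A B C : K} (hA : A ≠ 0) (R : Finset K)
    (h : ∀ x ∈ R, A * x ^ 4 + B * x ^ 2 + C = 0) : R.card ≤ 4 := by
  have h0 : (Polynomial.C A * Polynomial.X ^ 4 + Polynomial.C B * Polynomial.X ^ 2 +
      Polynomial.C C : Polynomial K) ≠ 0 := by
    intro h1
    have h2 := congrArg (fun p => Polynomial.coeff p 4) h1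
    simp [Polynomial.coeff_X_pow] at h2
    exact hA h2
  have h1 : R.card ≤ (Polynomial.C A * Polynomial.X ^ 4 + Polynomial.C B * Polynomial.X ^ 2 +
      Polynomial.C C : Polynomial K).natDegree := by
    apply Polynomial.card_le_degree_of_subset_roots
    intro x hx
    rw [Polynomial.mem_roots h0, Polynomial.IsRoot.def]
    simpa using h x hx
  refine h1.trans ?_
  compute_degree

private theorem decomp {w w' : Fin 2 → K} (hw : om w w' ≠ 0) (u : Fin 2 → K) :
    u = (om u w' / om w w') • w + (om w u / om w w') • w' := by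
  have h : ∀ i, om w w' * u i = om u w' * w i + om w u * w' i := by
    intro i
    unfold om
    fin_cases i <;> simp <;> ring
  ext i
  rw [Pi.add_apply, Pi.smul_apply, Pi.smul_apply, smul_eq_mul, smul_eq_mul]
  field_simp
  rw [mul_comm]
  exact h i

private theorem ext_act {w w' : Fin 2 → K} (hw : om w w' ≠ 0) {t t' : SL2 K}
    (h : act t w = act t' w) (h' : act t w' = act t' w') : t = t' := by
  have h0 : ∀ u, act t u = act t' u := by
    intro u
    rw [decomp hw u, act_add, act_add, act_smul, act_smul, act_smul, act_smul, h, h']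
  apply Matrix.SpecialLinearGroup.ext
  intro i j
  have h1 := congrFun (h0 (Pi.single j 1)) i
  unfold act at h1
  rw [Matrix.mulVec_single_one, Matrix.mulVec_single_one] at h1
  exact h1

private theorem key_act {w w' : Fin 2 → K} {a b c d s1 r1 s2 r2 s3 r3 : K} {g t1 t2 t3 : SL2 K}
    (hg : act g w = a • w + c • w') (hg' : act g w' = b • w + d • w')
    (h1 : act t1 w = s1 • w) (h1' : act t1 w' = r1 • w')
    (h2 : act t2 w = s2 • w) (h2' : act t2 w' = r2 • w')
    (h3 : act t3 w = s3 • w) (h3' : act t3 w' = r3 • w') :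
    act (t1 * g * t2 * g * t3) w = (s1 * s3 * (a ^ 2 * s2 + b * c * r2)) • w +
        (r1 * s3 * (c * (a * s2 + d * r2))) • w' ∧
      act (t1 * g * t2 * g * t3) w' = (s1 * r3 * (b * (a * s2 + d * r2))) • w +
        (r1 * r3 * (b * c * s2 + d ^ 2 * r2)) • w' := by
  constructor
  · simp only [act_mul, act_smul, act_add, h1, h1', h2, h2', h3, h3', hg, hg']
    module
  · simp only [act_mul, act_smul, act_add, h1, h1', h2, h2', h3, h3', hg, hg']
    module

end

theorem lpT {K : Type*} [Field K] (S : Set (SL2 K))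
    (hfin : (Subgroup.closure S : Set (SL2 K)).Finite) (e n : ℕ) (hesc : Esc S e) (hen : e ≤ n)
    (w w' : Fin 2 → K) (hw : om w w' ≠ 0) :
    {g ∈ Words S n | om (act g w) w = 0 ∧ om (act g w') w' = 0}.ncard ^ 3 ≤
      512 * ball S (5 * n) := by
  classical
  have hw0 : w ≠ 0 := by
    rintro rfl
    exact hw (by simp [om])
  have hw0' : w' ≠ 0 := by
    rintro rfl
    exact hw (by simp [om])
  obtain ⟨g, hgW, hg1, hg2, hg3, hg4⟩ := hesc w w' hw0 hw0'
  obtain ⟨a, ha⟩ : ∃ a, a = om (act g w) w' / om w w' := ⟨_, rfl⟩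
  obtain ⟨c, hc⟩ : ∃ c, c = om w (act g w) / om w w' := ⟨_, rfl⟩
  obtain ⟨b, hb⟩ : ∃ b, b = om (act g w') w' / om w w' := ⟨_, rfl⟩
  obtain ⟨d, hd⟩ : ∃ d, d = om w (act g w') / om w w' := ⟨_, rfl⟩
  have hg : act g w = a • w + c • w' := by
    rw [ha, hc]
    exact decomp hw _
  have hg' : act g w' = b • w + d • w' := by
    rw [hb, hd]
    exact decomp hw _
  have ha0 : a ≠ 0 := by
    rw [ha]
    exact div_ne_zero hg2 hw
  have hb0 : b ≠ 0 := by
    rw [hb]
    exact div_ne_zero hg4 hw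
  have hc0 : c ≠ 0 := by
    rw [hc, om_swap]
    exact div_ne_zero (neg_ne_zero.2 hg1) hw
  have hd0 : d ≠ 0 := by
    rw [hd, om_swap]
    exact div_ne_zero (neg_ne_zero.2 hg3) hw
  clear ha hb hc hd
  -- the finite sets
  have hXf : {g ∈ Words S n | om (act g w) w = 0 ∧ om (act g w') w' = 0}.Finite :=
    (words_finite hfin n).subset (fun _ h => h.1)
  obtain ⟨X, hX⟩ : ∃ X : Finset (SL2 K), ∀ t, t ∈ X ↔
      t ∈ Words S n ∧ om (act t w) w = 0 ∧ om (act t w') w' = 0 :=
    ⟨hXf.toFinset, fun t => by rw [Set.Finite.mem_toFinset]; rfl⟩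
  have hXc : {g ∈ Words S n | om (act g w) w = 0 ∧ om (act g w') w' = 0}.ncard = X.card := by
    rw [← Set.ncard_coe_finset]
    congr 1
    ext t
    rw [Finset.mem_coe, hX]
    rfl
  obtain ⟨Y, hY⟩ : ∃ Y : Finset (SL2 K), ∀ t, t ∈ Y ↔ t ∈ Words S (5 * n) :=
    ⟨(words_finite hfin (5 * n)).toFinset, fun t => by rw [Set.Finite.mem_toFinset]⟩
  have hYc : ball S (5 * n) = Y.card := by
    unfold ball
    rw [← Set.ncard_coe_finset]
    congr 1
    ext t
    rw [Finset.mem_coe, hY]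
  rw [hXc, hYc]
  -- the parameter of an element of `X`
  have hpar : ∀ t ∈ X, ∃ s : K, s ≠ 0 ∧ act t w = s • w ∧ act t w' = s⁻¹ • w' := by
    intro t ht
    obtain ⟨-, h1, h2⟩ := (hX t).1 ht
    obtain ⟨s, hs⟩ := exists_smul_of_om hw0 h1
    obtain ⟨r, hr⟩ := exists_smul_of_om hw0' h2
    have h3 := om_act t w w'
    rw [hs, hr, om_smul_left, om_smul_right] at h3
    have h4 : s * r = 1 := by
      apply mul_right_cancel₀ hw
      rw [one_mul]
      linear_combination h3
    refine ⟨s, left_ne_zero_of_mul_eq_one h4, hs, ?_⟩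
    rw [hr, eq_inv_of_mul_eq_one_right h4]
  obtain ⟨s, hs⟩ : ∃ s : SL2 K → K, ∀ t ∈ X, s t ≠ 0 ∧ act t w = s t • w ∧
      act t w' = (s t)⁻¹ • w' := by
    choose f hf using hpar
    refine ⟨fun t => if ht : t ∈ X then f t ht else 0, fun t ht => ?_⟩
    beta_reduce
    rw [dif_pos ht]
    exact hf t ht
  have hinj : ∀ t ∈ X, ∀ t' ∈ X, s t = s t' → t = t' := by
    intro t ht t' ht' h
    refine ext_act hw ?_ ?_
    · rw [(hs t ht).2.1, (hs t' ht').2.1, h]
    · rw [(hs t ht).2.2, (hs t' ht').2.2, h]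
  -- the good elements
  obtain ⟨G, hG⟩ : ∃ G : Finset (SL2 K), G = X.filter (fun t => a * s t ^ 2 + d ≠ 0 ∧
      a ^ 2 * s t ^ 2 + b * c ≠ 0) := ⟨_, rfl⟩
  have hGm : ∀ t, t ∈ G ↔ t ∈ X ∧ a * s t ^ 2 + d ≠ 0 ∧ a ^ 2 * s t ^ 2 + b * c ≠ 0 := by
    intro t
    rw [hG, Finset.mem_filter]
  have hbad : X.card ≤ G.card + 4 := by
    have h1 : X ⊆ G ∪ (X.filter (fun t => a * s t ^ 2 + d = 0) ∪
        X.filter (fun t => a ^ 2 * s t ^ 2 + b * c = 0)) := by
      intro t ht
      by_cases h2 : a * s t ^ 2 + d = 0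
      · exact Finset.mem_union_right _ (Finset.mem_union_left _ (Finset.mem_filter.2 ⟨ht, h2⟩))
      · by_cases h3 : a ^ 2 * s t ^ 2 + b * c = 0
        · exact Finset.mem_union_right _ (Finset.mem_union_right _ (Finset.mem_filter.2 ⟨ht, h3⟩))
        · exact Finset.mem_union_left _ ((hGm t).2 ⟨ht, h2, h3⟩)
    have h2 := Finset.card_le_card h1
    have h3 := Finset.card_union_le G (X.filter (fun t => a * s t ^ 2 + d = 0) ∪
        X.filter (fun t => a ^ 2 * s t ^ 2 + b * c = 0))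
    have h4 := Finset.card_union_le (X.filter (fun t => a * s t ^ 2 + d = 0))
        (X.filter (fun t => a ^ 2 * s t ^ 2 + b * c = 0))
    have h5 : (X.filter (fun t => a * s t ^ 2 + d = 0)).card ≤ 2 := by
      rw [← Finset.card_image_of_injOn (f := s) (fun t ht t' ht' h =>
        hinj t (Finset.mem_filter.1 ht).1 t' (Finset.mem_filter.1 ht').1 h)]
      refine card_two (B := d) ha0 _ fun x hx => ?_
      obtain ⟨t, ht, rfl⟩ := Finset.mem_image.1 hx
      exact (Finset.mem_filter.1 ht).2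
    have h6 : (X.filter (fun t => a ^ 2 * s t ^ 2 + b * c = 0)).card ≤ 2 := by
      rw [← Finset.card_image_of_injOn (f := s) (fun t ht t' ht' h =>
        hinj t (Finset.mem_filter.1 ht).1 t' (Finset.mem_filter.1 ht').1 h)]
      refine card_two (B := b * c) (pow_ne_zero 2 ha0) _ fun x hx => ?_
      obtain ⟨t, ht, rfl⟩ := Finset.mem_image.1 hx
      exact (Finset.mem_filter.1 ht).2
    omega
  -- the fibres
  have hmain : (X ×ˢ (G ×ˢ X)).card ≤ 8 * Y.card := by
    refine Finset.card_le_mul_card_image_of_maps_to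
      (f := fun p : SL2 K × SL2 K × SL2 K => p.1 * g * p.2.1 * g * p.2.2) ?_ 8 ?_
    · rintro ⟨t1, t2, t3⟩ hp
      rw [Finset.mem_product, Finset.mem_product] at hp
      have h1 := ((hX _).1 hp.1).1
      have h2 := ((hX _).1 ((hGm _).1 hp.2.1).1).1
      have h3 := ((hX _).1 hp.2.2).1
      rw [hY]
      refine words_mono ?_ (mul_mem_words (mul_mem_words (mul_mem_words
        (mul_mem_words h1 hgW) h2) hgW) h3)
      omega
    · intro y _
      obtain ⟨Fy, hFy⟩ : ∃ Fy : Finset (SL2 K × SL2 K × SL2 K), Fy = (X ×ˢ (G ×ˢ X)).filter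
        (fun p : SL2 K × SL2 K × SL2 K => p.1 * g * p.2.1 * g * p.2.2 = y) := ⟨_, rfl⟩
      change ((X ×ˢ (G ×ˢ X)).filter
        (fun p : SL2 K × SL2 K × SL2 K => p.1 * g * p.2.1 * g * p.2.2 = y)).card ≤ 8
      rw [← hFy]
      obtain ⟨y1, hy1⟩ : ∃ y1, y1 = om (act y w) w' / om w w' := ⟨_, rfl⟩
      obtain ⟨y2, hy2⟩ : ∃ y2, y2 = om (act y w') w' / om w w' := ⟨_, rfl⟩
      obtain ⟨y4, hy4⟩ : ∃ y4, y4 = om w (act y w') / om w w' := ⟨_, rfl⟩
      have hF : ∀ p ∈ Fy, p.1 ∈ X ∧ p.2.1 ∈ X ∧ p.2.2 ∈ X ∧ a * s p.2.1 ^ 2 + d ≠ 0 ∧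
          a ^ 2 * s p.2.1 ^ 2 + b * c ≠ 0 ∧
          y1 = s p.1 * s p.2.2 * (a ^ 2 * s p.2.1 + b * c * (s p.2.1)⁻¹) ∧
          y2 = s p.1 * (s p.2.2)⁻¹ * (b * (a * s p.2.1 + d * (s p.2.1)⁻¹)) ∧
          y4 = (s p.1)⁻¹ * (s p.2.2)⁻¹ * (b * c * s p.2.1 + d ^ 2 * (s p.2.1)⁻¹) := by
        rintro ⟨t1, t2, t3⟩ hp
        rw [hFy, Finset.mem_filter, Finset.mem_product, Finset.mem_product] at hp
        obtain ⟨⟨h1, h2, h3⟩, h4⟩ := hp
        simp only at h1 h2 h3 h4 ⊢
        obtain ⟨h2a, h2b, h2c⟩ := (hGm _).1 h2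
        obtain ⟨k1, k2⟩ := key_act hg hg' (hs t1 h1).2.1 (hs t1 h1).2.2 (hs t2 h2a).2.1
          (hs t2 h2a).2.2 (hs t3 h3).2.1 (hs t3 h3).2.2
        rw [h4] at k1 k2
        refine ⟨h1, h2a, h3, h2b, h2c, ?_, ?_, ?_⟩
        · rw [hy1, k1, div_eq_iff hw]
          unfold om
          simp only [Pi.add_apply, Pi.smul_apply, smul_eq_mul]
          ring
        · rw [hy2, k2, div_eq_iff hw]
          unfold om
          simp only [Pi.add_apply, Pi.smul_apply, smul_eq_mul]
          ring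
        · rw [hy4, k2, div_eq_iff hw]
          unfold om
          simp only [Pi.add_apply, Pi.smul_apply, smul_eq_mul]
          ring
      have hA : Fy.card ≤ 2 * (Fy.image (fun p => s p.2.1)).card := by
        refine Finset.card_le_mul_card_image _ 2 fun σ _ => ?_
        rcases (Fy.filter (fun p => s p.2.1 = σ)).eq_empty_or_nonempty with h0 | ⟨p0, hp0⟩
        · rw [h0, Finset.card_empty]
          exact Nat.zero_le _
        · rw [Finset.mem_filter] at hp0
          obtain ⟨hp0, hσ⟩ := hp0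
          have hσ0 : σ ≠ 0 := by
            rw [← hσ]
            exact (hs _ (hF p0 hp0).2.1).1
          have hm1 : a ^ 2 * σ + b * c * σ⁻¹ ≠ 0 := by
            have := (hF p0 hp0).2.2.2.2.1
            rw [hσ] at this
            intro h1
            apply this
            have h2 : a ^ 2 * σ ^ 2 + b * c = (a ^ 2 * σ + b * c * σ⁻¹) * σ := by
              field_simp
            rw [h2, h1, zero_mul]
          have hm2 : a * σ + d * σ⁻¹ ≠ 0 := by
            have := (hF p0 hp0).2.2.2.1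
            rw [hσ] at this
            intro h1
            apply this
            have h2 : a * σ ^ 2 + d = (a * σ + d * σ⁻¹) * σ := by
              field_simp
            rw [h2, h1, zero_mul]
          rw [← Finset.card_image_of_injOn (f := fun p : SL2 K × SL2 K × SL2 K => s p.1)]
          · refine card_two (A := (a ^ 2 * σ + b * c * σ⁻¹) * (b * (a * σ + d * σ⁻¹)))
              (B := -(y1 * y2)) (mul_ne_zero hm1 (mul_ne_zero hb0 hm2)) _ fun x hx => ?_
            obtain ⟨p, hp, rfl⟩ := Finset.mem_image.1 hx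
            rw [Finset.mem_filter] at hp
            obtain ⟨q1, q2, q3, q4, q5, q6, q7, q8⟩ := hF p hp.1
            rw [hp.2] at q6 q7
            have q9 := (hs _ q3).1
            rw [q6, q7]
            field_simp
            ring
          · intro p hp p' hp' hpp
            rw [Finset.mem_coe, Finset.mem_filter] at hp hp'
            obtain ⟨q1, q2, q3, q4, q5, q6, q7, q8⟩ := hF p hp.1
            obtain ⟨q1', q2', q3', q4', q5', q6', q7', q8'⟩ := hF p' hp'.1
            have e1 : p.1 = p'.1 := hinj _ q1 _ q1' hpp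
            have e2 : p.2.1 = p'.2.1 := hinj _ q2 _ q2' (hp.2.trans hp'.2.symm)
            have e3 : p.2.2 = p'.2.2 := by
              apply hinj _ q3 _ q3'
              rw [q6, ← e1, ← e2, hp.2] at q6'
              have h5 := (hs _ q1).1
              have h6 := mul_right_cancel₀ hm1 q6'
              exact mul_left_cancel₀ h5 h6
            exact Prod.ext e1 (Prod.ext e2 e3)
      have hB : (Fy.image (fun p => s p.2.1)).card ≤ 4 := by
        refine card_four (A := a ^ 2 * (b * c)) (B := a ^ 2 * d ^ 2 + (b * c) ^ 2 - y1 * y4)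
          (C := b * c * d ^ 2) (mul_ne_zero (pow_ne_zero 2 ha0) (mul_ne_zero hb0 hc0)) _
          fun x hx => ?_
        obtain ⟨p, hp, rfl⟩ := Finset.mem_image.1 hx
        obtain ⟨q1, q2, q3, q4, q5, q6, q7, q8⟩ := hF p hp
        have k1 := (hs _ q1).1
        have k2 := (hs _ q2).1
        have k3 := (hs _ q3).1
        rw [q6, q8]
        field_simp
        ring
      omega
  rw [Finset.card_product, Finset.card_product] at hmain
  have hY1 : 1 ≤ Y.card := by
    rw [← hYc]
    exact one_le_ball hfin _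
  rcases Nat.lt_or_ge X.card 8 with h8 | h8
  · have h1 : X.card ^ 3 ≤ 8 ^ 3 := Nat.pow_le_pow_left h8.le 3
    omega
  · have h1 : X.card ≤ 2 * G.card := by omega
    have h2 : X.card * (X.card * X.card) ≤ X.card * (2 * G.card * X.card) := by
      gcongr
    have h3 : X.card ^ 3 = X.card * (X.card * X.card) := by ring
    nlinarith

end Pool.Agent.Helper72.PT
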