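import Pool.Agent.Helper72.PT.Defs

/-! # PT-LPU

Larsen-Pink inequality for unipotent subgroups.

Plan. Let `X = {g ∈ Words S n | act g w = w}` (finite). Choose `g₀ ∈ Words S e` with `om (act g₀ w) w ≠ 0`
(`hesc w w`). Put `w' = act g₀ w`, a basis `w, w'`; elements of `X` are `x ↦ 1 + x (w ⊗ hat w)`:
`act u y = y + x(u) * om w y • w` for a unique `x(u) ∈ K` (since `act u w = w`, `det = 1`).
Consider the map `(u₁, u₂, u₃) ↦ u₁ * g₀ * u₂ * g₀ * u₃ ∈ Words S (3 n + 2 e) ⊆ Words S (5 n)` on `X × X × X`.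
`c(M) := om w (act M w)` (with the sign you like) satisfies `c(u₁ M u₃) = c(M)`, and `c(g₀ * u₂ * g₀)` is an affine
function of `x(u₂)` with slope `± c(g₀)² ≠ 0`. So `u₂` is determined by the product, and there is at most one
`u₂` with `c = 0`. For `M = g₀ u₂ g₀` with `c(M) ≠ 0` the map `(u₁, u₃) ↦ u₁ M u₃` is injective:
in a basis `(w, ·)` with `u(x) = !![1, x; 0, 1]`, `M = !![a, b; c, d]`: `u(x₁) M u(x₃)` has
the `(1,1)` entry `a + x₁ c` and the `(2,2)` entry `d + x₃ c`.
(It may be convenient to conjugate everything by a matrix of `SL₂(K)` so that `w` is a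
multiple of `![1, 0]`: `Words` of the conjugated set are the conjugates; or do it intrinsically:
if `u₁ M u₃ = u₁' M u₃'` then `(u₁'⁻¹ u₁) M = M (u₃' u₃⁻¹)`, so `u = u₁'⁻¹u₁` fixes `w` and also
`act M w` which is not parallel to `w`; an element of `SL₂` fixing two independent vectors is `1`.)
Hence `|X|² (|X| - 1) ≤ ball S (5 n)`. If `|X| ≥ 2` then `|X|³ ≤ 2 |X|² (|X| - 1)`; if `|X| ≤ 1` use
`one_le_ball`.
-/

namespace Pool.Agent.Helper72.PT

open Matrix Module Pool.Agent.Helper72.TV

private theorem lpu_uniq {K : Type*} [Field K] {g h : SL2 K} {x y : Fin 2 → K}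
    (hx : act g x = act h x) (hy : act g y = act h y) (hxy : om x y ≠ 0) : g = h := by
  have hx0 := congrFun hx 0
  have hx1 := congrFun hx 1
  have hy0 := congrFun hy 0
  have hy1 := congrFun hy 1
  rw [act_apply_zero, act_apply_zero] at hx0 hy0
  rw [act_apply_one, act_apply_one] at hx1 hy1
  unfold om at hxy
  ext i j
  fin_cases i <;> fin_cases j
  · apply mul_right_cancel₀ hxy
    simp only [Fin.zero_eta, Fin.isValue]
    linear_combination (y 1) * hx0 - (x 1) * hy0
  · apply mul_right_cancel₀ hxy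
    simp only [Fin.zero_eta, Fin.mk_one, Fin.isValue]
    linear_combination (x 0) * hy0 - (y 0) * hx0
  · apply mul_right_cancel₀ hxy
    simp only [Fin.zero_eta, Fin.mk_one, Fin.isValue]
    linear_combination (y 1) * hx1 - (x 1) * hy1
  · apply mul_right_cancel₀ hxy
    simp only [Fin.mk_one, Fin.isValue]
    linear_combination (x 0) * hy1 - (y 0) * hx1

private theorem lpu_om_fix {K : Type*} [Field K] {u : SL2 K} {w : Fin 2 → K} (hu : act u w = w)
    (y : Fin 2 → K) : om w (act u y) = om w y := by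
  have h := om_act u w y
  rwa [hu] at h

private theorem lpu_om_sub {K : Type*} [Field K] (x y z : Fin 2 → K) :
    om x (y - z) = om x y - om x z := by
  unfold om
  simp only [Pi.sub_apply]
  ring

private theorem lpu_om_add {K : Type*} [Field K] (x y z : Fin 2 → K) :
    om x (y + z) = om x y + om x z := by
  unfold om
  simp only [Pi.add_apply]
  ring

private theorem lpu_shift {K : Type*} [Field K] {u : SL2 K} {w : Fin 2 → K} (hw : w ≠ 0)
    (hu : act u w = w) (y : Fin 2 → K) : ∃ c : K, act u y = y + c • w := by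
  have h : om (act u y - y) w = 0 := by
    rw [om_swap, lpu_om_sub, lpu_om_fix hu, sub_self, neg_zero]
  obtain ⟨c, hc⟩ := exists_smul_of_om hw h
  exact ⟨c, by rw [← hc]; abel⟩

theorem lpU {K : Type*} [Field K] (S : Set (SL2 K))
    (hfin : (Subgroup.closure S : Set (SL2 K)).Finite) (e n : ℕ) (hesc : Esc S e) (hen : e ≤ n)
    (w : Fin 2 → K) (hw : w ≠ 0) :
    {g ∈ Words S n | act g w = w}.ncard ^ 3 ≤ 2 * ball S (5 * n) := by
  classical
  obtain ⟨g₀, hg₀, h0, -, -, -⟩ := hesc w w hw hw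
  have hXfin : {g ∈ Words S n | act g w = w}.Finite :=
    (words_finite hfin n).subset (fun g hg => hg.1)
  set X : Finset (SL2 K) := hXfin.toFinset with hX
  have hXmem : ∀ g, g ∈ X ↔ g ∈ Words S n ∧ act g w = w := by
    intro g
    rw [hX, Set.Finite.mem_toFinset]
    rfl
  have hcard : {g ∈ Words S n | act g w = w}.ncard = X.card := by
    rw [Set.ncard_eq_toFinset_card _ hXfin]
  rw [hcard]
  set Bf : Finset (SL2 K) := (words_finite hfin (5 * n)).toFinset with hBf
  have hball : ball S (5 * n) = Bf.card := by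
    unfold ball
    rw [Set.ncard_eq_toFinset_card _ (words_finite hfin (5 * n))]
  have hδ : om w (act g₀ w) ≠ 0 := by
    intro h
    apply h0
    rw [om_swap, h, neg_zero]
  -- the elements of `X` are determined by `om w (act (g₀ * u * g₀) w)`
  have hdet : ∀ u ∈ X, ∀ v ∈ X,
      om w (act (g₀ * u * g₀) w) = om w (act (g₀ * v * g₀) w) → u = v := by
    intro u hu v hv h
    rw [hXmem] at hu hv
    obtain ⟨c, hc⟩ := lpu_shift hw hu.2 (act g₀ w)
    obtain ⟨d, hd⟩ := lpu_shift hw hv.2 (act g₀ w)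
    rw [act_mul, act_mul, act_mul, act_mul, hc, hd, act_add, act_add, act_smul, act_smul,
      lpu_om_add, lpu_om_add, om_smul_right, om_smul_right] at h
    have hcd : c = d := by
      apply mul_right_cancel₀ hδ
      linear_combination h
    apply lpu_uniq (x := w) (y := act g₀ w) _ _ hδ
    · rw [hu.2, hv.2]
    · rw [hc, hd, hcd]
  set Y : Finset (SL2 K) := X.filter (fun u => ¬ om w (act (g₀ * u * g₀) w) = 0) with hY
  set Z : Finset (SL2 K) := X.filter (fun u => om w (act (g₀ * u * g₀) w) = 0) with hZ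
  have hZ1 : Z.card ≤ 1 := by
    rw [Finset.card_le_one]
    intro u hu v hv
    rw [hZ, Finset.mem_filter] at hu hv
    exact hdet u hu.1 v hv.1 (hu.2.trans hv.2.symm)
  have hYZ : Z.card + Y.card = X.card := Finset.card_filter_add_card_filter_not _
  -- invariance of `om w (act M w)`
  have hinv : ∀ u₁ ∈ X, ∀ u₃ ∈ X, ∀ M : SL2 K,
      om w (act (u₁ * M * u₃) w) = om w (act M w) := by
    intro u₁ h₁ u₃ h₃ M
    rw [hXmem] at h₁ h₃
    rw [act_mul, act_mul, h₃.2, lpu_om_fix h₁.2]
  have hle : (X ×ˢ (Y ×ˢ X)).card ≤ Bf.card := by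
    apply Finset.card_le_card_of_injOn (fun t => t.1 * (g₀ * t.2.1 * g₀) * t.2.2)
    · rintro ⟨u₁, u₂, u₃⟩ ht
      simp only [Finset.coe_product, Set.mem_prod, Finset.mem_coe] at ht
      obtain ⟨h₁, h₂, h₃⟩ := ht
      rw [hY, Finset.mem_filter] at h₂
      have h₂ := h₂.1
      rw [hXmem] at h₁ h₂ h₃
      rw [Finset.mem_coe, hBf, Set.Finite.mem_toFinset]
      have h := mul_mem_words (mul_mem_words h₁.1
        (mul_mem_words (mul_mem_words hg₀ h₂.1) hg₀)) h₃.1
      refine words_mono ?_ h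
      omega
    · rintro ⟨u₁, u₂, u₃⟩ ht ⟨v₁, v₂, v₃⟩ ht' heq
      simp only [Finset.coe_product, Set.mem_prod, Finset.mem_coe] at ht ht'
      obtain ⟨h₁, h₂, h₃⟩ := ht
      obtain ⟨k₁, k₂, k₃⟩ := ht'
      rw [hY, Finset.mem_filter] at h₂ k₂
      simp only at heq
      have e1 := hinv u₁ h₁ u₃ h₃ (g₀ * u₂ * g₀)
      have e2 := hinv v₁ k₁ v₃ k₃ (g₀ * v₂ * g₀)
      rw [heq, e2] at e1
      have huv : v₂ = u₂ := hdet v₂ k₂.1 u₂ h₂.1 e1
      subst huv
      have h₁' := (hXmem _).1 h₁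
      have k₁' := (hXmem _).1 k₁
      have h₃' := (hXmem _).1 h₃
      have k₃' := (hXmem _).1 k₃
      have e3 : u₁ = v₁ := by
        apply lpu_uniq (x := w) (y := act (g₀ * v₂ * g₀) w) _ _ h₂.2
        · rw [h₁'.2, k₁'.2]
        · have e4 := congrArg (fun M => act M w) heq
          rw [act_mul, act_mul u₁, h₃'.2, act_mul (v₁ * (g₀ * v₂ * g₀)), act_mul v₁, k₃'.2] at e4
          exact e4
      subst e3
      have e5 : u₃ = v₃ := mul_left_cancel heq
      rw [e5]
  rw [Finset.card_product, Finset.card_product] at hle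
  rw [hball]
  by_cases hk : X.card ≤ 1
  · have h1 : X.card ^ 3 ≤ 1 := pow_le_one₀ (Nat.zero_le _) hk
    have h2 := one_le_ball hfin (5 * n)
    rw [hball] at h2
    omega
  · have h3 : X.card ≤ 2 * Y.card := by omega
    calc X.card ^ 3 = X.card * (X.card * X.card) := by ring
      _ ≤ X.card * ((2 * Y.card) * X.card) :=
        Nat.mul_le_mul_left _ (Nat.mul_le_mul_right _ h3)
      _ = 2 * (X.card * (Y.card * X.card)) := by ring
      _ ≤ 2 * Bf.card := Nat.mul_le_mul_left _ hle

end Pool.Agent.Helper72.PT
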