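import Pool.Agent.Helper72.PT.Defs

/-! # The trace of an element of order `m` lies in a subfield with at most `p ^ m` elements -/

namespace Pool.Agent.Helper72.PT

open Matrix Module Pool.Agent.Helper72.TV Polynomial

theorem ordTrace {F : Type} [Field F] [Fintype F] (a : SL2 F) (m : ℕ) (hm : 1 ≤ m)
    (ha : a ^ m = 1) : ∃ F₀ : Subfield F, tr a ∈ F₀ ∧ Nat.card F₀ ≤ ringChar F ^ m := by
  have hprime : (ringChar F).Prime := by
    rcases CharP.char_is_prime_or_zero F (ringChar F) with h | h
    · exact h
    · exact absurd h (CharP.char_ne_zero_of_finite F (ringChar F))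
  have hfact : Fact (ringChar F).Prime := ⟨hprime⟩
  set p := ringChar F with hp
  let K := AlgebraicClosure F
  let _ : Algebra (ZMod p) F := ZMod.algebra F p
  let _ : CharP K p := charP_of_injective_algebraMap (algebraMap F K).injective p
  let _ : Algebra (ZMod p) K := ZMod.algebra K p
  -- an eigenvalue
  obtain ⟨lam, hlam⟩ : ∃ lam : K, lam ^ 2 - algebraMap F K (tr a) * lam + 1 = 0 := by
    have hdeg : (X ^ 2 - C (algebraMap F K (tr a)) * X + 1 : K[X]).degree ≠ 0 := by
      have : (X ^ 2 - C (algebraMap F K (tr a)) * X + 1 : K[X]).degree = 2 := by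
        compute_degree!
      rw [this]
      norm_num
    obtain ⟨x, hx⟩ := IsAlgClosed.exists_root _ hdeg
    refine ⟨x, ?_⟩
    simpa [IsRoot.def] using hx
  have hlam0 : lam ≠ 0 := by
    intro h
    rw [h] at hlam
    simp at hlam
  set A : Matrix (Fin 2) (Fin 2) K := (a : Matrix (Fin 2) (Fin 2) F).map (algebraMap F K) with hA
  have hdet0 : A 0 0 * A 1 1 - A 0 1 * A 1 0 = 1 := by
    have h := congrArg (algebraMap F K) (det_eq a)
    simpa [hA] using h
  have htr0 : algebraMap F K (tr a) = A 0 0 + A 1 1 := by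
    rw [tr_eq, map_add]
    rfl
  have hdet : (A - lam • (1 : Matrix (Fin 2) (Fin 2) K)).det = 0 := by
    rw [Matrix.det_fin_two]
    simp only [Matrix.sub_apply, Matrix.smul_apply, Matrix.one_apply_eq, smul_eq_mul,
      Matrix.one_apply_ne (by decide : (0 : Fin 2) ≠ 1),
      Matrix.one_apply_ne (by decide : (1 : Fin 2) ≠ 0)]
    rw [htr0] at hlam
    linear_combination hlam + hdet0
  obtain ⟨v, hv0, hv⟩ := Matrix.exists_mulVec_eq_zero_iff.mpr hdet
  have hAv : A *ᵥ v = lam • v := by
    rw [Matrix.sub_mulVec, Matrix.smul_mulVec, Matrix.one_mulVec] at hv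
    exact sub_eq_zero.mp hv
  have hAm : ∀ j : ℕ, (A ^ j) *ᵥ v = lam ^ j • v := by
    intro j
    induction j with
    | zero => simp
    | succ j ih =>
      rw [pow_succ, ← Matrix.mulVec_mulVec, hAv, Matrix.mulVec_smul, ih, smul_smul]
      congr 1
      ring
  have hA1 : A ^ m = 1 := by
    have h1 : (a : Matrix (Fin 2) (Fin 2) F) ^ m = 1 := by
      rw [← Matrix.SpecialLinearGroup.coe_pow, ha, Matrix.SpecialLinearGroup.coe_one]
    have h2 := congrArg (fun M : Matrix (Fin 2) (Fin 2) F => (algebraMap F K).mapMatrix M) h1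
    simp only [map_pow, map_one] at h2
    exact h2
  have hlamm : lam ^ m = 1 := by
    have h := hAm m
    rw [hA1, Matrix.one_mulVec] at h
    obtain ⟨i, hi⟩ := Function.ne_iff.mp hv0
    have h2 := congrFun h i
    rw [Pi.smul_apply, smul_eq_mul] at h2
    have h3 : (lam ^ m - 1) * v i = 0 := by linear_combination -h2
    rcases mul_eq_zero.mp h3 with h4 | h4
    · exact sub_eq_zero.mp h4
    · exact absurd h4 hi
  have hint : IsIntegral (ZMod p) lam := by
    refine ⟨X ^ m - 1, ?_, ?_⟩
    · exact monic_X_pow_sub_C 1 (by omega)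
    · simp [hlamm]
  have hfd : FiniteDimensional (ZMod p) (IntermediateField.adjoin (ZMod p) {lam}) :=
    IntermediateField.adjoin.finiteDimensional hint
  have hrank : finrank (ZMod p) (IntermediateField.adjoin (ZMod p) {lam}) ≤ m := by
    rw [IntermediateField.adjoin.finrank hint]
    have h1 : minpoly (ZMod p) lam ∣ (X ^ m - C 1) := by
      apply minpoly.dvd
      simp [hlamm]
    have h2 := natDegree_le_of_dvd h1 (monic_X_pow_sub_C (1 : ZMod p) (by omega)).ne_zero
    rwa [natDegree_X_pow_sub_C] at h2
  have hfinL : Finite (IntermediateField.adjoin (ZMod p) {lam}) := Module.finite_of_finite (ZMod p)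
  have hcardL : Nat.card (IntermediateField.adjoin (ZMod p) {lam}) ≤ p ^ m := by
    rw [Module.natCard_eq_pow_finrank (K := ZMod p), Nat.card_zmod]
    exact Nat.pow_le_pow_right hprime.pos hrank
  refine ⟨(IntermediateField.adjoin (ZMod p) {lam}).toSubfield.comap (algebraMap F K), ?_, ?_⟩
  · rw [Subfield.mem_comap]
    have hmem : lam ∈ (IntermediateField.adjoin (ZMod p) {lam}).toSubfield :=
      IntermediateField.mem_adjoin_simple_self (ZMod p) lam
    have ht : algebraMap F K (tr a) = lam + lam⁻¹ := by
      have hinv : lam * lam⁻¹ = 1 := mul_inv_cancel₀ hlam0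
      linear_combination (-lam⁻¹) * hlam - (algebraMap F K (tr a) - lam) * hinv
    rw [ht]
    exact Subfield.add_mem _ hmem (Subfield.inv_mem _ hmem)
  · refine le_trans ?_ hcardL
    refine Nat.card_le_card_of_injective
      (fun x : (IntermediateField.adjoin (ZMod p) {lam}).toSubfield.comap (algebraMap F K) =>
        (⟨algebraMap F K x.1, x.2⟩ : IntermediateField.adjoin (ZMod p) {lam})) ?_
    intro x y hxy
    apply Subtype.ext
    apply (algebraMap F K).injective
    exact congrArg Subtype.val hxy

end Pool.Agent.Helper72.PT
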