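import Mathlib

/-! # PT-PairNum

The numerical part of `pairF`.

Plan. `R = log N / log B`. `log N ≤ 4 k log E` (`N ≤ (E^k)^4`), `log B ≥ (k/8) log 2 > 0`, so
`R ≤ 32 log E / log 2 ≤ 47 log E` (`Real.log_two_gt_d9 : 0.6931471803 < log 2`). So
`n₁ ≤ C₀ (c₁ k) R^46 ≤ C₀ c₁ 47^46 * (k log E) * (log E)^45`, and `k log E ≤ 2 log Q` from `E^k ≤ Q^2`. Everything is
nonnegative (`E ≥ 2`).
-/

namespace Pool.Agent.Helper72.PT

theorem pairNum (C₀ c₁ k E N B Q n₁ : ℕ) (hk : 1 ≤ k) (hE : 2 ≤ E) (hN1 : 1 ≤ N)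
    (hN : N ≤ (E ^ k) ^ 4) (hB : (k : ℝ) / 8 * Real.log 2 ≤ Real.log B)
    (hBN : B ≤ N) (hQ : E ^ k ≤ Q ^ 2)
    (hn : (n₁ : ℝ) ≤ C₀ * ((c₁ * k : ℕ) : ℝ) * (Real.log N / Real.log B) ^ 46) :
    (n₁ : ℝ) ≤ (2 * C₀ * c₁ * 47 ^ 46) * Real.log Q * Real.log E ^ 45 := by
  have hk' : (1 : ℝ) ≤ k := by exact_mod_cast hk
  have hk0 : (0 : ℝ) < k := by linarith
  have hl2 : (0.6931471803 : ℝ) < Real.log 2 := Real.log_two_gt_d9
  have hl2' : (0 : ℝ) < Real.log 2 := by linarith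
  have hE' : (2 : ℝ) ≤ E := by exact_mod_cast hE
  have hlE : 0 < Real.log E := Real.log_pos (by linarith)
  have hN0 : (0 : ℝ) < N := by exact_mod_cast (by omega : 0 < N)
  have hlN : Real.log N ≤ 4 * k * Real.log E := by
    have h1 : (N : ℝ) ≤ ((E : ℝ) ^ k) ^ 4 := by exact_mod_cast hN
    have h2 := Real.log_le_log hN0 h1
    rw [Real.log_pow, Real.log_pow] at h2
    push_cast at h2
    linarith
  have hlB : 0 < (k : ℝ) / 8 * Real.log 2 := by positivity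
  have hlB' : 0 < Real.log B := lt_of_lt_of_le hlB hB
  have hlN0 : 0 ≤ Real.log N := Real.log_nonneg (by exact_mod_cast hN1)
  have hR0 : 0 ≤ Real.log N / Real.log B := div_nonneg hlN0 hlB'.le
  have hR : Real.log N / Real.log B ≤ 47 * Real.log E := by
    rw [div_le_iff₀ hlB']
    have h3 : 47 * Real.log E * ((k : ℝ) / 8 * Real.log 2) ≤ 47 * Real.log E * Real.log B :=
      mul_le_mul_of_nonneg_left hB (by positivity)
    refine le_trans hlN (le_trans ?_ h3)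
    have h4 : (0 : ℝ) ≤ k * Real.log E * (47 / 8 * Real.log 2 - 4) :=
      mul_nonneg (by positivity) (by linarith)
    nlinarith [h4]
  have hpow : (Real.log N / Real.log B) ^ 46 ≤ (47 * Real.log E) ^ 46 :=
    pow_le_pow_left₀ hR0 hR 46
  have hQk : (k : ℝ) * Real.log E ≤ 2 * Real.log Q := by
    have h5 : ((E : ℝ) ^ k) ≤ (Q : ℝ) ^ 2 := by exact_mod_cast hQ
    have h6 := Real.log_le_log (by positivity) h5
    rw [Real.log_pow, Real.log_pow] at h6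
    push_cast at h6
    exact h6
  have h7 : (n₁ : ℝ) ≤ C₀ * ((c₁ * k : ℕ) : ℝ) * (47 * Real.log E) ^ 46 :=
    le_trans hn (mul_le_mul_of_nonneg_left hpow (by positivity))
  refine le_trans h7 ?_
  have h8 : (C₀ : ℝ) * ((c₁ * k : ℕ) : ℝ) * (47 * Real.log E) ^ 46
      = (C₀ * c₁ * 47 ^ 46 * Real.log E ^ 45) * (k * Real.log E) := by
    rw [mul_pow, pow_succ (Real.log E) 45]
    push_cast
    ring
  have h9 : (2 * C₀ * c₁ * 47 ^ 46 : ℝ) * Real.log Q * Real.log E ^ 45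
      = (C₀ * c₁ * 47 ^ 46 * Real.log E ^ 45) * (2 * Real.log Q) := by ring
  rw [h8, h9]
  exact mul_le_mul_of_nonneg_left hQk (by positivity)

end Pool.Agent.Helper72.PT
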