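import Pool.Agent.Helper72.PT.Main
import Pool.Agent.Helper72.PT.PairNum
import Pool.Agent.Helper72.PT.Neumann
import Pool.Agent.Helper72.PT.EscS
import Pool.Agent.Helper72.PT.Irr
import Pool.Agent.Helper72.PT.WordsSS
import Pool.Agent.Helper72.PT.WordsUni
import Pool.Agent.Helper72.PT.CardH
import Pool.Agent.Helper72.PT.BallLin
import Pool.Agent.Helper72.PT.Descent
import Pool.Agent.Helper72.PT.TrSq
import Pool.Agent.Helper72.PT.SqField

/-! # PT-PairF

The pair lemma: two elements of equal trace generate quickly a root group over a large subfield.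

Plan. All imported theorems may be still sorried; use only their statements. Let `C₀` be the constant of `ptMain`,
`c₁ = max 16 C₀`, `C = 2 * C₀ * c₁ * 47 ^ 46 + 96 ^ 3 * 125 + C₀ + 49`. Given `F, a, b`: `S = {a, b}`, `K = AlgebraicClosure F`,
`f = Matrix.SpecialLinearGroup.map (algebraMap F K)`, `S' = f '' S = {f a, f b}`; `tr (f g) = algebraMap F K (tr g)`.
`E₀ = Subfield.closure {tr a}`, `z = tr (a * b)`, `k = finrank E₀ E₀⟮z⟯ ≥ 1`, `E = (E₀⟮z⟯).toSubfield`,
`Nat.card E = Nat.card E₀ ^ k`.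
1. `cardH E`: `closure S` is finite, `N = |closure S| ≤ |E|^4` (everything is finite anyway since `F` is finite). `ball_map`: the same
   numbers for `S'`; `closure S'` is the image of `closure S`, finite.
2. `orderOf (a * b) > C` (it is positive as `F` is finite), so `N ≥ orderOf (a*b) > C` (`Subgroup.orderOf_le_card` or
   `orderOf_dvd_natCard` for the element of the subgroup).
3. `irr1, irr2` for `f a, f b` (the trace conditions transfer by injectivity of `algebraMap F K`), `neumann`, `escS`: `Esc S' 16`.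
4. `n₀ = c₁ * k`; `ball S' n₀ = ball S n₀ ≥ min (n₀ + 1) N ≥ C₀` (`ballLin`). `f (a * b) ∈ Words S' 2 ⊆ Words S' (2 n₀)`, trace squared
   `≠ 4` since `z ≠ 2, -2`.
5. `ptMain` gives `w, Eu, n₁`; `descent` gives `v, ψ, EF` and the words of length `n₁` in `S`. `|EF| = |Eu| ≥ 5` because
   `96^3 * 125 < N ≤ 96^3 |Eu|^3`.
6. `trSq` for `H = closure S` (`hmove` from `irr1` over `F` with `w = v`): `tr a ^ 2, z ^ 2 ∈ EF`; `sqField` with `X = {tr a, z}`:
   `|E| ≤ |Subfield.closure {tr a, z}| ≤ |EF|^2`, since `E ≤ Subfield.closure {tr a, z}` (`E₀⟮z⟯` is generated by `E₀` and `z`).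
7. `(k/8) log 2 ≤ log (ball S n₀)`: if `k < 8` then `ball S n₀ ≥ C₀ ≥ 2`. If `k ≥ 8` take `ℓ = k / 2 - 2`, `2 (ℓ + 2) ≤ k`,
   `k ≤ 8 ℓ`, `2 ℓ ≤ n₀`: `wordsSS` or `wordsUni` (according to `(tr a)^2 ≠ 4` or `= 4`) gives `2^ℓ ≤ ball S (2 ℓ) ≤ ball S n₀`.
8. `pairNum` with `E := |E₀|`, `B := ball S n₀`, `Q := |EF|`, and `2 C₀ c₁ 47^46 ≤ C`.
-/

namespace Pool.Agent.Helper72.PT

open Matrix Module Pool.Agent.Helper72.TV IntermediateField

private theorem tr_map {F K : Type*} [Field F] [Field K] (f : F →+* K) (g : SL2 F) :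
    tr (Matrix.SpecialLinearGroup.map f g) = f (tr g) := by
  rw [tr_eq, tr_eq, map_add]
  rfl

private theorem adj_le {F : Type*} [Field F] (τ z : F) :
    (((Subfield.closure ({τ} : Set F))⟮z⟯).toSubfield : Subfield F) ≤
      Subfield.closure ({τ, z} : Set F) := by
  intro y hy
  have hy' : y ∈ Subfield.closure (Set.range (algebraMap (Subfield.closure ({τ} : Set F)) F) ∪ {z}) :=
    hy
  refine Subfield.closure_le.2 ?_ hy'
  rintro x (⟨⟨x, hx⟩, rfl⟩ | hx)
  · exact Subfield.closure_mono (by simp) hx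
  · rw [Set.mem_singleton_iff] at hx
    rw [hx]
    exact Subfield.subset_closure (by simp)

theorem pairF : ∃ C : ℕ, 1 ≤ C ∧ ∀ (F : Type) [Field F] [Fintype F] (a b : SL2 F),
    tr a = tr b → tr a ≠ 0 → tr (a * b) ≠ 2 → tr (a * b) ≠ -2 → tr (a * b) ≠ tr a ^ 2 - 2 →
    (∀ j : ℕ, 1 ≤ j → j ≤ C → (a * b) ^ j ≠ 1) →
    ∃ (v ψ : Fin 2 → F) (EF : Subfield F), v ≠ 0 ∧ ψ ≠ 0 ∧ ψ ⬝ᵥ v = 0 ∧ 5 ≤ Nat.card EF ∧
      ∃ n : ℕ, (∀ x ∈ EF, ∃ g ∈ Words ({a, b} : Set (SL2 F)) n,
        (g : Matrix (Fin 2) (Fin 2) F) = 1 + x • Matrix.vecMulVec v ψ) ∧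
        (n : ℝ) ≤ C * Real.log (Nat.card EF) *
          Real.log (Nat.card (Subfield.closure ({tr a} : Set F))) ^ 45 := by
  obtain ⟨C₀, hC₀, hmain⟩ := ptMain
  set c₁ : ℕ := max 16 C₀ with hc₁
  have hc16 : 16 ≤ c₁ := le_max_left _ _
  have hcC : C₀ ≤ c₁ := le_max_right _ _
  clear_value c₁
  set A : ℕ := 2 * C₀ * c₁ * 47 ^ 46 with hA
  refine ⟨A + 96 ^ 3 * 125 + C₀ + 49, by omega, ?_⟩
  intro F _ _ a b hab ha0 hz2 hz2' hz3 hord
  -- the group over `F`
  have hfinG : Finite (SL2 F) := inferInstance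
  set S : Set (SL2 F) := {a, b} with hS
  have haS : a ∈ S := by rw [hS]; simp
  have hbS : b ∈ S := by rw [hS]; simp
  have hfin : (Subgroup.closure S : Set (SL2 F)).Finite := Set.toFinite _
  have habmem : a * b ∈ Subgroup.closure S :=
    (Subgroup.closure S).mul_mem (Subgroup.subset_closure haS) (Subgroup.subset_closure hbS)
  have hNC : A + 96 ^ 3 * 125 + C₀ + 49 < Nat.card (Subgroup.closure S) := by
    have h1 : orderOf (a * b) ∣ Nat.card (Subgroup.closure S) :=
      Subgroup.orderOf_dvd_natCard _ habmem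
    have h2 : orderOf (a * b) ≤ Nat.card (Subgroup.closure S) :=
      Nat.le_of_dvd Nat.card_pos h1
    have h3 : 0 < orderOf (a * b) := orderOf_pos _
    by_contra hcon
    push Not at hcon
    exact hord (orderOf (a * b)) h3 (h2.trans hcon) (pow_orderOf_eq_one _)
  set N : ℕ := Nat.card (Subgroup.closure S) with hN
  -- the fields
  set E₀ : Subfield F := Subfield.closure ({tr a} : Set F) with hE₀
  have haE₀ : tr a ∈ E₀ := Subfield.subset_closure rfl
  set z : F := tr (a * b) with hz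
  have hfd : FiniteDimensional E₀ E₀⟮z⟯ := Module.Finite.of_finite
  set k : ℕ := finrank E₀ E₀⟮z⟯ with hk
  have hk1 : 1 ≤ k := Module.finrank_pos
  have hEcard : Nat.card (E₀⟮z⟯).toSubfield = Nat.card E₀ ^ k := by
    have h0 : Nat.card E₀⟮z⟯ = Nat.card E₀ ^ finrank E₀ E₀⟮z⟯ := Module.natCard_eq_pow_finrank
    exact h0
  have hEle := adj_le (tr a) z
  rw [← hE₀] at hEle
  have hzE : z ∈ (E₀⟮z⟯).toSubfield := IntermediateField.mem_adjoin_simple_self E₀ z
  have haE : tr a ∈ (E₀⟮z⟯).toSubfield := (E₀⟮z⟯).algebraMap_mem ⟨tr a, haE₀⟩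
  have hNE : N ≤ (Nat.card E₀ ^ k) ^ 4 := by
    rw [← hEcard]
    exact (cardH (E₀⟮z⟯).toSubfield (Set.toFinite _) a b haE (hab ▸ haE) hzE).2
  -- the group over the algebraic closure
  set f : SL2 F →* SL2 (AlgebraicClosure F) :=
    Matrix.SpecialLinearGroup.map (algebraMap F (AlgebraicClosure F)) with hf
  have hinj : Function.Injective (algebraMap F (AlgebraicClosure F)) :=
    (algebraMap F (AlgebraicClosure F)).injective
  have hS' : f '' S = {f a, f b} := by rw [hS, Set.image_pair]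
  have hfin' : (Subgroup.closure (f '' S) : Set (SL2 (AlgebraicClosure F))).Finite := by
    rw [← MonoidHom.map_closure, Subgroup.coe_map]
    exact hfin.image _
  have hN' : Nat.card (Subgroup.closure (f '' S)) = N :=
    (ball_map (K := AlgebraicClosure F) S 0).2
  have ht1 : tr (f a) = tr (f b) := by
    rw [hf, tr_map, tr_map, hab]
  have ht0 : tr (f a) ≠ 0 := by
    rw [hf, tr_map]
    exact (map_ne_zero_iff _ hinj).2 ha0
  have ht2 : tr (f a * f b) ≠ 2 := by
    rw [← map_mul, hf, tr_map]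
    intro h
    apply hz2
    apply hinj
    rw [h, map_ofNat]
  have ht3 : tr (f a * f b) ≠ tr (f a) ^ 2 - 2 := by
    rw [← map_mul, hf, tr_map, tr_map]
    intro h
    apply hz3
    apply hinj
    rw [h, map_sub, map_pow, map_ofNat]
  have hesc1 : Esc ((Subgroup.closure (f '' S) : Subgroup (SL2 (AlgebraicClosure F))) :
      Set (SL2 (AlgebraicClosure F))) 1 := by
    refine neumann _ hfin' (by rw [hN']; omega) ?_ ?_
    · intro w hw
      rw [hS']
      exact irr1 (f a) (f b) ht1 ht2 ht3 w hw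
    · intro w w' hw
      rw [hS']
      exact irr2 (f a) (f b) ht1 ht0 ht2 ht3 w w' hw
  have hesc := escS (f '' S) hesc1
  -- the balls
  have hn16 : 16 ≤ c₁ * k := by nlinarith
  have hn1 : 1 ≤ c₁ * k := by omega
  have hnC : C₀ ≤ c₁ * k := hcC.trans (Nat.le_mul_of_pos_right _ hk1)
  have hkn : k ≤ c₁ * k := Nat.le_mul_of_pos_left _ (by omega)
  have hballC : C₀ ≤ ball S (c₁ * k) := by
    refine le_trans ?_ (ballLin S hfin (c₁ * k))
    rw [← hN]
    exact le_min (by omega) (by omega)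
  have hball' : ball (f '' S) (c₁ * k) = ball S (c₁ * k) :=
    (ball_map (K := AlgebraicClosure F) S (c₁ * k)).1
  have hreg : ∃ g ∈ Words (f '' S) (2 * (c₁ * k)), tr g ^ 2 ≠ 4 := by
    refine ⟨f a * f b, words_mono (by omega) (mul_mem_words
      (mem_words_one (Set.mem_image_of_mem f haS)) (mem_words_one (Set.mem_image_of_mem f hbS))), ?_⟩
    rw [← map_mul, hf, tr_map, ← hz, ← map_pow]
    intro h
    have h4 : z ^ 2 = 4 := by
      apply hinj
      rw [h, map_ofNat]
    have h5 : (z - 2) * (z + 2) = 0 := by linear_combination h4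
    rcases mul_eq_zero.1 h5 with h6 | h6
    · exact hz2 (by linear_combination h6)
    · exact hz2' (by linear_combination h6)
  obtain ⟨w, Eu, hw, hEufin, hiff, hcard, n₁, hn₁, hwords⟩ := hmain (AlgebraicClosure F) (f '' S) 16
    (c₁ * k) hfin' (by rw [hN']; omega) hesc hn16 hn1 (by rw [hball']; exact hballC) hreg
  rw [hN'] at hcard hn₁
  rw [hball'] at hn₁
  obtain ⟨v, ψ, EF, hv, hψ, hψv, hEFcard, hiffF, hwordsF⟩ := descent S w hw Eu hiff n₁ hwords
  have h5 : 5 ≤ Nat.card EF := by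
    rw [hEFcard]
    by_contra hcon
    push Not at hcon
    have h6 : Nat.card Eu ^ 3 ≤ 4 ^ 3 := Nat.pow_le_pow_left (by omega) 3
    have h7 : 96 ^ 3 * Nat.card Eu ^ 3 ≤ 96 ^ 3 * 4 ^ 3 := Nat.mul_le_mul_left _ h6
    have h8 : (96 : ℕ) ^ 3 * 4 ^ 3 ≤ 96 ^ 3 * 125 := by norm_num
    omega
  have hsq := trSq (Subgroup.closure S) v ψ hv hψ hψv EF h5 hiffF (irr1 a b hab hz2 hz3 v hv)
  have hQ : Nat.card E₀ ^ k ≤ Nat.card EF ^ 2 := by
    rw [← hEcard]
    refine le_trans ?_ (sqField EF {tr a, z} ?_)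
    · exact Nat.card_le_card_of_injective (Subfield.inclusion hEle)
        (Subfield.inclusion hEle).injective
    · intro x hx
      simp only [Set.mem_insert_iff, Set.mem_singleton_iff] at hx
      rcases hx with rfl | rfl
      · exact hsq a (Subgroup.subset_closure haS)
      · exact hsq (a * b) habmem
  -- growth of the balls
  have hB : (k : ℝ) / 8 * Real.log 2 ≤ Real.log (ball S (c₁ * k)) := by
    have hlog2 : 0 < Real.log 2 := Real.log_pos (by norm_num)
    by_cases hk8 : k < 8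
    · have h6 : Real.log 2 ≤ Real.log (ball S (c₁ * k)) := by
        apply Real.log_le_log (by norm_num)
        exact_mod_cast hC₀.trans hballC
      have h7 : (k : ℝ) / 8 ≤ 1 := by
        rw [div_le_one (by norm_num)]
        exact_mod_cast hk8.le
      nlinarith
    · push Not at hk8
      have hℓ : 2 * ((k / 2 - 2) + 2) ≤ k := by omega
      have h6 : 2 ^ (k / 2 - 2) ≤ ball S (2 * (k / 2 - 2)) := by
        by_cases hτ4 : tr a ^ 2 = 4
        · exact wordsUni E₀ a b (tr a) z rfl hab.symm hz.symm ha0 hτ4 hz2 _ hℓ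
        · exact wordsSS E₀ a b (tr a) z rfl hab.symm hz.symm haE₀ ha0 hτ4 hz2 hz3 _ hℓ
      have h7 : ball S (2 * (k / 2 - 2)) ≤ ball S (c₁ * k) := ball_mono hfin (by omega)
      have h8 : ((2 : ℝ) ^ (k / 2 - 2)) ≤ (ball S (c₁ * k) : ℝ) := by
        exact_mod_cast h6.trans h7
      have h9 : ((k / 2 - 2 : ℕ) : ℝ) * Real.log 2 ≤ Real.log (ball S (c₁ * k)) := by
        rw [← Real.log_pow]
        exact Real.log_le_log (by positivity) h8
      have h10 : (k : ℝ) / 8 ≤ ((k / 2 - 2 : ℕ) : ℝ) := by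
        have h11 : k ≤ 8 * (k / 2 - 2) := by omega
        have h12 : (k : ℝ) ≤ 8 * ((k / 2 - 2 : ℕ) : ℝ) := by exact_mod_cast h11
        linarith
      nlinarith
  have hE2 : 2 ≤ Nat.card E₀ := by
    have : Nontrivial E₀ := inferInstance
    exact Finite.one_lt_card
  have hfinal := pairNum C₀ c₁ k (Nat.card E₀) N (ball S (c₁ * k)) (Nat.card EF) n₁ hk1 hE2
    (by omega) hNE hB (ball_le_card hfin _) hQ (by exact_mod_cast hn₁)
  refine ⟨v, ψ, EF, hv, hψ, hψv, h5, n₁, hwordsF, hfinal.trans ?_⟩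
  have hlE : 0 ≤ Real.log (Nat.card E₀) := Real.log_natCast_nonneg _
  have hlQ : 0 ≤ Real.log (Nat.card EF) := Real.log_natCast_nonneg _
  refine mul_le_mul_of_nonneg_right (mul_le_mul_of_nonneg_right ?_ hlQ) (pow_nonneg hlE _)
  have h13 : (A : ℝ) = 2 * C₀ * c₁ * 47 ^ 46 := by
    rw [hA]
    push_cast
    ring
  rw [← h13]
  have h14 : A ≤ A + 96 ^ 3 * 125 + C₀ + 49 := by omega
  exact_mod_cast h14

end Pool.Agent.Helper72.PT
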