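import Pool.Agent.Helper72.PT.LPC
import Pool.Agent.Helper72.PT.PivA

/-! # PT-Unip

A large finite subgroup of `SL₂(K)` with the escape property contains a nontrivial unipotent element.

Plan. `lpT, lpC, pivA`, Cent may be still sorried. `N = |H| ≥ 2^60`. Apply the inequalities with `S = H`, `e = 1`:
`ball H n = N` for `n ≥ 1` (`ball_subgroup`, `words_subgroup`; `closure H = H`).
Suppose no `g ∈ H`, `g ≠ 1`, fixes a nonzero vector. Let `Z = {g ∈ H | g = ±1}`, `z = |Z| ∈ {1, 2}`. Every `g ∈ H \ Z` has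
`tr g ^ 2 ≠ 4` (otherwise it has an eigenvector (`exists_eig`) with eigenvalue `±1` (`eig_of_tr`); eigenvalue `1` is
excluded; eigenvalue `-1`: then `g²` fixes the vector so `g² = 1`, and `g² - (tr g) g + 1 = 0` gives `g = ±1`),
so `g` has exactly two eigenlines (`cent`, `eig_lines`).
A line `ℓ` (of a vector `w ≠ 0`) is special if it is an eigenline of some `g ∈ H \ Z`; `H_ℓ` = elements of `H` fixing `ℓ`.
For special `ℓ`: `H_ℓ` contains the torus group of `g`, which by `pivA` and `lpC` has at least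
`N / c`, `c³ ≤ 110592 N²`, elements: `|H_ℓ| ≥ N^(1/3) / 48 ≥ 2^20 / 48 > 20 z`.
Double counting pairs (element of `H \ Z`, eigenline): `Σ_ℓ special (|H_ℓ| - z) = 2 (N - z)`. `H` permutes the special
lines, `|H_ℓ|` is constant on orbits, the orbit of `ℓ` has `N / |H_ℓ|` elements and contributes
`N - z N / |H_ℓ| ≥ (19/20) N`. So there are at most 2 orbits (three would give `≥ (57/20) N > 2 N`). If there is only
one orbit, `N - z N / |H_ℓ| = 2 (N - z)` is impossible (`N > 2 z`). If there are two orbits,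
`z N/|H_1| + z N/|H_2| = 2 z`, so `|H_1| = |H_2| = N`: `H` fixes the line `ℓ`, contradiction to `Esc H 1`.
If there is no special line then `N = z ≤ 2`, impossible.
Lines can be represented by `Projectivization K (Fin 2 → K)` or by `OnePoint K` / `Option K` or by normalised
vectors; alternatively count with ordered pairs.
-/

namespace Pool.Agent.Helper72.PT

open Matrix Module Pool.Agent.Helper72.TV

section

variable {K : Type*} [Field K]

private def Sc (g : SL2 K) : Prop :=
  (g : Matrix (Fin 2) (Fin 2) K) = 1 ∨ (g : Matrix (Fin 2) (Fin 2) K) = -1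

/-- the line of `w` -/
private def Ln (w : Fin 2 → K) : Set (Fin 2 → K) := {v | om v w = 0}

private theorem ln_eq_iff {w w' : Fin 2 → K} (hw : w ≠ 0) (hw' : w' ≠ 0) :
    Ln w = Ln w' ↔ om w w' = 0 := by
  constructor
  · intro h
    have h1 : w ∈ Ln w := om_self w
    rw [h] at h1
    exact h1
  · intro h
    obtain ⟨c, hc⟩ := exists_smul_of_om hw' h
    have hc0 : c ≠ 0 := by
      rintro rfl
      apply hw
      rw [hc, zero_smul]
    ext v
    show om v w = 0 ↔ om v w' = 0
    rw [hc, om_smul_right]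
    constructor
    · intro h2
      rcases mul_eq_zero.mp h2 with h3 | h3
      · exact absurd h3 hc0
      · exact h3
    · intro h2
      rw [h2, mul_zero]

private theorem act_ln (g : SL2 K) (w : Fin 2 → K) : act g '' Ln w = Ln (act g w) := by
  ext v
  constructor
  · rintro ⟨u, hu, rfl⟩
    show om (act g u) (act g w) = 0
    rw [om_act]
    exact hu
  · intro hv
    refine ⟨act g⁻¹ v, ?_, act_act_inv g v⟩
    show om (act g⁻¹ v) w = 0
    rw [← om_act g, act_act_inv]
    exact hv

/-- the special lines -/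
private def Lam (H : Subgroup (SL2 K)) : Set (Set (Fin 2 → K)) :=
  {S | ∃ w : Fin 2 → K, w ≠ 0 ∧ S = Ln w ∧ ∃ g ∈ H, ¬ Sc g ∧ om (act g w) w = 0}

private theorem sc_conj {g h : SL2 K} (hs : Sc (h * g * h⁻¹)) : Sc g := by
  have e : g = h⁻¹ * (h * g * h⁻¹) * h := by group
  have h1 : ((h⁻¹ : SL2 K) : Matrix (Fin 2) (Fin 2) K) * (h : Matrix (Fin 2) (Fin 2) K) = 1 := by
    rw [← Matrix.SpecialLinearGroup.coe_mul, inv_mul_cancel, Matrix.SpecialLinearGroup.coe_one]
  unfold Sc at hs ⊢
  rcases hs with hs | hs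
  · left
    rw [e, Matrix.SpecialLinearGroup.coe_mul, Matrix.SpecialLinearGroup.coe_mul, hs, mul_one, h1]
  · right
    rw [e, Matrix.SpecialLinearGroup.coe_mul, Matrix.SpecialLinearGroup.coe_mul, hs, mul_neg,
      mul_one, neg_mul, h1]

private theorem lam_act {H : Subgroup (SL2 K)} {h : SL2 K} (hh : h ∈ H) {S : Set (Fin 2 → K)}
    (hS : S ∈ Lam H) : act h '' S ∈ Lam H := by
  obtain ⟨w, hw, rfl, g, hg, hg1, hg2⟩ := hS
  refine ⟨act h w, act_ne_zero h hw, act_ln h w, h * g * h⁻¹,
    H.mul_mem (H.mul_mem hh hg) (H.inv_mem hh), fun h1 => hg1 (sc_conj h1), ?_⟩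
  rw [act_mul, act_inv_act, act_mul, om_act]
  exact hg2

private def lamAction (H : Subgroup (SL2 K)) : MulAction H (Lam H) where
  smul h S := ⟨act h.1 '' S.1, lam_act h.2 S.2⟩
  one_smul S := by
    apply Subtype.ext
    show act (1 : SL2 K) '' S.1 = S.1
    ext v
    simp [act_one]
  mul_smul g h S := by
    apply Subtype.ext
    show act (g.1 * h.1) '' S.1 = act g.1 '' (act h.1 '' S.1)
    rw [← Set.image_comp]
    apply Set.image_congr
    intro v _
    exact act_mul _ _ _

/-- an involution with trace `±2` in characteristic different from two is `±1` -/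
private theorem sc_of_sq {g : SL2 K} (h2 : (2 : K) ≠ 0) (ht : tr g ^ 2 = 4) (hg : g * g = 1) :
    Sc g := by
  have hd := det_eq g
  have hm : (g : Matrix (Fin 2) (Fin 2) K) * (g : Matrix (Fin 2) (Fin 2) K) = 1 := by
    rw [← Matrix.SpecialLinearGroup.coe_mul, hg, Matrix.SpecialLinearGroup.coe_one]
  rw [tr_eq] at ht
  have m00 := congrFun (congrFun hm 0) 0
  have m01 := congrFun (congrFun hm 0) 1
  have m10 := congrFun (congrFun hm 1) 0
  have m11 := congrFun (congrFun hm 1) 1
  rw [Matrix.mul_apply, Fin.sum_univ_two] at m00 m01 m10 m11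
  simp only [Matrix.one_apply_eq] at m00 m11
  rw [Matrix.one_apply_ne (by decide)] at m01 m10
  set a := (g : Matrix (Fin 2) (Fin 2) K) 0 0 with ha
  set b := (g : Matrix (Fin 2) (Fin 2) K) 0 1 with hb
  set c := (g : Matrix (Fin 2) (Fin 2) K) 1 0 with hc
  set d := (g : Matrix (Fin 2) (Fin 2) K) 1 1 with hd'
  have hne : a + d ≠ 0 := by
    intro h
    rw [h] at ht
    have h4 : (2 : K) * 2 = 0 := by linear_combination -ht
    rcases mul_eq_zero.mp h4 with h5 | h5 <;> exact h2 h5
  have hb0 : b = 0 := by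
    have : b * (a + d) = 0 := by linear_combination m01
    rcases mul_eq_zero.mp this with h5 | h5
    · exact h5
    · exact absurd h5 hne
  have hc0 : c = 0 := by
    have : c * (a + d) = 0 := by linear_combination m10
    rcases mul_eq_zero.mp this with h5 | h5
    · exact h5
    · exact absurd h5 hne
  rw [hb0, zero_mul, sub_zero] at hd
  rw [hb0, zero_mul, add_zero] at m00
  have had : a = d := by
    calc a = a * (a * d) := by rw [hd, mul_one]
      _ = (a * a) * d := by ring
      _ = d := by rw [m00, one_mul]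
  have h6 : (a - 1) * (a + 1) = 0 := by linear_combination m00
  rcases mul_eq_zero.mp h6 with h7 | h7
  · left
    have ha1 : a = 1 := by linear_combination h7
    ext i j
    fin_cases i <;> fin_cases j
    · simpa using ha1
    · simpa using hb0
    · simpa using hc0
    · simpa using had.symm.trans ha1
  · right
    have ha1 : a = -1 := by linear_combination h7
    ext i j
    fin_cases i <;> fin_cases j
    · simpa using ha1
    · simpa using hb0
    · simpa using hc0
    · simpa using had.symm.trans ha1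

private theorem tr_of_not_sc [IsAlgClosed K] {H : Subgroup (SL2 K)}
    (hcon : ∀ w : Fin 2 → K, w ≠ 0 → ∀ g ∈ H, g ≠ 1 → act g w ≠ w) {g : SL2 K} (hg : g ∈ H)
    (hs : ¬ Sc g) : tr g ^ 2 ≠ 4 := by
  intro ht
  have hg1 : g ≠ 1 := by
    rintro rfl
    exact hs (Or.inl Matrix.SpecialLinearGroup.coe_one)
  obtain ⟨w, hw, hw1⟩ := exists_eig g
  rcases eig_of_tr g w hw hw1 ht with h | h
  · exact hcon w hw g hg hg1 h
  · by_cases h2 : (2 : K) = 0
    · apply hcon w hw g hg hg1
      rw [h]
      have h3 : (2 : K) • w = 0 := by rw [h2, zero_smul]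
      rw [two_smul] at h3
      exact neg_eq_of_add_eq_zero_left h3
    · apply hs
      apply sc_of_sq h2 ht
      by_contra hgg
      apply hcon w hw (g * g) (H.mul_mem hg hg) hgg
      rw [act_mul, h]
      have h4 : act g (-w) = -act g w := by
        have := act_smul g (-1) w
        rwa [neg_one_smul, neg_one_smul] at this
      rw [h4, h, neg_neg]

private theorem card_sc {H : Subgroup (SL2 K)} [Fintype H] [DecidablePred fun g : H => Sc g.1] :
    (Finset.univ.filter (fun g : H => Sc g.1)).card ≤ 2 := by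
  classical
  have h1 : (Finset.univ.filter (fun g : H => Sc g.1)).card ≤
      ({1, -1} : Finset (Matrix (Fin 2) (Fin 2) K)).card := by
    apply Finset.card_le_card_of_injOn (fun g => ((g.1 : SL2 K) : Matrix (Fin 2) (Fin 2) K))
    · intro g hg
      have h2 := (Finset.mem_filter.mp (Finset.mem_coe.mp hg)).2
      simp only [Finset.coe_insert, Finset.coe_singleton, Set.mem_insert_iff,
        Set.mem_singleton_iff]
      exact h2
    · intro g _ h _ hgh
      exact Subtype.ext (Subtype.ext hgh)
  exact h1.trans Finset.card_le_two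

end

theorem unip {K : Type*} [Field K] [IsAlgClosed K] (H : Subgroup (SL2 K))
    (hfin : (H : Set (SL2 K)).Finite) (hN : 2 ^ 60 ≤ Nat.card H) (hesc : Esc (H : Set (SL2 K)) 1) :
    ∃ w : Fin 2 → K, w ≠ 0 ∧ ∃ g ∈ H, g ≠ 1 ∧ act g w = w := by
  classical
  by_contra hcon'
  have hcon : ∀ w : Fin 2 → K, w ≠ 0 → ∀ g ∈ H, g ≠ 1 → act g w ≠ w := by
    intro w hw g hg hg1 h
    exact hcon' ⟨w, hw, g, hg, hg1, h⟩
  haveI : Finite H := hfin
  haveI : Fintype H := Fintype.ofFinite H
  letI act' := lamAction H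
  have hcl : Subgroup.closure (H : Set (SL2 K)) = H := Subgroup.closure_eq H
  have hfin' : (Subgroup.closure (H : Set (SL2 K)) : Set (SL2 K)).Finite := by rw [hcl]; exact hfin
  set N := Nat.card H with hNdef
  have hNF : Fintype.card H = N := (Nat.card_eq_fintype_card).symm
  -- the two eigenlines of a nonscalar element
  have htwo : ∀ g ∈ H, ¬ Sc g → ∃ w w' : Fin 2 → K, w ≠ 0 ∧ w' ≠ 0 ∧ om w w' ≠ 0 ∧
      om (act g w) w = 0 ∧ om (act g w') w' = 0 ∧
      ∀ v : Fin 2 → K, v ≠ 0 → om (act g v) v = 0 → om v w = 0 ∨ om v w' = 0 := by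
    intro g hg hs
    obtain ⟨w, w', h0, h1, h2, -⟩ := cent g (tr_of_not_sc hcon hg hs)
    have hw : w ≠ 0 := by
      rintro rfl
      exact h0 (by simp [om])
    have hw' : w' ≠ 0 := by
      rintro rfl
      exact h0 (by simp [om])
    refine ⟨w, w', hw, hw', h0, h1, h2, ?_⟩
    intro v hv hv1
    by_contra hcc
    push Not at hcc
    apply hs
    refine eig_lines g w w' v h0 ?_ ?_ h1 h2 hv1
    · rw [om_swap]
      exact neg_ne_zero.mpr hcc.1
    · rw [om_swap]
      exact neg_ne_zero.mpr hcc.2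
  have hmk : ∀ g ∈ H, ¬ Sc g → ∀ w : Fin 2 → K, w ≠ 0 → om (act g w) w = 0 → Ln w ∈ Lam H :=
    fun g hg hs w hw h1 => ⟨w, hw, rfl, g, hg, hs, h1⟩
  -- finiteness
  haveI : Finite (Lam H) := by
    have hsub : Lam H ⊆ ⋃ g : H, {S | ¬ Sc g.1 ∧ ∃ w : Fin 2 → K, w ≠ 0 ∧ S = Ln w ∧
        om (act g.1 w) w = 0} := by
      rintro S ⟨w, hw, rfl, g, hg, hs, h1⟩
      exact Set.mem_iUnion.mpr ⟨⟨g, hg⟩, hs, w, hw, rfl, h1⟩
    refine Set.Finite.subset (Set.finite_iUnion ?_) hsub
    rintro ⟨g, hg⟩
    by_cases hs : Sc g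
    · refine Set.Finite.subset Set.finite_empty ?_
      rintro S ⟨h1, -⟩
      exact absurd hs h1
    · obtain ⟨w, w', hw, hw', h0, h1, h2, h3⟩ := htwo g hg hs
      refine Set.Finite.subset (Set.toFinite {Ln w, Ln w'}) ?_
      rintro S ⟨-, v, hv, rfl, hv1⟩
      rcases h3 v hv hv1 with h4 | h4
      · left
        exact (ln_eq_iff hv hw).2 h4
      · right
        exact (ln_eq_iff hv hw').2 h4
  haveI : Fintype (Lam H) := Fintype.ofFinite _
  have hsmul : ∀ (g : H) (S : Lam H), (g • S).1 = act g.1 '' S.1 := fun _ _ => rfl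
  have hfixiff : ∀ (g : H) (w : Fin 2 → K) (hw : w ≠ 0) (hS : Ln w ∈ Lam H),
      g • (⟨Ln w, hS⟩ : Lam H) = ⟨Ln w, hS⟩ ↔ om (act g.1 w) w = 0 := by
    intro g w hw hS
    rw [Subtype.ext_iff, hsmul, act_ln, ln_eq_iff (act_ne_zero _ hw) hw]
  -- fixed points
  have hfix1 : ∀ g : H, Sc g.1 → Fintype.card (MulAction.fixedBy (Lam H) g) =
      Fintype.card (Lam H) := by
    intro g hs
    refine Fintype.card_congr (Equiv.subtypeUnivEquiv ?_)
    rintro ⟨S, hSS⟩
    obtain ⟨w, hw, rfl, hgg⟩ := id hSS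
    rw [MulAction.mem_fixedBy, hfixiff g w hw hSS]
    rcases hs with hs | hs
    · have : act g.1 w = w := by
        unfold act
        rw [hs, Matrix.one_mulVec]
      rw [this, om_self]
    · have : act g.1 w = -w := by
        unfold act
        rw [hs, Matrix.neg_mulVec, Matrix.one_mulVec]
      rw [this, ← neg_one_smul K w, om_smul_left, om_self, mul_zero]
  have hfix2 : ∀ g : H, ¬ Sc g.1 → Fintype.card (MulAction.fixedBy (Lam H) g) = 2 := by
    intro g hs
    obtain ⟨w, w', hw, hw', h0, h1, h2, h3⟩ := htwo g.1 g.2 hs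
    have hS := hmk g.1 g.2 hs w hw h1
    have hS' := hmk g.1 g.2 hs w' hw' h2
    have hne : (⟨Ln w, hS⟩ : Lam H) ≠ ⟨Ln w', hS'⟩ := by
      intro h
      exact h0 ((ln_eq_iff hw hw').1 (congrArg Subtype.val h))
    have hset : MulAction.fixedBy (Lam H) g = ↑({⟨Ln w, hS⟩, ⟨Ln w', hS'⟩} : Finset (Lam H)) := by
      ext ⟨S, hSS⟩
      rw [Finset.coe_insert, Finset.coe_singleton, Set.mem_insert_iff, Set.mem_singleton_iff,
        MulAction.mem_fixedBy]
      obtain ⟨v, hv, rfl, hgg⟩ := id hSS
      rw [hfixiff g v hv hSS, Subtype.mk.injEq, Subtype.mk.injEq, ln_eq_iff hv hw,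
        ln_eq_iff hv hw']
      constructor
      · exact h3 v hv
      · rintro (h4 | h4)
        · rw [← hfixiff g v hv hSS]
          have h5 := (ln_eq_iff hv hw).2 h4
          have h6 : (⟨Ln v, hSS⟩ : Lam H) = ⟨Ln w, hS⟩ := Subtype.ext h5
          rw [h6, hfixiff g w hw hS]
          exact h1
        · rw [← hfixiff g v hv hSS]
          have h5 := (ln_eq_iff hv hw').2 h4
          have h6 : (⟨Ln v, hSS⟩ : Lam H) = ⟨Ln w', hS'⟩ := Subtype.ext h5
          rw [h6, hfixiff g w' hw' hS']
          exact h2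
    rw [← Set.toFinset_card]
    have : (MulAction.fixedBy (Lam H) g).toFinset = {⟨Ln w, hS⟩, ⟨Ln w', hS'⟩} := by
      ext x
      rw [Set.mem_toFinset, hset, Finset.mem_coe]
    rw [this, Finset.card_pair hne]
  set z := (Finset.univ.filter (fun g : H => Sc g.1)).card with hz
  have hz2 : z ≤ 2 := card_sc
  have hz1 : 1 ≤ z := by
    apply Finset.card_pos.mpr
    exact ⟨1, Finset.mem_filter.mpr ⟨Finset.mem_univ _, Or.inl Matrix.SpecialLinearGroup.coe_one⟩⟩
  have hburn := MulAction.sum_card_fixedBy_eq_card_orbits_mul_card_group H (Lam H)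
  set k := Fintype.card (Quotient (MulAction.orbitRel H (Lam H))) with hk
  have hsum : ∑ g : H, Fintype.card (MulAction.fixedBy (Lam H) g) =
      z * Fintype.card (Lam H) + (N - z) * 2 := by
    have e1 : ∀ g : H, Fintype.card (MulAction.fixedBy (Lam H) g) =
        if Sc g.1 then Fintype.card (Lam H) else 2 := by
      intro g
      split_ifs with h
      · exact hfix1 g h
      · exact hfix2 g h
    rw [Finset.sum_congr rfl (fun g _ => e1 g), Finset.sum_ite, Finset.sum_const, Finset.sum_const,
      smul_eq_mul, smul_eq_mul]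
    congr 2
    have e2 := Finset.card_filter_add_card_filter_not (s := (Finset.univ : Finset H))
      (fun g : H => Sc g.1)
    rw [Finset.card_univ, hNF] at e2
    omega
  rw [hsum, hNF] at hburn
  -- the stabilisers are large
  have hball : ∀ n, 1 ≤ n → ball (H : Set (SL2 K)) n = N := fun n hn => ball_subgroup H hn
  have hstab : ∀ S : Lam H, 40 * Fintype.card (MulAction.orbit H S) ≤ N := by
    rintro ⟨S, hSS⟩
    obtain ⟨w0, hw0, rfl, g, hg, hs, hw1⟩ := id hSS
    obtain ⟨w, w', hw, hw', h0, h1, h2, h3⟩ := htwo g hg hs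
    have ht4 := tr_of_not_sc hcon hg hs
    have hpiv := pivA (H : Set (SL2 K)) hfin' 1 w w' h0 g
      (words_mono (by norm_num) (mem_words_one hg)) ht4 h1 h2
    have hlp := lpC (H : Set (SL2 K)) hfin' 1 (4 * 1) hesc (by norm_num) (tr g)
    rw [hball _ (by norm_num)] at hpiv hlp
    set T := {g ∈ Words (H : Set (SL2 K)) (2 * 1) | om (act g w) w = 0 ∧
      om (act g w') w' = 0}.ncard with hT
    set C := {x ∈ Words (H : Set (SL2 K)) (4 * 1) | tr x = tr g}.ncard with hC
    have hT40 : 40 ≤ T := by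
      by_contra hlt
      push Not at hlt
      have e1 : N ^ 3 ≤ T ^ 3 * C ^ 3 := by
        rw [← mul_pow]
        exact Nat.pow_le_pow_left hpiv 3
      have e2 : T ^ 3 ≤ 40 ^ 3 := Nat.pow_le_pow_left hlt.le 3
      have e3 : N ^ 3 ≤ 40 ^ 3 * (110592 * N ^ 2) :=
        e1.trans (Nat.mul_le_mul e2 hlp)
      have e4 : N * N ^ 2 ≤ (40 ^ 3 * 110592) * N ^ 2 := by
        calc N * N ^ 2 = N ^ 3 := by ring
          _ ≤ _ := e3
          _ = _ := by ring
      have e5 : N ≤ 40 ^ 3 * 110592 := by
        refine Nat.le_of_mul_le_mul_right e4 ?_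
        have : 0 < N := lt_of_lt_of_le (by norm_num) hN
        positivity
      have e6 : (2 : ℕ) ^ 60 ≤ 40 ^ 3 * 110592 := hN.trans e5
      norm_num at e6
    have horb := MulAction.card_orbit_mul_card_stabilizer_eq_card_group H (⟨Ln w0, hSS⟩ : Lam H)
    rw [hNF] at horb
    have hTs : T ≤ Fintype.card (MulAction.stabilizer H (⟨Ln w0, hSS⟩ : Lam H)) := by
      rw [hT, ← Nat.card_eq_fintype_card]
      have hTf : {g ∈ Words (H : Set (SL2 K)) (2 * 1) | om (act g w) w = 0 ∧
          om (act g w') w' = 0}.Finite :=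
        (words_finite hfin' _).subset (Set.sep_subset _ _)
      haveI : Finite {g ∈ Words (H : Set (SL2 K)) (2 * 1) | om (act g w) w = 0 ∧
          om (act g w') w' = 0} := hTf
      have hmem : ∀ x ∈ {g ∈ Words (H : Set (SL2 K)) (2 * 1) | om (act g w) w = 0 ∧
          om (act g w') w' = 0}, x ∈ H := by
        rintro x ⟨hx, -⟩
        rw [words_subgroup H (by norm_num)] at hx
        exact hx
      have hst : ∀ (x : SL2 K) (hx : x ∈ {g ∈ Words (H : Set (SL2 K)) (2 * 1) |
          om (act g w) w = 0 ∧ om (act g w') w' = 0}),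
          (⟨x, hmem x hx⟩ : H) ∈ MulAction.stabilizer H (⟨Ln w0, hSS⟩ : Lam H) := by
        intro x hx
        rw [MulAction.mem_stabilizer_iff, hfixiff _ w0 hw0]
        obtain ⟨-, hx1, hx2⟩ := hx
        rcases h3 w0 hw0 hw1 with h4 | h4
        · obtain ⟨c, hc⟩ := exists_smul_of_om hw h4
          show om (act x w0) w0 = 0
          rw [hc, act_smul, om_smul_left, om_smul_right, hx1, mul_zero, mul_zero]
        · obtain ⟨c, hc⟩ := exists_smul_of_om hw' h4
          show om (act x w0) w0 = 0
          rw [hc, act_smul, om_smul_left, om_smul_right, hx2, mul_zero, mul_zero]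
      rw [← Nat.card_coe_set_eq]
      refine Nat.card_le_card_of_injective
        (fun x : {g ∈ Words (H : Set (SL2 K)) (2 * 1) | om (act g w) w = 0 ∧
          om (act g w') w' = 0} => (⟨⟨x.1, hmem x.1 x.2⟩, hst x.1 x.2⟩ :
          MulAction.stabilizer H (⟨Ln w0, hSS⟩ : Lam H))) ?_
      intro x y hxy
      have h5 := congrArg (fun t : MulAction.stabilizer H (⟨Ln w0, hSS⟩ : Lam H) =>
        (t.1 : SL2 K)) hxy
      exact Subtype.ext h5
    rw [← horb, mul_comm 40]
    exact Nat.mul_le_mul_left _ (hT40.trans hTs)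
  have hLam : 40 * Fintype.card (Lam H) ≤ k * N := by
    have h1 : (Finset.univ : Finset (Lam H)).card ≤ (N / 40) *
        (Finset.univ : Finset (Quotient (MulAction.orbitRel H (Lam H)))).card := by
      refine Finset.card_le_mul_card_image_of_maps_to
        (f := fun S : Lam H => (Quotient.mk (MulAction.orbitRel H (Lam H)) S)) ?_ _ ?_
      · intro S _
        exact Finset.mem_univ _
      · intro q _
        obtain ⟨S, rfl⟩ := Quotient.exists_rep q
        have h2 : (Finset.univ.filter (fun S' : Lam H =>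
            (Quotient.mk (MulAction.orbitRel H (Lam H)) S') = Quotient.mk _ S)).card =
            Fintype.card (MulAction.orbit H S) := by
          rw [← Set.toFinset_card]
          congr 1
          ext S'
          rw [Finset.mem_filter, Set.mem_toFinset]
          constructor
          · rintro ⟨-, h⟩
            exact MulAction.orbitRel_apply.mp (Quotient.exact h)
          · intro h
            exact ⟨Finset.mem_univ _, Quotient.sound (MulAction.orbitRel_apply.mpr h)⟩
        rw [h2, Nat.le_div_iff_mul_le (by norm_num), mul_comm]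
        exact hstab S
    rw [Finset.card_univ, Finset.card_univ] at h1
    have h2 : 40 * (N / 40) ≤ N := Nat.mul_div_le N 40
    calc 40 * Fintype.card (Lam H) ≤ 40 * ((N / 40) * k) := Nat.mul_le_mul_left _ h1
      _ = (40 * (N / 40)) * k := by ring
      _ ≤ N * k := Nat.mul_le_mul_right _ h2
      _ = k * N := mul_comm _ _
  have hNbig : 1000 ≤ N := le_trans (by norm_num) hN
  have hzL : 20 * (z * Fintype.card (Lam H)) ≤ k * N := by
    calc 20 * (z * Fintype.card (Lam H)) ≤ 20 * (2 * Fintype.card (Lam H)) :=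
          Nat.mul_le_mul_left _ (Nat.mul_le_mul_right _ hz2)
      _ = 40 * Fintype.card (Lam H) := by ring
      _ ≤ k * N := hLam
  have hk2 : k ≤ 2 := by
    by_contra hk3
    push Not at hk3
    have h3 : 3 * N ≤ k * N := Nat.mul_le_mul_right _ hk3
    have h4 : (N - z) * 2 ≤ 2 * N := by omega
    omega
  have hkcases : k = 0 ∨ k = 1 ∨ k = 2 := by omega
  rcases hkcases with h0 | h0 | h0
  · rw [h0] at hburn
    omega
  · rw [h0] at hburn
    omega
  · rw [h0] at hburn
    have hcard : Fintype.card (Lam H) = 2 := by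
      have h5 : z * Fintype.card (Lam H) = 2 * z := by omega
      have h6 : Fintype.card (Lam H) * z = 2 * z := by rw [mul_comm]; exact h5
      exact Nat.eq_of_mul_eq_mul_right (by omega) h6
    have hinj : Function.Injective (fun S : Lam H =>
        (Quotient.mk (MulAction.orbitRel H (Lam H)) S)) := by
      have hsurj : Function.Surjective (fun S : Lam H =>
          (Quotient.mk (MulAction.orbitRel H (Lam H)) S)) := Quotient.mk_surjective
      exact ((Fintype.bijective_iff_surjective_and_card _).mpr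
        ⟨hsurj, by rw [hcard, ← hk, h0]⟩).1
    have hne : Nonempty (Lam H) := by
      apply Fintype.card_pos_iff.mp
      omega
    obtain ⟨S, hSS⟩ := hne
    obtain ⟨w, hw, rfl, -⟩ := id hSS
    obtain ⟨g, hg, hg1, -⟩ := hesc w w hw hw
    rw [words_subgroup H le_rfl] at hg
    apply hg1
    have h7 : (⟨g, hg⟩ : H) • (⟨Ln w, hSS⟩ : Lam H) = ⟨Ln w, hSS⟩ := by
      apply hinj
      apply Quotient.sound
      exact MulAction.orbitRel_apply.mpr ⟨⟨g, hg⟩, rfl⟩
    exact (hfixiff ⟨g, hg⟩ w hw hSS).1 h7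

end Pool.Agent.Helper72.PT
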